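import Pool.Agent.H41.KS.Defs

/-! # Project KS, stub KS-LEN: sums over the cells (helper35) -/

set_option autoImplicit false

open MeasureTheory Filter Topology Set

namespace Pool.Agent.H41.KS

open Pool.Agent.H41.BC (g tr Cells law2 PP2 NN)

theorem len {α : ℕ → ℝ} (H : Cl α) (n : ℕ) : α (n + 1) - α n ≤ 2 * α n * Real.exp (-α n) := by
  have h4 := H.four_le n
  have hlt := H.lt n
  have h1 : ∫ _v in α n..α (n + 1), g (α n) ≤ ∫ v in α n..α (n + 1), g v := by
    refine intervalIntegral.integral_mono_on hlt.le (by simp) (BC.g_int _ _) fun v hv => ?_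
    exact BC.g_mono hv.1
  rw [intervalIntegral.integral_const, smul_eq_mul, H.prob n, BC.g_eq (by linarith : α n ≠ 0)] at h1
  have h2 : Real.exp (α n) / 2 ≤ Real.exp (α n) - 1 := by
    have := Real.add_one_le_exp (α n)
    linarith
  have hp := Real.exp_pos (α n)
  have ha : 0 < α n := by linarith
  have h3 : (α (n + 1) - α n) * (Real.exp (α n) / 2) ≤ α n := by
    have h5 : (α (n + 1) - α n) * (Real.exp (α n) / 2) ≤
        (α (n + 1) - α n) * (Real.exp (α n) - 1) :=
      mul_le_mul_of_nonneg_left h2 (by linarith)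
    have h6 : (α (n + 1) - α n) * (Real.exp (α n) - 1) ≤ α n := by
      rw [← mul_div_assoc, div_le_one ha] at h1
      exact h1
    linarith
  rw [Real.exp_neg]
  rw [← div_eq_mul_inv, le_div_iff₀ hp]
  linarith

theorem long {α : ℕ → ℝ} (H : Cl α) (n : ℕ) : Real.exp (-α (n + 1)) ≤ α (n + 1) - α n := by
  have h4 := H.four_le n
  have hlt := H.lt n
  have h1 : ∫ v in α n..α (n + 1), g v ≤ ∫ _v in α n..α (n + 1), Real.exp (α (n + 1)) := by
    refine intervalIntegral.integral_mono_on hlt.le (BC.g_int _ _) (by simp) fun v hv => ?_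
    exact (BC.g_le (by linarith [hv.1])).trans (Real.exp_le_exp.2 hv.2)
  rw [intervalIntegral.integral_const, smul_eq_mul, H.prob n] at h1
  rw [Real.exp_neg, inv_le_iff_one_le_mul₀ (Real.exp_pos _)]
  exact h1

/-- the sum over the cells as an integral -/
theorem len_cells_sum {α : ℕ → ℝ} (_H : Cl α) {a b : ℕ} (hab : a ≤ b) {F : ℝ → ℝ} {y : ℕ → ℝ}
    (hF : Continuous F) (hy : ∀ n, y n ≤ ∫ v in α n..α (n + 1), g v * F v) :
    ∑ n ∈ Finset.Ico a b, y n ≤ ∫ v in α a..α b, g v * F v := by
  rw [← intervalIntegral.sum_integral_adjacent_intervals_Ico hab]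
  · exact Finset.sum_le_sum fun n _ => hy n
  · intro k _
    exact (BC.g_cont.mul hF).intervalIntegrable _ _

theorem len_cell_le {α : ℕ → ℝ} (H : Cl α) (n : ℕ) {F : ℝ → ℝ} {c : ℝ} (hF : Continuous F)
    (h : ∀ v ∈ Icc (α n) (α (n + 1)), c ≤ F v) : c ≤ ∫ v in α n..α (n + 1), g v * F v := by
  have h1 : ∫ v in α n..α (n + 1), g v * c ≤ ∫ v in α n..α (n + 1), g v * F v := by
    refine intervalIntegral.integral_mono_on (H.lt n).le
      ((BC.g_cont.mul continuous_const).intervalIntegrable _ _)
      ((BC.g_cont.mul hF).intervalIntegrable _ _) fun v hv => ?_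
    exact mul_le_mul_of_nonneg_left (h v hv) (BC.g_pos (by linarith [hv.1, H.four_le n])).le
  rw [intervalIntegral.integral_mul_const, H.prob n, one_mul] at h1
  exact h1

theorem len_g_le_div {v : ℝ} (hv : 0 < v) : g v ≤ Real.exp v / v := by
  rw [BC.g_eq hv.ne']
  exact div_le_div_of_nonneg_right (by linarith) hv.le

theorem len_al_le {α : ℕ → ℝ} (H : Cl α) {a b : ℕ} (hab : a ≤ b) : α a ≤ α b :=
  H.alpha_mono.monotone hab

theorem sum32 {α : ℕ → ℝ} (H : Cl α) {a b : ℕ} (hab : a ≤ b) :
    ∑ n ∈ Finset.Ico a b, Real.exp (-(3 / 2 * α n)) ≤ 10 * Real.exp (-(α a / 2)) := by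
  have hA := H.four_le a
  have hAB := len_al_le H hab
  have h1 := len_cells_sum H hab (F := fun v => Real.exp (3 / 2) * Real.exp (-(3 / 2 * v)))
    (y := fun n => Real.exp (-(3 / 2 * α n))) (by fun_prop) (fun n => by
      refine len_cell_le H n (by fun_prop) fun v hv => ?_
      rw [← Real.exp_add]
      refine Real.exp_le_exp.2 ?_
      have := H.short n
      linarith [hv.2])
  refine h1.trans ?_
  have h2 : ∫ v in α a..α b, g v * (Real.exp (3 / 2) * Real.exp (-(3 / 2 * v))) ≤
      ∫ v in α a..α b, Real.exp (3 / 2) / 4 * Real.exp (-(v / 2)) := by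
    refine intervalIntegral.integral_mono_on hAB
      ((BC.g_cont.mul (by fun_prop)).intervalIntegrable _ _)
      (Continuous.intervalIntegrable (by fun_prop) _ _) fun v hv => ?_
    have hv0 : 4 ≤ v := by linarith [hv.1]
    calc g v * (Real.exp (3 / 2) * Real.exp (-(3 / 2 * v)))
        ≤ (Real.exp v / 4) * (Real.exp (3 / 2) * Real.exp (-(3 / 2 * v))) := by
          refine mul_le_mul_of_nonneg_right ?_ (by positivity)
          exact (len_g_le_div (by linarith)).trans
            (div_le_div_of_nonneg_left (Real.exp_pos _).le (by norm_num) hv0)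
      _ = Real.exp (3 / 2) / 4 * (Real.exp v * Real.exp (-(3 / 2 * v))) := by ring
      _ = Real.exp (3 / 2) / 4 * Real.exp (-(v / 2)) := by
          rw [← Real.exp_add]; congr 2; ring
  refine h2.trans ?_
  have h3 : ∫ v in α a..α b, Real.exp (3 / 2) / 4 * Real.exp (-(v / 2)) =
      Real.exp (3 / 2) / 4 * (2 * Real.exp (-(α a / 2)) - 2 * Real.exp (-(α b / 2))) := by
    have hd : ∀ v ∈ uIcc (α a) (α b), HasDerivAt
        (fun v => -(Real.exp (3 / 2) / 4 * (2 * Real.exp (-(v / 2)))))
        (Real.exp (3 / 2) / 4 * Real.exp (-(v / 2))) v := by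
      intro v _
      have h0 : HasDerivAt (fun y : ℝ => -(y / 2)) (-(1 / 2)) v := ((hasDerivAt_id v).div_const 2).fun_neg
      have := (((h0.exp).const_mul 2).const_mul (Real.exp (3 / 2) / 4)).fun_neg
      convert! this using 1
      ring
    rw [intervalIntegral.integral_eq_sub_of_hasDerivAt hd
      (Continuous.intervalIntegrable (by fun_prop) _ _)]
    ring
  rw [h3]
  have h4 : Real.exp (3 / 2) ≤ 20 := by
    have h5 : Real.exp (3 / 2) ≤ Real.exp 2 := Real.exp_le_exp.2 (by norm_num)
    have h6 : Real.exp 2 = Real.exp 1 * Real.exp 1 := by rw [← Real.exp_add]; norm_num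
    have h7 := Real.exp_one_lt_d9
    have h8 := Real.exp_pos 1
    nlinarith
  have h9 := Real.exp_pos (-(α a / 2))
  have h10 := Real.exp_pos (-(α b / 2))
  have h11 := Real.exp_pos (3 / 2)
  nlinarith [mul_pos h11 h10, mul_le_mul_of_nonneg_right h4 h9.le]

theorem sum1 {α : ℕ → ℝ} (H : Cl α) {a b : ℕ} (hab : a ≤ b) :
    ∑ n ∈ Finset.Ico a b, Real.exp (-α n) ≤ 3 * (Real.log (α b) - Real.log (α a)) := by
  have hA := H.four_le a
  have hAB := len_al_le H hab
  have h1 := len_cells_sum H hab (F := fun v => Real.exp 1 * Real.exp (-v))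
    (y := fun n => Real.exp (-α n)) (by fun_prop) (fun n => by
      refine len_cell_le H n (by fun_prop) fun v hv => ?_
      rw [← Real.exp_add]
      refine Real.exp_le_exp.2 ?_
      have := H.short n
      linarith [hv.2])
  refine h1.trans ?_
  have hc : ContinuousOn (fun v : ℝ => Real.exp 1 * v⁻¹) (uIcc (α a) (α b)) := by
    rw [uIcc_of_le hAB]
    refine continuousOn_const.mul (continuousOn_id.inv₀ fun v hv => ?_)
    have := hv.1
    simp only [id]
    linarith
  have h2 : ∫ v in α a..α b, g v * (Real.exp 1 * Real.exp (-v)) ≤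
      ∫ v in α a..α b, Real.exp 1 * v⁻¹ := by
    refine intervalIntegral.integral_mono_on hAB
      ((BC.g_cont.mul (by fun_prop)).intervalIntegrable _ _)
      hc.intervalIntegrable fun v hv => ?_
    have hv0 : 4 ≤ v := by linarith [hv.1]
    calc g v * (Real.exp 1 * Real.exp (-v))
        ≤ (Real.exp v / v) * (Real.exp 1 * Real.exp (-v)) :=
          mul_le_mul_of_nonneg_right (len_g_le_div (by linarith)) (by positivity)
      _ = Real.exp 1 * v⁻¹ * (Real.exp v * Real.exp (-v)) := by ring
      _ = Real.exp 1 * v⁻¹ := by rw [← Real.exp_add]; simp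
  refine h2.trans ?_
  rw [intervalIntegral.integral_const_mul, integral_inv_of_pos (by linarith) (by linarith),
    Real.log_div (by linarith) (by linarith)]
  have h3 : 0 ≤ Real.log (α b) - Real.log (α a) := by
    linarith [Real.log_le_log (by linarith) hAB]
  have h4 := Real.exp_one_lt_d9
  exact mul_le_mul_of_nonneg_right (by linarith) h3

theorem sum3 {α : ℕ → ℝ} (H : Cl α) {a b : ℕ} (hab : a ≤ b) :
    ∑ n ∈ Finset.Ico a b, α n ^ 2 * Real.exp (-(3 * α n)) ≤ 25 * (α a * Real.exp (-(2 * α a))) := by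
  have hA := H.four_le a
  have hAB := len_al_le H hab
  have h1 := len_cells_sum H hab (F := fun v => Real.exp 3 * (v ^ 2 * Real.exp (-(3 * v))))
    (y := fun n => α n ^ 2 * Real.exp (-(3 * α n))) (by fun_prop) (fun n => by
      refine len_cell_le H n (by fun_prop) fun v hv => ?_
      have h4 := H.four_le n
      calc α n ^ 2 * Real.exp (-(3 * α n)) ≤ v ^ 2 * Real.exp (3 + -(3 * v)) := by
            refine mul_le_mul (pow_le_pow_left₀ (by linarith) hv.1 2) (Real.exp_le_exp.2 ?_)
              (Real.exp_pos _).le (sq_nonneg _)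
            have := H.short n
            linarith [hv.2]
        _ = Real.exp 3 * (v ^ 2 * Real.exp (-(3 * v))) := by rw [Real.exp_add]; ring)
  refine h1.trans ?_
  have h2 : ∫ v in α a..α b, g v * (Real.exp 3 * (v ^ 2 * Real.exp (-(3 * v)))) ≤
      ∫ v in α a..α b, Real.exp 3 * (v * Real.exp (-(2 * v))) := by
    refine intervalIntegral.integral_mono_on hAB
      ((BC.g_cont.mul (by fun_prop)).intervalIntegrable _ _)
      (Continuous.intervalIntegrable (by fun_prop) _ _) fun v hv => ?_
    have hv0 : 0 < v := by linarith [hv.1]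
    calc g v * (Real.exp 3 * (v ^ 2 * Real.exp (-(3 * v))))
        ≤ (Real.exp v / v) * (Real.exp 3 * (v ^ 2 * Real.exp (-(3 * v)))) :=
          mul_le_mul_of_nonneg_right (len_g_le_div hv0) (by positivity)
      _ = Real.exp 3 * (v * (Real.exp v * Real.exp (-(3 * v)))) := by field_simp
      _ = Real.exp 3 * (v * Real.exp (-(2 * v))) := by
          rw [← Real.exp_add]; congr 3; ring
  refine h2.trans ?_
  have h3 : ∫ v in α a..α b, Real.exp 3 * (v * Real.exp (-(2 * v))) =
      Real.exp 3 * ((α a / 2 + 1 / 4) * Real.exp (-(2 * α a))) -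
        Real.exp 3 * ((α b / 2 + 1 / 4) * Real.exp (-(2 * α b))) := by
    have hd : ∀ v ∈ uIcc (α a) (α b), HasDerivAt
        (fun v => -(Real.exp 3 * ((v / 2 + 1 / 4) * Real.exp (-(2 * v)))))
        (Real.exp 3 * (v * Real.exp (-(2 * v)))) v := by
      intro v _
      have h0 : HasDerivAt (fun y : ℝ => -(2 * y)) (-2) v := by
        simpa using ((hasDerivAt_id v).const_mul 2).fun_neg
      have h5 : HasDerivAt (fun y : ℝ => y / 2 + 1 / 4) (1 / 2) v :=
        ((hasDerivAt_id v).div_const 2).add_const _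
      have := ((h5.mul h0.exp).const_mul (Real.exp 3)).fun_neg
      convert! this using 1
      ring
    rw [intervalIntegral.integral_eq_sub_of_hasDerivAt hd
      (Continuous.intervalIntegrable (by fun_prop) _ _)]
    ring
  rw [h3]
  have h4 : Real.exp 3 ≤ 25 := by
    have h6 : Real.exp 3 = Real.exp 1 * Real.exp 1 * Real.exp 1 := by
      rw [← Real.exp_add, ← Real.exp_add]; norm_num
    have h7 := Real.exp_one_lt_d9
    have h8 := Real.exp_pos 1
    have h9 : Real.exp 1 * Real.exp 1 ≤ 8 := by nlinarith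
    have h10 : 0 ≤ Real.exp 1 * Real.exp 1 := by positivity
    nlinarith
  have h9 := Real.exp_pos (-(2 * α a))
  have h10 : 0 ≤ Real.exp 3 * ((α b / 2 + 1 / 4) * Real.exp (-(2 * α b))) := by
    have : 0 ≤ α b := by linarith
    positivity
  have h12 : (α a / 2 + 1 / 4) * Real.exp (-(2 * α a)) ≤ α a * Real.exp (-(2 * α a)) :=
    mul_le_mul_of_nonneg_right (by linarith) h9.le
  have h13 : 0 ≤ α a * Real.exp (-(2 * α a)) := mul_nonneg (by linarith) h9.le
  calc _ ≤ Real.exp 3 * ((α a / 2 + 1 / 4) * Real.exp (-(2 * α a))) := by linarith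
    _ ≤ Real.exp 3 * (α a * Real.exp (-(2 * α a))) :=
        mul_le_mul_of_nonneg_left h12 (Real.exp_pos _).le
    _ ≤ _ := mul_le_mul_of_nonneg_right h4 h13

theorem idx {α : ℕ → ℝ} (H : Cl α) (b : ℕ) : (b : ℝ) ≤ Real.exp (α b) := by
  have h1 := len_cells_sum H (Nat.zero_le b) (F := fun _ => 1) (y := fun _ => 1) continuous_const
    (fun n => len_cell_le H n continuous_const fun v _ => le_rfl)
  have h2 : ∫ v in α 0..α b, g v * 1 ≤ ∫ v in α 0..α b, Real.exp v := by
    refine intervalIntegral.integral_mono_on (len_al_le H (Nat.zero_le b))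
      ((BC.g_cont.mul continuous_const).intervalIntegrable _ _)
      (Continuous.intervalIntegrable (by fun_prop) _ _) fun v hv => ?_
    rw [mul_one]
    exact BC.g_le (by linarith [hv.1, H.four_le 0])
  rw [integral_exp] at h2
  have h3 : ∑ n ∈ Finset.Ico 0 b, (1 : ℝ) = b := by simp
  rw [h3] at h1
  linarith [Real.exp_pos (α 0)]

/-- the first cell which begins at or after `L` -/
theorem first {α : ℕ → ℝ} (H : Cl α) {L : ℝ} (hL : α 0 ≤ L) :
    ∃ n : ℕ, L ≤ α n ∧ α n ≤ L + 1 ∧ ∀ m, m < n → α m < L := by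
  classical
  have hex : ∃ n, L ≤ α n := ((H.tendsto).eventually_ge_atTop L).exists
  refine ⟨Nat.find hex, Nat.find_spec hex, ?_, fun m hm => not_le.1 (Nat.find_min hex hm)⟩
  rcases Nat.eq_zero_or_pos (Nat.find hex) with h | h
  · rw [h]; linarith
  · have h1 : Nat.find hex - 1 < Nat.find hex := by omega
    have h2 := not_le.1 (Nat.find_min hex h1)
    have h3 := H.short (Nat.find hex - 1)
    have h4 : Nat.find hex - 1 + 1 = Nat.find hex := by omega
    rw [h4] at h3
    linarith

end Pool.Agent.H41.KS
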