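import Pool.Agent.H41.KS.Defs

/-! # Project KS, KS-MOM (helper72): the means over a cell -/

set_option autoImplicit false

open MeasureTheory Filter Topology Set

namespace Pool.Agent.H41.KS

open Pool.Agent.H41.BC

/-- the mean over a cell, with values which are only compared on the cell -/
theorem mom_congr {α : ℕ → ℝ} (H : Cl α) (n : ℕ) {f h : ℝ → ℝ} (hfh : ∀ w, 4 ≤ w → f w = h w) :
    ∫ w, f w ∂(lw α n) = ∫ v in α n..α (n + 1), g v * h v := by
  rw [lw, int_law H]
  refine intervalIntegral.integral_congr fun v hv => ?_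
  rw [uIcc_of_le (H.alpha_mono (Nat.lt_succ_self n)).le] at hv
  have h4 : 4 ≤ v := (H.four_le n).trans hv.1
  rw [hfh v h4]

theorem zz_eq {t w : ℝ} (hw : 4 ≤ w) : zz t w = Complex.exp (-((1 / 2 + t * Complex.I) * (w : ℂ))) := by
  rw [zz, max_eq_left hw]

theorem re_tr (a b : ℝ) (s : ℂ) :
    (tr a b s).re = ∫ v in a..b, g v * (Complex.exp (-(s * v))).re := by
  unfold tr
  have h1 : (∫ v in a..b, (g v : ℂ) * Complex.exp (-(s * v))).re =
      Complex.reCLM (∫ v in a..b, (g v : ℂ) * Complex.exp (-(s * v))) := rfl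
  rw [h1, ← ContinuousLinearMap.intervalIntegral_comp_comm _ ((tr_cont s).intervalIntegrable _ _)]
  refine intervalIntegral.integral_congr fun v _ => ?_
  simp only [Complex.reCLM_apply]
  rw [Complex.re_ofReal_mul]

theorem mom1 {α : ℕ → ℝ} (H : Cl α) (n : ℕ) (t : ℝ) : ∫ w, (zz t w).re ∂(lw α n) = (m1 α n t).re := by
  rw [m1, re_tr]
  exact mom_congr H n fun w hw => by rw [zz_eq hw]

theorem mom2 {α : ℕ → ℝ} (H : Cl α) (n : ℕ) (t : ℝ) : ∫ w, (zz t w ^ 2).re ∂(lw α n) = (m2 α n t).re := by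
  rw [m2, re_tr]
  refine mom_congr H n fun w hw => ?_
  rw [zz_eq hw, ← Complex.exp_nat_mul]
  congr 2
  push_cast
  ring

theorem mome {α : ℕ → ℝ} (H : Cl α) (n : ℕ) : ∫ w, Real.exp (-w) ∂(lw α n) = e2 α n := by
  rw [e2]
  exact mom_congr H n fun w _ => rfl

theorem re_mul_re (t t' w : ℝ) :
    (Complex.exp (-((1 / 2 + t * Complex.I) * (w : ℂ)))).re *
      (Complex.exp (-((1 / 2 + t' * Complex.I) * (w : ℂ)))).re =
    ((Complex.exp (-((1 + (t - t') * Complex.I) * (w : ℂ)))).re +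
      (Complex.exp (-((1 + (t + t') * Complex.I) * (w : ℂ)))).re) / 2 := by
  simp only [Complex.exp_re]
  have r1 : ∀ x y : ℝ, (-(((x : ℂ) + y * Complex.I) * (w : ℂ))).re = -(x * w) := by
    intro x y; simp
  have r2 : ∀ x y : ℝ, (-(((x : ℂ) + y * Complex.I) * (w : ℂ))).im = -(y * w) := by
    intro x y; simp
  have a1 := r1 (1 / 2) t
  have a2 := r2 (1 / 2) t
  have a3 := r1 (1 / 2) t'
  have a4 := r2 (1 / 2) t'
  have a5 := r1 1 (t - t')
  have a6 := r2 1 (t - t')
  have a7 := r1 1 (t + t')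
  have a8 := r2 1 (t + t')
  push_cast at a1 a2 a3 a4 a5 a6 a7 a8
  rw [a1, a2, a3, a4, a5, a6, a7, a8]
  have e1 : Real.exp (-(1 / 2 * w)) * Real.exp (-(1 / 2 * w)) = Real.exp (-(1 * w)) := by
    rw [← Real.exp_add]; congr 1; ring
  have e2 : Real.cos (-((t - t') * w)) = Real.cos (-(t * w)) * Real.cos (-(t' * w)) +
      Real.sin (-(t * w)) * Real.sin (-(t' * w)) := by
    rw [← Real.cos_sub]; congr 1; ring
  have e3 : Real.cos (-((t + t') * w)) = Real.cos (-(t * w)) * Real.cos (-(t' * w)) -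
      Real.sin (-(t * w)) * Real.sin (-(t' * w)) := by
    rw [← Real.cos_add]; congr 1; ring
  rw [e2, e3]
  calc _ = (Real.exp (-(1 / 2 * w)) * Real.exp (-(1 / 2 * w))) *
        (Real.cos (-(t * w)) * Real.cos (-(t' * w))) := by ring
    _ = _ := by rw [e1]; ring

theorem momc {α : ℕ → ℝ} (H : Cl α) (n : ℕ) (t t' : ℝ) :
    ∫ w, (zz t w).re * (zz t' w).re ∂(lw α n) = CV α n t t' + (m1 α n t).re * (m1 α n t').re := by
  have h1 : ∫ w, (zz t w).re * (zz t' w).re ∂(lw α n) =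
      ∫ v in α n..α (n + 1), g v * (((Complex.exp (-((1 + (t - t') * Complex.I) * (v : ℂ)))).re +
      (Complex.exp (-((1 + (t + t') * Complex.I) * (v : ℂ)))).re) / 2) :=
    mom_congr H n fun w hw => by rw [zz_eq hw, zz_eq hw, re_mul_re]
  have hc : ∀ s : ℂ, IntervalIntegrable (fun v : ℝ => g v * (Complex.exp (-(s * v))).re) volume
      (α n) (α (n + 1)) := by
    intro s
    apply Continuous.intervalIntegrable
    exact g_cont.mul (Complex.continuous_re.comp (by fun_prop))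
  rw [h1, CV, re_tr, re_tr, ← intervalIntegral.integral_add (hc _) (hc _),
    ← intervalIntegral.integral_div]
  have e : ∀ x y : ℝ, x = y - (m1 α n t).re * (m1 α n t').re + (m1 α n t).re * (m1 α n t').re ↔
      x = y := by intro x y; rw [sub_add_cancel]
  rw [e]
  refine intervalIntegral.integral_congr fun v _ => ?_
  ring

theorem zz_norm' {t w : ℝ} (hw : 4 ≤ w) : ‖zz t w‖ = Real.exp (-(w / 2)) := by
  rw [zz_eq hw, Complex.norm_exp]
  congr 1
  simp
  ring

theorem zz_le {α : ℕ → ℝ} (H : Cl α) (n : ℕ) (t : ℝ) {w : ℝ} (hw : w ∈ Ioc (α n) (α (n + 1))) :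
    ‖zz t w‖ = Real.exp (-(w / 2)) ∧ ‖zz t w‖ ≤ Real.exp (-(α n / 2)) := by
  have h4 : 4 ≤ w := (H.four_le n).trans hw.1.le
  have h1 := zz_norm' (t := t) h4
  refine ⟨h1, ?_⟩
  rw [h1]
  exact Real.exp_le_exp.2 (by linarith [hw.1])

/-- a mean of `exp (- c v)` is at most `exp (- c α n)` -/
theorem exp_mean_le {α : ℕ → ℝ} (H : Cl α) (n : ℕ) {c : ℝ} (hc : 0 ≤ c) :
    ∫ v in α n..α (n + 1), g v * Real.exp (-(c * v)) ≤ Real.exp (-(c * α n)) := by
  have hle := (H.alpha_mono (Nat.lt_succ_self n)).le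
  have hp := H.prob n
  calc ∫ v in α n..α (n + 1), g v * Real.exp (-(c * v))
      ≤ ∫ v in α n..α (n + 1), g v * Real.exp (-(c * α n)) := by
        refine intervalIntegral.integral_mono_on hle ?_ ?_ fun v hv => ?_
        · exact (g_cont.mul (by fun_prop)).intervalIntegrable _ _
        · exact (g_cont.mul (by fun_prop)).intervalIntegrable _ _
        · have h4 : (4 : ℝ) ≤ v := (H.four_le n).trans hv.1
          refine mul_le_mul_of_nonneg_left ?_ (g_pos (by linarith)).le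
          exact Real.exp_le_exp.2 (by nlinarith [hv.1])
    _ = Real.exp (-(c * α n)) := by
        rw [intervalIntegral.integral_mul_const, hp, one_mul]

theorem tr_le_exp {α : ℕ → ℝ} (H : Cl α) (n : ℕ) {s : ℂ} (hs : 0 ≤ s.re) :
    ‖tr (α n) (α (n + 1)) s‖ ≤ Real.exp (-(s.re * α n)) := by
  have hle := (H.alpha_mono (Nat.lt_succ_self n)).le
  refine (tr_norm hle s).trans ?_
  refine le_trans (le_of_eq ?_) (exp_mean_le H n hs)
  refine intervalIntegral.integral_congr fun v hv => ?_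
  rw [uIcc_of_le hle] at hv
  have h4 : (4 : ℝ) ≤ v := (H.four_le n).trans hv.1
  rw [abs_of_pos (g_pos (by linarith))]

theorem m1_le {α : ℕ → ℝ} (H : Cl α) (n : ℕ) (t : ℝ) : ‖m1 α n t‖ ≤ Real.exp (-(α n / 2)) := by
  have h1 : ((1 / 2 + t * Complex.I : ℂ)).re = 1 / 2 := by simp
  have := tr_le_exp H n (s := 1 / 2 + t * Complex.I) (by rw [h1]; norm_num)
  rw [h1] at this
  rw [m1]
  refine this.trans (le_of_eq ?_)
  congr 1; ring

theorem m2_le {α : ℕ → ℝ} (H : Cl α) (n : ℕ) (t : ℝ) : ‖m2 α n t‖ ≤ Real.exp (-α n) := by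
  have h1 : ((1 + 2 * t * Complex.I : ℂ)).re = 1 := by simp
  have := tr_le_exp H n (s := 1 + 2 * t * Complex.I) (by rw [h1]; norm_num)
  rw [h1] at this
  rw [m2]
  refine this.trans (le_of_eq ?_)
  congr 1; ring

theorem e2_le {α : ℕ → ℝ} (H : Cl α) (n : ℕ) : 0 < e2 α n ∧ e2 α n ≤ Real.exp (-α n) := by
  have hlt := H.alpha_mono (Nat.lt_succ_self n)
  constructor
  · rw [e2]
    refine intervalIntegral.intervalIntegral_pos_of_pos_on ?_ (fun v hv => ?_) hlt
    · exact (g_cont.mul (by fun_prop)).intervalIntegrable _ _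
    · have h4 : (4 : ℝ) ≤ v := (H.four_le n).trans hv.1.le
      exact mul_pos (g_pos (by linarith)) (Real.exp_pos _)
  · have := exp_mean_le H n (c := 1) zero_le_one
    simp only [one_mul] at this
    exact this

end Pool.Agent.H41.KS
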