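import Pool.Agent.H41.KS.Defs

/-! # KS-PROB (helper13): independence for bounded real functions, Fubini -/

set_option autoImplicit false

open MeasureTheory Filter Topology Set ProbabilityTheory

namespace Pool.Agent.H41.KS

open Pool.Agent.H41.BC (g tr Cells law2 PP2 NN)

namespace ProbAux

lemma prod_aux (μ : ℕ → Measure ℝ) [∀ n, IsProbabilityMeasure (μ n)] (F : ℕ → ℝ → ℝ)
    (hF : ∀ n, Measurable (F n)) (N : ℕ) :
    ∫ W, ∏ n ∈ Finset.range N, F n (W n) ∂(Measure.infinitePi μ) =
      ∏ n ∈ Finset.range N, ∫ w, F n w ∂(μ n) := by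
  have hind : iIndepFun (fun k (W : ℕ → ℝ) => F k (W k)) (Measure.infinitePi μ) :=
    iIndepFun_infinitePi (P := μ) (X := fun k => F k) hF
  have hind2 : iIndepFun (fun (k : Fin N) (W : ℕ → ℝ) => F k (W k)) (Measure.infinitePi μ) :=
    hind.precomp (g := fun k : Fin N => (k : ℕ)) Fin.val_injective
  have h1 := hind2.integral_fun_prod_eq_prod_integral
    (fun k => ((hF k).comp (measurable_pi_apply _)).aestronglyMeasurable)
  have h2 : ∀ W : ℕ → ℝ, ∏ n ∈ Finset.range N, F n (W n) = ∏ k : Fin N, F k (W k) := fun W =>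
    (Finset.prod_range (fun n => F n (W n)))
  simp_rw [h2]
  rw [h1, Finset.prod_range]
  refine Finset.prod_congr rfl fun k _ => ?_
  have h3 := measurePreserving_eval_infinitePi μ (k : ℕ)
  rw [← h3.map_eq, integral_map h3.measurable.aemeasurable (hF k).aestronglyMeasurable]

lemma square_aux {Ω : Type} [MeasurableSpace Ω] (μ : Measure Ω) [IsProbabilityMeasure μ]
    (D : ℝ × Ω → ℝ) (hD : Measurable D) (B : ℝ) (hB : ∀ q, |D q| ≤ B) {a b : ℝ} (hab : a ≤ b) :
    ∫ W, (∫ t in a..b, D (t, W)) ^ 2 ∂μ = ∫ t in a..b, ∫ t' in a..b, ∫ W, D (t, W) * D (t', W) ∂μ := by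
  have hB0 : 0 ≤ B := by
    have hne : Nonempty Ω := by
      by_contra h
      rw [not_nonempty_iff] at h
      have : μ Set.univ = 0 := by simp [Set.eq_empty_of_isEmpty]
      rw [measure_univ] at this
      exact one_ne_zero this
    obtain ⟨ω⟩ := hne
    exact (abs_nonneg _).trans (hB (0, ω))
  have hint : ∀ W, ∀ c d : ℝ, IntervalIntegrable (fun t => D (t, W)) volume c d := by
    intro W c d
    rw [intervalIntegrable_iff]
    refine Measure.integrableOn_of_bounded (M := B) (by simp) ?_ ?_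
    · exact (hD.comp (measurable_id.prodMk measurable_const)).aestronglyMeasurable
    · exact ae_of_all _ fun t => by rw [Real.norm_eq_abs]; exact hB _
  -- the square as a double integral
  have h1 : ∀ W, (∫ t in a..b, D (t, W)) ^ 2 = ∫ t in a..b, ∫ t' in a..b, D (t, W) * D (t', W) := by
    intro W
    rw [sq]
    simp_rw [intervalIntegral.integral_const_mul]
    rw [intervalIntegral.integral_mul_const]
  simp_rw [h1]
  simp_rw [intervalIntegral.integral_of_le hab]
  have hfin : IsFiniteMeasure ((volume : Measure ℝ).restrict (Ioc a b)) := by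
    constructor; simp
  have hI1 : Integrable (Function.uncurry fun (W : Ω) (t : ℝ) => ∫ t' in Ioc a b, D (t, W) * D (t', W))
      (μ.prod ((volume : Measure ℝ).restrict (Ioc a b))) := by
    have hm : Measurable (fun q : (Ω × ℝ) × ℝ => D (q.1.2, q.1.1) * D (q.2, q.1.1)) := by
      refine (hD.comp ?_).mul (hD.comp ?_)
      · exact (measurable_snd.comp measurable_fst).prodMk (measurable_fst.comp measurable_fst)
      · exact measurable_snd.prodMk (measurable_fst.comp measurable_fst)
    have hI : Integrable (fun q : (Ω × ℝ) × ℝ => D (q.1.2, q.1.1) * D (q.2, q.1.1))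
        ((μ.prod ((volume : Measure ℝ).restrict (Ioc a b))).prod ((volume : Measure ℝ).restrict (Ioc a b))) := by
      refine Integrable.of_bound hm.aestronglyMeasurable (B * B) (ae_of_all _ fun q => ?_)
      rw [Real.norm_eq_abs, abs_mul]
      exact mul_le_mul (hB _) (hB _) (abs_nonneg _) hB0
    exact hI.integral_prod_left
  rw [integral_integral_swap hI1]
  refine integral_congr_ae (ae_of_all _ fun t => ?_)
  refine integral_integral_swap ?_
  refine Integrable.of_bound ?_ (B * B) (ae_of_all _ fun q => ?_)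
  · refine Measurable.aestronglyMeasurable ?_
    refine (hD.comp ?_).mul (hD.comp ?_)
    · exact measurable_const.prodMk measurable_fst
    · exact measurable_snd.prodMk measurable_fst
  · simp only [Function.uncurry]
    rw [Real.norm_eq_abs, abs_mul]
    exact mul_le_mul (hB _) (hB _) (abs_nonneg _) hB0

end ProbAux

theorem prod_int {α : ℕ → ℝ} (H : Cl α) (F : ℕ → ℝ → ℝ) (hF : ∀ n, Measurable (F n)) (B : ℕ → ℝ) (hB : ∀ n w, |F n w| ≤ B n) (N : ℕ) :
    ∫ W, ∏ n ∈ Finset.range N, F n (W n) ∂(Pr α) = ∏ n ∈ Finset.range N, ∫ w, F n w ∂(lw α n) := by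
  have h0 := fun k => Pool.Agent.H41.BC.law_prob H k
  exact ProbAux.prod_aux (law2 α (fun n => α (n + 1)) (fun _ => g)) F hF N

theorem square {α : ℕ → ℝ} (H : Cl α) (D : ℝ × (ℕ → ℝ) → ℝ) (hD : Measurable D) (B : ℝ) (hB : ∀ q, |D q| ≤ B) {a b : ℝ} (hab : a ≤ b) :
    ∫ W, (∫ t in a..b, D (t, W)) ^ 2 ∂(Pr α) = ∫ t in a..b, ∫ t' in a..b, ∫ W, D (t, W) * D (t', W) ∂(Pr α) := by
  have := Pool.Agent.H41.BC.PP_prob H
  exact ProbAux.square_aux (Pr α) D hD B hB hab

end Pool.Agent.H41.KS
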