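import Pool.Agent.H41.KS.Defs

/-! # Project KS, stub KS-CTY: continuity and bounds (helper35) -/

set_option autoImplicit false

open MeasureTheory Filter Topology Set

namespace Pool.Agent.H41.KS

open Pool.Agent.H41.BC (g tr Cells law2 PP2 NN)

theorem cty_zz_norm_eq (t w : ℝ) : ‖zz t w‖ = Real.exp (-(max w 4 / 2)) := by
  unfold zz
  rw [Complex.norm_exp]
  congr 1
  simp
  ring

theorem zz_norm (t w : ℝ) : ‖zz t w‖ ≤ 1 / 2 := by
  rw [cty_zz_norm_eq]
  have h1 : Real.exp (-(max w 4 / 2)) ≤ Real.exp (-1) :=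
    Real.exp_le_exp.2 (by linarith [le_max_right w 4])
  refine h1.trans ?_
  rw [Real.exp_neg, inv_le_comm₀ (Real.exp_pos _) (by norm_num)]
  have := Real.add_one_le_exp 1
  linarith

theorem cty_ne (t w : ℝ) : 1 - zz t w ≠ 0 := by
  intro h
  have h1 : zz t w = 1 := by linear_combination -h
  have h2 := zz_norm t w
  rw [h1, norm_one] at h2
  norm_num at h2

theorem cty_tr {a b : ℝ} : Continuous (tr a b) := (BC.tr_diff a b).continuous

theorem cty_m1 (α : ℕ → ℝ) (n : ℕ) : Continuous (m1 α n) := by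
  unfold m1
  exact cty_tr.comp (by fun_prop)

theorem cty_m2 (α : ℕ → ℝ) (n : ℕ) : Continuous (m2 α n) := by
  unfold m2
  exact cty_tr.comp (by fun_prop)

theorem cv_cont (α : ℕ → ℝ) (n : ℕ) : Continuous fun q : ℝ × ℝ => CV α n q.1 q.2 := by
  unfold CV
  have h1 : Continuous fun q : ℝ × ℝ => tr (α n) (α (n + 1)) (1 + (q.1 - q.2) * Complex.I) :=
    cty_tr.comp (by fun_prop)
  have h2 : Continuous fun q : ℝ × ℝ => tr (α n) (α (n + 1)) (1 + (q.1 + q.2) * Complex.I) :=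
    cty_tr.comp (by fun_prop)
  have h3 : Continuous fun q : ℝ × ℝ => m1 α n q.1 := (cty_m1 α n).comp continuous_fst
  have h4 : Continuous fun q : ℝ × ℝ => m1 α n q.2 := (cty_m1 α n).comp continuous_snd
  have r := Complex.continuous_re
  exact (((r.comp h1).add (r.comp h2)).div_const 2).sub ((r.comp h3).mul (r.comp h4))

theorem cty_ss (K : ℕ) (α : ℕ → ℝ) (n : ℕ) : Continuous (SS K α n) := by
  have h1 : Continuous fun t : ℝ => CV α n t t :=
    (cv_cont α n).comp (f := fun t : ℝ => (t, t)) (by fun_prop)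
  have h2 : Continuous fun t : ℝ => 2 * ((K : ℝ) + 1) ^ 2 * CV α n t t := continuous_const.mul h1
  exact h2

theorem cty_cc (K : ℕ) (α : ℕ → ℝ) (n : ℕ) : Continuous (cc K α n) := by
  unfold cc
  have r := Complex.continuous_re
  exact (continuous_const.mul (r.comp (cty_m1 α n))).add
    (continuous_const.mul (r.comp (cty_m2 α n)))

theorem cty_zz : Continuous fun q : ℝ × ℝ => zz q.1 q.2 := by
  unfold zz
  fun_prop

theorem hh_cont (K : ℕ) (α : ℕ → ℝ) (n : ℕ) : Continuous fun q : ℝ × ℝ => HH K α n q.1 q.2 := by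
  unfold HH
  have h1 : Continuous fun q : ℝ × ℝ => (1 - zz q.1 q.2)⁻¹ :=
    (continuous_const.sub cty_zz).inv₀ fun q => cty_ne q.1 q.2
  have h2 : Continuous fun q : ℝ × ℝ => cc K α n q.1 := (cty_cc K α n).comp continuous_fst
  have h3 : Continuous fun q : ℝ × ℝ => SS K α n q.1 := (cty_ss K α n).comp continuous_fst
  have h4 : Continuous fun q : ℝ × ℝ => -cc K α n q.1 - SS K α n q.1 := h2.neg.sub h3
  have h5 : Continuous fun q : ℝ × ℝ => Real.exp (-cc K α n q.1 - SS K α n q.1) :=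
    Real.continuous_exp.comp h4
  have h6 : Continuous fun q : ℝ × ℝ => ‖(1 - zz q.1 q.2)⁻¹‖ ^ (2 * (K + 1)) := h1.norm.pow _
  exact h6.mul h5

/-! ### the series -/

/-- the majorant of the terms -/
noncomputable def cty_uu (K : ℕ) (m : ℕ) : ℝ := (((m + K).choose K : ℕ) : ℝ) ^ 2 * Real.exp (-(m * 4))

theorem cty_uu_sum (K : ℕ) : Summable (cty_uu K) := by
  have h1 : Summable fun m : ℕ => (((m + K).choose K : ℕ) : ℝ) * Real.exp (-2) ^ m :=
    summable_choose_mul_geometric_of_norm_lt_one K (by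
      rw [Real.norm_eq_abs, abs_of_pos (Real.exp_pos _)]
      rw [Real.exp_neg]
      have := Real.add_one_le_exp 2
      exact inv_lt_one_of_one_lt₀ (by linarith))
  have h0 : ∀ m : ℕ, 0 ≤ (((m + K).choose K : ℕ) : ℝ) * Real.exp (-2) ^ m := fun m => by positivity
  have h2 : ∀ m : ℕ, (((m + K).choose K : ℕ) : ℝ) * Real.exp (-2) ^ m ≤
      ∑' m : ℕ, (((m + K).choose K : ℕ) : ℝ) * Real.exp (-2) ^ m := fun m =>
    h1.le_tsum m fun j _ => h0 j
  refine Summable.of_nonneg_of_le (fun m => ?_) (fun m => ?_) (h1.mul_left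
    (∑' m : ℕ, (((m + K).choose K : ℕ) : ℝ) * Real.exp (-2) ^ m))
  · unfold cty_uu; positivity
  · have h3 : cty_uu K m = ((((m + K).choose K : ℕ) : ℝ) * Real.exp (-2) ^ m) *
        ((((m + K).choose K : ℕ) : ℝ) * Real.exp (-2) ^ m) := by
      unfold cty_uu
      have h4 : Real.exp (-((m : ℝ) * 4)) = Real.exp (-2) ^ m * Real.exp (-2) ^ m := by
        rw [← Real.exp_nat_mul, ← Real.exp_add]
        congr 1
        ring
      rw [h4]; ring
    rw [h3]
    exact mul_le_mul_of_nonneg_right (h2 m) (h0 m)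

theorem cty_uu_le (K m : ℕ) (w : ℝ) :
    ‖(((m + K).choose K : ℕ) : ℝ) ^ 2 * Real.exp (-(m * max w 4))‖ ≤ cty_uu K m := by
  rw [Real.norm_eq_abs, abs_of_nonneg (by positivity)]
  unfold cty_uu
  refine mul_le_mul_of_nonneg_left (Real.exp_le_exp.2 ?_) (by positivity)
  have h1 : (m : ℝ) * 4 ≤ m * max w 4 := mul_le_mul_of_nonneg_left (le_max_right _ _) (by positivity)
  linarith

theorem cty_ph_cont (K : ℕ) : Continuous (ph K) := by
  unfold ph
  exact continuous_tsum (fun m => by fun_prop) (cty_uu_sum K) (fun m w => cty_uu_le K m w)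

theorem cty_ph_summable (K : ℕ) (w : ℝ) :
    Summable fun m : ℕ => (((m + K).choose K : ℕ) : ℝ) ^ 2 * Real.exp (-(m * max w 4)) :=
  Summable.of_norm_bounded (cty_uu_sum K) fun m => cty_uu_le K m w

theorem cty_ph_ge (K : ℕ) (w : ℝ) : 1 ≤ ph K w := by
  have h1 := (cty_ph_summable K w).le_tsum 0 fun j _ => by positivity
  unfold ph
  refine le_trans ?_ h1
  simp

theorem cty_ph_le (K : ℕ) (w : ℝ) : ph K w ≤ ∑' m, cty_uu K m :=
  (cty_ph_summable K w).tsum_le_tsum (fun m => (le_abs_self _).trans (cty_uu_le K m w)) (cty_uu_sum K)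

theorem ps_meas (K : ℕ) (α : ℕ → ℝ) (n : ℕ) : Measurable (PS K α n) := by
  unfold PS
  exact ((cty_ph_cont K).mul continuous_const).measurable

theorem ps_bd (K : ℕ) {α : ℕ → ℝ} (_H : Cl α) (n : ℕ) : ∃ B : ℝ, ∀ w, 0 < PS K α n w ∧ PS K α n w ≤ B := by
  refine ⟨(∑' m, cty_uu K m) * Real.exp (-(((K : ℝ) + 1) ^ 2 * e2 α n)), fun w => ⟨?_, ?_⟩⟩
  · exact mul_pos (lt_of_lt_of_le one_pos (cty_ph_ge K w)) (Real.exp_pos _)
  · exact mul_le_mul_of_nonneg_right (cty_ph_le K w) (Real.exp_pos _).le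

/-! ### the bound for `HH` -/

theorem cty_bd {α : ℕ → ℝ} (H : Cl α) (n : ℕ) (σ : ℝ) :
    ∃ B : ℝ, ∀ s : ℂ, s.re = σ → ‖tr (α n) (α (n + 1)) s‖ ≤ B :=
  ⟨∫ v in α n..α (n + 1), |g v| * Real.exp (-(σ * v)), fun s hs => by
    have := BC.tr_norm (H.lt n).le s
    rwa [hs] at this⟩

theorem hh_bd (K : ℕ) {α : ℕ → ℝ} (H : Cl α) (n : ℕ) :
    ∃ B : ℝ, ∀ t w, 0 < HH K α n t w ∧ HH K α n t w ≤ B := by
  obtain ⟨B1, h1⟩ := cty_bd H n (1 / 2)
  obtain ⟨B2, h2⟩ := cty_bd H n 1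
  have hm1 : ∀ t : ℝ, |(m1 α n t).re| ≤ B1 := fun t =>
    (Complex.abs_re_le_norm _).trans (h1 _ (by simp))
  have hm2 : ∀ t : ℝ, |(m2 α n t).re| ≤ B2 := fun t =>
    (Complex.abs_re_le_norm _).trans (h2 _ (by simp))
  have hcv : ∀ t : ℝ, |CV α n t t| ≤ B2 + B1 ^ 2 := by
    intro t
    have h3 : |(tr (α n) (α (n + 1)) (1 + (t - t) * Complex.I)).re| ≤ B2 :=
      (Complex.abs_re_le_norm _).trans (h2 _ (by simp))
    have h4 : |(tr (α n) (α (n + 1)) (1 + (t + t) * Complex.I)).re| ≤ B2 :=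
      (Complex.abs_re_le_norm _).trans (h2 _ (by simp))
    have h5 : |(m1 α n t).re * (m1 α n t).re| ≤ B1 ^ 2 := by
      rw [abs_mul, sq]
      exact mul_le_mul (hm1 t) (hm1 t) (abs_nonneg _) ((abs_nonneg _).trans (hm1 t))
    unfold CV
    have h3' := abs_le.1 h3
    have h4' := abs_le.1 h4
    have h5' := abs_le.1 h5
    rw [abs_le]
    constructor <;> linarith [h3'.1, h3'.2, h4'.1, h4'.2, h5'.1, h5'.2]
  have hK : (0 : ℝ) ≤ (K : ℝ) + 1 := by positivity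
  refine ⟨2 ^ (2 * (K + 1)) * Real.exp (2 * ((K : ℝ) + 1) * B1 + ((K : ℝ) + 1) * B2 +
    2 * ((K : ℝ) + 1) ^ 2 * (B2 + B1 ^ 2)), fun t w => ⟨?_, ?_⟩⟩
  · have h6 : 0 < ‖(1 - zz t w)⁻¹‖ := norm_pos_iff.2 (inv_ne_zero (cty_ne t w))
    unfold HH
    positivity
  · unfold HH
    have h7 : ‖(1 - zz t w)⁻¹‖ ≤ 2 := by
      rw [norm_inv, inv_le_comm₀ (norm_pos_iff.2 (cty_ne t w)) (by norm_num)]
      have h8 : 1 - ‖zz t w‖ ≤ ‖1 - zz t w‖ := by
        have := norm_sub_norm_le (1 : ℂ) (zz t w)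
        rwa [norm_one] at this
      have := zz_norm t w
      linarith
    refine mul_le_mul (pow_le_pow_left₀ (norm_nonneg _) h7 _) (Real.exp_le_exp.2 ?_)
      (Real.exp_pos _).le (by positivity)
    have h9 := (abs_le.1 (hm1 t)).1
    have h10 := (abs_le.1 (hm2 t)).1
    have h11 := (abs_le.1 (hcv t)).1
    have h12 : -(2 * ((K : ℝ) + 1) * B1 + ((K : ℝ) + 1) * B2) ≤ cc K α n t := by
      unfold cc
      have a1 : 2 * ((K : ℝ) + 1) * -B1 ≤ 2 * ((K : ℝ) + 1) * (m1 α n t).re :=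
        mul_le_mul_of_nonneg_left h9 (by positivity)
      have a2 : ((K : ℝ) + 1) * -B2 ≤ ((K : ℝ) + 1) * (m2 α n t).re :=
        mul_le_mul_of_nonneg_left h10 hK
      linarith
    have h13 : -(2 * ((K : ℝ) + 1) ^ 2 * (B2 + B1 ^ 2)) ≤ SS K α n t := by
      unfold SS
      have a3 : 2 * ((K : ℝ) + 1) ^ 2 * -(B2 + B1 ^ 2) ≤ 2 * ((K : ℝ) + 1) ^ 2 * CV α n t t :=
        mul_le_mul_of_nonneg_left h11 (by positivity)
      linarith
    linarith

end Pool.Agent.H41.KS
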