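import Pool.Agent.H41.KS.Defs
import Pool.Agent.H41.BC.Fru

/-! # Project KS, stub KS-EE: the function `EE` (helper26) -/

set_option autoImplicit false

open MeasureTheory Filter Topology Set

namespace Pool.Agent.H41.KS

open Pool.Agent.H41.BC (g tr Cells law2 PP2 NN g_cont g_le one_le_g tr_cont g_eq)

lemma sub_ne {s : ℂ} (hs : s.im ≠ 0) (θ : ℝ) : s - θ ≠ 0 := by
  intro h
  apply hs
  have := congrArg Complex.im h
  simpa using this

lemma im_le_norm (s : ℂ) (θ : ℝ) : |s.im| ≤ ‖s - θ‖ := by
  have := Complex.abs_im_le_norm (s - θ)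
  simpa using this

lemma ee_cont {s : ℂ} (hs : s.im ≠ 0) (a : ℝ) :
    Continuous fun θ : ℝ => Complex.exp (-((s - θ) * a)) / (s - θ) := by
  refine Continuous.div (by fun_prop) (by fun_prop) fun θ => sub_ne hs θ

theorem ee_tr {a b : ℝ} {s : ℂ} (hs : s.im ≠ 0) : tr a b s = EE a s - EE b s := by
  have h0 : tr a b s = ∫ v in a..b, ∫ θ in (0 : ℝ)..1, Complex.exp (-((s - θ) * v)) := by
    unfold tr
    refine intervalIntegral.integral_congr fun v _ => ?_
    unfold g
    rw [← intervalIntegral.integral_ofReal, ← intervalIntegral.integral_mul_const]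
    refine intervalIntegral.integral_congr fun θ _ => ?_
    rw [Complex.ofReal_exp, ← Complex.exp_add]
    congr 1
    push_cast
    ring
  have hcont : Continuous (Function.uncurry fun (v θ : ℝ) => Complex.exp (-((s - θ) * v))) := by
    unfold Function.uncurry
    fun_prop
  rw [h0]
  have h1 : ∫ v in a..b, ∫ θ in (0 : ℝ)..1, Complex.exp (-((s - θ) * v)) =
      ∫ θ in (0 : ℝ)..1, ∫ v in a..b, Complex.exp (-((s - θ) * v)) := by
    apply intervalIntegral_intervalIntegral_swap
    refine (hcont.continuousOn.integrableOn_compact (K := uIcc a b ×ˢ uIcc 0 1)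
      (isCompact_uIcc.prod isCompact_uIcc)).mono_set ?_
    exact prod_mono uIoc_subset_uIcc uIoc_subset_uIcc
  rw [h1]
  unfold EE
  rw [← intervalIntegral.integral_sub ((ee_cont hs a).intervalIntegrable _ _)
    ((ee_cont hs b).intervalIntegrable _ _)]
  refine intervalIntegral.integral_congr fun θ _ => ?_
  have hne : -(s - θ) ≠ 0 := neg_ne_zero.2 (sub_ne hs θ)
  have h2 := integral_exp_mul_complex (a := a) (b := b) hne
  have h3 : (fun v : ℝ => Complex.exp (-((s - θ) * v))) = fun v : ℝ => Complex.exp (-(s - θ) * v) := by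
    funext v
    rw [neg_mul]
  rw [h3, h2, neg_mul, neg_mul, div_neg, ← neg_div, ← sub_div]
  congr 1
  ring

theorem ee_norm {a : ℝ} {s : ℂ} (hs : s.im ≠ 0) :
    ‖EE a s‖ ≤ g a * Real.exp (-(s.re * a)) / |s.im| := by
  have him : 0 < |s.im| := abs_pos.2 hs
  have h1 : g a * Real.exp (-(s.re * a)) / |s.im| =
      ∫ θ in (0 : ℝ)..1, Real.exp (θ * a) * (Real.exp (-(s.re * a)) / |s.im|) := by
    rw [intervalIntegral.integral_mul_const, mul_div_assoc]
    rfl
  rw [h1]
  unfold EE
  apply intervalIntegral.norm_integral_le_of_norm_le (by norm_num)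
  · refine Eventually.of_forall fun θ _ => ?_
    rw [norm_div, Complex.norm_exp]
    have h2 : (-((s - θ) * a)).re = θ * a + -(s.re * a) := by
      simp
      ring
    rw [h2, Real.exp_add, mul_div_assoc]
    apply mul_le_mul_of_nonneg_left _ (Real.exp_pos _).le
    exact div_le_div_of_nonneg_left (Real.exp_pos _).le him (im_le_norm s θ)
  · apply Continuous.intervalIntegrable
    fun_prop

theorem ee_diff (a : ℝ) : DifferentiableOn ℂ (EE a) {s | 0 < s.im} := by
  intro s hs
  have hs0 : 0 < s.im := hs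
  apply DifferentiableAt.differentiableWithinAt
  unfold EE
  obtain ⟨M, hM⟩ : ∃ M : ℝ, M = Real.exp ((|s.re| + s.im / 2 + 1) * |a|) := ⟨_, rfl⟩
  have hM0 : 0 < M := by rw [hM]; exact Real.exp_pos _
  have hball : ∀ x ∈ Metric.ball s (s.im / 2), s.im / 2 ≤ x.im ∧ |x.re| ≤ |s.re| + s.im / 2 := by
    intro x hx
    rw [Metric.mem_ball, dist_eq_norm] at hx
    have h1 : |x.im - s.im| ≤ ‖x - s‖ := by
      rw [← Complex.sub_im]
      exact Complex.abs_im_le_norm _
    have h2 : |x.re - s.re| ≤ ‖x - s‖ := by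
      rw [← Complex.sub_re]
      exact Complex.abs_re_le_norm _
    have h3 := (abs_le.1 h1).1
    have h4 : |x.re| ≤ |x.re - s.re| + |s.re| := by
      have := abs_add_le (x.re - s.re) s.re
      simpa using this
    exact ⟨by linarith, by linarith⟩
  have hexp : ∀ x ∈ Metric.ball s (s.im / 2), ∀ θ ∈ Ioc (0 : ℝ) 1,
      ‖Complex.exp (-((x - θ) * a))‖ ≤ M := by
    intro x hx θ hθ
    obtain ⟨-, h2⟩ := hball x hx
    rw [Complex.norm_exp, hM]
    apply Real.exp_le_exp.2
    have h3 : (-((x - θ) * (a : ℂ))).re = (θ - x.re) * a := by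
      simp
      ring
    rw [h3]
    have h4 : |θ - x.re| ≤ |s.re| + s.im / 2 + 1 := by
      have h5 := abs_sub θ x.re
      have h6 : |θ| ≤ 1 := by
        rw [abs_of_pos hθ.1]
        exact hθ.2
      linarith
    calc (θ - x.re) * a ≤ |(θ - x.re) * a| := le_abs_self _
      _ = |θ - x.re| * |a| := abs_mul _ _
      _ ≤ (|s.re| + s.im / 2 + 1) * |a| := mul_le_mul_of_nonneg_right h4 (abs_nonneg _)
  have hne : ∀ x ∈ Metric.ball s (s.im / 2), ∀ θ : ℝ, x - θ ≠ 0 := by
    intro x hx θ
    exact sub_ne (by have := (hball x hx).1; linarith) θ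
  have key := intervalIntegral.hasDerivAt_integral_of_dominated_loc_of_deriv_le (𝕜 := ℂ) (μ := volume)
    (a := (0 : ℝ)) (b := 1) (x₀ := s) (s := Metric.ball s (s.im / 2))
    (F := fun s θ => Complex.exp (-((s - θ) * a)) / (s - θ))
    (F' := fun s θ => (Complex.exp (-((s - θ) * a)) * (-a) * (s - θ) -
      Complex.exp (-((s - θ) * a)) * 1) / (s - θ) ^ 2)
    (bound := fun _ => M * |a| / (s.im / 2) + M / (s.im / 2) ^ 2)
    (Metric.ball_mem_nhds s (by linarith))
    (by
      filter_upwards [Metric.ball_mem_nhds s (show 0 < s.im / 2 by linarith)] with x hx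
      exact (ee_cont (by have := (hball x hx).1; linarith) a).aestronglyMeasurable)
    ((ee_cont hs0.ne' a).intervalIntegrable _ _)
    (Continuous.aestronglyMeasurable (by
      refine Continuous.div (by fun_prop) (by fun_prop) fun θ => pow_ne_zero 2 (sub_ne hs0.ne' θ)))
    (Eventually.of_forall fun θ hθ x hx => by
      rw [uIoc_of_le (by norm_num)] at hθ
      obtain ⟨h1, -⟩ := hball x hx
      have h2 := hexp x hx θ hθ
      have h3 : s.im / 2 ≤ ‖x - θ‖ := by
        refine le_trans ?_ (im_le_norm x θ)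
        rw [abs_of_pos (by linarith)]
        exact h1
      have h4 : 0 < ‖x - θ‖ := by linarith
      have h5 : (Complex.exp (-((x - θ) * a)) * (-a) * (x - θ) -
          Complex.exp (-((x - θ) * a)) * 1) / (x - θ) ^ 2 =
          Complex.exp (-((x - θ) * a)) * (-a) / (x - θ) -
            Complex.exp (-((x - θ) * a)) / (x - θ) ^ 2 := by
        have := hne x hx θ
        field_simp
      rw [h5]
      refine (norm_sub_le _ _).trans (add_le_add ?_ ?_)
      · rw [norm_div, norm_mul, norm_neg, Complex.norm_real, Real.norm_eq_abs]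
        exact div_le_div₀ (by positivity) (mul_le_mul_of_nonneg_right h2 (abs_nonneg _))
          (by linarith) h3
      · rw [norm_div, norm_pow]
        exact div_le_div₀ hM0.le h2 (by positivity) (pow_le_pow_left₀ (by linarith) h3 2))
    (by simp)
    (Eventually.of_forall fun θ _ x hx => by
      have h1 : HasDerivAt (fun x : ℂ => -((x - θ) * (a : ℂ))) (-(a : ℂ)) x := by
        have h2 := (((hasDerivAt_id x).sub_const (θ : ℂ)).mul_const (a : ℂ)).fun_neg
        simpa using h2
      have h2 : HasDerivAt (fun x : ℂ => x - θ) 1 x := (hasDerivAt_id x).sub_const (θ : ℂ)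
      exact h1.cexp.fun_div h2 (hne x hx θ))
  exact key.2.differentiableAt

lemma g_le_div {v : ℝ} (hv : 0 < v) : g v * Real.exp (-v) ≤ 1 / v := by
  rw [g_eq hv.ne', div_mul_eq_mul_div]
  apply div_le_div_of_nonneg_right _ hv.le
  rw [sub_mul, ← Real.exp_add, add_neg_cancel, Real.exp_zero]
  have := Real.exp_pos (-v)
  linarith

theorem tr_osc {a b : ℝ} (ha : 4 ≤ a) (hab : a ≤ b) (hb : b ≤ a + 1) {s : ℂ} (h0 : 0 ≤ s.re)
    (hs : s.im ≠ 0) : ‖tr a b s‖ ≤ 4 * Real.exp ((1 - s.re) * a) / |s.im| := by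
  have him : 0 < |s.im| := abs_pos.2 hs
  rw [ee_tr hs]
  refine (norm_sub_le _ _).trans ((add_le_add (ee_norm hs) (ee_norm hs)).trans ?_)
  rw [← add_div]
  apply div_le_div_of_nonneg_right _ him.le
  have h1 : g a * Real.exp (-(s.re * a)) ≤ Real.exp ((1 - s.re) * a) := by
    calc g a * Real.exp (-(s.re * a)) ≤ Real.exp a * Real.exp (-(s.re * a)) :=
          mul_le_mul_of_nonneg_right (g_le (by linarith)) (Real.exp_pos _).le
      _ = Real.exp ((1 - s.re) * a) := by
          rw [← Real.exp_add]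
          congr 1
          ring
  have h2 : g b * Real.exp (-(s.re * b)) ≤ Real.exp ((1 - s.re) * b) := by
    calc g b * Real.exp (-(s.re * b)) ≤ Real.exp b * Real.exp (-(s.re * b)) :=
          mul_le_mul_of_nonneg_right (g_le (by linarith)) (Real.exp_pos _).le
      _ = Real.exp ((1 - s.re) * b) := by
          rw [← Real.exp_add]
          congr 1
          ring
  have h3 : Real.exp ((1 - s.re) * b) ≤ Real.exp 1 * Real.exp ((1 - s.re) * a) := by
    rw [← Real.exp_add]
    apply Real.exp_le_exp.2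
    have h4 : (1 - s.re) * (b - a) ≤ 1 := by
      calc (1 - s.re) * (b - a) ≤ 1 * (b - a) :=
            mul_le_mul_of_nonneg_right (by linarith) (by linarith)
        _ ≤ 1 := by linarith
    linarith
  have h4 := Real.exp_one_lt_d9
  have h5 : 0 < Real.exp ((1 - s.re) * a) := Real.exp_pos _
  nlinarith

theorem tr_osc1 {a b : ℝ} (ha : 4 ≤ a) (hab : a ≤ b) {s : ℂ} (h1 : s.re = 1) (hs : s.im ≠ 0) :
    ‖tr a b s‖ ≤ 1 / |s.im| := by
  have him : 0 < |s.im| := abs_pos.2 hs
  rw [ee_tr hs]
  refine (norm_sub_le _ _).trans ((add_le_add (ee_norm hs) (ee_norm hs)).trans ?_)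
  rw [← add_div]
  apply div_le_div_of_nonneg_right _ him.le
  rw [h1, one_mul, one_mul]
  have h2 := g_le_div (v := a) (by linarith)
  have h3 := g_le_div (v := b) (by linarith)
  have h4 : 1 / a ≤ 1 / 4 := one_div_le_one_div_of_le (by norm_num) ha
  have h5 : 1 / b ≤ 1 / 4 := one_div_le_one_div_of_le (by norm_num) (by linarith)
  linarith

end Pool.Agent.H41.KS
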