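import Pool.Agent.H41.KS.Cty

/-! # Project KS, stub KS-FORM: the factors as exponentials (helper35) -/

set_option autoImplicit false

open MeasureTheory Filter Topology Set

namespace Pool.Agent.H41.KS

open Pool.Agent.H41.BC (g tr Cells law2 PP2 NN)

/-- the second order expansion of `log ‖(1 - z)⁻¹‖` -/
theorem frm_log {z : ℂ} (hz : ‖z‖ ≤ 1 / 2) :
    |Real.log ‖(1 - z)⁻¹‖ - (z.re + (z ^ 2).re / 2)| ≤ ‖z‖ ^ 3 := by
  have h0 : ‖-z‖ < 1 := by rw [norm_neg]; linarith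
  have h1 := Complex.norm_log_sub_logTaylor_le 2 h0
  have h2 : Complex.logTaylor (2 + 1) (-z) = -z - z ^ 2 / 2 := by
    rw [Complex.logTaylor_succ, Complex.logTaylor_succ, Complex.logTaylor_succ, Complex.logTaylor_zero]
    simp
    ring
  rw [h2, norm_neg] at h1
  have h3 : Real.log ‖(1 - z)⁻¹‖ - (z.re + (z ^ 2).re / 2) =
      -(Complex.log (1 + -z) - (-z - z ^ 2 / 2)).re := by
    rw [norm_inv, Real.log_inv, Complex.sub_re, Complex.log_re, Complex.sub_re, Complex.neg_re,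
      ← sub_eq_add_neg]
    have : (z ^ 2 / 2).re = (z ^ 2).re / 2 := by
      rw [show (2 : ℂ) = ((2 : ℝ) : ℂ) by norm_num, Complex.div_ofReal_re]
    rw [this]
    ring
  rw [h3, abs_neg]
  refine (Complex.abs_re_le_norm _).trans (h1.trans ?_)
  have h4 : (1 - ‖z‖)⁻¹ ≤ 2 := by
    rw [inv_le_comm₀ (by linarith) (by norm_num)]
    linarith
  have h5 : ‖z‖ ^ (2 + 1) * (1 - ‖z‖)⁻¹ ≤ ‖z‖ ^ (2 + 1) * 2 :=
    mul_le_mul_of_nonneg_left h4 (by positivity)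
  have h6 : (0 : ℝ) ≤ ‖z‖ ^ 3 := by positivity
  have h7 : ‖z‖ ^ (2 + 1) * (1 - ‖z‖)⁻¹ / ((2 : ℕ) + 1 : ℝ) ≤ ‖z‖ ^ (2 + 1) * 2 / 3 := by
    have : ((2 : ℕ) + 1 : ℝ) = 3 := by norm_num
    rw [this]
    exact div_le_div_of_nonneg_right h5 (by norm_num)
  refine h7.trans ?_
  have h8 : ‖z‖ ^ (2 + 1) = ‖z‖ ^ 3 := rfl
  rw [h8]
  linarith

theorem hh_form (K : ℕ) : ∃ C : ℝ, ∀ (α : ℕ → ℝ), Cl α → ∀ (n : ℕ) (t w : ℝ), w ∈ Ioc (α n) (α (n + 1)) →
    ∃ r : ℝ, |r| ≤ C * Real.exp (-(3 / 2 * α n)) ∧ HH K α n t w =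
      Real.exp (2 * ((K : ℝ) + 1) * ((zz t w).re - (m1 α n t).re) +
        (((K : ℝ) + 1) * ((zz t w ^ 2).re - (m2 α n t).re) - SS K α n t + r)) := by
  refine ⟨2 * ((K : ℝ) + 1), fun α H n t w hw => ?_⟩
  have hK : (0 : ℝ) ≤ (K : ℝ) + 1 := by positivity
  refine ⟨2 * ((K : ℝ) + 1) *
    (Real.log ‖(1 - zz t w)⁻¹‖ - ((zz t w).re + (zz t w ^ 2).re / 2)), ?_, ?_⟩
  · rw [abs_mul, abs_of_nonneg (by positivity : (0 : ℝ) ≤ 2 * ((K : ℝ) + 1))]
    refine mul_le_mul_of_nonneg_left ((frm_log (zz_norm t w)).trans ?_) (by positivity)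
    rw [cty_zz_norm_eq, ← Real.exp_nat_mul]
    refine Real.exp_le_exp.2 ?_
    have h1 : α n ≤ max w 4 := hw.1.le.trans (le_max_left _ _)
    push_cast
    linarith
  · have h6 : 0 < ‖(1 - zz t w)⁻¹‖ := norm_pos_iff.2 (inv_ne_zero (cty_ne t w))
    unfold HH cc
    have h7 : ‖(1 - zz t w)⁻¹‖ ^ (2 * (K + 1)) =
        Real.exp (2 * ((K : ℝ) + 1) * Real.log ‖(1 - zz t w)⁻¹‖) := by
      have : (2 * ((K : ℝ) + 1)) = ((2 * (K + 1) : ℕ) : ℝ) := by push_cast; ring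
      rw [this, Real.exp_nat_mul, Real.exp_log h6]
    rw [h7, ← Real.exp_add]
    congr 1
    ring

/-- the expansion of the logarithm for a nonnegative argument -/
theorem frm_log1p {y : ℝ} (hy : 0 ≤ y) : |Real.log (1 + y) - y| ≤ y ^ 2 := by
  have h1 : Real.log (1 + y) ≤ y := by
    have := Real.log_le_sub_one_of_pos (by linarith : (0 : ℝ) < 1 + y)
    linarith
  have h2 : 1 - (1 + y)⁻¹ ≤ Real.log (1 + y) := Real.one_sub_inv_le_log_of_pos (by linarith)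
  have h3 : y - y ^ 2 ≤ 1 - (1 + y)⁻¹ := by
    have h4 : (0 : ℝ) < 1 + y := by linarith
    have h5 : 1 - (1 + y)⁻¹ - (y - y ^ 2) = y ^ 3 / (1 + y) := by
      field_simp
      ring
    have h6 : 0 ≤ y ^ 3 / (1 + y) := by positivity
    linarith
  rw [abs_le]
  constructor <;> nlinarith [sq_nonneg y]

/-- the first order expansion of `ph` -/
theorem frm_ph (K : ℕ) (w : ℝ) (hw : 4 ≤ w) :
    0 ≤ ph K w - 1 - ((K : ℝ) + 1) ^ 2 * Real.exp (-w) ∧
    ph K w - 1 - ((K : ℝ) + 1) ^ 2 * Real.exp (-w) ≤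
      (Real.exp 8 * ∑' m, cty_uu K m) * Real.exp (-w) ^ 2 := by
  have hmax : max w 4 = w := max_eq_left hw
  have hS := cty_ph_summable K w
  set f : ℕ → ℝ := fun m => (((m + K).choose K : ℕ) : ℝ) ^ 2 * Real.exp (-(m * max w 4)) with hf
  have h1 : ∑ m ∈ Finset.range 2, f m + ∑' m, f (m + 2) = ph K w := hS.sum_add_tsum_nat_add 2
  have h2 : ∑ m ∈ Finset.range 2, f m = 1 + ((K : ℝ) + 1) ^ 2 * Real.exp (-w) := by
    rw [Finset.sum_range_succ, Finset.sum_range_one]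
    have e0 : f 0 = 1 := by simp [hf]
    have e1 : f 1 = ((K : ℝ) + 1) ^ 2 * Real.exp (-w) := by
      have : (1 + K).choose K = K + 1 := by
        rw [Nat.add_comm, Nat.choose_succ_self_right]
      simp only [hf, this, hmax]
      push_cast
      rw [one_mul]
    rw [e0, e1]
  have h3 : ph K w - 1 - ((K : ℝ) + 1) ^ 2 * Real.exp (-w) = ∑' m, f (m + 2) := by
    rw [← h1, h2]; ring
  rw [h3]
  have hS2 : Summable fun m => f (m + 2) := (summable_nat_add_iff 2).2 hS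
  refine ⟨tsum_nonneg fun m => ?_, ?_⟩
  · simp only [hf]; positivity
  · have hU2 : Summable fun m => cty_uu K (m + 2) := (summable_nat_add_iff 2).2 (cty_uu_sum K)
    have h4 : ∀ m, f (m + 2) ≤ Real.exp 8 * Real.exp (-w) ^ 2 * cty_uu K (m + 2) := by
      intro m
      have h5 : Real.exp (-(((m + 2 : ℕ) : ℝ) * max w 4)) ≤
          Real.exp 8 * Real.exp (-w) ^ 2 * Real.exp (-(((m + 2 : ℕ) : ℝ) * 4)) := by
        rw [← Real.exp_nat_mul, ← Real.exp_add, ← Real.exp_add, hmax]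
        refine Real.exp_le_exp.2 ?_
        push_cast
        have : (0 : ℝ) ≤ m * (w - 4) := mul_nonneg (Nat.cast_nonneg m) (by linarith)
        nlinarith
      simp only [hf, cty_uu]
      calc (((m + 2 + K).choose K : ℕ) : ℝ) ^ 2 * Real.exp (-(((m + 2 : ℕ) : ℝ) * max w 4))
          ≤ (((m + 2 + K).choose K : ℕ) : ℝ) ^ 2 *
            (Real.exp 8 * Real.exp (-w) ^ 2 * Real.exp (-(((m + 2 : ℕ) : ℝ) * 4))) :=
            mul_le_mul_of_nonneg_left h5 (by positivity)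
        _ = _ := by ring
    have h6 : ∑' m, f (m + 2) ≤ ∑' m, Real.exp 8 * Real.exp (-w) ^ 2 * cty_uu K (m + 2) :=
      hS2.tsum_le_tsum h4 (hU2.mul_left _)
    rw [tsum_mul_left] at h6
    have h7 : ∑' m, cty_uu K (m + 2) ≤ ∑' m, cty_uu K m := by
      have h8 := (cty_uu_sum K).sum_add_tsum_nat_add 2
      have h9 : 0 ≤ ∑ m ∈ Finset.range 2, cty_uu K m :=
        Finset.sum_nonneg fun m _ => by unfold cty_uu; positivity
      linarith
    calc ∑' m, f (m + 2) ≤ Real.exp 8 * Real.exp (-w) ^ 2 * ∑' m, cty_uu K (m + 2) := h6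
      _ ≤ Real.exp 8 * Real.exp (-w) ^ 2 * ∑' m, cty_uu K m :=
          mul_le_mul_of_nonneg_left h7 (by positivity)
      _ = _ := by ring

theorem ps_form (K : ℕ) : ∃ C : ℝ, ∀ (α : ℕ → ℝ), Cl α → ∀ (n : ℕ) (w : ℝ), w ∈ Ioc (α n) (α (n + 1)) →
    ∃ r : ℝ, |r| ≤ C * Real.exp (-(2 * α n)) ∧ PS K α n w =
      Real.exp (((K : ℝ) + 1) ^ 2 * (Real.exp (-w) - e2 α n) + r) := by
  set A : ℝ := Real.exp 8 * ∑' m, cty_uu K m with hA
  have hA0 : 0 ≤ A := mul_nonneg (Real.exp_pos _).le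
    (tsum_nonneg fun m => by unfold cty_uu; positivity)
  refine ⟨A + (((K : ℝ) + 1) ^ 2 + A) ^ 2, fun α H n w hw => ?_⟩
  have h4 : 4 ≤ w := (H.four_le n).trans hw.1.le
  obtain ⟨h1, h2⟩ := frm_ph K w h4
  set x : ℝ := Real.exp (-w) with hx
  have hx0 : 0 < x := Real.exp_pos _
  have hx1 : x ≤ 1 := Real.exp_le_one_iff.2 (by linarith)
  set R : ℝ := ph K w - 1 - ((K : ℝ) + 1) ^ 2 * x with hR
  have hph : ph K w = 1 + (((K : ℝ) + 1) ^ 2 * x + R) := by rw [hR]; ring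
  have hy0 : 0 ≤ ((K : ℝ) + 1) ^ 2 * x + R := by positivity
  have hy1 : ((K : ℝ) + 1) ^ 2 * x + R ≤ (((K : ℝ) + 1) ^ 2 + A) * x := by
    have : A * x ^ 2 ≤ A * x := mul_le_mul_of_nonneg_left (by nlinarith) hA0
    nlinarith
  refine ⟨Real.log (ph K w) - ((K : ℝ) + 1) ^ 2 * x, ?_, ?_⟩
  · have h5 := frm_log1p hy0
    rw [← hph] at h5
    have h6 : (((K : ℝ) + 1) ^ 2 * x + R) ^ 2 ≤ ((((K : ℝ) + 1) ^ 2 + A) * x) ^ 2 :=
      pow_le_pow_left₀ hy0 hy1 2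
    have h7 : x ^ 2 ≤ Real.exp (-(2 * α n)) := by
      rw [hx, ← Real.exp_nat_mul]
      refine Real.exp_le_exp.2 ?_
      push_cast
      linarith [hw.1]
    have h8 : |Real.log (ph K w) - ((K : ℝ) + 1) ^ 2 * x| ≤
        (A + (((K : ℝ) + 1) ^ 2 + A) ^ 2) * x ^ 2 := by
      have h9 := abs_le.1 h5
      rw [abs_le]
      constructor <;> nlinarith [h9.1, h9.2]
    refine h8.trans (mul_le_mul_of_nonneg_left h7 (by positivity))
  · have h10 : 0 < ph K w := lt_of_lt_of_le one_pos (cty_ph_ge K w)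
    unfold PS
    conv_lhs => rw [← Real.exp_log h10]
    rw [← Real.exp_add]
    congr 1
    ring

end Pool.Agent.H41.KS
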