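import Pool.Agent.H41.KS.As

/-! # Project KS: from the block averages of the normalised product to the moments -/

set_option autoImplicit false

open MeasureTheory Filter Topology Set

namespace Pool.Agent.H41.KS

open Pool.Agent.H41.BC (g tr Cells law2 PP2 NN)

/-- the moments on the line, in terms of the normalised factors -/
theorem line_form (K : ℕ) {α : ℕ → ℝ} (H : Cl α) {κ : ℝ} (hκ : IsKap α κ) {W : ℕ → ℝ}
    (hW : ∀ n, W n ∈ Ioc (α n) (α (n + 1))) {δ : ℝ} (hδ : 0 < δ) : ∃ T0 : ℝ, ∀ T : ℝ, T0 ≤ T → ∀ t : ℝ, T ≤ t →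
    t ≤ 2 * T → ∀ N : ℕ, 3 * Real.log T ≤ α N →
      ∃ y : ℝ, |y - ((K : ℝ) + 1) ^ 2 * (Real.log (Real.log T) + κ)| ≤ δ ∧
        ‖ff α W (1 / 2 + t * Complex.I)‖ ^ (2 * (K + 1)) =
          Real.exp y * ∏ n ∈ Finset.range N, HH K α n t (W n) := by
  obtain ⟨T1, hT1⟩ := ss_sum H hκ K (δ := δ / 3) (by linarith)
  obtain ⟨C, hC⟩ := ff_line
  set k : ℝ := (K : ℝ) + 1 with hk
  have hk0 : 0 < k := by positivity
  set A : ℝ := 2 * k * (g (α 0) + g (α 0)) with hA
  have hg0 : 0 < g (α 0) := Pool.Agent.H41.BC.g_pos (by linarith [H.four_le 0])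
  have hA0 : 0 < A := by positivity
  set B : ℝ := 2 * k * |C| * 2 with hB
  have hB0 : 0 ≤ B := by positivity
  refine ⟨max (max T1 1) (max (3 * A / δ) ((3 * (B + 1) / δ) ^ 2)), fun T hT t ht ht2 N hN => ?_⟩
  have hTT1 : T1 ≤ T := ((le_max_left _ _).trans (le_max_left _ _)).trans hT
  have hT1' : 1 ≤ T := ((le_max_right _ _).trans (le_max_left _ _)).trans hT
  have hTA : 3 * A / δ ≤ T := ((le_max_left _ _).trans (le_max_right _ _)).trans hT
  have hTB : (3 * (B + 1) / δ) ^ 2 ≤ T := ((le_max_right _ _).trans (le_max_right _ _)).trans hT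
  have hT0 : 0 < T := by linarith
  have ht0 : 0 < t := by linarith
  obtain ⟨r, hr, hf⟩ := hC α H W hW t N (by linarith)
  have hss := hT1 T hTT1 t ht ht2 N hN
  set S := ∑ n ∈ Finset.range N, SS K α n t with hS
  set a1 := (EE (α 0) (1 / 2 + t * Complex.I)).re with ha1
  set a2 := (EE (α 0) (1 + 2 * t * Complex.I)).re with ha2
  have im1 : ((1 / 2 + t * Complex.I : ℂ)).im = t := by simp
  have im2 : ((1 + 2 * t * Complex.I : ℂ)).im = 2 * t := by simp
  have re1 : ((1 / 2 + t * Complex.I : ℂ)).re = 1 / 2 := by simp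
  have re2 : ((1 + 2 * t * Complex.I : ℂ)).re = 1 := by simp
  have hα0 := H.four_le 0
  have hb1 : |a1| ≤ g (α 0) / T := by
    have h := ee_norm (a := α 0) (s := 1 / 2 + t * Complex.I) (by rw [im1]; exact ht0.ne')
    rw [im1, re1, abs_of_pos ht0] at h
    refine (Complex.abs_re_le_norm _).trans (h.trans ?_)
    refine div_le_div₀ hg0.le ?_ hT0 ht
    exact mul_le_of_le_one_right hg0.le (Real.exp_le_one_iff.2 (by linarith))
  have hb2 : |a2| ≤ g (α 0) / T := by
    have h := ee_norm (a := α 0) (s := 1 + 2 * t * Complex.I) (by rw [im2]; positivity)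
    rw [im2, re2, abs_of_pos (by linarith : 0 < 2 * t)] at h
    refine (Complex.abs_re_le_norm _).trans (h.trans ?_)
    refine div_le_div₀ hg0.le ?_ hT0 (by linarith)
    exact mul_le_of_le_one_right hg0.le (Real.exp_le_one_iff.2 (by linarith))
  refine ⟨2 * k * (a1 + a2 / 2) + S + 2 * k * r, ?_, ?_⟩
  · -- the bound
    have e1 : |2 * k * (a1 + a2 / 2)| ≤ δ / 3 := by
      rw [abs_mul, abs_of_pos (by positivity : 0 < 2 * k)]
      have : |a1 + a2 / 2| ≤ (g (α 0) + g (α 0)) / T := by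
        rw [abs_le] at hb1 hb2 ⊢
        rw [add_div]
        have : 0 < g (α 0) / T := by positivity
        constructor <;> linarith [hb1.1, hb1.2, hb2.1, hb2.2]
      calc 2 * k * |a1 + a2 / 2| ≤ 2 * k * ((g (α 0) + g (α 0)) / T) := mul_le_mul_of_nonneg_left this (by positivity)
        _ = A / T := by rw [hA]; ring
        _ ≤ δ / 3 := by
            rw [div_le_iff₀ hT0]
            rw [div_le_iff₀ hδ] at hTA
            linarith
    have e2 : |2 * k * r| ≤ δ / 3 := by
      rw [abs_mul, abs_of_pos (by positivity : 0 < 2 * k)]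
      have h1 : Real.exp (-(α N / 2)) ≤ Real.exp (-(3 / 2 * Real.log T)) := Real.exp_le_exp.2 (by linarith)
      have h2 : Real.exp (-(3 / 2 * Real.log T)) = (T * √T)⁻¹ := by
        have hs : √T = Real.exp (Real.log T / 2) := by
          rw [Real.exp_half, Real.exp_log hT0]
        rw [Real.exp_neg, hs]
        congr 1
        conv_rhs => rw [← Real.exp_log hT0]
        rw [Real.log_exp, ← Real.exp_add]
        congr 1
        ring
      have hsT : 0 < √T := Real.sqrt_pos.2 hT0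
      have h3 : |r| ≤ |C| * (2 / √T) := by
        refine hr.trans ?_
        calc C * (t * Real.exp (-(α N / 2))) ≤ |C| * (t * Real.exp (-(α N / 2))) :=
              mul_le_mul_of_nonneg_right (le_abs_self _) (by positivity)
          _ ≤ |C| * (2 * T * (T * √T)⁻¹) := by
              refine mul_le_mul_of_nonneg_left ?_ (abs_nonneg _)
              exact mul_le_mul ht2 (h1.trans h2.le) (Real.exp_pos _).le (by linarith)
          _ = _ := by field_simp
      calc 2 * k * |r| ≤ 2 * k * (|C| * (2 / √T)) := mul_le_mul_of_nonneg_left h3 (by positivity)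
        _ = B / √T := by rw [hB]; ring
        _ ≤ δ / 3 := by
            rw [div_le_iff₀ hsT]
            have h5 : 3 * (B + 1) / δ ≤ √T := Real.le_sqrt_of_sq_le hTB
            rw [div_le_iff₀ hδ] at h5
            linarith
    have e : 2 * k * (a1 + a2 / 2) + S + 2 * k * r - k ^ 2 * (Real.log (Real.log T) + κ) =
        2 * k * (a1 + a2 / 2) + (S - k ^ 2 * (Real.log (Real.log T) + κ)) + 2 * k * r := by ring
    rw [e]
    rw [abs_le] at e1 e2 hss ⊢
    constructor <;> linarith [e1.1, e1.2, e2.1, e2.2, hss.1, hss.2]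
  · -- the identity
    rw [hf, mul_pow, mul_pow, ← Finset.prod_pow, ← Real.exp_nat_mul, ← Real.exp_nat_mul]
    have e1 : ∀ n ∈ Finset.range N, (‖(1 - zz t (W n))⁻¹‖ * Real.exp (-(m1 α n t).re - (m2 α n t).re / 2)) ^ (2 * (K + 1)) =
        HH K α n t (W n) * Real.exp (SS K α n t) := by
      intro n _
      unfold HH cc
      rw [mul_pow, mul_assoc, ← Real.exp_add, ← Real.exp_nat_mul]
      congr 2
      push_cast
      ring
    rw [Finset.prod_congr rfl e1, Finset.prod_mul_distrib, ← Real.exp_sum, ← hS]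
    have e2 : ((2 * (K + 1) : ℕ) : ℝ) = 2 * k := by push_cast; rw [hk]
    rw [e2, Real.exp_add, Real.exp_add]
    ring

lemma ff_cont_line {α : ℕ → ℝ} (H : Cl α) {W : ℕ → ℝ} (hW : ∀ n, W n ∈ Ioc (α n) (α (n + 1))) (m : ℕ) :
    ContinuousOn (fun t : ℝ => ‖ff α W (1 / 2 + t * Complex.I)‖ ^ m) (Ioi 0) := by
  have h1 : ContinuousOn (fun t : ℝ => ff α W (1 / 2 + t * Complex.I)) (Ioi 0) := by
    refine (ff_diff H hW).continuousOn.comp (by fun_prop) fun t ht => ?_
    simp only [mem_ofPred_eq]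
    have : (0:ℝ) < t := ht
    constructor
    · simp; norm_num
    · simpa using this
  exact h1.norm.pow m

attribute [local irreducible] HH PS ff

/-- the averages over the blocks -/
theorem avg_lim (K : ℕ) {α : ℕ → ℝ} (H : Cl α) {κ : ℝ} (hκ : IsKap α κ) {W : ℕ → ℝ}
    (hW : ∀ n, W n ∈ Ioc (α n) (α (n + 1))) {N : ℕ → ℕ}
    (hN : ∀ᶠ j : ℕ in atTop, 3 * √(j : ℝ) ≤ α (N j) ∧ α (N j) ≤ 3 * √(j : ℝ) + 1) {R : ℝ}
    (hPS : Tendsto (fun N : ℕ => ∏ n ∈ Finset.range N, PS K α n (W n)) atTop (𝓝 R))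
    (hX : Tendsto (fun j => XX K α N j W) atTop (𝓝 0)) :
    Tendsto (fun j : ℕ => (∫ t in TT j..TT (j + 1), ‖ff α W (1 / 2 + t * Complex.I)‖ ^ (2 * (K + 1))) /
      ((TT (j + 1) - TT j) * √(j : ℝ) ^ ((K + 1) ^ 2))) atTop (𝓝 (R * Real.exp (((K : ℝ) + 1) ^ 2 * κ))) := by
  set k : ℝ := (K : ℝ) + 1 with hk
  have hgap : ∀ᶠ j : ℕ in atTop, 0 < TT (j + 1) - TT j := by
    filter_upwards [eventually_ge_atTop 1] with j hj using (TT_gap hj).1
  -- the averages of the products
  set Q : ℕ → ℝ := fun j => (∫ t in TT j..TT (j + 1), ∏ n ∈ Finset.range (N j), HH K α n t (W n)) /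
    (TT (j + 1) - TT j) with hQ
  have hcont : ∀ j, Continuous fun t : ℝ => ∏ n ∈ Finset.range (N j), HH K α n t (W n) := fun j =>
    continuous_finsetProd _ fun n _ => (hh_cont K α n).comp (continuous_id.prodMk continuous_const)
  have hNT : Tendsto N atTop atTop := by
    rw [tendsto_atTop]
    intro b
    have h1 : Tendsto (fun j : ℕ => 3 * √(j : ℝ)) atTop atTop :=
      (Real.tendsto_sqrt_atTop.comp tendsto_natCast_atTop_atTop).const_mul_atTop (by norm_num)
    filter_upwards [hN, h1.eventually_ge_atTop (α b)] with j h2 h3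
    rw [← H.alpha_mono.le_iff_le]
    linarith [h2.1]
  have hQR : Tendsto Q atTop (𝓝 R) := by
    have h1 := hX.add (hPS.comp hNT)
    rw [zero_add] at h1
    refine h1.congr' ?_
    filter_upwards [hgap] with j hj
    simp only [Function.comp, hQ, XX, DD]
    rw [intervalIntegral.integral_sub ((hcont j).intervalIntegrable _ _) intervalIntegrable_const,
      intervalIntegral.integral_const, smul_eq_mul]
    field_simp
    ring
  -- comparison
  have key : ∀ δ : ℝ, 0 < δ → ∀ᶠ j : ℕ in atTop,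
      Real.exp (k ^ 2 * κ - δ) * Q j ≤ (∫ t in TT j..TT (j + 1), ‖ff α W (1 / 2 + t * Complex.I)‖ ^ (2 * (K + 1))) /
        ((TT (j + 1) - TT j) * √(j : ℝ) ^ ((K + 1) ^ 2)) ∧
      (∫ t in TT j..TT (j + 1), ‖ff α W (1 / 2 + t * Complex.I)‖ ^ (2 * (K + 1))) /
        ((TT (j + 1) - TT j) * √(j : ℝ) ^ ((K + 1) ^ 2)) ≤ Real.exp (k ^ 2 * κ + δ) * Q j := by
    intro δ hδ
    obtain ⟨T0, hT0⟩ := line_form K H hκ hW hδ
    filter_upwards [hN, TT_tendsto.eventually_ge_atTop T0, eventually_ge_atTop 1] with j h1 h2 h3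
    have hg := (TT_gap h3).1
    have hj1 : (1:ℝ) ≤ j := by exact_mod_cast h3
    have hs : 0 < √(j : ℝ) := Real.sqrt_pos.2 (by linarith)
    set s := √(j : ℝ) with hsd
    have hlog : Real.log (TT j) = s := TT_log j
    have hsp : Real.exp (k ^ 2 * Real.log s) = s ^ ((K + 1) ^ 2) := by
      have : k ^ 2 = (((K + 1) ^ 2 : ℕ) : ℝ) := by push_cast; rw [hk]
      rw [this, Real.exp_nat_mul, Real.exp_log hs]
    have hpw : ∀ t ∈ Icc (TT j) (TT (j + 1)),
        Real.exp (k ^ 2 * κ - δ) * s ^ ((K + 1) ^ 2) * ∏ n ∈ Finset.range (N j), HH K α n t (W n) ≤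
          ‖ff α W (1 / 2 + t * Complex.I)‖ ^ (2 * (K + 1)) ∧
        ‖ff α W (1 / 2 + t * Complex.I)‖ ^ (2 * (K + 1)) ≤
          Real.exp (k ^ 2 * κ + δ) * s ^ ((K + 1) ^ 2) * ∏ n ∈ Finset.range (N j), HH K α n t (W n) := by
      intro t ht
      obtain ⟨y, hy, hf⟩ := hT0 (TT j) h2 t ht.1 (ht.2.trans (TT_double h3)) (N j) (by rw [hlog]; exact h1.1)
      rw [hlog] at hy
      have hp : 0 ≤ ∏ n ∈ Finset.range (N j), HH K α n t (W n) := Finset.prod_nonneg fun n _ => by
        obtain ⟨B, hB⟩ := hh_bd K H n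
        exact (hB t (W n)).1.le
      rw [abs_le] at hy
      rw [hf, ← hsp, ← Real.exp_add, ← Real.exp_add]
      constructor
      · exact mul_le_mul_of_nonneg_right (Real.exp_le_exp.2 (by linarith [hy.1])) hp
      · exact mul_le_mul_of_nonneg_right (Real.exp_le_exp.2 (by linarith [hy.2])) hp
    have hI : IntervalIntegrable (fun t : ℝ => ‖ff α W (1 / 2 + t * Complex.I)‖ ^ (2 * (K + 1))) volume (TT j) (TT (j + 1)) := by
      refine ContinuousOn.intervalIntegrable_of_Icc (by linarith) ?_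
      exact (ff_cont_line H hW _).mono fun t ht => ((TT_pos j).trans_le ht.1 : 0 < t)
    have hp0 : 0 < (TT (j + 1) - TT j) * s ^ ((K + 1) ^ 2) := by positivity
    have e1 : ∀ c : ℝ, ∫ t in TT j..TT (j + 1), c * s ^ ((K + 1) ^ 2) * ∏ n ∈ Finset.range (N j), HH K α n t (W n) =
        c * Q j * ((TT (j + 1) - TT j) * s ^ ((K + 1) ^ 2)) := by
      intro c
      rw [intervalIntegral.integral_const_mul]
      simp only [hQ]
      field_simp
    constructor
    · rw [le_div_iff₀ hp0, ← e1]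
      exact intervalIntegral.integral_mono_on (by linarith) ((continuous_const.mul (hcont j)).intervalIntegrable _ _) hI
        fun t ht => (hpw t ht).1
    · rw [div_le_iff₀ hp0, ← e1]
      exact intervalIntegral.integral_mono_on (by linarith) hI ((continuous_const.mul (hcont j)).intervalIntegrable _ _)
        fun t ht => (hpw t ht).2
  -- the limit
  rw [tendsto_order]
  set E := Real.exp (k ^ 2 * κ) with hE
  have hE0 : 0 < E := Real.exp_pos _
  constructor
  · intro a ha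
    have hlim : Tendsto (fun δ : ℝ => Real.exp (k ^ 2 * κ - δ) * R) (𝓝[>] 0) (𝓝 (E * R)) := by
      have : Continuous fun δ : ℝ => Real.exp (k ^ 2 * κ - δ) * R := by fun_prop
      have h := this.tendsto 0
      simp only [sub_zero] at h
      exact h.mono_left nhdsWithin_le_nhds
    have h1 := (hlim.eventually (lt_mem_nhds (show a < E * R by rw [mul_comm]; exact ha))).and self_mem_nhdsWithin
    obtain ⟨δ, h2, h3⟩ := h1.exists
    have h4 : Tendsto (fun j => Real.exp (k ^ 2 * κ - δ) * Q j) atTop (𝓝 (Real.exp (k ^ 2 * κ - δ) * R)) := hQR.const_mul _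
    filter_upwards [key δ h3, h4.eventually (lt_mem_nhds h2)] with j h5 h6
    exact h6.trans_le h5.1
  · intro a ha
    have hlim : Tendsto (fun δ : ℝ => Real.exp (k ^ 2 * κ + δ) * R) (𝓝[>] 0) (𝓝 (E * R)) := by
      have : Continuous fun δ : ℝ => Real.exp (k ^ 2 * κ + δ) * R := by fun_prop
      have h := this.tendsto 0
      simp only [add_zero] at h
      exact h.mono_left nhdsWithin_le_nhds
    have h1 := (hlim.eventually (gt_mem_nhds (show E * R < a by rw [mul_comm]; exact ha))).and self_mem_nhdsWithin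
    obtain ⟨δ, h2, h3⟩ := h1.exists
    have h4 : Tendsto (fun j => Real.exp (k ^ 2 * κ + δ) * Q j) atTop (𝓝 (Real.exp (k ^ 2 * κ + δ) * R)) := hQR.const_mul _
    filter_upwards [key δ h3, h4.eventually (gt_mem_nhds h2)] with j h5 h6
    exact h5.2.trans_lt h6

/-- the arithmetic factor: partial products of `∏ (1 - 1/p)^(k^2) ∑ binom(m+k-1, m)^2 p^(-m)` -/
theorem arith (K : ℕ) {α : ℕ → ℝ} (H : Cl α) {κ : ℝ} (hκ : IsKap α κ) {W : ℕ → ℝ}
    (hW : ∀ n, W n ∈ Ioc (α n) (α (n + 1))) {c : ℝ} (hc : 0 < c)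
    (hq : Tendsto (fun K => Pool.Agent.H41.BC.q1 α W K) atTop (𝓝 c)) {R : ℝ} (hR : 0 < R)
    (hPS : Tendsto (fun N : ℕ => ∏ n ∈ Finset.range N, PS K α n (W n)) atTop (𝓝 R)) :
    ∃ a : ℝ, 0 < a ∧
      Tendsto (fun N : ℕ => ∏ n ∈ Finset.range N, ((1 - Real.exp (-W n)) ^ ((K + 1) ^ 2) * ph K (W n))) atTop (𝓝 a) ∧
      R * Real.exp (((K : ℝ) + 1) ^ 2 * κ) = a * (c ^ ((K + 1) ^ 2) *
        Real.exp (Real.eulerMascheroniConstant * ((K : ℝ) + 1) ^ 2)) := by
  set I0 : ℝ := ∫ v in (0:ℝ)..α 0, g v * Real.exp (-v) with hI0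
  have hgc : ∀ a b : ℝ, IntervalIntegrable (fun v => g v * Real.exp (-v)) volume a b := fun a b =>
    (Pool.Agent.H41.BC.g_cont.mul (by fun_prop)).intervalIntegrable a b
  -- the relation between the constants
  have hrel : κ = Real.eulerMascheroniConstant - I0 := by
    have h1 : Tendsto (fun L : ℝ => (∫ v in α 0..L, g v * Real.exp (-v)) - Real.log L) atTop
        (𝓝 (Real.eulerMascheroniConstant - I0)) := by
      refine (gam.sub_const I0).congr fun L => ?_
      rw [← intervalIntegral.integral_add_adjacent_intervals (hgc 0 (α 0)) (hgc (α 0) L)]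
      ring
    exact tendsto_nhds_unique hκ h1
  set p : ℕ := (K + 1) ^ 2 with hp
  have hpk : ((K : ℝ) + 1) ^ 2 = (p : ℝ) := by rw [hp]; push_cast; ring
  refine ⟨(c ^ p)⁻¹ * R * Real.exp (-(p * I0)), by positivity, ?_, ?_⟩
  · have h1 : Tendsto (fun N : ℕ => (Pool.Agent.H41.BC.q1 α W N ^ p)⁻¹ * (∏ n ∈ Finset.range N, PS K α n (W n)) *
        Real.exp (-(p * I0))) atTop (𝓝 ((c ^ p)⁻¹ * R * Real.exp (-(p * I0)))) :=
      (((hq.pow p).inv₀ (by positivity)).mul hPS).mul_const _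
    refine h1.congr fun N => ?_
    have hsum : ∑ n ∈ Finset.range N, e2 α n = (∫ v in (0:ℝ)..α N, g v * Real.exp (-v)) - I0 := by
      rw [hI0]
      unfold e2
      rw [intervalIntegral.sum_integral_adjacent_intervals fun n _ => hgc _ _]
      rw [← intervalIntegral.integral_add_adjacent_intervals (hgc 0 (α 0)) (hgc (α 0) (α N))]
      ring
    have hW0 : ∀ n, 0 < 1 - Real.exp (-W n) := fun n => by
      have : Real.exp (-W n) < Real.exp 0 := Real.exp_lt_exp.2 (by linarith [(hW n).1, H.four_le n])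
      rw [Real.exp_zero] at this
      linarith
    have e1 : ∏ n ∈ Finset.range N, PS K α n (W n) =
        (∏ n ∈ Finset.range N, ph K (W n)) * Real.exp (-(p * ((∫ v in (0:ℝ)..α N, g v * Real.exp (-v)) - I0))) := by
      rw [← hsum, Finset.mul_sum, ← Finset.sum_neg_distrib, Real.exp_sum, ← Finset.prod_mul_distrib]
      refine Finset.prod_congr rfl fun n _ => ?_
      unfold PS
      rw [hpk]
    have e2' : Pool.Agent.H41.BC.q1 α W N ^ p = (∏ n ∈ Finset.range N, (1 - Real.exp (-W n)) ^ p)⁻¹ *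
        Real.exp (-(p * ∫ v in (0:ℝ)..α N, g v * Real.exp (-v))) := by
      unfold Pool.Agent.H41.BC.q1
      rw [mul_pow, ← Finset.prod_pow, ← Real.exp_nat_mul, ← Finset.prod_inv_distrib]
      congr 1
      · refine Finset.prod_congr rfl fun n _ => by rw [inv_pow]
      · congr 1; ring
    rw [e1, e2', Finset.prod_mul_distrib, mul_inv, inv_inv, ← Real.exp_neg]
    have e3 : Real.exp (-(-(p * ∫ v in (0:ℝ)..α N, g v * Real.exp (-v)))) *
        Real.exp (-(p * ((∫ v in (0:ℝ)..α N, g v * Real.exp (-v)) - I0))) * Real.exp (-(p * I0)) = 1 := by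
      rw [← Real.exp_add, ← Real.exp_add, Real.exp_eq_one_iff]
      ring
    calc _ = (∏ n ∈ Finset.range N, (1 - Real.exp (-W n)) ^ p) * (∏ n ∈ Finset.range N, ph K (W n)) *
          (Real.exp (-(-(p * ∫ v in (0:ℝ)..α N, g v * Real.exp (-v)))) *
        Real.exp (-(p * ((∫ v in (0:ℝ)..α N, g v * Real.exp (-v)) - I0))) * Real.exp (-(p * I0))) := by ring
      _ = _ := by rw [e3, mul_one]
  · rw [hpk, hrel]
    have e4 : Real.exp (p * (Real.eulerMascheroniConstant - I0)) =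
        Real.exp (-(p * I0)) * Real.exp (Real.eulerMascheroniConstant * p) := by
      rw [← Real.exp_add]; congr 1; ring
    rw [e4]
    have : c ^ p ≠ 0 := by positivity
    field_simp

/-- the moments of the zeta function of the system -/
theorem moments (K : ℕ) {α : ℕ → ℝ} (H : Cl α) {κ : ℝ} (hκ : IsKap α κ) {W : ℕ → ℝ}
    (hW : ∀ n, W n ∈ Ioc (α n) (α (n + 1))) {c : ℝ} (hc : 0 < c)
    (hq : Tendsto (fun K => Pool.Agent.H41.BC.q1 α W K) atTop (𝓝 c)) {N : ℕ → ℕ}
    (hN : ∀ᶠ j : ℕ in atTop, 3 * √(j : ℝ) ≤ α (N j) ∧ α (N j) ≤ 3 * √(j : ℝ) + 1)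
    (hX : Tendsto (fun j => XX K α N j W) atTop (𝓝 0)) :
    ∃ a : ℝ, 0 < a ∧
      Tendsto (fun N : ℕ => ∏ n ∈ Finset.range N, ((1 - Real.exp (-W n)) ^ ((K + 1) ^ 2) * ph K (W n))) atTop (𝓝 a) ∧
      Tendsto (fun T : ℝ => (∫ t in (1 : ℝ)..T, ‖ff α W (1 / 2 + t * Complex.I)‖ ^ (2 * (K + 1))) /
        (T * Real.log T ^ ((K + 1) ^ 2))) atTop
        (𝓝 (a * (c ^ ((K + 1) ^ 2) * Real.exp (Real.eulerMascheroniConstant * ((K : ℝ) + 1) ^ 2)))) := by
  obtain ⟨R, hR, hPS⟩ := psi_lim H hW K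
  obtain ⟨a, ha, h1, h2⟩ := arith K H hκ hW hc hq hR hPS
  refine ⟨a, ha, h1, ?_⟩
  rw [← h2]
  refine blocks ?_ (fun t _ => by positivity) ((K + 1) ^ 2) (avg_lim K H hκ hW hN hPS hX)
  exact (ff_cont_line H hW _).mono fun t (ht : 1 ≤ t) => (lt_of_lt_of_le one_pos ht : 0 < t)

end Pool.Agent.H41.KS
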