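import Pool.Agent.H41.KS.Defs

/-! # Project KS, KS-AE (helper72): the almost sure version of `BC.as_main`, existence of the cells -/

set_option autoImplicit false

open MeasureTheory Filter Topology Set

namespace Pool.Agent.H41.KS

open Pool.Agent.H41.BC

theorem as_ae {α β : ℕ → ℝ} {ρ : ℕ → ℝ → ℝ} (H : Cells α β ρ) : ∀ᵐ W ∂(PP2 α β ρ), (∀ n, W n ∈ Ioc (α n) (β n)) ∧
    ∃ c : ℝ, 0 < c ∧ ∀ ε : ℝ, 0 < ε → ∃ A : ℝ, ∀ x : ℝ, 1 ≤ x →
      |(NN W x : ℝ) - c * x| ≤ A * x ^ (1 / 2 + ε) := by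
  have hex : ∀ j : ℕ, ∃ K : ℕ, X (j + 1) < Real.exp (α K) := by
    intro j
    have h1 : Tendsto (fun K => Real.exp (α K)) atTop atTop := Real.tendsto_exp_atTop.comp H.tendsto
    exact (h1.eventually_gt_atTop _).exists
  choose κ hκ using hex
  have h0 := fun k => law_prob H k
  have hae1 : ∀ᵐ W ∂(PP2 α β ρ), ∀ i : ℕ, ∃ C : ℝ, 0 ≤ C ∧ ∀ j : ℕ, JJ α (κ j) (1 / 2 + ep i) (ep i) (2 * (i + 1)) W ≤
      ENNReal.ofReal (C * ((j : ℝ) + 1) ^ 2) :=
    ae_all_iff.2 fun i => as_fin H _ (by linarith [ep_pos i]) (ep_pos i) κ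
  have hae2 : ∀ᵐ W ∂(PP2 α β ρ), ∀ n, W n ∈ Ioc (α n) (β n) := by
    refine ae_all_iff.2 fun n => ?_
    have h3 := measurePreserving_eval_infinitePi (law2 α β ρ) n
    exact h3.quasiMeasurePreserving.ae (law_mem (α := α) (β := β) (ρ := ρ) n)
  filter_upwards [hae1, hae2] with W hJ hW
  obtain ⟨c, hc, hq⟩ := q_lim H hW
  have hW0 : ∀ k, 0 < W k := fun k => by linarith [(hW k).1, H.four_le k]
  have hWT : Tendsto W atTop atTop := tendsto_atTop_mono (fun n => (hW n).1.le) H.tendsto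
  refine ⟨hW, c, hc, fun ε hε => ?_⟩
  obtain ⟨i, hi⟩ := exists_nat_gt (1 / ε)
  set e := ep i with he
  have he0 : 0 < e := ep_pos i
  have he1 : e ≤ 1 / 4 := ep_le i
  have h4e : 4 * e ≤ ε := by
    rw [he]; unfold ep
    have h1 : 4 * (1 / (4 * ((i : ℝ) + 1))) = 1 / ((i : ℝ) + 1) := by field_simp
    rw [h1, div_le_iff₀ (by positivity)]
    rw [div_lt_iff₀ hε] at hi
    nlinarith
  obtain ⟨A, hA, hD⟩ := grid H hW hκ (i := i) (c := c)
    (hq (1 / 2 + ep i) (by linarith) (by linarith)) (hJ i)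
  -- counting
  have hcnt : ∀ j : ℕ, (NN W (X j) : ℝ) ≤ c * (X j + X (j + 1)) / 2 + A * X (j + 1) ^ (1 / 2 + 4 * e) ∧
      c * (X j + X (j + 1)) / 2 - A * X (j + 1) ^ (1 / 2 + 4 * e) ≤ NN W (X (j + 1)) := by
    intro j
    have hj : (0:ℝ) ≤ j := Nat.cast_nonneg j
    have hx0 : 0 < X j := by unfold X; positivity
    have hxy : X j < X (j + 1) := by rw [X_succ]; unfold X; nlinarith
    have hc1 := cnt (W := W) (K := κ j) (x := X j) (y := X (j + 1)) hW0 hWT (fun k hk =>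
      (hκ j).trans (Real.exp_lt_exp.2 (lt_of_le_of_lt (H.alpha_mono.monotone hk) (hW k).1))) hx0 hxy
    have hh : 0 < X (j + 1) - X j := by linarith
    have hd := abs_le.1 (hD j)
    have h1 : (NN W (X j) : ℝ) ≤ (Rz (κ j) W (X (j + 1)) - Rz (κ j) W (X j)) / (X (j + 1) - X j) := by
      rw [le_div_iff₀ hh, mul_comm]; exact hc1.1
    have h2 : (Rz (κ j) W (X (j + 1)) - Rz (κ j) W (X j)) / (X (j + 1) - X j) ≤ NN W (X (j + 1)) := by
      rw [div_le_iff₀ hh, mul_comm]; exact hc1.2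
    constructor <;> linarith [hd.1, hd.2]
  set p : ℝ := 1 / 2 + 4 * e with hp
  have hp0 : 0 < p := by linarith
  have hp2 : p ≤ 3 / 2 := by linarith
  set A1 : ℝ := 6 * c + 8 * A + NN W 9 + 9 * c with hA1
  have hN9 : (0:ℝ) ≤ NN W 9 := Nat.cast_nonneg _
  refine ⟨A1, fun x hx => ?_⟩
  have hx0 : 0 < x := by linarith
  have hxe : x ^ p ≤ x ^ (1 / 2 + ε) := Real.rpow_le_rpow_of_exponent_le hx (by rw [hp]; linarith)
  have hA10 : 0 ≤ A1 := by positivity
  refine le_trans ?_ (mul_le_mul_of_nonneg_left hxe hA10)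
  have hxp1 : 1 ≤ x ^ p := Real.one_le_rpow hx hp0.le
  rcases lt_or_ge x 9 with h9 | h9
  · have h1 : (NN W x : ℝ) ≤ NN W 9 := by exact_mod_cast NN_mono hW0 hWT h9.le
    have h2 : |(NN W x : ℝ) - c * x| ≤ NN W 9 + 9 * c := by
      rw [abs_le]
      constructor
      · have : (0:ℝ) ≤ NN W x := Nat.cast_nonneg _
        nlinarith
      · nlinarith
    refine h2.trans ?_
    rw [hA1]
    nlinarith
  · -- the grid point
    have hs3 : 3 ≤ √x := by
      rw [show (3:ℝ) = √9 by rw [show (9:ℝ) = 3 ^ 2 by norm_num]; exact (Real.sqrt_sq (by norm_num)).symm]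
      exact Real.sqrt_le_sqrt h9
    have hsq : √x ^ 2 = x := Real.sq_sqrt hx0.le
    have hs0 : 0 ≤ √x := Real.sqrt_nonneg x
    obtain ⟨j, hj⟩ : ∃ j : ℕ, ⌊√x⌋₊ = j + 3 := by
      have : 3 ≤ ⌊√x⌋₊ := Nat.le_floor (by exact_mod_cast hs3)
      exact ⟨⌊√x⌋₊ - 3, by omega⟩
    have hj1 : (j : ℝ) + 3 ≤ √x := by
      have := Nat.floor_le hs0
      rw [hj] at this
      push_cast at this
      exact this
    have hj2 : √x < (j : ℝ) + 4 := by
      have := Nat.lt_floor_add_one (√x)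
      rw [hj] at this
      push_cast at this
      linarith
    have hj0 : (0:ℝ) ≤ j := Nat.cast_nonneg j
    have e1 : X (j + 1) = ((j : ℝ) + 3) ^ 2 := X_succ j
    have e2 : X (j + 1 + 1) = ((j : ℝ) + 4) ^ 2 := by rw [X_succ]; push_cast; ring
    have e3 : X (j + 1 + 1 + 1) = ((j : ℝ) + 5) ^ 2 := by rw [X_succ]; push_cast; ring
    have e0 : X j = ((j : ℝ) + 2) ^ 2 := rfl
    have hxa : X (j + 1) ≤ x := by rw [e1]; nlinarith
    have hxb : x ≤ X (j + 1 + 1) := by rw [e2]; nlinarith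
    have hlow := (hcnt j).2
    have hup := (hcnt (j + 1 + 1)).1
    have hm1 : (NN W (X (j + 1)) : ℝ) ≤ NN W x := by exact_mod_cast NN_mono hW0 hWT hxa
    have hm2 : (NN W x : ℝ) ≤ NN W (X (j + 1 + 1)) := by exact_mod_cast NN_mono hW0 hWT hxb
    have hsp : √x ≤ x ^ p := by
      rw [Real.sqrt_eq_rpow]
      exact Real.rpow_le_rpow_of_exponent_le hx (by rw [hp]; linarith)
    -- powers
    have hpw1 : X (j + 1) ^ p ≤ x ^ p := Real.rpow_le_rpow (by rw [e1]; positivity) hxa hp0.le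
    have hpw2 : X (j + 1 + 1 + 1) ^ p ≤ 8 * x ^ p := by
      have h1 : X (j + 1 + 1 + 1) ≤ 4 * x := by rw [e3]; nlinarith
      calc X (j + 1 + 1 + 1) ^ p ≤ (4 * x) ^ p := Real.rpow_le_rpow (by rw [e3]; positivity) h1 hp0.le
        _ = 4 ^ p * x ^ p := Real.mul_rpow (by norm_num) hx0.le
        _ ≤ 8 * x ^ p := by
            refine mul_le_mul_of_nonneg_right ?_ (by positivity)
            calc (4:ℝ) ^ p ≤ 4 ^ (3 / 2 : ℝ) := Real.rpow_le_rpow_of_exponent_le (by norm_num) hp2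
              _ = 8 := by
                rw [show (4:ℝ) = 2 ^ (2:ℝ) by norm_num, ← Real.rpow_mul (by norm_num)]; norm_num
    have hcx1 : c * x - 6 * c * √x ≤ c * (X j + X (j + 1)) / 2 := by
      have a1 : (√x - 2) ^ 2 ≤ ((j : ℝ) + 2) ^ 2 := pow_le_pow_left₀ (by linarith) (by linarith) 2
      have a2 : (√x - 1) ^ 2 ≤ ((j : ℝ) + 3) ^ 2 := pow_le_pow_left₀ (by linarith) (by linarith) 2
      have a3 : x - 6 * √x ≤ (X j + X (j + 1)) / 2 := by
        rw [e0, e1]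
        have : (√x - 2) ^ 2 + (√x - 1) ^ 2 = 2 * x - 6 * √x + 5 := by
          have : (√x - 2) ^ 2 + (√x - 1) ^ 2 = 2 * √x ^ 2 - 6 * √x + 5 := by ring
          rw [this, hsq]
        linarith
      have a4 := mul_le_mul_of_nonneg_left a3 hc.le
      linarith
    have hcx2 : c * (X (j + 1 + 1) + X (j + 1 + 1 + 1)) / 2 ≤ c * x + 6 * c * √x := by
      have a1 : ((j : ℝ) + 4) ^ 2 ≤ (√x + 1) ^ 2 := pow_le_pow_left₀ (by linarith) (by linarith) 2
      have a2 : ((j : ℝ) + 5) ^ 2 ≤ (√x + 2) ^ 2 := pow_le_pow_left₀ (by linarith) (by linarith) 2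
      have a3 : (X (j + 1 + 1) + X (j + 1 + 1 + 1)) / 2 ≤ x + 6 * √x := by
        rw [e2, e3]
        have : (√x + 1) ^ 2 + (√x + 2) ^ 2 = 2 * x + 6 * √x + 5 := by
          have : (√x + 1) ^ 2 + (√x + 2) ^ 2 = 2 * √x ^ 2 + 6 * √x + 5 := by ring
          rw [this, hsq]
        linarith
      have a4 := mul_le_mul_of_nonneg_left a3 hc.le
      linarith
    have hc6 : 6 * c * √x ≤ 6 * c * x ^ p := mul_le_mul_of_nonneg_left hsp (by positivity)
    have hA2 := mul_le_mul_of_nonneg_left hpw1 hA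
    have hA3 := mul_le_mul_of_nonneg_left hpw2 hA
    have hxp0 : 0 ≤ x ^ p := by positivity
    have hAx : 0 ≤ A * x ^ p := by positivity
    have hr : A1 * x ^ p = 6 * c * x ^ p + 8 * (A * x ^ p) + (NN W 9 + 9 * c) * x ^ p := by rw [hA1]; ring
    have hr2 : 0 ≤ (NN W 9 + 9 * c) * x ^ p := by positivity
    rw [abs_le, hr]
    constructor
    · linarith
    · linarith

/-- existence of the cells (`BC.cell_exists`) -/
theorem exists_cl : ∃ α : ℕ → ℝ, Cl α := by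
  choose nx hnx using fun a : {a : ℝ // 4 ≤ a} => cell_exists a.2
  let st : {a : ℝ // 4 ≤ a} → {a : ℝ // 4 ≤ a} := fun a => ⟨nx a, a.2.trans (hnx a).1.le⟩
  let al : ℕ → {a : ℝ // 4 ≤ a} := fun n => st^[n] ⟨4, le_rfl⟩
  have hs : ∀ n, (al (n + 1) : ℝ) = nx (al n) := by
    intro n
    show ((st^[n + 1] ⟨4, le_rfl⟩ : {a : ℝ // 4 ≤ a}) : ℝ) = nx (st^[n] ⟨4, le_rfl⟩)
    rw [Function.iterate_succ_apply']
  refine ⟨fun n => al n, ?_⟩
  refine ⟨(al 0).2, fun n => ?_, fun n => ?_, fun n => le_rfl, fun _ => g_cont, fun n v hv => ?_,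
    fun n v hv => ?_, fun n => ?_, fun σ _ => ?_⟩
  · show (al n : ℝ) < al (n + 1)
    rw [hs]; exact (hnx (al n)).1
  · show (al (n + 1) : ℝ) ≤ al n + 1
    rw [hs]; exact (hnx (al n)).2.1
  · have h1 : (4 : ℝ) ≤ v := (al n).2.trans hv.1
    exact (g_pos (by linarith)).le
  · have h1 : (4 : ℝ) ≤ v := (al n).2.trans hv.1
    have := g_le (v := v) (by linarith)
    have h2 := Real.exp_pos v
    linarith
  · show ∫ v in (al n : ℝ)..(al (n + 1) : ℝ), g v = 1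
    rw [hs]; exact (hnx (al n)).2.2
  · simp

end Pool.Agent.H41.KS
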