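import Pool.Agent.H41.KS.Defs

/-! # Project KS, stub KS-BLK: from the blocks to `[1, T]` (helper35) -/

set_option autoImplicit false

open MeasureTheory Filter Topology Set

namespace Pool.Agent.H41.KS

/-- `exp (√j) (√j)^p` -/
noncomputable def blk_b (p : ℕ) (j : ℕ) : ℝ := TT j * √(j : ℝ) ^ p

theorem blk_TT_pos (j : ℕ) : 0 < TT j := Real.exp_pos _

theorem blk_TT_zero : TT 0 = 1 := by unfold TT; simp

theorem blk_TT_mono {i j : ℕ} (h : i ≤ j) : TT i ≤ TT j := by
  unfold TT
  exact Real.exp_le_exp.2 (Real.sqrt_le_sqrt (by exact_mod_cast h))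

theorem blk_TT_one (j : ℕ) : 1 ≤ TT j := by
  rw [← blk_TT_zero]; exact blk_TT_mono (Nat.zero_le j)

theorem blk_sqrt_top : Tendsto (fun j : ℕ => √(j : ℝ)) atTop atTop :=
  Real.tendsto_sqrt_atTop.comp tendsto_natCast_atTop_atTop

/-- facts on `x = √(j+1)`, `y = √j`, `δ = x - y` for `j ≥ 1` -/
theorem blk_facts {j : ℕ} (hj : 1 ≤ j) : 1 ≤ √(j : ℝ) ∧ √(j : ℝ) ≤ √((j + 1 : ℕ) : ℝ) ∧
    √((j + 1 : ℕ) : ℝ) ≤ 2 * √(j : ℝ) ∧ √((j + 1 : ℕ) : ℝ) - √(j : ℝ) ≤ 1 / √(j : ℝ) ∧
    0 < √((j + 1 : ℕ) : ℝ) - √(j : ℝ) := by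
  have hj' : (1 : ℝ) ≤ j := by exact_mod_cast hj
  have h1 : 1 ≤ √(j : ℝ) := by
    rw [show (1 : ℝ) = √1 by simp]; exact Real.sqrt_le_sqrt hj'
  have h2 : √(j : ℝ) < √((j + 1 : ℕ) : ℝ) := by
    refine Real.sqrt_lt_sqrt (by positivity) ?_
    push_cast; linarith
  have hy := Real.sq_sqrt (show (0 : ℝ) ≤ j by positivity)
  have hx := Real.sq_sqrt (show (0 : ℝ) ≤ ((j + 1 : ℕ) : ℝ) by positivity)
  push_cast at hx h2 ⊢
  refine ⟨h1, h2.le, ?_, ?_, by linarith⟩
  · nlinarith
  · rw [le_div_iff₀ (by linarith)]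
    nlinarith

theorem blk_b_top (p : ℕ) : Tendsto (blk_b p) atTop atTop := by
  have h1 : Tendsto (fun j : ℕ => TT j) atTop atTop :=
    Real.tendsto_exp_atTop.comp blk_sqrt_top
  refine tendsto_atTop_mono' _ ?_ h1
  filter_upwards [eventually_ge_atTop 1] with j hj
  have h2 : 1 ≤ √(j : ℝ) ^ p := one_le_pow₀ (blk_facts hj).1
  unfold blk_b
  exact le_mul_of_one_le_right (blk_TT_pos j).le h2

theorem blk_b_mono (p : ℕ) {i j : ℕ} (h : i ≤ j) : blk_b p i ≤ blk_b p j := by
  unfold blk_b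
  exact mul_le_mul (blk_TT_mono h)
    (pow_le_pow_left₀ (Real.sqrt_nonneg _) (Real.sqrt_le_sqrt (by exact_mod_cast h)) p)
    (by positivity) (blk_TT_pos j).le

theorem blk_b_pos (p : ℕ) {j : ℕ} (hj : 1 ≤ j) : 0 < blk_b p j := by
  have := (blk_facts hj).1
  unfold blk_b
  exact mul_pos (blk_TT_pos j) (pow_pos (by linarith) p)

/-- the weight of a block -/
noncomputable def blk_w (p : ℕ) (j : ℕ) : ℝ := (TT (j + 1) - TT j) * √(j : ℝ) ^ p

theorem blk_w_pos (p : ℕ) {j : ℕ} (hj : 1 ≤ j) : 0 < blk_w p j := by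
  obtain ⟨h1, h2, h3, h4, h5⟩ := blk_facts hj
  unfold blk_w
  refine mul_pos ?_ (pow_pos (by linarith) p)
  have : TT j < TT (j + 1) := by
    unfold TT
    exact Real.exp_lt_exp.2 (by linarith)
  linarith

theorem blk_key (p : ℕ) {j : ℕ} (hj : 1 ≤ j) : blk_w p j ≤ blk_b p (j + 1) - blk_b p j ∧
    blk_b p (j + 1) - blk_b p j ≤ (1 + 2 * p * 2 ^ p / √(j : ℝ)) * blk_w p j := by
  obtain ⟨h1, h2, h3, h4, h5⟩ := blk_facts hj
  set y := √(j : ℝ) with hy
  set x := √((j + 1 : ℕ) : ℝ) with hx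
  have hyp : 0 < y := by linarith
  have hxp : 0 < x := by linarith
  have hd1 : x - y ≤ 1 := h4.trans (by rw [div_le_one hyp]; exact h1)
  have hT : 0 < TT (j + 1) := blk_TT_pos _
  have hpow : y ^ p ≤ x ^ p := pow_le_pow_left₀ hyp.le h2 p
  have heq : blk_b p (j + 1) - blk_b p j = blk_w p j + TT (j + 1) * (x ^ p - y ^ p) := by
    unfold blk_b blk_w
    rw [← hy, ← hx]; ring
  -- Bernoulli
  have hB : x ^ p - y ^ p ≤ p * ((x - y) / x) * x ^ p := by
    have h6 : (-2 : ℝ) ≤ (y - x) / x := by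
      rw [le_div_iff₀ hxp]; linarith
    have h7 := one_add_mul_le_pow h6 p
    have h8 : 1 + (y - x) / x = y / x := by field_simp; ring
    rw [h8, div_pow, le_div_iff₀ (pow_pos hxp p)] at h7
    have h9 : (y - x) / x = -((x - y) / x) := by rw [← neg_div]; ring
    rw [h9] at h7
    nlinarith
  have hx2 : x ^ p ≤ 2 ^ p * y ^ p := by
    rw [← mul_pow]; exact pow_le_pow_left₀ hxp.le h3 p
  -- the difference of the exponentials
  have hE : TT (j + 1) * ((x - y) / 2) ≤ TT (j + 1) - TT j := by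
    have h10 : TT j = TT (j + 1) * Real.exp (-(x - y)) := by
      unfold TT
      rw [← Real.exp_add, ← hy, ← hx]; congr 1; ring
    have h11 : Real.exp (-(x - y)) ≤ 1 - (x - y) / 2 := by
      rw [Real.exp_neg, inv_le_comm₀ (Real.exp_pos _) (by linarith)]
      have h12 := Real.add_one_le_exp (x - y)
      refine le_trans ?_ h12
      rw [inv_le_iff_one_le_mul₀ (by linarith)]
      nlinarith
    rw [h10]
    nlinarith
  have hR : TT (j + 1) * (x ^ p - y ^ p) ≤ 2 * p * 2 ^ p / y * blk_w p j := by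
    have hyx : (x - y) / x ≤ (x - y) / y := div_le_div_of_nonneg_left h5.le hyp h2
    calc TT (j + 1) * (x ^ p - y ^ p) ≤ TT (j + 1) * (p * ((x - y) / x) * x ^ p) :=
          mul_le_mul_of_nonneg_left hB hT.le
      _ ≤ TT (j + 1) * (p * ((x - y) / y) * (2 ^ p * y ^ p)) := by
          refine mul_le_mul_of_nonneg_left ?_ hT.le
          refine mul_le_mul (mul_le_mul_of_nonneg_left hyx (by positivity)) hx2 (by positivity) ?_
          exact mul_nonneg (by positivity) (div_nonneg h5.le hyp.le)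
      _ = 2 * p * 2 ^ p / y * ((TT (j + 1) * ((x - y) / 2)) * y ^ p) := by
          field_simp
      _ ≤ 2 * p * 2 ^ p / y * blk_w p j := by
          refine mul_le_mul_of_nonneg_left ?_ (by positivity)
          unfold blk_w
          rw [← hy]
          exact mul_le_mul_of_nonneg_right hE (by positivity)
  rw [heq]
  constructor
  · have : 0 ≤ TT (j + 1) * (x ^ p - y ^ p) := mul_nonneg hT.le (by linarith)
    linarith
  · linarith

theorem blk_ratio (p : ℕ) :
    Tendsto (fun j : ℕ => blk_w p j / (blk_b p (j + 1) - blk_b p j)) atTop (𝓝 1) := by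
  have h1 : Tendsto (fun j : ℕ => (1 + 2 * (p : ℝ) * 2 ^ p / √(j : ℝ))⁻¹) atTop (𝓝 1) := by
    have h2 : Tendsto (fun j : ℕ => 2 * (p : ℝ) * 2 ^ p / √(j : ℝ)) atTop (𝓝 0) :=
      blk_sqrt_top.const_div_atTop _
    have h3 := (h2.const_add 1).inv₀ (by norm_num)
    simpa using h3
  refine tendsto_of_tendsto_of_tendsto_of_le_of_le' h1 tendsto_const_nhds ?_ ?_
  · filter_upwards [eventually_ge_atTop 1] with j hj
    obtain ⟨h2, h3⟩ := blk_key p hj
    have h4 := blk_w_pos p hj
    have h5 : 0 < 1 + 2 * (p : ℝ) * 2 ^ p / √(j : ℝ) := by positivity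
    rw [le_div_iff₀ (by linarith), inv_mul_le_iff₀ h5]
    exact h3
  · filter_upwards [eventually_ge_atTop 1] with j hj
    obtain ⟨h2, h3⟩ := blk_key p hj
    have h4 := blk_w_pos p hj
    rw [div_le_one (by linarith)]
    exact h2

theorem blk_b_ratio (p : ℕ) :
    Tendsto (fun j : ℕ => blk_b p (j + 1) / blk_b p j) atTop (𝓝 1) := by
  have hinv : Tendsto (fun j : ℕ => 1 / √(j : ℝ)) atTop (𝓝 0) := blk_sqrt_top.const_div_atTop _
  have hd : Tendsto (fun j : ℕ => √((j + 1 : ℕ) : ℝ) - √(j : ℝ)) atTop (𝓝 0) := by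
    refine tendsto_of_tendsto_of_tendsto_of_le_of_le' tendsto_const_nhds hinv ?_ ?_
    · filter_upwards [eventually_ge_atTop 1] with j hj
      exact (blk_facts hj).2.2.2.2.le
    · filter_upwards [eventually_ge_atTop 1] with j hj
      exact (blk_facts hj).2.2.2.1
  have h1 : Tendsto (fun j : ℕ => Real.exp (√((j + 1 : ℕ) : ℝ) - √(j : ℝ))) atTop (𝓝 1) := by
    have := (Real.continuous_exp.tendsto 0).comp hd
    rwa [Real.exp_zero] at this
  have h2 : Tendsto (fun j : ℕ => (1 + (√((j + 1 : ℕ) : ℝ) - √(j : ℝ)) * (1 / √(j : ℝ))) ^ p)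
      atTop (𝓝 1) := by
    have h3 := ((hd.mul hinv).const_add 1).pow p
    simpa using h3
  have h4 := h1.mul h2
  rw [mul_one] at h4
  refine h4.congr' ?_
  filter_upwards [eventually_ge_atTop 1] with j hj
  obtain ⟨h5, -, -, -, -⟩ := blk_facts hj
  have h6 : √(j : ℝ) ≠ 0 := by linarith
  have h7 : 1 + (√((j + 1 : ℕ) : ℝ) - √(j : ℝ)) * (1 / √(j : ℝ)) =
      √((j + 1 : ℕ) : ℝ) / √(j : ℝ) := by
    field_simp; ring
  rw [h7, div_pow, Real.exp_sub]
  unfold blk_b TT
  rw [div_mul_div_comm]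

theorem blocks {F : ℝ → ℝ} (hc : ContinuousOn F (Ici 1)) (h0 : ∀ t, 1 ≤ t → 0 ≤ F t) (p : ℕ) {C : ℝ}
    (h : Tendsto (fun j : ℕ => (∫ t in TT j..TT (j + 1), F t) / ((TT (j + 1) - TT j) * √(j : ℝ) ^ p)) atTop (𝓝 C)) :
    Tendsto (fun T : ℝ => (∫ t in (1 : ℝ)..T, F t) / (T * Real.log T ^ p)) atTop (𝓝 C) := by
  have hint : ∀ u v : ℝ, 1 ≤ u → 1 ≤ v → IntervalIntegrable F volume u v := by
    intro u v hu hv
    refine (hc.mono ?_).intervalIntegrable
    intro t ht
    rw [mem_uIcc] at ht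
    rcases ht with ht | ht
    · exact hu.trans ht.1
    · exact hv.trans ht.1
  -- the integral over the first blocks
  set a : ℕ → ℝ := fun j => ∫ t in (1 : ℝ)..TT j, F t with ha
  have hstep : ∀ j, a (j + 1) - a j = ∫ t in TT j..TT (j + 1), F t := fun j =>
    intervalIntegral.integral_interval_sub_left (hint _ _ le_rfl (blk_TT_one _))
      (hint _ _ le_rfl (blk_TT_one _))
  have ha0 : a 0 = 0 := by simp only [ha]; rw [blk_TT_zero]; simp
  have hq : Tendsto (fun j : ℕ => (a (j + 1) - a j) / (blk_b p (j + 1) - blk_b p j)) atTop (𝓝 C) := by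
    have h1 := h.mul (blk_ratio p)
    rw [mul_one] at h1
    refine h1.congr' ?_
    filter_upwards [eventually_ge_atTop 1] with j hj
    have h2 := blk_w_pos p hj
    have h3 := (blk_key p hj).1
    rw [hstep]
    have h4 : (TT (j + 1) - TT j) * √(j : ℝ) ^ p = blk_w p j := rfl
    rw [h4, div_mul_div_cancel₀ h2.ne']
  have hsmall : (fun j : ℕ => (a (j + 1) - a j) - C * (blk_b p (j + 1) - blk_b p j)) =o[atTop]
      fun j : ℕ => blk_b p (j + 1) - blk_b p j := by
    refine (Asymptotics.isLittleO_iff_tendsto' ?_).2 ?_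
    · filter_upwards [eventually_ge_atTop 1] with j hj h1
      have h2 := blk_w_pos p hj
      have h3 := (blk_key p hj).1
      linarith
    · have h1 : Tendsto (fun j : ℕ => (a (j + 1) - a j) / (blk_b p (j + 1) - blk_b p j) - C)
          atTop (𝓝 0) := by
        have := hq.sub_const C
        rwa [sub_self] at this
      refine h1.congr' ?_
      filter_upwards [eventually_ge_atTop 1] with j hj
      have h2 := blk_w_pos p hj
      have h3 := (blk_key p hj).1
      have h4 : blk_b p (j + 1) - blk_b p j ≠ 0 := by linarith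
      field_simp
  have hsum := hsmall.sum_range (fun j => by
      have := blk_b_mono p (Nat.le_succ j)
      simp only [Pi.zero_apply]
      linarith) (by
      have h1 : (fun n : ℕ => ∑ i ∈ Finset.range n, (blk_b p (i + 1) - blk_b p i)) =
          fun n => blk_b p n - blk_b p 0 := by
        funext n; exact Finset.sum_range_sub _ n
      rw [h1]
      exact tendsto_atTop_add_const_right _ _ (blk_b_top p))
  have e1 : (fun n : ℕ => ∑ i ∈ Finset.range n, ((a (i + 1) - a i) -
      C * (blk_b p (i + 1) - blk_b p i))) = fun n => a n - C * (blk_b p n - blk_b p 0) := by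
    funext n
    rw [Finset.sum_sub_distrib, ← Finset.mul_sum, Finset.sum_range_sub, Finset.sum_range_sub, ha0]
    ring
  have e2 : (fun n : ℕ => ∑ i ∈ Finset.range n, (blk_b p (i + 1) - blk_b p i)) =
      fun n => blk_b p n - blk_b p 0 := by
    funext n; exact Finset.sum_range_sub _ n
  rw [e1, e2] at hsum
  have hbt := blk_b_top p
  have hb0 : Tendsto (fun n : ℕ => blk_b p 0 / blk_b p n) atTop (𝓝 0) := hbt.const_div_atTop _
  have hlim : Tendsto (fun n : ℕ => a n / blk_b p n) atTop (𝓝 C) := by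
    have h1 : (fun n : ℕ => blk_b p n - blk_b p 0) =O[atTop] blk_b p := by
      refine Asymptotics.IsBigO.of_bound 1 ?_
      filter_upwards [eventually_ge_atTop 1] with n hn
      have h2 := blk_b_mono p (Nat.zero_le n)
      have h3 : 0 ≤ blk_b p 0 := by unfold blk_b TT; positivity
      rw [Real.norm_eq_abs, Real.norm_eq_abs, abs_of_nonneg (by linarith),
        abs_of_nonneg (by linarith)]
      linarith
    have h4 := (hsum.trans_isBigO h1).tendsto_div_nhds_zero
    have h5 : Tendsto (fun n : ℕ => (a n - C * (blk_b p n - blk_b p 0)) / blk_b p n +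
        C * (1 - blk_b p 0 / blk_b p n)) atTop (𝓝 (0 + C * (1 - 0))) :=
      h4.add ((hb0.const_sub 1).const_mul C)
    rw [zero_add, sub_zero, mul_one] at h5
    refine h5.congr' ?_
    filter_upwards [eventually_ge_atTop 1] with n hn
    have h6 := (blk_b_pos p hn).ne'
    field_simp
    ring
  -- all `T`
  set J : ℝ → ℕ := fun T => ⌊Real.log T ^ 2⌋₊ with hJ
  have hJt : Tendsto J atTop atTop :=
    tendsto_nat_floor_atTop.comp ((tendsto_pow_atTop (by norm_num)).comp Real.tendsto_log_atTop)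
  have hlo : Tendsto (fun T : ℝ => a (J T) / blk_b p (J T + 1)) atTop (𝓝 C) := by
    have h1 : Tendsto (fun n : ℕ => a n / blk_b p (n + 1)) atTop (𝓝 C) := by
      have h2 := hlim.mul ((blk_b_ratio p).inv₀ one_ne_zero)
      rw [inv_one, mul_one] at h2
      refine h2.congr' ?_
      filter_upwards [eventually_ge_atTop 1] with n hn
      have h6 := (blk_b_pos p hn).ne'
      have h7 := (blk_b_pos p (show 1 ≤ n + 1 by omega)).ne'
      field_simp
    exact h1.comp hJt
  have hhi : Tendsto (fun T : ℝ => a (J T + 1) / blk_b p (J T)) atTop (𝓝 C) := by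
    have h1 : Tendsto (fun n : ℕ => a (n + 1) / blk_b p n) atTop (𝓝 C) := by
      have h2 := (hlim.comp (tendsto_add_atTop_nat 1)).mul (blk_b_ratio p)
      rw [mul_one] at h2
      refine h2.congr' ?_
      filter_upwards [eventually_ge_atTop 1] with n hn
      have h6 := (blk_b_pos p hn).ne'
      have h7 := (blk_b_pos p (show 1 ≤ n + 1 by omega)).ne'
      simp only [Function.comp]
      field_simp
    exact h1.comp hJt
  have hpt : ∀ T : ℝ, Real.exp 1 ≤ T → 1 ≤ J T ∧ √(J T : ℝ) ≤ Real.log T ∧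
      Real.log T ≤ √((J T + 1 : ℕ) : ℝ) := by
    intro T hT
    have hTp : 0 < T := (Real.exp_pos 1).trans_le hT
    have hl : 1 ≤ Real.log T := by rwa [Real.le_log_iff_exp_le hTp]
    refine ⟨?_, ?_, ?_⟩
    · refine Nat.le_floor ?_
      push_cast
      nlinarith
    · rw [Real.sqrt_le_left (by linarith)]
      exact Nat.floor_le (sq_nonneg _)
    · refine Real.le_sqrt_of_sq_le ?_
      push_cast
      exact (Nat.lt_floor_add_one _).le
  have hpos : ∀ u v : ℝ, 1 ≤ u → u ≤ v → ∫ t in (1 : ℝ)..u, F t ≤ ∫ t in (1 : ℝ)..v, F t := by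
    intro u v hu huv
    have h1 : ∫ t in (1 : ℝ)..v, F t = (∫ t in (1 : ℝ)..u, F t) + ∫ t in u..v, F t :=
      (intervalIntegral.integral_add_adjacent_intervals (hint _ _ le_rfl hu)
        (hint _ _ hu (hu.trans huv))).symm
    have h2 : 0 ≤ ∫ t in u..v, F t :=
      intervalIntegral.integral_nonneg huv fun t ht => h0 t (hu.trans ht.1)
    linarith
  refine tendsto_of_tendsto_of_tendsto_of_le_of_le' hlo hhi ?_ ?_
  · filter_upwards [eventually_ge_atTop (Real.exp 1)] with T hT
    obtain ⟨h1, h2, h3⟩ := hpt T hT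
    have hTp : 0 < T := (Real.exp_pos 1).trans_le hT
    have hl : 0 < Real.log T := by
      have : 1 ≤ Real.log T := by rwa [Real.le_log_iff_exp_le hTp]
      linarith
    have h4 : TT (J T) ≤ T := by
      unfold TT
      rw [← Real.le_log_iff_exp_le hTp]; exact h2
    have h5 : T ≤ TT (J T + 1) := by
      unfold TT
      rw [← Real.log_le_iff_le_exp hTp]; exact h3
    have h6 : T * Real.log T ^ p ≤ blk_b p (J T + 1) := by
      unfold blk_b
      exact mul_le_mul h5 (pow_le_pow_left₀ hl.le h3 p) (by positivity) (blk_TT_pos _).le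
    have h7 : a (J T) ≤ ∫ t in (1 : ℝ)..T, F t := hpos _ _ (blk_TT_one _) h4
    have h8 : 0 ≤ a (J T) := intervalIntegral.integral_nonneg (blk_TT_one _) fun t ht => h0 t ht.1
    exact div_le_div₀ (h8.trans h7) h7 (by positivity) h6
  · filter_upwards [eventually_ge_atTop (Real.exp 1)] with T hT
    obtain ⟨h1, h2, h3⟩ := hpt T hT
    have hTp : 0 < T := (Real.exp_pos 1).trans_le hT
    have hl : 0 < Real.log T := by
      have : 1 ≤ Real.log T := by rwa [Real.le_log_iff_exp_le hTp]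
      linarith
    have h4 : TT (J T) ≤ T := by
      unfold TT
      rw [← Real.le_log_iff_exp_le hTp]; exact h2
    have h5 : T ≤ TT (J T + 1) := by
      unfold TT
      rw [← Real.log_le_iff_le_exp hTp]; exact h3
    have h6 : blk_b p (J T) ≤ T * Real.log T ^ p := by
      unfold blk_b
      exact mul_le_mul h4 (pow_le_pow_left₀ (Real.sqrt_nonneg _) h2 p) (by positivity) hTp.le
    have h7 : ∫ t in (1 : ℝ)..T, F t ≤ a (J T + 1) := hpos _ _ ((blk_TT_one _).trans h4) h5
    have h8 : 0 ≤ a (J T + 1) :=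
      intervalIntegral.integral_nonneg (blk_TT_one _) fun t ht => h0 t ht.1
    exact div_le_div₀ h8 h7 (blk_b_pos p h1) h6

end Pool.Agent.H41.KS
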