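import Pool.Agent.H41.KS.Ee

/-! # Project KS, stub KS-CONT: the continuation of the zeta function (helper4) -/

set_option autoImplicit false

open MeasureTheory Filter Topology Set

namespace Pool.Agent.H41.KS

open Pool.Agent.H41.BC (g tr Cells law2 PP2 NN)

namespace Cont

lemma log3 {z : ℂ} (hz : ‖z‖ ≤ 1 / 2) : ‖-Complex.log (1 - z) - z - z ^ 2 / 2‖ ≤ ‖z‖ ^ 3 := by
  have h1 : ‖-z‖ < 1 := by rw [norm_neg]; linarith
  have h2 := Complex.norm_log_sub_logTaylor_le 2 h1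
  have h3 : Complex.logTaylor (2 + 1) (-z) = -z - z ^ 2 / 2 := by
    simp [Complex.logTaylor_succ, Complex.logTaylor_zero]; ring
  rw [h3, norm_neg, ← sub_eq_add_neg] at h2
  have h4 : (1 - ‖z‖)⁻¹ ≤ 2 := by
    rw [inv_le_comm₀ (by linarith) (by norm_num)]; linarith
  have h5 : ‖-Complex.log (1 - z) - z - z ^ 2 / 2‖ = ‖Complex.log (1 - z) - (-z - z ^ 2 / 2)‖ := by
    rw [← norm_neg]; congr 1; ring
  rw [h5]
  refine h2.trans ?_
  have h6 : 0 ≤ ‖z‖ ^ 3 := by positivity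
  have h7 : ‖z‖ ^ 3 * (1 - ‖z‖)⁻¹ ≤ ‖z‖ ^ 3 * 2 := mul_le_mul_of_nonneg_left h4 h6
  norm_num
  linarith

lemma exp_lip {s : ℂ} (hs : 0 ≤ s.re) {a v w : ℝ} (hv : a ≤ v) (hw : a ≤ w) :
    ‖Complex.exp (-(s * v)) - Complex.exp (-(s * w))‖ ≤ ‖s‖ * Real.exp (-(s.re * a)) * |v - w| := by
  have h := (convex_Ici a).norm_image_sub_le_of_norm_hasDerivWithin_le (f := fun v : ℝ => Complex.exp (-(s * v)))
    (f' := fun v : ℝ => Complex.exp (-(s * v)) * (-s)) (C := ‖s‖ * Real.exp (-(s.re * a))) (fun x hx => ?_)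
    (fun x hx => ?_) (mem_Ici.2 hw) (mem_Ici.2 hv)
  · simpa [Real.norm_eq_abs] using h
  · have h1 : HasDerivAt (fun v : ℝ => -(s * (v : ℂ))) (-s) x := by
      have h2 := ((Complex.ofRealCLM.hasDerivAt (x := x)).const_mul s).fun_neg
      simpa using h2
    exact (h1.cexp).hasDerivWithinAt
  · rw [norm_mul, norm_neg, Complex.norm_exp, mul_comm]
    refine mul_le_mul_of_nonneg_left (Real.exp_le_exp.2 ?_) (norm_nonneg _)
    have h1 : (-(s * (x : ℂ))).re = -(s.re * x) := by simp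
    rw [h1]
    have := mul_le_mul_of_nonneg_left (mem_Ici.1 hx) hs
    linarith

lemma z_sub_tr {α : ℕ → ℝ} (H : Cl α) {n : ℕ} {w : ℝ} (hw : w ∈ Ioc (α n) (α (n + 1))) {s : ℂ} (hs : 0 ≤ s.re) :
    ‖Complex.exp (-(s * w)) - tr (α n) (α (n + 1)) s‖ ≤ ‖s‖ * Real.exp (-(s.re * α n)) * (α (n + 1) - α n) := by
  have hlt : α n < α (n + 1) := H.lt n
  have hp : ∫ v in α n..α (n + 1), g v = 1 := H.prob n
  have h4 : 4 ≤ α n := H.four_le n
  set C : ℝ := ‖s‖ * Real.exp (-(s.re * α n)) * (α (n + 1) - α n) with hC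
  have e1 : Complex.exp (-(s * w)) = ∫ v in α n..α (n + 1), (g v : ℂ) * Complex.exp (-(s * w)) := by
    rw [intervalIntegral.integral_mul_const, intervalIntegral.integral_ofReal, hp]; simp
  have e2 : ∫ v in α n..α (n + 1), (g v : ℂ) * (Complex.exp (-(s * w)) - Complex.exp (-(s * v))) =
      (∫ v in α n..α (n + 1), (g v : ℂ) * Complex.exp (-(s * w))) - tr (α n) (α (n + 1)) s := by
    unfold tr
    rw [← intervalIntegral.integral_sub]
    · refine intervalIntegral.integral_congr fun v _ => ?_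
      exact mul_sub _ _ _
    · exact ((Complex.continuous_ofReal.comp BC.g_cont).mul continuous_const).intervalIntegrable _ _
    · exact (BC.tr_cont s).intervalIntegrable _ _
  rw [← e1] at e2
  rw [← e2]
  have h5 : ‖∫ v in α n..α (n + 1), (g v : ℂ) * (Complex.exp (-(s * w)) - Complex.exp (-(s * v)))‖ ≤
      ∫ v in α n..α (n + 1), g v * C := by
    refine intervalIntegral.norm_integral_le_of_norm_le hlt.le (ae_of_all _ fun v hv => ?_)
      ((BC.g_cont.mul continuous_const).intervalIntegrable _ _)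
    have hg : 0 < g v := BC.g_pos (by linarith [hv.1])
    rw [norm_mul, Complex.norm_real, Real.norm_eq_abs, abs_of_pos hg]
    refine mul_le_mul_of_nonneg_left ?_ hg.le
    refine (exp_lip hs hw.1.le hv.1.le).trans ?_
    refine mul_le_mul_of_nonneg_left ?_ (by positivity)
    rw [abs_le]
    constructor <;> linarith [hw.1, hw.2, hv.1, hv.2]
  refine h5.trans (le_of_eq ?_)
  rw [intervalIntegral.integral_mul_const, hp, one_mul]

/-- the majorant of `LG` -/
noncomputable def bb (α : ℕ → ℝ) (σ R : ℝ) (n : ℕ) : ℝ :=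
  Real.exp (-(3 * σ * α n)) + 2 * R * (Real.exp (-(σ * α n)) * (α (n + 1) - α n))

lemma bb_nonneg {α : ℕ → ℝ} (H : Cl α) {σ R : ℝ} (hR : 0 ≤ R) (n : ℕ) : 0 ≤ bb α σ R n := by
  have hlt : α n < α (n + 1) := H.lt n
  have : 0 ≤ α (n + 1) - α n := by linarith
  unfold bb
  positivity

lemma del {σ x y : ℝ} (hσ : 0 < σ) (hxy : x ≤ y) (hy : y ≤ x + 1) :
    Real.exp (-(σ * x)) * (y - x) ≤ Real.exp σ / σ * (Real.exp (-(σ * x)) - Real.exp (-(σ * y))) := by
  have h1 : Real.exp (-(σ * x)) = Real.exp (-(σ * y)) * Real.exp (σ * (y - x)) := by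
    rw [← Real.exp_add]; congr 1; ring
  have h2 : σ * (y - x) + 1 ≤ Real.exp (σ * (y - x)) := Real.add_one_le_exp _
  have h3 : Real.exp (-(σ * x)) ≤ Real.exp σ * Real.exp (-(σ * y)) := by
    rw [← Real.exp_add]
    refine Real.exp_le_exp.2 ?_
    have := mul_le_mul_of_nonneg_left hy hσ.le
    linarith
  have h4 : Real.exp (-(σ * y)) * (σ * (y - x)) ≤ Real.exp (-(σ * x)) - Real.exp (-(σ * y)) := by
    rw [h1]
    have h5 := mul_le_mul_of_nonneg_left h2 (Real.exp_pos (-(σ * y))).le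
    linarith
  have h6 : 0 ≤ y - x := by linarith
  calc Real.exp (-(σ * x)) * (y - x) ≤ Real.exp σ * Real.exp (-(σ * y)) * (y - x) :=
        mul_le_mul_of_nonneg_right h3 h6
    _ = Real.exp σ / σ * (Real.exp (-(σ * y)) * (σ * (y - x))) := by field_simp
    _ ≤ _ := mul_le_mul_of_nonneg_left h4 (by positivity)

lemma sum_del {α : ℕ → ℝ} (H : Cl α) {σ : ℝ} (hσ : 0 < σ) (L K : ℕ) :
    ∑ k ∈ Finset.range K, Real.exp (-(σ * α (k + L))) * (α (k + L + 1) - α (k + L)) ≤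
      Real.exp σ / σ * (Real.exp (-(σ * α L)) - Real.exp (-(σ * α (K + L)))) := by
  induction K with
  | zero => simp
  | succ K ih =>
    rw [Finset.sum_range_succ]
    have h1 : α (K + L) ≤ α (K + L + 1) := (H.lt (K + L)).le
    have h2 : α (K + L + 1) ≤ α (K + L) + 1 := H.short (K + L)
    have h3 := del hσ h1 h2
    have h4 : K + 1 + L = K + L + 1 := by ring
    rw [h4]
    linarith

lemma bb_sum {α : ℕ → ℝ} (H : Cl α) {σ R : ℝ} (hσ : 1 / 3 < σ) (hR : 0 ≤ R) (L K : ℕ) :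
    ∑ k ∈ Finset.range K, bb α σ R (k + L) ≤
      2 * Real.exp (3 * σ) / (3 * σ - 1) * Real.exp (-((3 * σ - 1) * α L)) +
        2 * R * (Real.exp σ / σ * Real.exp (-(σ * α L))) := by
  unfold bb
  rw [Finset.sum_add_distrib, ← Finset.mul_sum]
  have h1 := BC.sum_alpha H (p := 3 * σ) (by linarith) L K
  have h2 := sum_del H (σ := σ) (by linarith) L K
  have h3 : ∑ k ∈ Finset.range K, Real.exp (-(3 * σ * α (k + L))) = ∑ k ∈ Finset.range K, Real.exp (-(3 * σ * α (L + k))) :=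
    Finset.sum_congr rfl fun k _ => by rw [add_comm k L]
  rw [h3]
  have hc : 0 < 3 * σ - 1 := by linarith
  have hs0 : 0 < σ := by linarith
  have h4 : 2 * Real.exp (3 * σ) / (3 * σ - 1) * (Real.exp (-((3 * σ - 1) * α L)) - Real.exp (-((3 * σ - 1) * α (L + K)))) ≤
      2 * Real.exp (3 * σ) / (3 * σ - 1) * Real.exp (-((3 * σ - 1) * α L)) :=
    mul_le_mul_of_nonneg_left (by linarith [Real.exp_pos (-((3 * σ - 1) * α (L + K)))]) (by positivity)
  have h5 : Real.exp σ / σ * (Real.exp (-(σ * α L)) - Real.exp (-(σ * α (K + L)))) ≤ Real.exp σ / σ * Real.exp (-(σ * α L)) :=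
    mul_le_mul_of_nonneg_left (by linarith [Real.exp_pos (-(σ * α (K + L)))]) (by positivity)
  exact add_le_add (h1.trans h4) (mul_le_mul_of_nonneg_left (h2.trans h5) (by positivity))

lemma bb_summable {α : ℕ → ℝ} (H : Cl α) {σ R : ℝ} (hσ : 1 / 3 < σ) (hR : 0 ≤ R) : Summable (bb α σ R) :=
  summable_of_sum_range_le (bb_nonneg H hR) fun K => by simpa using bb_sum H hσ hR 0 K

lemma z_norm {s : ℂ} (hs : 1 / 3 < s.re) {w : ℝ} (hw : 4 < w) : ‖Complex.exp (-(s * w))‖ ≤ 1 / 2 := by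
  rw [Complex.norm_exp]
  have h1 : (-(s * (w : ℂ))).re = -(s.re * w) := by simp
  rw [h1]
  have h2 : (4 / 3 : ℝ) ≤ s.re * w := by nlinarith
  have h3 : Real.exp (-(s.re * w)) ≤ Real.exp (-1) := Real.exp_le_exp.2 (by linarith)
  have h4 : Real.exp (-1) ≤ 1 / 2 := by
    rw [Real.exp_neg, one_div, inv_le_inv₀ (Real.exp_pos _) (by norm_num)]
    have := Real.add_one_le_exp (1 : ℝ)
    linarith
  linarith

lemma lg_le {α : ℕ → ℝ} (H : Cl α) {W : ℕ → ℝ} (hW : ∀ n, W n ∈ Ioc (α n) (α (n + 1))) (n : ℕ) {s : ℂ} {σ R : ℝ}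
    (hσ : 1 / 3 < σ) (hs : σ ≤ s.re) (hR : ‖s‖ ≤ R) : ‖LG α W n s‖ ≤ bb α σ R n := by
  have h4 : 4 ≤ α n := H.four_le n
  have hlt : α n < α (n + 1) := H.lt n
  have hw := hW n
  have hw4 : 4 < W n := by linarith [hw.1]
  have hsr : 1 / 3 < s.re := by linarith
  have hR0 : 0 ≤ R := (norm_nonneg s).trans hR
  set z : ℂ := Complex.exp (-(s * W n)) with hz
  have hzn : ‖z‖ ≤ 1 / 2 := z_norm hsr hw4
  have hz2 : z ^ 2 = Complex.exp (-(2 * s * W n)) := by
    rw [hz, ← Complex.exp_nat_mul]; congr 1; push_cast; ring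
  have e1 : LG α W n s = (-Complex.log (1 - z) - z - z ^ 2 / 2) + (z - tr (α n) (α (n + 1)) s) +
      (Complex.exp (-(2 * s * W n)) - tr (α n) (α (n + 1)) (2 * s)) / 2 := by
    rw [← hz2]; unfold LG; rw [← hz]; ring
  have h1 := log3 hzn
  have h2 := z_sub_tr H hw (s := s) (by linarith)
  have h3 := z_sub_tr H hw (s := 2 * s) (by simp; linarith)
  have hzn2 : ‖z‖ ^ 3 ≤ Real.exp (-(3 * σ * α n)) := by
    have h5 : ‖z‖ = Real.exp (-(s.re * W n)) := by
      rw [hz, Complex.norm_exp]; simp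
    rw [h5, ← Real.exp_nat_mul]
    refine Real.exp_le_exp.2 ?_
    have h6 : σ * α n ≤ s.re * W n := mul_le_mul hs hw.1.le (by linarith) (by linarith)
    push_cast
    linarith
  have hE : Real.exp (-(s.re * α n)) ≤ Real.exp (-(σ * α n)) :=
    Real.exp_le_exp.2 (by nlinarith)
  have hE2 : Real.exp (-((2 * s).re * α n)) ≤ Real.exp (-(σ * α n)) := by
    refine Real.exp_le_exp.2 ?_
    have h6 : (2 * s).re = 2 * s.re := by simp
    rw [h6]
    nlinarith
  have hd : 0 ≤ α (n + 1) - α n := by linarith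
  have h2' : ‖s‖ * Real.exp (-(s.re * α n)) * (α (n + 1) - α n) ≤ R * Real.exp (-(σ * α n)) * (α (n + 1) - α n) :=
    mul_le_mul_of_nonneg_right (mul_le_mul hR hE (Real.exp_pos _).le hR0) hd
  have h3' : ‖2 * s‖ * Real.exp (-((2 * s).re * α n)) * (α (n + 1) - α n) ≤
      (2 * R) * Real.exp (-(σ * α n)) * (α (n + 1) - α n) := by
    refine mul_le_mul_of_nonneg_right (mul_le_mul ?_ hE2 (Real.exp_pos _).le (by positivity)) hd
    rw [norm_mul]; simp; linarith
  rw [e1]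
  refine (norm_add_le _ _).trans ?_
  have h7 : ‖(Complex.exp (-(2 * s * W n)) - tr (α n) (α (n + 1)) (2 * s)) / 2‖ =
      ‖Complex.exp (-(2 * s * W n)) - tr (α n) (α (n + 1)) (2 * s)‖ / 2 := by
    rw [norm_div]; simp
  rw [h7]
  have h8 := norm_add_le (-Complex.log (1 - z) - z - z ^ 2 / 2) (z - tr (α n) (α (n + 1)) s)
  unfold bb
  linarith

lemma lg_diff {α : ℕ → ℝ} (H : Cl α) {W : ℕ → ℝ} (hW : ∀ n, W n ∈ Ioc (α n) (α (n + 1))) (n : ℕ) {s : ℂ}
    (hs : 1 / 3 < s.re) : DifferentiableAt ℂ (LG α W n) s := by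
  have h4 : 4 ≤ α n := H.four_le n
  have hw := hW n
  have hw4 : 4 < W n := by linarith [hw.1]
  have hzn : ‖Complex.exp (-(s * W n))‖ ≤ 1 / 2 := z_norm hs hw4
  have hsl : 1 - Complex.exp (-(s * W n)) ∈ Complex.slitPlane := by
    rw [sub_eq_add_neg]
    exact Complex.mem_slitPlane_of_norm_lt_one (by rw [norm_neg]; linarith)
  unfold LG
  refine DifferentiableAt.sub (DifferentiableAt.sub ?_ (BC.tr_diff _ _ s)) ?_
  · have h1 : DifferentiableAt ℂ (fun s : ℂ => 1 - Complex.exp (-(s * W n))) s := by fun_prop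
    exact (h1.clog hsl).fun_neg
  · refine DifferentiableAt.div_const ?_ _
    exact (BC.tr_diff (α n) (α (n + 1))).differentiableAt.comp s (by fun_prop)

lemma lg_sum {α : ℕ → ℝ} (H : Cl α) {W : ℕ → ℝ} (hW : ∀ n, W n ∈ Ioc (α n) (α (n + 1))) {s : ℂ} (hs : 1 / 3 < s.re) :
    Summable fun n => LG α W n s :=
  Summable.of_norm_bounded (bb_summable H hs (norm_nonneg s)) fun n => lg_le H hW n hs le_rfl le_rfl

lemma tr_sum {α : ℕ → ℝ} (s : ℂ) (N : ℕ) :
    ∑ n ∈ Finset.range N, tr (α n) (α (n + 1)) s = tr (α 0) (α N) s := by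
  induction N with
  | zero => simp [tr]
  | succ N ih => rw [Finset.sum_range_succ, ih, BC.tr_add]

lemma alpha_le {α : ℕ → ℝ} (H : Cl α) (N : ℕ) : (N : ℝ) ≤ Real.exp (α N) := by
  have h0 : ∀ n : ℕ, Real.exp (α n) + 1 ≤ Real.exp (α (n + 1)) := by
    intro n
    have hlt : α n < α (n + 1) := H.lt n
    have hp : ∫ v in α n..α (n + 1), g v = 1 := H.prob n
    have h4 : 4 ≤ α n := H.four_le n
    have h1 : ∫ v in α n..α (n + 1), g v ≤ ∫ v in α n..α (n + 1), Real.exp v :=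
      intervalIntegral.integral_mono_on hlt.le (BC.g_int _ _) (Real.continuous_exp.intervalIntegrable _ _)
        fun v hv => BC.g_le (by linarith [hv.1])
    rw [hp, integral_exp] at h1
    linarith
  induction N with
  | zero => simp [(Real.exp_pos _).le]
  | succ N ih => push_cast; linarith [h0 N]

lemma alpha_top {α : ℕ → ℝ} (H : Cl α) : Tendsto α atTop atTop := by
  have h1 : Tendsto (fun N : ℕ => Real.log (N : ℝ)) atTop atTop := Real.tendsto_log_atTop.comp tendsto_natCast_atTop_atTop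
  refine tendsto_atTop_mono' _ ?_ h1
  filter_upwards [eventually_gt_atTop 0] with N hN
  have hN' : (0 : ℝ) < N := by exact_mod_cast hN
  rw [Real.log_le_iff_le_exp hN']
  exact alpha_le H N

lemma exp_lg {α : ℕ → ℝ} {W : ℕ → ℝ} (hW4 : ∀ n, 4 < W n) (n : ℕ) {s : ℂ} (hs : 1 / 3 < s.re) :
    Complex.exp (LG α W n s) = (1 - Complex.exp (-(s * W n)))⁻¹ *
      Complex.exp (-(tr (α n) (α (n + 1)) s + tr (α n) (α (n + 1)) (2 * s) / 2)) := by
  have hzn : ‖Complex.exp (-(s * W n))‖ ≤ 1 / 2 := z_norm hs (hW4 n)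
  have hne : 1 - Complex.exp (-(s * W n)) ≠ 0 := by
    intro h
    have h1 : Complex.exp (-(s * W n)) = 1 := (sub_eq_zero.1 h).symm
    rw [h1] at hzn
    norm_num at hzn
  have h1 : LG α W n s = -Complex.log (1 - Complex.exp (-(s * W n))) +
      -(tr (α n) (α (n + 1)) s + tr (α n) (α (n + 1)) (2 * s) / 2) := by
    unfold LG; ring
  rw [h1, Complex.exp_add, Complex.exp_neg (Complex.log _), Complex.exp_log hne]

end Cont

open Cont

theorem ff_diff {α : ℕ → ℝ} (H : Cl α) {W : ℕ → ℝ} (hW : ∀ n, W n ∈ Ioc (α n) (α (n + 1))) :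
    DifferentiableOn ℂ (ff α W) {s | 1 / 3 < s.re ∧ 0 < s.im} := by
  intro s0 hs0
  obtain ⟨h1, h2⟩ := hs0
  obtain ⟨σ, hσ1, hσ2⟩ := exists_between h1
  have hU : IsOpen ({s : ℂ | σ < s.re} ∩ Metric.ball 0 (‖s0‖ + 1)) :=
    (isOpen_lt continuous_const Complex.continuous_re).inter Metric.isOpen_ball
  have hmem : s0 ∈ ({s : ℂ | σ < s.re} ∩ Metric.ball 0 (‖s0‖ + 1)) := ⟨hσ2, by simp⟩
  have h3 : DifferentiableOn ℂ (fun s => ∑' n, LG α W n s) ({s : ℂ | σ < s.re} ∩ Metric.ball 0 (‖s0‖ + 1)) := by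
    refine Complex.differentiableOn_tsum_of_summable_norm (u := bb α σ (‖s0‖ + 1)) (bb_summable H hσ1 (by positivity)) ?_ hU ?_
    · intro n s hs
      exact (lg_diff H hW n (hσ1.trans hs.1)).differentiableWithinAt
    · intro n s hs
      exact lg_le H hW n hσ1 (le_of_lt hs.1) (le_of_lt (by simpa using hs.2))
  have h4 : DifferentiableAt ℂ (fun s => ∑' n, LG α W n s) s0 := h3.differentiableAt (hU.mem_nhds hmem)
  have hV : IsOpen {s : ℂ | 0 < s.im} := isOpen_lt continuous_const Complex.continuous_im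
  have h5 : DifferentiableAt ℂ (EE (α 0)) s0 := (ee_diff (α 0)).differentiableAt (hV.mem_nhds h2)
  have h6 : DifferentiableAt ℂ (EE (α 0)) (2 * s0) :=
    (ee_diff (α 0)).differentiableAt (hV.mem_nhds (by simp [h2]))
  have h7 : DifferentiableAt ℂ (fun s => EE (α 0) (2 * s)) s0 :=
    DifferentiableAt.comp s0 (g := EE (α 0)) (f := fun s : ℂ => 2 * s) h6 (by fun_prop)
  have h8 : DifferentiableAt ℂ (ff α W) s0 := by
    unfold ff
    exact ((h5.add (h7.div_const 2)).add h4).cexp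
  exact h8.differentiableWithinAt

theorem ff_euler {α : ℕ → ℝ} (H : Cl α) {W : ℕ → ℝ} (hW : ∀ n, W n ∈ Ioc (α n) (α (n + 1))) {s : ℂ} (hs : 1 < s.re) (hs' : 0 < s.im) :
    Tendsto (fun N : ℕ => ∏ n ∈ Finset.range N, (1 - Complex.exp (-(s * W n)))⁻¹) atTop (𝓝 (ff α W s)) := by
  have hs3 : 1 / 3 < s.re := by linarith
  have hW4 : ∀ n, 4 < W n := fun n => lt_of_le_of_lt (H.four_le n) (hW n).1
  have hev : ∀ u : ℂ, 1 < u.re → 0 < u.im → Tendsto (fun N : ℕ => EE (α N) u) atTop (𝓝 0) := by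
    intro u hu hu'
    have h1 : Tendsto (fun N : ℕ => Real.exp (-((u.re - 1) * α N)) / u.im) atTop (𝓝 (0 / u.im)) := by
      refine Tendsto.div_const ?_ _
      refine Real.tendsto_exp_neg_atTop_nhds_zero.comp ?_
      exact Tendsto.const_mul_atTop (by linarith) (alpha_top H)
    rw [zero_div] at h1
    refine squeeze_zero_norm (fun N => ?_) h1
    refine (ee_norm (ne_of_gt hu')).trans ?_
    rw [abs_of_pos hu']
    refine div_le_div_of_nonneg_right ?_ hu'.le
    have h4 : 4 ≤ α N := H.four_le N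
    calc g (α N) * Real.exp (-(u.re * α N)) ≤ Real.exp (α N) * Real.exp (-(u.re * α N)) :=
          mul_le_mul_of_nonneg_right (BC.g_le (by linarith)) (Real.exp_pos _).le
      _ = Real.exp (-((u.re - 1) * α N)) := by rw [← Real.exp_add]; congr 1; ring
  have h2s : 1 < (2 * s).re := by simp; linarith
  have h2s' : 0 < (2 * s).im := by simp; linarith
  have key : ∀ N : ℕ, ∏ n ∈ Finset.range N, (1 - Complex.exp (-(s * W n)))⁻¹ =
      Complex.exp ((EE (α 0) s - EE (α N) s) + (EE (α 0) (2 * s) - EE (α N) (2 * s)) / 2 +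
        ∑ n ∈ Finset.range N, LG α W n s) := by
    intro N
    rw [← ee_tr (ne_of_gt hs'), ← ee_tr (ne_of_gt h2s'), Complex.exp_add, Complex.exp_sum,
      Finset.prod_congr rfl fun n _ => exp_lg hW4 n hs3, Finset.prod_mul_distrib, ← Complex.exp_sum,
      Finset.sum_neg_distrib, Finset.sum_add_distrib, ← Finset.sum_div, tr_sum, tr_sum, mul_comm, mul_assoc,
      ← Complex.exp_add, neg_add_cancel, Complex.exp_zero, mul_one]
  simp_rw [key]
  unfold ff
  refine (Complex.continuous_exp.tendsto _).comp ?_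
  have hsum := (lg_sum H hW hs3).hasSum.tendsto_sum_nat
  have e1 := (tendsto_const_nhds (x := EE (α 0) s)).sub (hev s hs hs')
  have e2 := ((tendsto_const_nhds (x := EE (α 0) (2 * s))).sub (hev (2 * s) h2s h2s')).div_const 2
  rw [sub_zero] at e1 e2
  exact (e1.add e2).add hsum

theorem ff_line : ∃ C : ℝ, ∀ (α : ℕ → ℝ), Cl α → ∀ W : ℕ → ℝ, (∀ n, W n ∈ Ioc (α n) (α (n + 1))) → ∀ (t : ℝ) (N : ℕ), 1 ≤ t →
    ∃ r : ℝ, |r| ≤ C * (t * Real.exp (-(α N / 2))) ∧ ‖ff α W (1 / 2 + t * Complex.I)‖ =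
      Real.exp ((EE (α 0) (1 / 2 + t * Complex.I)).re + (EE (α 0) (1 + 2 * t * Complex.I)).re / 2) *
      (∏ n ∈ Finset.range N, ‖(1 - zz t (W n))⁻¹‖ * Real.exp (-(m1 α n t).re - (m2 α n t).re / 2)) * Real.exp r := by
  refine ⟨4 * Real.exp (3 / 2) + 8 * Real.exp (1 / 2), fun α H W hW t N ht => ?_⟩
  have hW4 : ∀ n, 4 < W n := fun n => lt_of_le_of_lt (H.four_le n) (hW n).1
  set s : ℂ := 1 / 2 + t * Complex.I with hs
  have hsre : s.re = 1 / 2 := by simp [hs]
  have h2s : 2 * s = 1 + 2 * t * Complex.I := by rw [hs]; ring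
  have hs3 : 1 / 3 < s.re := by rw [hsre]; norm_num
  have hsn : ‖s‖ ≤ 2 * t := by
    have h1 : ‖s‖ ≤ ‖(1 / 2 : ℂ)‖ + ‖(t : ℂ) * Complex.I‖ := norm_add_le _ _
    have h2 : ‖(1 / 2 : ℂ)‖ = 1 / 2 := by simp
    have h3 : ‖(t : ℂ) * Complex.I‖ = t := by
      rw [norm_mul, Complex.norm_I, mul_one, Complex.norm_real, Real.norm_eq_abs, abs_of_nonneg (by linarith)]
    rw [h2, h3] at h1
    linarith
  have hsum := lg_sum H hW hs3
  refine ⟨(∑' n, LG α W (n + N) s).re, ?_, ?_⟩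
  · have hb : ∀ n, ‖LG α W (n + N) s‖ ≤ bb α (1 / 2) (2 * t) (n + N) := fun n =>
      lg_le H hW (n + N) (by norm_num) hsre.ge hsn
    have hbs : Summable fun n => bb α (1 / 2) (2 * t) (n + N) :=
      (summable_nat_add_iff N).2 (bb_summable H (by norm_num) (by linarith))
    have h1 : ‖∑' n, LG α W (n + N) s‖ ≤ ∑' n, bb α (1 / 2) (2 * t) (n + N) := tsum_of_norm_bounded hbs.hasSum hb
    have h2 : ∑' n, bb α (1 / 2) (2 * t) (n + N) ≤ 2 * Real.exp (3 * (1 / 2)) / (3 * (1 / 2) - 1) *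
        Real.exp (-((3 * (1 / 2) - 1) * α N)) + 2 * (2 * t) * (Real.exp (1 / 2) / (1 / 2) * Real.exp (-(1 / 2 * α N))) :=
      Real.tsum_le_of_sum_range_le (fun n => bb_nonneg H (by linarith) _)
        fun K => bb_sum H (by norm_num) (by linarith) N K
    have h3 := Complex.abs_re_le_norm (∑' n, LG α W (n + N) s)
    have e1 : Real.exp (-((3 * (1 / 2) - 1) * α N)) = Real.exp (-(α N / 2)) := by congr 1; ring
    have e2 : Real.exp (-(1 / 2 * α N)) = Real.exp (-(α N / 2)) := by congr 1; ring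
    have e3 : Real.exp (3 * (1 / 2)) = Real.exp (3 / 2) := by congr 1; ring
    rw [e1, e2, e3] at h2
    set E := Real.exp (-(α N / 2)) with hE
    have hE0 : 0 < E := Real.exp_pos _
    have h5 : 0 < Real.exp (3 / 2) := Real.exp_pos _
    have h6 : Real.exp (3 / 2) * E ≤ Real.exp (3 / 2) * E * t := by
      have : 0 < Real.exp (3 / 2) * E := by positivity
      nlinarith
    calc _ ≤ _ := h3.trans (h1.trans h2)
      _ = 4 * (Real.exp (3 / 2) * E) + 8 * Real.exp (1 / 2) * (t * E) := by ring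
      _ ≤ 4 * (Real.exp (3 / 2) * E * t) + 8 * Real.exp (1 / 2) * (t * E) := by linarith
      _ = _ := by ring
  · have h1 : ff α W s = Complex.exp (EE (α 0) s + EE (α 0) (2 * s) / 2) *
        (∏ n ∈ Finset.range N, Complex.exp (LG α W n s)) * Complex.exp (∑' n, LG α W (n + N) s) := by
      unfold ff
      rw [← hsum.sum_add_tsum_nat_add N, ← add_assoc, Complex.exp_add, Complex.exp_add, Complex.exp_sum]
    rw [h1, norm_mul, norm_mul, Complex.norm_exp, Complex.norm_exp, norm_prod]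
    have h2 : (EE (α 0) s + EE (α 0) (2 * s) / 2).re = (EE (α 0) s).re + (EE (α 0) (1 + 2 * t * Complex.I)).re / 2 := by
      rw [h2s]; simp
    rw [h2]
    congr 2
    refine Finset.prod_congr rfl fun n _ => ?_
    rw [exp_lg hW4 n hs3, norm_mul, Complex.norm_exp]
    congr 2
    · unfold zz
      rw [max_eq_left (hW4 n).le]
    · unfold m1 m2
      rw [h2s, ← hs]
      simp
      ring

end Pool.Agent.H41.KS
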