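import Pool.Agent.H41.KS.Defs

/-! # Project KS, stub KS-CV1: bounds for the covariances (helper12) -/

set_option autoImplicit false

open MeasureTheory Filter Topology Set

namespace Pool.Agent.H41.KS

open Pool.Agent.H41.BC (g tr Cells law2 PP2 NN g_cont g_pos g_le one_le_g g_eq g_mono tr_cont)

namespace Cvone

/-- the real part of the transform -/
theorem tr_re (a b : ℝ) (s : ℂ) :
    (tr a b s).re = ∫ v in a..b, g v * (Real.exp (-(s.re * v)) * Real.cos (s.im * v)) := by
  have h := Complex.reCLM.intervalIntegral_comp_comm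
    (((tr_cont s).intervalIntegrable a b) : IntervalIntegrable _ volume a b)
  have h2 : (tr a b s).re = ∫ v in a..b, Complex.reCLM ((g v : ℂ) * Complex.exp (-(s * v))) := by
    rw [h]; rfl
  rw [h2]
  refine intervalIntegral.integral_congr fun v _ => ?_
  have h3 : Complex.reCLM ((g v : ℂ) * Complex.exp (-(s * v))) =
      g v * (Complex.exp (-(s * v))).re := by
    simp [Complex.mul_re]
  rw [h3, Complex.exp_re]
  have h4 : (-(s * (v : ℂ))).re = -(s.re * v) := by simp
  have h5 : (-(s * (v : ℂ))).im = -(s.im * v) := by simp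
  rw [h4, h5, Real.cos_neg]

/-- the function whose covariances are taken -/
noncomputable def X (t v : ℝ) : ℝ := Real.exp (-(v / 2)) * Real.cos (t * v)

lemma X_cont (t : ℝ) : Continuous (X t) := by unfold X; fun_prop

lemma abs_X_le (t : ℝ) {a v : ℝ} (h : a ≤ v) : |X t v| ≤ Real.exp (-(a / 2)) := by
  unfold X
  rw [abs_mul, abs_of_pos (Real.exp_pos _)]
  calc Real.exp (-(v / 2)) * |Real.cos (t * v)| ≤ Real.exp (-(v / 2)) * 1 :=
        mul_le_mul_of_nonneg_left (Real.abs_cos_le_one _) (Real.exp_pos _).le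
    _ ≤ Real.exp (-(a / 2)) := by rw [mul_one]; exact Real.exp_le_exp.2 (by linarith)

lemma X_lip (t : ℝ) {a v : ℝ} (h : a ≤ v) :
    |X t v - X t a| ≤ (1 + |t|) * Real.exp (-(a / 2)) * (v - a) := by
  have hd : ∀ x ∈ Icc a v, HasDerivWithinAt (X t)
      (Real.exp (-(x / 2)) * (-(1 / 2)) * Real.cos (t * x) +
        Real.exp (-(x / 2)) * (-Real.sin (t * x) * (t * 1))) (Icc a v) x := by
    intro x _
    have h1 : HasDerivAt (fun v : ℝ => Real.exp (-(v / 2))) (Real.exp (-(x / 2)) * (-(1 / 2))) x :=
      (((hasDerivAt_id x).div_const 2).fun_neg).exp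
    have h2 : HasDerivAt (fun v : ℝ => Real.cos (t * v)) (-Real.sin (t * x) * (t * 1)) x :=
      ((hasDerivAt_id x).const_mul t).cos
    exact (h1.mul h2).hasDerivWithinAt
  have hb : ∀ x ∈ Icc a v, ‖Real.exp (-(x / 2)) * (-(1 / 2)) * Real.cos (t * x) +
        Real.exp (-(x / 2)) * (-Real.sin (t * x) * (t * 1))‖ ≤ (1 + |t|) * Real.exp (-(a / 2)) := by
    intro x hx
    have he : Real.exp (-(x / 2)) ≤ Real.exp (-(a / 2)) := Real.exp_le_exp.2 (by linarith [hx.1])
    have e0 := (Real.exp_pos (-(x / 2))).le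
    have h3 : ‖Real.exp (-(x / 2)) * (-(1 / 2)) * Real.cos (t * x) +
        Real.exp (-(x / 2)) * (-Real.sin (t * x) * (t * 1))‖ ≤
        Real.exp (-(x / 2)) * (1 / 2 + |t|) := by
      have h4 : Real.exp (-(x / 2)) * (-(1 / 2)) * Real.cos (t * x) +
        Real.exp (-(x / 2)) * (-Real.sin (t * x) * (t * 1)) =
        Real.exp (-(x / 2)) * (-(1 / 2) * Real.cos (t * x) - Real.sin (t * x) * t) := by ring
      rw [h4, norm_mul, Real.norm_eq_abs, abs_of_nonneg e0, Real.norm_eq_abs]
      refine mul_le_mul_of_nonneg_left ?_ e0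
      refine (abs_sub _ _).trans ?_
      rw [abs_mul, abs_mul]
      have h5 : |(-(1 / 2) : ℝ)| = 1 / 2 := by norm_num
      rw [h5]
      have := Real.abs_cos_le_one (t * x)
      have := Real.abs_sin_le_one (t * x)
      nlinarith [abs_nonneg t, abs_nonneg (Real.cos (t * x)), abs_nonneg (Real.sin (t * x))]
    refine h3.trans ?_
    have : 0 ≤ |t| := abs_nonneg t
    nlinarith
  have := (convex_Icc a v).norm_image_sub_le_of_norm_hasDerivWithin_le hd hb
    (left_mem_Icc.2 h) (right_mem_Icc.2 h)
  rw [Real.norm_eq_abs, Real.norm_eq_abs, abs_of_nonneg (by linarith : 0 ≤ v - a)] at this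
  exact this

variable {α : ℕ → ℝ}

lemma int_sub' (f h : ℝ → ℝ) (hf : Continuous f) (hh : Continuous h) (a b : ℝ) :
    ∫ v in a..b, (f v - h v) = (∫ v in a..b, f v) - ∫ v in a..b, h v :=
  intervalIntegral.integral_sub (hf.intervalIntegrable _ _) (hh.intervalIntegrable _ _)

lemma int_add' (f h : ℝ → ℝ) (hf : Continuous f) (hh : Continuous h) (a b : ℝ) :
    ∫ v in a..b, (f v + h v) = (∫ v in a..b, f v) + ∫ v in a..b, h v :=
  intervalIntegral.integral_add (hf.intervalIntegrable _ _) (hh.intervalIntegrable _ _)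

lemma cell_lt (H : Cl α) (n : ℕ) : α n < α (n + 1) := H.lt n

lemma len' (H : Cl α) (n : ℕ) : α (n + 1) - α n ≤ 2 * α n * Real.exp (-α n) := by
  have h4 : 4 ≤ α n := H.four_le n
  have hlt : α n < α (n + 1) := H.lt n
  have h1 : ∫ v in α n..α (n + 1), g v = 1 := H.prob n
  have h2 : ∫ _v in α n..α (n + 1), g (α n) ≤ ∫ v in α n..α (n + 1), g v :=
    intervalIntegral.integral_mono_on hlt.le (by simp) (g_cont.intervalIntegrable _ _)
      fun v hv => g_mono hv.1
  rw [intervalIntegral.integral_const, h1, smul_eq_mul, g_eq (by linarith : α n ≠ 0)] at h2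
  have he : Real.exp (α n) / 2 ≤ Real.exp (α n) - 1 := by
    have := Real.add_one_le_exp (α n)
    linarith
  have hpos : 0 < α n := by linarith
  have hd : 0 ≤ α (n + 1) - α n := by linarith
  have h5 : (α (n + 1) - α n) * (Real.exp (α n) / 2 / α n) ≤ 1 :=
    (mul_le_mul_of_nonneg_left (div_le_div_of_nonneg_right he hpos.le) hd).trans h2
  have h6 : Real.exp (α n) * Real.exp (-α n) = 1 := by rw [← Real.exp_add]; simp
  have h7 : 0 < Real.exp (-α n) := Real.exp_pos _
  have h8 : (α (n + 1) - α n) * (Real.exp (α n) / 2 / α n) * (2 * α n * Real.exp (-α n)) =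
      (α (n + 1) - α n) * (Real.exp (α n) * Real.exp (-α n)) := by
    field_simp
  rw [h6, mul_one] at h8
  rw [← h8]
  have h9 : 0 ≤ 2 * α n * Real.exp (-α n) := by positivity
  nlinarith

/-- the covariance as a covariance -/
theorem cv_eq (n : ℕ) (t t' : ℝ) : CV α n t t' =
    (∫ v in α n..α (n + 1), g v * (X t v * X t' v)) -
      (∫ v in α n..α (n + 1), g v * X t v) * (∫ v in α n..α (n + 1), g v * X t' v) := by
  have hm : ∀ t : ℝ, (m1 α n t).re = ∫ v in α n..α (n + 1), g v * X t v := by
    intro t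
    unfold m1
    rw [tr_re]
    refine intervalIntegral.integral_congr fun v _ => ?_
    unfold X
    have h1 : ((1 / 2 : ℂ) + t * Complex.I).re = 1 / 2 := by simp
    have h2 : ((1 / 2 : ℂ) + t * Complex.I).im = t := by simp
    simp only [h1, h2]
    congr 3
    ring
  unfold CV
  rw [hm, hm]
  congr 1
  rw [tr_re, tr_re, ← intervalIntegral.integral_add, ← intervalIntegral.integral_div]
  · refine intervalIntegral.integral_congr fun v _ => ?_
    have h1 : ((1 : ℂ) + (t - t') * Complex.I).re = 1 := by simp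
    have h2 : ((1 : ℂ) + (t - t') * Complex.I).im = t - t' := by simp
    have h3 : ((1 : ℂ) + (t + t') * Complex.I).re = 1 := by simp
    have h4 : ((1 : ℂ) + (t + t') * Complex.I).im = t + t' := by simp
    simp only [h1, h2, h3, h4]
    have h5 : Real.exp (-(v / 2)) * Real.exp (-(v / 2)) = Real.exp (-(1 * v)) := by
      rw [← Real.exp_add]; congr 1; ring
    have h6 : Real.cos ((t - t') * v) + Real.cos ((t + t') * v) =
        2 * Real.cos (t * v) * Real.cos (t' * v) := by
      rw [sub_mul, add_mul, Real.cos_sub, Real.cos_add]; ring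
    unfold X
    calc (g v * (Real.exp (-(1 * v)) * Real.cos ((t - t') * v)) +
          g v * (Real.exp (-(1 * v)) * Real.cos ((t + t') * v))) / 2
        = g v * Real.exp (-(1 * v)) * (Real.cos ((t - t') * v) + Real.cos ((t + t') * v)) / 2 := by
          ring
      _ = _ := by rw [h6, ← h5]; ring
  · exact Continuous.intervalIntegrable (g_cont.mul (by fun_prop)) _ _
  · exact Continuous.intervalIntegrable (g_cont.mul (by fun_prop)) _ _

/-- shifts do not change the covariance -/
theorem cv_shift (H : Cl α) (n : ℕ) (t t' c c' : ℝ) : CV α n t t' =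
    (∫ v in α n..α (n + 1), g v * ((X t v - c) * (X t' v - c'))) -
      (∫ v in α n..α (n + 1), g v * (X t v - c)) * (∫ v in α n..α (n + 1), g v * (X t' v - c')) := by
  have h1 : ∫ v in α n..α (n + 1), g v = 1 := H.prob n
  have hX := X_cont t
  have hX' := X_cont t'
  have i0 : ∀ f : ℝ → ℝ, Continuous f → IntervalIntegrable f volume (α n) (α (n + 1)) :=
    fun f hf => hf.intervalIntegrable _ _
  have e1 : ∀ (s c : ℝ), ∫ v in α n..α (n + 1), g v * (X s v - c) =
      (∫ v in α n..α (n + 1), g v * X s v) - c := by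
    intro s c
    have : ∀ v, g v * (X s v - c) = g v * X s v - g v * c := fun v => by ring
    simp_rw [this]
    rw [int_sub' (fun v => g v * X s v) (fun v => g v * c) (g_cont.mul (X_cont s))
      (g_cont.mul_const c), intervalIntegral.integral_mul_const, h1, one_mul]
  have e2 : ∫ v in α n..α (n + 1), g v * ((X t v - c) * (X t' v - c')) =
      (∫ v in α n..α (n + 1), g v * (X t v * X t' v)) - c' * (∫ v in α n..α (n + 1), g v * X t v) -
        c * (∫ v in α n..α (n + 1), g v * X t' v) + c * c' := by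
    have : ∀ v, g v * ((X t v - c) * (X t' v - c')) =
        g v * (X t v * X t' v) - c' * (g v * X t v) - c * (g v * X t' v) + c * c' * g v :=
      fun v => by ring
    simp_rw [this]
    have j1 : Continuous fun v => g v * (X t v * X t' v) := g_cont.mul (hX.mul hX')
    have j2 : Continuous fun v => c' * (g v * X t v) := (g_cont.mul hX).const_mul c'
    have j3 : Continuous fun v => c * (g v * X t' v) := (g_cont.mul hX').const_mul c
    have j4 : Continuous fun v => c * c' * g v := g_cont.const_mul _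
    have j12 : Continuous fun v => g v * (X t v * X t' v) - c' * (g v * X t v) := j1.sub j2
    have j123 : Continuous fun v => g v * (X t v * X t' v) - c' * (g v * X t v) -
      c * (g v * X t' v) := j12.sub j3
    rw [int_add' _ _ j123 j4, int_sub' _ _ j12 j3, int_sub' _ _ j1 j2,
      intervalIntegral.integral_const_mul, intervalIntegral.integral_const_mul,
      intervalIntegral.integral_const_mul, h1, mul_one]
  rw [e1, e1, e2, cv_eq]
  ring

/-- a mean is at most the maximum -/
theorem mean_le (H : Cl α) (n : ℕ) {f : ℝ → ℝ} {B : ℝ}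
    (hB : ∀ v ∈ Icc (α n) (α (n + 1)), |f v| ≤ B) (hf : Continuous f) :
    |∫ v in α n..α (n + 1), g v * f v| ≤ B := by
  have hlt : α n < α (n + 1) := H.lt n
  have h4 : 4 ≤ α n := H.four_le n
  have h1 : ∫ v in α n..α (n + 1), g v = 1 := H.prob n
  calc |∫ v in α n..α (n + 1), g v * f v| ≤ ∫ v in α n..α (n + 1), |g v * f v| :=
        intervalIntegral.abs_integral_le_integral_abs hlt.le
    _ ≤ ∫ v in α n..α (n + 1), g v * B := by
        refine intervalIntegral.integral_mono_on hlt.le
          ((g_cont.mul hf).abs.intervalIntegrable _ _) ((g_cont.mul_const B).intervalIntegrable _ _)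
          fun v hv => ?_
        have hg : 0 ≤ g v := (g_pos (by linarith [hv.1])).le
        rw [abs_mul, abs_of_nonneg hg]
        exact mul_le_mul_of_nonneg_left (hB v hv) hg
    _ = B := by rw [intervalIntegral.integral_mul_const, h1, one_mul]

/-- the mean of a square is nonnegative -/
theorem var_nonneg (H : Cl α) (n : ℕ) {f : ℝ → ℝ} (hf : Continuous f) :
    0 ≤ (∫ v in α n..α (n + 1), g v * (f v * f v)) -
      (∫ v in α n..α (n + 1), g v * f v) * (∫ v in α n..α (n + 1), g v * f v) := by
  have hlt : α n < α (n + 1) := H.lt n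
  have h4 : 4 ≤ α n := H.four_le n
  have h1 : ∫ v in α n..α (n + 1), g v = 1 := H.prob n
  set m := ∫ v in α n..α (n + 1), g v * f v with hm
  have i0 : ∀ f : ℝ → ℝ, Continuous f → IntervalIntegrable f volume (α n) (α (n + 1)) :=
    fun f hf => hf.intervalIntegrable _ _
  have h2 : 0 ≤ ∫ v in α n..α (n + 1), g v * ((f v - m) * (f v - m)) := by
    refine intervalIntegral.integral_nonneg hlt.le fun v hv => ?_
    have hg : 0 ≤ g v := (g_pos (by linarith [hv.1])).le
    exact mul_nonneg hg (mul_self_nonneg _)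
  have h3 : ∫ v in α n..α (n + 1), g v * ((f v - m) * (f v - m)) =
      (∫ v in α n..α (n + 1), g v * (f v * f v)) - m * m := by
    have : ∀ v, g v * ((f v - m) * (f v - m)) =
        g v * (f v * f v) - 2 * m * (g v * f v) + m * m * g v := fun v => by ring
    simp_rw [this]
    have j1 : Continuous fun v => g v * (f v * f v) := g_cont.mul (hf.mul hf)
    have j2 : Continuous fun v => 2 * m * (g v * f v) := (g_cont.mul hf).const_mul _
    have j4 : Continuous fun v => m * m * g v := g_cont.const_mul _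
    have j12 : Continuous fun v => g v * (f v * f v) - 2 * m * (g v * f v) := j1.sub j2
    rw [int_add' _ _ j12 j4, int_sub' _ _ j1 j2,
      intervalIntegral.integral_const_mul, intervalIntegral.integral_const_mul, h1, mul_one, ← hm]
    ring
  linarith

end Cvone

open Cvone

theorem cv_small : ∃ C : ℝ, ∀ (α : ℕ → ℝ), Cl α → ∀ (n : ℕ) (t t' : ℝ),
    |CV α n t t'| ≤ C * ((1 + |t|) * (1 + |t'|) * (α n ^ 2 * Real.exp (-(3 * α n)))) := by
  refine ⟨8, fun α H n t t' => ?_⟩
  have hlt : α n < α (n + 1) := H.lt n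
  have h4 : 4 ≤ α n := H.four_le n
  set a := α n with ha
  set D := 2 * a * Real.exp (-a) with hD
  have hlen : α (n + 1) - a ≤ D := len' H n
  set E := Real.exp (-(a / 2)) with hE
  have hE0 : 0 < E := Real.exp_pos _
  have hD0 : 0 < D := by have := Real.exp_pos (-a); positivity
  have hb : ∀ s : ℝ, ∀ v ∈ Icc (α n) (α (n + 1)), |X s v - X s a| ≤ (1 + |s|) * E * D := by
    intro s v hv
    refine (X_lip s hv.1).trans ?_
    have : v - α n ≤ D := by linarith [hv.2]
    exact mul_le_mul_of_nonneg_left this (by positivity)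
  rw [cv_shift H n t t' (X t a) (X t' a)]
  have h1 : |∫ v in α n..α (n + 1), g v * ((X t v - X t a) * (X t' v - X t' a))| ≤
      ((1 + |t|) * E * D) * ((1 + |t'|) * E * D) := by
    refine mean_le H n (fun v hv => ?_) (((X_cont t).sub continuous_const).mul
      ((X_cont t').sub continuous_const))
    rw [abs_mul]
    exact mul_le_mul (hb t v hv) (hb t' v hv) (abs_nonneg _) (by positivity)
  have h2 : ∀ s : ℝ, |∫ v in α n..α (n + 1), g v * (X s v - X s a)| ≤ (1 + |s|) * E * D :=
    fun s => mean_le H n (hb s) ((X_cont s).sub continuous_const)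
  have h3 : |(∫ v in α n..α (n + 1), g v * (X t v - X t a)) *
      ∫ v in α n..α (n + 1), g v * (X t' v - X t' a)| ≤
      ((1 + |t|) * E * D) * ((1 + |t'|) * E * D) := by
    rw [abs_mul]
    exact mul_le_mul (h2 t) (h2 t') (abs_nonneg _) (by positivity)
  refine (abs_sub _ _).trans ((add_le_add h1 h3).trans (le_of_eq ?_))
  have h5 : E * E = Real.exp (-a) := by rw [hE, ← Real.exp_add]; congr 1; ring
  have h6 : Real.exp (-a) * Real.exp (-a) * Real.exp (-a) = Real.exp (-(3 * a)) := by
    rw [← Real.exp_add, ← Real.exp_add]; congr 1; ring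
  calc (1 + |t|) * E * D * ((1 + |t'|) * E * D) + (1 + |t|) * E * D * ((1 + |t'|) * E * D)
      = 2 * ((1 + |t|) * (1 + |t'|)) * (E * E) * (D * D) := by ring
    _ = 8 * ((1 + |t|) * (1 + |t'|) * (a ^ 2 * (Real.exp (-a) * Real.exp (-a) * Real.exp (-a)))) := by
        rw [h5, hD]; ring
    _ = _ := by rw [h6]

theorem cv_nonneg {α : ℕ → ℝ} (H : Cl α) (n : ℕ) (t : ℝ) : 0 ≤ CV α n t t := by
  rw [cv_eq]
  exact var_nonneg H n (X_cont t)

theorem cv_le {α : ℕ → ℝ} (H : Cl α) (n : ℕ) (t t' : ℝ) : |CV α n t t'| ≤ Real.exp (-α n) := by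
  have hX := X_cont t
  have hX' := X_cont t'
  have i0 : ∀ f : ℝ → ℝ, Continuous f → IntervalIntegrable f volume (α n) (α (n + 1)) :=
    fun f hf => hf.intervalIntegrable _ _
  have key : ∀ c : ℝ, 0 ≤ (∫ v in α n..α (n + 1), g v * (X t v * X t v)) +
      2 * c * (∫ v in α n..α (n + 1), g v * (X t v * X t' v)) +
      c ^ 2 * (∫ v in α n..α (n + 1), g v * (X t' v * X t' v)) -
      ((∫ v in α n..α (n + 1), g v * X t v) + c * (∫ v in α n..α (n + 1), g v * X t' v)) *
      ((∫ v in α n..α (n + 1), g v * X t v) + c * (∫ v in α n..α (n + 1), g v * X t' v)) := by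
    intro c
    have h := var_nonneg H n (f := fun v => X t v + c * X t' v) (hX.add (hX'.const_mul c))
    have e1 : ∫ v in α n..α (n + 1), g v * (X t v + c * X t' v) =
        (∫ v in α n..α (n + 1), g v * X t v) + c * ∫ v in α n..α (n + 1), g v * X t' v := by
      have : ∀ v, g v * (X t v + c * X t' v) = g v * X t v + c * (g v * X t' v) := fun v => by ring
      simp_rw [this]
      rw [int_add' (fun v => g v * X t v) (fun v => c * (g v * X t' v)) (g_cont.mul hX)
        ((g_cont.mul hX').const_mul c), intervalIntegral.integral_const_mul]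
    have e2 : ∫ v in α n..α (n + 1), g v * ((X t v + c * X t' v) * (X t v + c * X t' v)) =
        (∫ v in α n..α (n + 1), g v * (X t v * X t v)) +
      2 * c * (∫ v in α n..α (n + 1), g v * (X t v * X t' v)) +
      c ^ 2 * (∫ v in α n..α (n + 1), g v * (X t' v * X t' v)) := by
      have : ∀ v, g v * ((X t v + c * X t' v) * (X t v + c * X t' v)) =
          g v * (X t v * X t v) + 2 * c * (g v * (X t v * X t' v)) +
            c ^ 2 * (g v * (X t' v * X t' v)) := fun v => by ring
      simp_rw [this]
      have j1 : Continuous fun v => g v * (X t v * X t v) := g_cont.mul (hX.mul hX)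
      have j2 : Continuous fun v => 2 * c * (g v * (X t v * X t' v)) :=
        (g_cont.mul (hX.mul hX')).const_mul _
      have j3 : Continuous fun v => c ^ 2 * (g v * (X t' v * X t' v)) :=
        (g_cont.mul (hX'.mul hX')).const_mul _
      have j12 : Continuous fun v => g v * (X t v * X t v) + 2 * c * (g v * (X t v * X t' v)) :=
        j1.add j2
      rw [int_add' _ _ j12 j3, int_add' _ _ j1 j2,
        intervalIntegral.integral_const_mul, intervalIntegral.integral_const_mul]
    rw [e1, e2] at h
    exact h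
  have hsq : ∀ s : ℝ, |∫ v in α n..α (n + 1), g v * (X s v * X s v)| ≤ Real.exp (-α n) := by
    intro s
    refine mean_le H n (fun v hv => ?_) ((X_cont s).mul (X_cont s))
    rw [abs_mul]
    have h1 := abs_X_le s hv.1
    have h5 : Real.exp (-(α n / 2)) * Real.exp (-(α n / 2)) = Real.exp (-α n) := by
      rw [← Real.exp_add]; congr 1; ring
    rw [← h5]
    exact mul_le_mul h1 h1 (abs_nonneg _) (Real.exp_pos _).le
  have k1 := key 1
  have k2 := key (-1)
  have s1 := abs_le.1 (hsq t)
  have s2 := abs_le.1 (hsq t')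
  rw [cv_eq, abs_le]
  set P := ∫ v in α n..α (n + 1), g v * X t v
  set Q := ∫ v in α n..α (n + 1), g v * X t' v
  constructor <;> nlinarith [mul_self_nonneg P, mul_self_nonneg Q]

end Pool.Agent.H41.KS
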