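import Pool.Agent.H41.KS.Defs
import Pool.Agent.H41.KS.Ee
import Pool.Agent.H41.KS.Len
import Pool.Agent.H41.KS.Mom

/-! # Project KS, stub KS-CV2 (helper73): the mean square of the sum of the covariances -/

set_option autoImplicit false

open MeasureTheory Filter Topology Set

namespace Pool.Agent.H41.KS

open Pool.Agent.H41.BC (g tr Cells law2 PP2 NN)

namespace CVT

/-! ### double integrals -/

theorem swp {F : ℝ → ℝ → ℝ} (hF : Continuous (Function.uncurry F)) (a b c d : ℝ) :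
    ∫ x in a..b, ∫ y in c..d, F x y = ∫ y in c..d, ∫ x in a..b, F x y := by
  apply intervalIntegral_intervalIntegral_swap
  refine (hF.continuousOn.integrableOn_compact (K := uIcc a b ×ˢ uIcc c d)
    (isCompact_uIcc.prod isCompact_uIcc)).mono_set ?_
  exact prod_mono uIoc_subset_uIcc uIoc_subset_uIcc

theorem inner_cont {F : ℝ → ℝ → ℝ} (hF : Continuous (Function.uncurry F)) (c d : ℝ) :
    Continuous fun x => ∫ y in c..d, F x y :=
  intervalIntegral.continuous_parametric_intervalIntegral_of_continuous' hF _ _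

theorem sec_cont {F : ℝ → ℝ → ℝ} (hF : Continuous (Function.uncurry F)) (x : ℝ) :
    Continuous fun y => F x y :=
  hF.comp (by fun_prop : Continuous fun y : ℝ => (x, y))

theorem dbl_mono {F G : ℝ → ℝ → ℝ} (hF : Continuous (Function.uncurry F))
    (hG : Continuous (Function.uncurry G)) {A A' : ℝ} (h : A ≤ A')
    (hle : ∀ t ∈ Icc A A', ∀ t' ∈ Icc A A', F t t' ≤ G t t') :
    ∫ t in A..A', ∫ t' in A..A', F t t' ≤ ∫ t in A..A', ∫ t' in A..A', G t t' := by
  refine intervalIntegral.integral_mono_on h ((inner_cont hF _ _).intervalIntegrable _ _)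
    ((inner_cont hG _ _).intervalIntegrable _ _) fun t ht => ?_
  exact intervalIntegral.integral_mono_on h ((sec_cont hF t).intervalIntegrable _ _)
    ((sec_cont hG t).intervalIntegrable _ _) fun t' ht' => hle t ht t' ht'

theorem dbl_add {F G : ℝ → ℝ → ℝ} (hF : Continuous (Function.uncurry F))
    (hG : Continuous (Function.uncurry G)) (A A' : ℝ) :
    ∫ t in A..A', ∫ t' in A..A', (F t t' + G t t') =
      (∫ t in A..A', ∫ t' in A..A', F t t') + ∫ t in A..A', ∫ t' in A..A', G t t' := by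
  rw [← intervalIntegral.integral_add ((inner_cont hF _ _).intervalIntegrable _ _)
    ((inner_cont hG _ _).intervalIntegrable _ _)]
  refine intervalIntegral.integral_congr fun t _ => ?_
  exact intervalIntegral.integral_add ((sec_cont hF t).intervalIntegrable _ _)
    ((sec_cont hG t).intervalIntegrable _ _)

theorem dbl_mul (c : ℝ) (F : ℝ → ℝ → ℝ) (A A' : ℝ) :
    ∫ t in A..A', ∫ t' in A..A', c * F t t' = c * ∫ t in A..A', ∫ t' in A..A', F t t' := by
  simp only [intervalIntegral.integral_const_mul]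

theorem dbl_sum {κ : Type} (s : Finset κ) (F : κ → ℝ → ℝ → ℝ)
    (hF : ∀ k, Continuous (Function.uncurry (F k))) (A A' : ℝ) :
    ∫ t in A..A', ∫ t' in A..A', ∑ k ∈ s, F k t t' =
      ∑ k ∈ s, ∫ t in A..A', ∫ t' in A..A', F k t t' := by
  rw [← intervalIntegral.integral_finsetSum fun k _ =>
    (inner_cont (hF k) _ _).intervalIntegrable _ _]
  refine intervalIntegral.integral_congr fun t _ => ?_
  exact intervalIntegral.integral_finsetSum fun k _ => (sec_cont (hF k) t).intervalIntegrable _ _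

theorem dbl_prod (f : ℝ → ℝ) (A A' : ℝ) :
    ∫ t in A..A', ∫ t' in A..A', f t * f t' = (∫ t in A..A', f t) ^ 2 := by
  simp only [intervalIntegral.integral_const_mul, intervalIntegral.integral_mul_const]
  rw [pow_two]

/-! ### integrals of products of cosines -/

theorem cos_int {c A A' : ℝ} (hc : c ≠ 0) : |∫ t in A..A', Real.cos (t * c)| ≤ 2 / |c| := by
  rw [intervalIntegral.integral_comp_mul_right (f := Real.cos) hc, integral_cos, smul_eq_mul,
    abs_mul, abs_inv, inv_mul_eq_div]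
  refine div_le_div_of_nonneg_right ?_ (abs_nonneg _)
  have h1 := Real.abs_sin_le_one (A' * c)
  have h2 := Real.abs_sin_le_one (A * c)
  have h3 := abs_sub (Real.sin (A' * c)) (Real.sin (A * c))
  linarith

theorem cc_int {v w A A' : ℝ} (hv : 0 < v) (hw : 0 < w) (hne : v ≠ w) :
    |∫ t in A..A', Real.cos (t * v) * Real.cos (t * w)| ≤ 2 / |v - w| := by
  have h1 : ∫ t in A..A', Real.cos (t * v) * Real.cos (t * w) =
      ((∫ t in A..A', Real.cos (t * (v - w))) + ∫ t in A..A', Real.cos (t * (v + w))) / 2 := by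
    rw [← intervalIntegral.integral_add (Continuous.intervalIntegrable (by fun_prop) _ _)
      (Continuous.intervalIntegrable (by fun_prop) _ _), ← intervalIntegral.integral_div]
    refine intervalIntegral.integral_congr fun t _ => ?_
    rw [mul_sub, mul_add, Real.cos_sub, Real.cos_add]
    ring
  have h2 := cos_int (A := A) (A' := A') (sub_ne_zero.2 hne)
  have h3 := cos_int (A := A) (A' := A') (show v + w ≠ 0 by positivity)
  have h4 : |v - w| ≤ |v + w| := by
    rw [abs_of_pos (show 0 < v + w by positivity), abs_le]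
    constructor <;> linarith
  have h5 : 0 < |v - w| := abs_pos.2 (sub_ne_zero.2 hne)
  have h6 : 2 / |v + w| ≤ 2 / |v - w| := div_le_div_of_nonneg_left (by norm_num) h5 h4
  rw [h1, abs_div, abs_of_pos (show (0 : ℝ) < 2 by norm_num), div_le_iff₀ (by norm_num)]
  refine (abs_add_le _ _).trans ?_
  linarith

theorem cc_triv {v w A A' : ℝ} (h : A ≤ A') :
    |∫ t in A..A', Real.cos (t * v) * Real.cos (t * w)| ≤ A' - A := by
  have h1 := intervalIntegral.norm_integral_le_of_norm_le_const (a := A) (b := A') (C := 1)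
    (f := fun t => Real.cos (t * v) * Real.cos (t * w)) (fun t _ => by
      rw [Real.norm_eq_abs, abs_mul]
      exact mul_le_one₀ (Real.abs_cos_le_one _) (abs_nonneg _) (Real.abs_cos_le_one _))
  rw [one_mul, abs_of_nonneg (by linarith)] at h1
  exact h1

/-- two swaps -/
theorem J_eq (p q p' q' A A' : ℝ) {φ ψ : ℝ → ℝ} (hφ : Continuous φ) (hψ : Continuous ψ) :
    ∫ t in A..A', (∫ v in p..q, φ v * Real.cos (t * v)) * (∫ w in p'..q', ψ w * Real.cos (t * w)) =
      ∫ v in p..q, φ v * ∫ w in p'..q', ψ w * ∫ t in A..A', Real.cos (t * v) * Real.cos (t * w) := by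
  have hG : Continuous fun t : ℝ => ∫ w in p'..q', ψ w * Real.cos (t * w) := by
    apply inner_cont (F := fun t w => ψ w * Real.cos (t * w))
    unfold Function.uncurry
    fun_prop
  set G : ℝ → ℝ := fun t => ∫ w in p'..q', ψ w * Real.cos (t * w) with hGd
  have h1 : ∫ t in A..A', (∫ v in p..q, φ v * Real.cos (t * v)) * G t =
      ∫ t in A..A', ∫ v in p..q, φ v * Real.cos (t * v) * G t := by
    refine intervalIntegral.integral_congr fun t _ => ?_
    rw [intervalIntegral.integral_mul_const]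
  have h2 := swp (F := fun t v => φ v * Real.cos (t * v) * G t) (by
    unfold Function.uncurry
    fun_prop) A A' p q
  refine h1.trans (h2.trans ?_)
  refine intervalIntegral.integral_congr fun v _ => ?_
  have h3 : ∫ t in A..A', φ v * Real.cos (t * v) * G t =
      φ v * ∫ t in A..A', ∫ w in p'..q', Real.cos (t * v) * (ψ w * Real.cos (t * w)) := by
    rw [← intervalIntegral.integral_const_mul]
    refine intervalIntegral.integral_congr fun t _ => ?_
    simp only [hGd]
    rw [intervalIntegral.integral_const_mul, mul_assoc]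
  rw [h3, swp (F := fun t w => Real.cos (t * v) * (ψ w * Real.cos (t * w))) (by
    unfold Function.uncurry
    fun_prop) A A' p' q']
  congr 1
  refine intervalIntegral.integral_congr fun w _ => ?_
  rw [← intervalIntegral.integral_const_mul]
  refine intervalIntegral.integral_congr fun t _ => ?_
  ring

theorem J_le {p q p' q' A A' B : ℝ} (hpq : p ≤ q) (hpq' : p' ≤ q') {φ ψ : ℝ → ℝ}
    (hφ : Continuous φ) (hψ : Continuous ψ) (hφ0 : ∀ v ∈ Icc p q, 0 ≤ φ v)
    (hψ0 : ∀ v ∈ Icc p' q', 0 ≤ ψ v)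
    (hB : ∀ v ∈ Icc p q, ∀ w ∈ Icc p' q',
      |∫ t in A..A', Real.cos (t * v) * Real.cos (t * w)| ≤ B) :
    |∫ t in A..A', (∫ v in p..q, φ v * Real.cos (t * v)) *
      (∫ w in p'..q', ψ w * Real.cos (t * w))| ≤
      (∫ v in p..q, φ v) * (∫ w in p'..q', ψ w) * B := by
  rw [J_eq _ _ _ _ _ _ hφ hψ]
  have h1 : ∀ v ∈ Icc p q,
      |∫ w in p'..q', ψ w * ∫ t in A..A', Real.cos (t * v) * Real.cos (t * w)| ≤
        (∫ w in p'..q', ψ w) * B := by
    intro v hv
    rw [← intervalIntegral.integral_mul_const, ← Real.norm_eq_abs]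
    refine intervalIntegral.norm_integral_le_of_norm_le (μ := volume)
      (g := fun w => ψ w * B) hpq' ?_
      ((hψ.mul continuous_const).intervalIntegrable _ _)
    refine Filter.Eventually.of_forall fun w hw => ?_
    rw [Real.norm_eq_abs, abs_mul, abs_of_nonneg (hψ0 w (Ioc_subset_Icc_self hw))]
    exact mul_le_mul_of_nonneg_left (hB v hv w (Ioc_subset_Icc_self hw))
      (hψ0 w (Ioc_subset_Icc_self hw))
  rw [mul_assoc, ← intervalIntegral.integral_mul_const, ← Real.norm_eq_abs]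
  refine intervalIntegral.norm_integral_le_of_norm_le (μ := volume)
    (g := fun v => φ v * ((∫ w in p'..q', ψ w) * B)) hpq ?_
    ((hφ.mul continuous_const).intervalIntegrable _ _)
  refine Filter.Eventually.of_forall fun v hv => ?_
  rw [Real.norm_eq_abs, abs_mul, abs_of_nonneg (hφ0 v (Ioc_subset_Icc_self hv))]
  exact mul_le_mul_of_nonneg_left (h1 v (Ioc_subset_Icc_self hv))
    (hφ0 v (Ioc_subset_Icc_self hv))

/-! ### the means -/

noncomputable def u (α : ℕ → ℝ) (n : ℕ) (t : ℝ) : ℝ := (m1 α n t).re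

theorem u_cont (α : ℕ → ℝ) (n : ℕ) : Continuous (u α n) := by
  unfold u m1
  exact Complex.continuous_re.comp ((BC.tr_diff _ _).continuous.comp (by fun_prop))

noncomputable def φ₀ (v : ℝ) : ℝ := g v * Real.exp (-(1 / 2 * v))

theorem φ₀_cont : Continuous φ₀ := BC.g_cont.mul (by fun_prop)

theorem u_eq (α : ℕ → ℝ) (n : ℕ) (t : ℝ) :
    u α n t = ∫ v in α n..α (n + 1), φ₀ v * Real.cos (t * v) := by
  unfold u m1 φ₀
  rw [re_tr]
  refine intervalIntegral.integral_congr fun v _ => ?_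
  rw [Complex.exp_re]
  have h1 : (-((1 / 2 + (t : ℂ) * Complex.I) * (v : ℂ))).re = -(1 / 2 * v) := by simp
  have h2 : (-((1 / 2 + (t : ℂ) * Complex.I) * (v : ℂ))).im = -(t * v) := by simp
  rw [h1, h2, Real.cos_neg, mul_assoc]

noncomputable def JJ (α : ℕ → ℝ) (A A' : ℝ) (n n' : ℕ) : ℝ := ∫ t in A..A', u α n t * u α n' t

theorem JJ_symm (α : ℕ → ℝ) (A A' : ℝ) (n n' : ℕ) : JJ α A A' n n' = JJ α A A' n' n := by
  unfold JJ
  refine intervalIntegral.integral_congr fun t _ => ?_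
  exact mul_comm _ _

theorem JJ_le {α : ℕ → ℝ} (H : Cl α) {A A' B : ℝ} {n n' : ℕ} (hB0 : 0 ≤ B)
    (hB : ∀ v ∈ Icc (α n) (α (n + 1)), ∀ w ∈ Icc (α n') (α (n' + 1)),
      |∫ t in A..A', Real.cos (t * v) * Real.cos (t * w)| ≤ B) :
    JJ α A A' n n' ^ 2 ≤ Real.exp (-α n) * Real.exp (-α n') * B ^ 2 := by
  have h4 : ∀ m, ∀ v ∈ Icc (α m) (α (m + 1)), 0 ≤ φ₀ v := fun m v hv =>
    mul_nonneg (BC.g_pos (by linarith [hv.1, H.four_le m])).le (Real.exp_pos _).le
  have h1 : |JJ α A A' n n'| ≤ (∫ v in α n..α (n + 1), φ₀ v) *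
      (∫ w in α n'..α (n' + 1), φ₀ w) * B := by
    unfold JJ
    simp only [u_eq]
    exact J_le (H.lt n).le (H.lt n').le φ₀_cont φ₀_cont (h4 n) (h4 n') hB
  have h2 : ∀ m, (∫ v in α m..α (m + 1), φ₀ v) ≤ Real.exp (-(1 / 2 * α m)) := fun m =>
    exp_mean_le H m (by norm_num)
  have h3 : ∀ m, 0 ≤ ∫ v in α m..α (m + 1), φ₀ v := fun m =>
    intervalIntegral.integral_nonneg (H.lt m).le fun v hv => h4 m v hv
  have h5 : |JJ α A A' n n'| ≤ Real.exp (-(1 / 2 * α n)) * Real.exp (-(1 / 2 * α n')) * B := by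
    refine h1.trans ?_
    refine mul_le_mul_of_nonneg_right ?_ hB0
    exact mul_le_mul (h2 n) (h2 n') (h3 n') (Real.exp_pos _).le
  have h6 : Real.exp (-α n) * Real.exp (-α n') * B ^ 2 =
      (Real.exp (-(1 / 2 * α n)) * Real.exp (-(1 / 2 * α n')) * B) ^ 2 := by
    rw [mul_pow, mul_pow, ← Real.exp_nat_mul, ← Real.exp_nat_mul]
    congr 3
    · push_cast; ring
    · push_cast; ring
  rw [h6, ← sq_abs]
  exact pow_le_pow_left₀ (abs_nonneg _) h5 2

/-- two cells with at least one between them -/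
theorem gap {α : ℕ → ℝ} (H : Cl α) (k m : ℕ) :
    (m : ℝ) * Real.exp (-α (k + m)) ≤ α (k + m) - α k := by
  induction m with
  | zero => simp
  | succ m ih =>
    have h1 := long H (k + m)
    have h2 : Real.exp (-α (k + m + 1)) ≤ Real.exp (-α (k + m)) :=
      Real.exp_le_exp.2 (neg_le_neg (H.lt (k + m)).le)
    have h3 : (m : ℝ) * Real.exp (-α (k + m + 1)) ≤ m * Real.exp (-α (k + m)) :=
      mul_le_mul_of_nonneg_left h2 (Nat.cast_nonneg m)
    push_cast
    rw [← add_assoc]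
    linarith

theorem far {α : ℕ → ℝ} (H : Cl α) {T A A' : ℝ} (hT : 0 < T) (h : A ≤ A') (hA : A' - A ≤ T)
    (n k : ℕ) :
    JJ α A A' n (n + 2 + k) ^ 2 ≤ 2 * T * Real.exp (-α n) / ((k : ℝ) + 1) := by
  have h1 := gap H (n + 1) (k + 1)
  have e1 : n + 1 + (k + 1) = n + 2 + k := by ring
  rw [e1] at h1
  set δ : ℝ := α (n + 2 + k) - α (n + 1) with hδ
  have hk : (0 : ℝ) < (k : ℝ) + 1 := by positivity
  have hδ1 : ((k : ℝ) + 1) * Real.exp (-α (n + 2 + k)) ≤ δ := by
    push_cast at h1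
    exact h1
  have hδ0 : 0 < δ := lt_of_lt_of_le (by positivity) hδ1
  have hb : ∀ v ∈ Icc (α n) (α (n + 1)), ∀ w ∈ Icc (α (n + 2 + k)) (α (n + 2 + k + 1)),
      |∫ t in A..A', Real.cos (t * v) * Real.cos (t * w)| ≤ 2 / δ := by
    intro v hv w hw
    have hv0 : 0 < v := by linarith [hv.1, H.four_le n]
    have hw0 : 0 < w := by linarith [hw.1, H.four_le (n + 2 + k)]
    have h2 : δ ≤ w - v := by
      have := hv.2
      have := hw.1
      linarith
    have h3 : v ≠ w := by
      intro h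
      rw [h] at h2
      linarith
    refine (cc_int hv0 hw0 h3).trans ?_
    refine div_le_div_of_nonneg_left (by norm_num) hδ0 ?_
    rw [abs_sub_comm]
    exact h2.trans (le_abs_self _)
  have hb2 : ∀ v ∈ Icc (α n) (α (n + 1)), ∀ w ∈ Icc (α (n + 2 + k)) (α (n + 2 + k + 1)),
      |∫ t in A..A', Real.cos (t * v) * Real.cos (t * w)| ≤ Real.sqrt (T * (2 / δ)) := by
    intro v hv w hw
    refine Real.le_sqrt_of_sq_le ?_
    have h2 := hb v hv w hw
    have h3 := (cc_triv (v := v) (w := w) h).trans hA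
    rw [pow_two]
    exact mul_le_mul h3 h2 (abs_nonneg _) hT.le
  have h2 := JJ_le H (Real.sqrt_nonneg _) hb2
  rw [Real.sq_sqrt (by positivity)] at h2
  refine h2.trans ?_
  have h3 : 2 / δ ≤ 2 * (Real.exp (α (n + 2 + k)) / ((k : ℝ) + 1)) := by
    rw [div_le_iff₀ hδ0]
    have h4 : 1 ≤ Real.exp (α (n + 2 + k)) / ((k : ℝ) + 1) * δ := by
      rw [div_mul_eq_mul_div, le_div_iff₀ hk, one_mul]
      calc ((k : ℝ) + 1) = Real.exp (α (n + 2 + k)) *
            (((k : ℝ) + 1) * Real.exp (-α (n + 2 + k))) := by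
            rw [Real.exp_neg]
            field_simp
        _ ≤ _ := mul_le_mul_of_nonneg_left hδ1 (Real.exp_pos _).le
    linarith
  calc Real.exp (-α n) * Real.exp (-α (n + 2 + k)) * (T * (2 / δ))
      ≤ Real.exp (-α n) * Real.exp (-α (n + 2 + k)) *
        (T * (2 * (Real.exp (α (n + 2 + k)) / ((k : ℝ) + 1)))) := by gcongr
    _ = 2 * T * Real.exp (-α n) / ((k : ℝ) + 1) := by
        rw [Real.exp_neg (α (n + 2 + k))]
        field_simp

theorem near {α : ℕ → ℝ} (H : Cl α) {T A A' : ℝ} (hT : 0 < T) (h : A ≤ A') (hA : A' - A ≤ T)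
    (a n n' : ℕ) (ha : a ≤ n') :
    JJ α A A' n n' ^ 2 ≤ T ^ 2 * Real.exp (-α a) * Real.exp (-α n) := by
  have h2 := JJ_le H hT.le (n := n) (n' := n') (A := A) (A' := A')
    fun v _ w _ => (cc_triv (v := v) (w := w) h).trans hA
  have h3 : Real.exp (-α n') ≤ Real.exp (-α a) :=
    Real.exp_le_exp.2 (neg_le_neg (H.alpha_mono.monotone ha))
  refine h2.trans ?_
  calc Real.exp (-α n) * Real.exp (-α n') * T ^ 2 ≤ Real.exp (-α n) * Real.exp (-α a) * T ^ 2 := by
        gcongr
    _ = _ := by ring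

/-- the sum over all pairs of cells -/
theorem pairs {α : ℕ → ℝ} (H : Cl α) {a b : ℕ} (hab : a ≤ b) {T A A' : ℝ} (hT : 0 < T)
    (h : A ≤ A') (hA : A' - A ≤ T) :
    ∑ n ∈ Finset.Ico a b, ∑ n' ∈ Finset.Ico a b, JJ α A A' n n' ^ 2 ≤
      12 * (1 + α b) ^ 2 * (T + T ^ 2 * Real.exp (-α a)) := by
  classical
  have hb4 : 4 ≤ α b := H.four_le b
  set L : ℝ := 1 + α b with hL
  -- bounds
  set K₁ : ℕ → ℕ → ℝ := fun n n' => if n + 2 ≤ n' then
    2 * T * Real.exp (-α n) / (((n' - (n + 2) : ℕ) : ℝ) + 1) else 0 with hK₁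
  set N₁ : ℕ → ℕ → ℝ := fun n n' => if n ≤ n' ∧ n' ≤ n + 1 then
    T ^ 2 * Real.exp (-α a) * Real.exp (-α n) else 0 with hN₁
  have hK0 : ∀ n n', 0 ≤ K₁ n n' := by
    intro n n'
    simp only [hK₁]
    split_ifs
    · positivity
    · exact le_rfl
  have hN0 : ∀ n n', 0 ≤ N₁ n n' := by
    intro n n'
    simp only [hN₁]
    split_ifs
    · positivity
    · exact le_rfl
  have hhalf : ∀ n n', a ≤ n → n ≤ n' → JJ α A A' n n' ^ 2 ≤ K₁ n n' + N₁ n n' := by
    intro n n' ha hn
    by_cases h2 : n + 2 ≤ n'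
    · obtain ⟨k, rfl⟩ := Nat.exists_eq_add_of_le h2
      have h3 : K₁ n (n + 2 + k) = 2 * T * Real.exp (-α n) / ((k : ℝ) + 1) := by
        simp only [hK₁]
        rw [if_pos h2, Nat.add_sub_cancel_left]
      rw [h3]
      have := far H hT h hA n k
      linarith [hN0 n (n + 2 + k)]
    · have h3 : N₁ n n' = T ^ 2 * Real.exp (-α a) * Real.exp (-α n) := by
        simp only [hN₁]
        rw [if_pos ⟨hn, by omega⟩]
      rw [h3]
      have := near H hT h hA a n n' (ha.trans hn)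
      linarith [hK0 n n']
  have hall : ∀ n ∈ Finset.Ico a b, ∀ n' ∈ Finset.Ico a b, JJ α A A' n n' ^ 2 ≤
      (K₁ n n' + N₁ n n') + (K₁ n' n + N₁ n' n) := by
    intro n hn n' hn'
    rw [Finset.mem_Ico] at hn hn'
    rcases le_total n n' with h1 | h1
    · have := hhalf n n' hn.1 h1
      linarith [hK0 n' n, hN0 n' n]
    · have := hhalf n' n hn'.1 h1
      rw [JJ_symm]
      linarith [hK0 n n', hN0 n n']
  have hS1 : ∑ n ∈ Finset.Ico a b, ∑ n' ∈ Finset.Ico a b, JJ α A A' n n' ^ 2 ≤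
      2 * ∑ n ∈ Finset.Ico a b, ∑ n' ∈ Finset.Ico a b, (K₁ n n' + N₁ n n') := by
    calc ∑ n ∈ Finset.Ico a b, ∑ n' ∈ Finset.Ico a b, JJ α A A' n n' ^ 2
        ≤ ∑ n ∈ Finset.Ico a b, ∑ n' ∈ Finset.Ico a b,
          ((K₁ n n' + N₁ n n') + (K₁ n' n + N₁ n' n)) :=
          Finset.sum_le_sum fun n hn => Finset.sum_le_sum fun n' hn' => hall n hn n' hn'
      _ = (∑ n ∈ Finset.Ico a b, ∑ n' ∈ Finset.Ico a b, (K₁ n n' + N₁ n n')) +
          ∑ n ∈ Finset.Ico a b, ∑ n' ∈ Finset.Ico a b, (K₁ n' n + N₁ n' n) := by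
          rw [← Finset.sum_add_distrib]
          exact Finset.sum_congr rfl fun n _ => Finset.sum_add_distrib
      _ = _ := by
          rw [Finset.sum_comm (s := Finset.Ico a b) (t := Finset.Ico a b)
            (f := fun n n' => K₁ n' n + N₁ n' n)]
          ring
  -- the harmonic sum
  have hharm : ∑ k ∈ Finset.range b, 1 / ((k : ℝ) + 1) ≤ L := by
    rcases Nat.eq_zero_or_pos b with hb | hb
    · rw [hb, Finset.range_zero, Finset.sum_empty]
      linarith
    · have h1 := harmonic_le_one_add_log b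
      have h2 : ((harmonic b : ℚ) : ℝ) = ∑ k ∈ Finset.range b, 1 / ((k : ℝ) + 1) := by
        unfold harmonic
        push_cast
        refine Finset.sum_congr rfl fun k _ => ?_
        rw [one_div]
      rw [h2] at h1
      have h3 : Real.log b ≤ α b := by
        rw [Real.log_le_iff_le_exp (by exact_mod_cast hb)]
        exact idx H b
      linarith
  have hK : ∀ n, ∑ n' ∈ Finset.Ico a b, K₁ n n' ≤ 2 * T * L * Real.exp (-α n) := by
    intro n
    have h1 : ∑ n' ∈ Finset.Ico a b, K₁ n n' ≤ ∑ n' ∈ Finset.Ico (n + 2) (n + 2 + b), K₁ n n' := by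
      rw [← Finset.sum_filter_add_sum_filter_not (Finset.Ico a b) (fun n' => n + 2 ≤ n')]
      have h2 : ∑ n' ∈ (Finset.Ico a b).filter (fun n' => ¬ n + 2 ≤ n'), K₁ n n' = 0 := by
        refine Finset.sum_eq_zero fun n' hn' => ?_
        simp only [hK₁]
        rw [if_neg (Finset.mem_filter.1 hn').2]
      rw [h2, add_zero]
      refine Finset.sum_le_sum_of_subset_of_nonneg ?_ fun n' _ _ => hK0 n n'
      intro n' hn'
      rw [Finset.mem_filter, Finset.mem_Ico] at hn'
      rw [Finset.mem_Ico]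
      omega
    have h2 : ∑ n' ∈ Finset.Ico (n + 2) (n + 2 + b), K₁ n n' =
        2 * T * Real.exp (-α n) * ∑ k ∈ Finset.range b, 1 / ((k : ℝ) + 1) := by
      rw [Finset.sum_Ico_eq_sum_range, Nat.add_sub_cancel_left, Finset.mul_sum]
      refine Finset.sum_congr rfl fun k _ => ?_
      simp only [hK₁]
      rw [if_pos (Nat.le_add_right _ _), Nat.add_sub_cancel_left]
      ring
    rw [h2] at h1
    refine h1.trans ?_
    calc 2 * T * Real.exp (-α n) * ∑ k ∈ Finset.range b, 1 / ((k : ℝ) + 1)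
        ≤ 2 * T * Real.exp (-α n) * L := by gcongr
      _ = _ := by ring
  have hN : ∀ n, ∑ n' ∈ Finset.Ico a b, N₁ n n' ≤ 2 * (T ^ 2 * Real.exp (-α a) *
      Real.exp (-α n)) := by
    intro n
    have h1 : ∑ n' ∈ Finset.Ico a b, N₁ n n' ≤ ∑ n' ∈ ({n, n + 1} : Finset ℕ), N₁ n n' := by
      rw [← Finset.sum_filter_add_sum_filter_not (Finset.Ico a b) (fun n' => n ≤ n' ∧ n' ≤ n + 1)]
      have h2 : ∑ n' ∈ (Finset.Ico a b).filter (fun n' => ¬ (n ≤ n' ∧ n' ≤ n + 1)), N₁ n n' = 0 := by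
        refine Finset.sum_eq_zero fun n' hn' => ?_
        simp only [hN₁]
        rw [if_neg (Finset.mem_filter.1 hn').2]
      rw [h2, add_zero]
      refine Finset.sum_le_sum_of_subset_of_nonneg ?_ fun n' _ _ => hN0 n n'
      intro n' hn'
      rw [Finset.mem_filter] at hn'
      rw [Finset.mem_insert, Finset.mem_singleton]
      omega
    refine h1.trans ?_
    rw [Finset.sum_pair (by omega)]
    have h2 : N₁ n n = T ^ 2 * Real.exp (-α a) * Real.exp (-α n) := by
      simp only [hN₁]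
      rw [if_pos ⟨le_rfl, by omega⟩]
    have h3 : N₁ n (n + 1) = T ^ 2 * Real.exp (-α a) * Real.exp (-α n) := by
      simp only [hN₁]
      rw [if_pos ⟨by omega, le_rfl⟩]
    rw [h2, h3]
    linarith
  have hsum : ∑ n ∈ Finset.Ico a b, Real.exp (-α n) ≤ 3 * L := by
    have h1 := sum1 H hab
    have h2 : 0 ≤ Real.log (α a) := Real.log_nonneg (by linarith [H.four_le a])
    have h3 : Real.log (α b) ≤ α b := (Real.log_le_sub_one_of_pos (by linarith)).trans (by linarith)
    linarith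
  have hS2 : ∑ n ∈ Finset.Ico a b, ∑ n' ∈ Finset.Ico a b, (K₁ n n' + N₁ n n') ≤
      (2 * T * L + 2 * (T ^ 2 * Real.exp (-α a))) * (3 * L) := by
    calc ∑ n ∈ Finset.Ico a b, ∑ n' ∈ Finset.Ico a b, (K₁ n n' + N₁ n n')
        ≤ ∑ n ∈ Finset.Ico a b, (2 * T * L + 2 * (T ^ 2 * Real.exp (-α a))) * Real.exp (-α n) := by
          refine Finset.sum_le_sum fun n _ => ?_
          rw [Finset.sum_add_distrib]
          have h1 := hK n
          have h2 := hN n
          linarith
      _ = (2 * T * L + 2 * (T ^ 2 * Real.exp (-α a))) * ∑ n ∈ Finset.Ico a b, Real.exp (-α n) := by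
          rw [Finset.mul_sum]
      _ ≤ _ := mul_le_mul_of_nonneg_left hsum (by positivity)
  have hL1 : 1 ≤ L := by linarith
  have hx : 0 ≤ T ^ 2 * Real.exp (-α a) := by positivity
  calc _ ≤ 2 * ((2 * T * L + 2 * (T ^ 2 * Real.exp (-α a))) * (3 * L)) := by linarith
    _ = 12 * (T * L ^ 2 + T ^ 2 * Real.exp (-α a) * L) := by ring
    _ ≤ 12 * (T * L ^ 2 + T ^ 2 * Real.exp (-α a) * L ^ 2) := by
        have : L ≤ L ^ 2 := by nlinarith
        have := mul_le_mul_of_nonneg_left this hx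
        linarith
    _ = _ := by ring

/-! ### the transforms -/

theorem tr_sum (α : ℕ → ℝ) {a b : ℕ} (hab : a ≤ b) (s : ℂ) :
    ∑ n ∈ Finset.Ico a b, tr (α n) (α (n + 1)) s = tr (α a) (α b) s := by
  induction b, hab using Nat.le_induction with
  | base =>
    rw [Finset.Ico_self, Finset.sum_empty]
    unfold tr
    rw [intervalIntegral.integral_same]
  | succ b hab ih => rw [Finset.sum_Ico_succ_top hab, ih, BC.tr_add]

theorem tr_sq {p q : ℝ} (hp : 4 ≤ p) (hpq : p ≤ q) {s : ℂ} (h1 : s.re = 1) :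
    (tr p q s).re ^ 2 ≤ 2 * (1 + q) ^ 2 * (1 + s.im ^ 2)⁻¹ := by
  set X : ℝ := ‖tr p q s‖ with hX
  have hX0 : 0 ≤ X := norm_nonneg _
  have hXq : X ≤ q := by
    refine (BC.tr_norm hpq s).trans ?_
    calc ∫ v in p..q, |g v| * Real.exp (-(s.re * v)) ≤ ∫ _v in p..q, (1 : ℝ) := by
          refine intervalIntegral.integral_mono_on hpq
            (Continuous.intervalIntegrable (BC.g_cont.abs.mul (by fun_prop)) _ _) (by simp)
            fun v hv => ?_
          have hv4 : 4 ≤ v := hp.trans hv.1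
          rw [abs_of_pos (BC.g_pos (by linarith)), h1, one_mul]
          calc g v * Real.exp (-v) ≤ Real.exp v * Real.exp (-v) :=
                mul_le_mul_of_nonneg_right (BC.g_le (by linarith)) (Real.exp_pos _).le
            _ = 1 := by rw [← Real.exp_add]; simp
      _ = q - p := by simp
      _ ≤ q := by linarith
  have hre : (tr p q s).re ^ 2 ≤ X ^ 2 := by
    rw [← sq_abs]
    exact pow_le_pow_left₀ (abs_nonneg _) (Complex.abs_re_le_norm _) 2
  refine hre.trans ?_
  have hq : 0 < 1 + q := by linarith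
  have hL1 : X ^ 2 ≤ (1 + q) ^ 2 := pow_le_pow_left₀ hX0 (by linarith) 2
  have h2 : X ^ 2 * s.im ^ 2 ≤ (1 + q) ^ 2 := by
    by_cases hs : s.im = 0
    · rw [hs]
      have : (0 : ℝ) ≤ (1 + q) ^ 2 := by positivity
      simpa using this
    · have h3 := tr_osc1 hp hpq h1 hs
      have h4 : 0 < |s.im| := abs_pos.2 hs
      have h5 : X * |s.im| ≤ 1 := by
        rwa [le_div_iff₀ h4] at h3
      have h6 : (X * |s.im|) ^ 2 ≤ 1 ^ 2 := pow_le_pow_left₀ (by positivity) h5 2
      rw [mul_pow, sq_abs] at h6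
      nlinarith
  rw [← div_eq_mul_inv, le_div_iff₀ (by positivity)]
  nlinarith

theorem atan_int (A A' c : ℝ) : ∫ t' in A..A', (1 + (t' + c) ^ 2)⁻¹ ≤ 4 := by
  rw [intervalIntegral.integral_comp_add_right (f := fun x : ℝ => (1 + x ^ 2)⁻¹),
    integral_inv_one_add_sq]
  have h1 := Real.arctan_lt_pi_div_two (A' + c)
  have h2 := Real.neg_pi_div_two_lt_arctan (A + c)
  have h3 := Real.pi_le_four
  linarith

theorem pcont (p q : ℝ) (ε : ℂ) :
    Continuous (Function.uncurry fun t t' : ℝ => (tr p q (1 + (t + ε * t') * Complex.I)).re) := by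
  unfold Function.uncurry
  exact Complex.continuous_re.comp ((BC.tr_diff _ _).continuous.comp (by fun_prop))

/-- the average of the square of a transform -/
theorem tr_avg {p q : ℝ} (hp : 4 ≤ p) (hpq : p ≤ q) {T A A' : ℝ}
    (h : A ≤ A') (hA : A' - A ≤ T) {ε : ℝ} (hε : ε = 1 ∨ ε = -1) :
    ∫ t in A..A', ∫ t' in A..A', (tr p q (1 + (t + (ε : ℂ) * t') * Complex.I)).re ^ 2 ≤
      8 * (1 + q) ^ 2 * T := by
  have him : ∀ t t' : ℝ, ((1 : ℂ) + (t + (ε : ℂ) * t') * Complex.I).im ^ 2 = (t' + ε * t) ^ 2 := by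
    intro t t'
    have h1 : ((1 : ℂ) + (t + (ε : ℂ) * t') * Complex.I).im = t + ε * t' := by simp
    rw [h1]
    have hε2 : ε ^ 2 = 1 := by
      rcases hε with h | h
      · rw [h]; norm_num
      · rw [h]; norm_num
    ring_nf
    rw [hε2]
    ring
  have hre : ∀ t t' : ℝ, ((1 : ℂ) + (t + (ε : ℂ) * t') * Complex.I).re = 1 := by
    intro t t'
    simp
  have hc2 : Continuous (Function.uncurry fun t t' : ℝ =>
      2 * (1 + q) ^ 2 * (1 + (t' + ε * t) ^ 2)⁻¹) := by
    unfold Function.uncurry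
    refine continuous_const.mul (Continuous.inv₀ (by fun_prop) fun x => ?_)
    positivity
  have hc1 : Continuous (Function.uncurry fun t t' : ℝ =>
      (tr p q (1 + (t + (ε : ℂ) * t') * Complex.I)).re ^ 2) := (pcont p q (ε : ℂ)).pow 2
  have h1 := dbl_mono hc1 hc2 h fun t _ t' _ => by
    have := tr_sq hp hpq (hre t t')
    rw [him] at this
    exact this
  refine le_trans h1 ?_
  have h2 : ∀ t ∈ Icc A A', ∫ t' in A..A', 2 * (1 + q) ^ 2 * (1 + (t' + ε * t) ^ 2)⁻¹ ≤
      8 * (1 + q) ^ 2 := by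
    intro t _
    rw [intervalIntegral.integral_const_mul]
    have := atan_int A A' (ε * t)
    have h0 : 0 ≤ 2 * (1 + q) ^ 2 := by positivity
    calc _ ≤ 2 * (1 + q) ^ 2 * 4 := mul_le_mul_of_nonneg_left this h0
      _ = _ := by ring
  calc ∫ t in A..A', ∫ t' in A..A', 2 * (1 + q) ^ 2 * (1 + (t' + ε * t) ^ 2)⁻¹
      ≤ ∫ _t in A..A', 8 * (1 + q) ^ 2 :=
        intervalIntegral.integral_mono_on h ((inner_cont hc2 _ _).intervalIntegrable _ _)
          (by simp) h2
    _ = (A' - A) * (8 * (1 + q) ^ 2) := by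
        rw [intervalIntegral.integral_const, smul_eq_mul]
    _ ≤ T * (8 * (1 + q) ^ 2) := mul_le_mul_of_nonneg_right hA (by positivity)
    _ = _ := by ring

end CVT

open CVT in
theorem cv_sum : ∃ C : ℝ, ∀ (α : ℕ → ℝ), Cl α → ∀ (a b : ℕ), a ≤ b → ∀ (T A A' : ℝ), 2 ≤ T →
    T ≤ A → A ≤ A' → A' ≤ 2 * T →
    ∫ t in A..A', ∫ t' in A..A', (∑ n ∈ Finset.Ico a b, CV α n t t') ^ 2 ≤
      C * ((1 + α b) ^ 4 * (T ^ 2 * Real.exp (-α a) + T)) := by
  refine ⟨84, fun α H a b hab T A A' hT hTA hAA hA' => ?_⟩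
  have hT0 : 0 < T := by linarith
  have hA : A' - A ≤ T := by linarith
  have hpa := H.four_le a
  have hpb : α a ≤ α b := H.alpha_mono.monotone hab
  set P : ℝ → ℝ → ℝ := fun t t' => (tr (α a) (α b) (1 + (t + ((-1 : ℝ) : ℂ) * t') * Complex.I)).re
    with hP
  set Q : ℝ → ℝ → ℝ := fun t t' => (tr (α a) (α b) (1 + (t + ((1 : ℝ) : ℂ) * t') * Complex.I)).re
    with hQ
  set R : ℝ → ℝ → ℝ := fun t t' => ∑ n ∈ Finset.Ico a b, u α n t * u α n t' with hR
  have hPc : Continuous (Function.uncurry P) := pcont _ _ _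
  have hQc : Continuous (Function.uncurry Q) := pcont _ _ _
  have huc : ∀ n n', Continuous (Function.uncurry fun t t' : ℝ =>
      (u α n t * u α n' t) * (u α n t' * u α n' t')) := by
    intro n n'
    have h1 := u_cont α n
    have h2 := u_cont α n'
    unfold Function.uncurry
    fun_prop
  have hRc : Continuous (Function.uncurry R) := by
    have h1 : ∀ n, Continuous fun x : ℝ × ℝ => u α n x.1 * u α n x.2 := fun n => by
      have h1 := u_cont α n
      fun_prop
    exact continuous_finsetSum _ fun n _ => h1 n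
  have hCV : ∀ t t', ∑ n ∈ Finset.Ico a b, CV α n t t' = (P t t' + Q t t') / 2 - R t t' := by
    intro t t'
    unfold CV
    rw [Finset.sum_sub_distrib, ← Finset.sum_div, Finset.sum_add_distrib]
    have e1 : ∀ s : ℂ, ∑ n ∈ Finset.Ico a b, (tr (α n) (α (n + 1)) s).re = (tr (α a) (α b) s).re := by
      intro s
      rw [← Complex.re_sum, tr_sum α hab]
    rw [e1, e1]
    simp only [hP, hQ, hR]
    have e2 : (1 : ℂ) + (t - t') * Complex.I = 1 + (t + ((-1 : ℝ) : ℂ) * t') * Complex.I := by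
      push_cast; ring
    have e3 : (1 : ℂ) + (t + t') * Complex.I = 1 + (t + ((1 : ℝ) : ℂ) * t') * Complex.I := by
      push_cast; ring
    rw [e2, e3]
    rfl
  have hFc : Continuous (Function.uncurry fun t t' => (∑ n ∈ Finset.Ico a b, CV α n t t') ^ 2) := by
    simp only [hCV]
    exact (((hPc.add hQc).div_const 2).sub hRc).pow 2
  have hPs : Continuous (Function.uncurry fun t t' => P t t' ^ 2) := hPc.pow 2
  have hQs : Continuous (Function.uncurry fun t t' => Q t t' ^ 2) := hQc.pow 2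
  have hPQ : Continuous (Function.uncurry fun t t' => P t t' ^ 2 + Q t t' ^ 2) :=
    hPs.add hQs
  have hR2 : Continuous (Function.uncurry fun t t' => R t t' ^ 2) := hRc.pow 2
  have hPQR : Continuous (Function.uncurry fun t t' => (P t t' ^ 2 + Q t t' ^ 2) + R t t' ^ 2) :=
    hPQ.add hR2
  have h3c : Continuous (Function.uncurry fun t t' =>
      3 * ((P t t' ^ 2 + Q t t' ^ 2) + R t t' ^ 2)) := continuous_const.mul hPQR
  have h1 := dbl_mono hFc h3c hAA fun t _ t' _ => by
    rw [hCV]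
    nlinarith [sq_nonneg (P t t' - Q t t'), sq_nonneg (P t t' + R t t'),
      sq_nonneg (Q t t' + R t t'), sq_nonneg (P t t'), sq_nonneg (Q t t'), sq_nonneg (R t t'),
      sq_nonneg (P t t' + Q t t'), sq_nonneg ((P t t' + Q t t') / 2 + R t t')]
  refine h1.trans ?_
  rw [dbl_mul, dbl_add hPQ hR2, dbl_add hPs hQs]
  have hp := tr_avg hpa hpb hAA hA (Or.inr rfl : (-1 : ℝ) = 1 ∨ (-1 : ℝ) = -1)
  have hq := tr_avg hpa hpb hAA hA (Or.inl rfl : (1 : ℝ) = 1 ∨ (1 : ℝ) = -1)
  have hr : ∫ t in A..A', ∫ t' in A..A', R t t' ^ 2 ≤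
      12 * (1 + α b) ^ 2 * (T + T ^ 2 * Real.exp (-α a)) := by
    have e1 : ∀ t t', R t t' ^ 2 = ∑ x ∈ Finset.Ico a b ×ˢ Finset.Ico a b,
        (u α x.1 t * u α x.2 t) * (u α x.1 t' * u α x.2 t') := by
      intro t t'
      simp only [hR]
      rw [pow_two, Finset.sum_mul_sum, Finset.sum_product]
      refine Finset.sum_congr rfl fun n _ => Finset.sum_congr rfl fun n' _ => ?_
      ring
    simp only [e1]
    rw [dbl_sum _ (fun (x : ℕ × ℕ) t t' => (u α x.1 t * u α x.2 t) * (u α x.1 t' * u α x.2 t'))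
      (fun x => huc x.1 x.2)]
    have e2 : ∀ x : ℕ × ℕ, ∫ t in A..A', ∫ t' in A..A',
        (u α x.1 t * u α x.2 t) * (u α x.1 t' * u α x.2 t') = JJ α A A' x.1 x.2 ^ 2 := fun x =>
      dbl_prod (fun t => u α x.1 t * u α x.2 t) A A'
    rw [Finset.sum_congr rfl fun x _ => e2 x, Finset.sum_product]
    exact pairs H hab hT0 hAA hA
  have hb4 := H.four_le b
  set L : ℝ := 1 + α b with hL
  have hL1 : 1 ≤ L := by linarith
  have hE : 0 ≤ T ^ 2 * Real.exp (-α a) := by positivity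
  have hLL : L ^ 2 ≤ L ^ 4 := pow_le_pow_right₀ hL1 (by norm_num)
  have hX : 0 ≤ T ^ 2 * Real.exp (-α a) + T := by positivity
  have hfin := mul_le_mul_of_nonneg_right hLL hX
  have hLT : L ^ 2 * T ≤ L ^ 2 * (T ^ 2 * Real.exp (-α a) + T) :=
    mul_le_mul_of_nonneg_left (by linarith) (by positivity)
  have hp' : ∫ t in A..A', ∫ t' in A..A', P t t' ^ 2 ≤ 8 * L ^ 2 * T := hp
  have hq' : ∫ t in A..A', ∫ t' in A..A', Q t t' ^ 2 ≤ 8 * L ^ 2 * T := hq
  nlinarith

end Pool.Agent.H41.KS
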