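import Pool.Agent.H41.KS.So
import Pool.Agent.H41.KS.Form
import Pool.Agent.H41.KS.Mom
import Pool.Agent.H41.KS.Cty
import Pool.Agent.H41.KS.Cvone

/-! # Project KS, stub KS-E1: second order expansions of the means (helper85) -/

set_option autoImplicit false

open MeasureTheory Filter Topology Set

namespace Pool.Agent.H41.KS

open Pool.Agent.H41.BC (g tr Cells law2 PP2 NN)

namespace E1

lemma bint {μ : Measure ℝ} [IsProbabilityMeasure μ] {f : ℝ → ℝ} (hf : Measurable f) {c : ℝ}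
    (h : ∀ᵐ w ∂μ, |f w| ≤ c) : Integrable f μ :=
  Integrable.of_bound hf.aestronglyMeasurable c (by simpa only [Real.norm_eq_abs] using h)

lemma bint_le {μ : Measure ℝ} [IsProbabilityMeasure μ] {f : ℝ → ℝ} {c : ℝ}
    (h : ∀ᵐ w ∂μ, |f w| ≤ c) : |∫ w, f w ∂μ| ≤ c := by
  have h1 := norm_integral_le_of_norm_le_const (μ := μ) (f := f) (C := c)
    (by simpa only [Real.norm_eq_abs] using h)
  simpa using h1

theorem gen (so : ∀ C : ℝ, ∃ C' : ℝ, ∀ (μ : Measure ℝ) [IsProbabilityMeasure μ] (A D : ℝ → ℝ) (a : ℝ), Measurable A → Measurable D →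
    0 ≤ a → a ≤ C → (∀ᵐ w ∂μ, |A w| ≤ C * a) → (∀ᵐ w ∂μ, |D w| ≤ C * a ^ 2) →
    |∫ w, Real.exp (A w + D w) ∂μ - 1 - ∫ w, A w ∂μ - ∫ w, D w ∂μ - (∫ w, A w ^ 2 ∂μ) / 2| ≤ C' * a ^ 3)
    (C : ℝ) (hC : 0 ≤ C) : ∃ C' : ℝ, ∀ (μ : Measure ℝ) [IsProbabilityMeasure μ]
    (F1 F2 A1 A2 B1 B2 : ℝ → ℝ) (S1 S2 a : ℝ), Measurable F1 → Measurable F2 → Measurable A1 →
    Measurable A2 → Measurable B1 → Measurable B2 → 0 ≤ a → a ≤ 1 →
    (∀ᵐ w ∂μ, |A1 w| ≤ C * a) → (∀ᵐ w ∂μ, |A2 w| ≤ C * a) →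
    (∀ᵐ w ∂μ, |B1 w| ≤ C * a ^ 2) → (∀ᵐ w ∂μ, |B2 w| ≤ C * a ^ 2) →
    |S1| ≤ C * a ^ 2 → |S2| ≤ C * a ^ 2 →
    (∀ᵐ w ∂μ, ∃ r : ℝ, |r| ≤ C * a ^ 3 ∧ F1 w = Real.exp (A1 w + (B1 w - S1 + r))) →
    (∀ᵐ w ∂μ, ∃ r : ℝ, |r| ≤ C * a ^ 3 ∧ F2 w = Real.exp (A2 w + (B2 w - S2 + r))) →
    ∫ w, A1 w ∂μ = 0 → ∫ w, A2 w ∂μ = 0 → ∫ w, B1 w ∂μ = 0 → ∫ w, B2 w ∂μ = 0 →
    ∫ w, A1 w ^ 2 ∂μ = 2 * S1 → ∫ w, A2 w ^ 2 ∂μ = 2 * S2 →
    |∫ w, F1 w * F2 w ∂μ - 1 - ∫ w, A1 w * A2 w ∂μ| ≤ C' * a ^ 3 := by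
  obtain ⟨C1, hC1⟩ := so (6 * C + 1)
  refine ⟨C1 + 2 * C, ?_⟩
  intro μ _ F1 F2 A1 A2 B1 B2 S1 S2 a mF1 mF2 mA1 mA2 mB1 mB2 ha0 ha1 hA1 hA2 hB1 hB2 hS1 hS2
    hF1 hF2 iA1 iA2 iB1 iB2 qA1 qA2
  obtain ⟨R1, hR1⟩ : ∃ R1 : ℝ → ℝ, R1 = fun w => Real.log (F1 w) - A1 w - B1 w + S1 := ⟨_, rfl⟩
  obtain ⟨R2, hR2⟩ : ∃ R2 : ℝ → ℝ, R2 = fun w => Real.log (F2 w) - A2 w - B2 w + S2 := ⟨_, rfl⟩
  have mR1 : Measurable R1 := by
    rw [hR1]
    exact (((Real.measurable_log.comp mF1).sub mA1).sub mB1).add_const _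
  have mR2 : Measurable R2 := by
    rw [hR2]
    exact (((Real.measurable_log.comp mF2).sub mA2).sub mB2).add_const _
  have bR1 : ∀ᵐ w ∂μ, |R1 w| ≤ C * a ^ 3 ∧ F1 w = Real.exp (A1 w + (B1 w - S1 + R1 w)) := by
    filter_upwards [hF1] with w hw
    obtain ⟨r, hr, hw⟩ := hw
    have h1 : R1 w = r := by
      rw [hR1]
      simp only
      rw [hw, Real.log_exp]
      ring
    rw [h1]
    exact ⟨hr, hw⟩
  have bR2 : ∀ᵐ w ∂μ, |R2 w| ≤ C * a ^ 3 ∧ F2 w = Real.exp (A2 w + (B2 w - S2 + R2 w)) := by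
    filter_upwards [hF2] with w hw
    obtain ⟨r, hr, hw⟩ := hw
    have h1 : R2 w = r := by
      rw [hR2]
      simp only
      rw [hw, Real.log_exp]
      ring
    rw [h1]
    exact ⟨hr, hw⟩
  have ha32 : a ^ 3 ≤ a ^ 2 := pow_le_pow_of_le_one ha0 ha1 (by norm_num)
  have ha20 : 0 ≤ a ^ 2 := sq_nonneg a
  have hCa : C * a ^ 3 ≤ C * a ^ 2 := mul_le_mul_of_nonneg_left ha32 hC
  obtain ⟨D, hD⟩ : ∃ D : ℝ → ℝ, D = fun w => (B1 w + B2 w) + (R1 w + R2 w) - (S1 + S2) := ⟨_, rfl⟩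
  have mD : Measurable D := by
    rw [hD]
    exact ((mB1.add mB2).add (mR1.add mR2)).sub_const _
  have bD : ∀ᵐ w ∂μ, |D w| ≤ (6 * C + 1) * a ^ 2 := by
    filter_upwards [hB1, hB2, bR1, bR2] with w h1 h2 h3 h4
    rw [hD]
    simp only
    have e1 := abs_le.1 h1
    have e2 := abs_le.1 h2
    have e3 := abs_le.1 h3.1
    have e4 := abs_le.1 h4.1
    have e5 := abs_le.1 hS1
    have e6 := abs_le.1 hS2
    rw [abs_le]
    constructor <;> nlinarith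
  have bA : ∀ᵐ w ∂μ, |A1 w + A2 w| ≤ (6 * C + 1) * a := by
    filter_upwards [hA1, hA2] with w h1 h2
    have e1 := abs_le.1 h1
    have e2 := abs_le.1 h2
    have e3 : 0 ≤ C * a := mul_nonneg hC ha0
    rw [abs_le]
    constructor <;> linarith
  have key := hC1 μ (fun w => A1 w + A2 w) D a (mA1.add mA2) mD ha0 (by linarith) bA bD
  have e0 : ∫ w, F1 w * F2 w ∂μ = ∫ w, Real.exp (A1 w + A2 w + D w) ∂μ := by
    apply integral_congr_ae
    filter_upwards [bR1, bR2] with w h1 h2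
    rw [h1.2, h2.2, ← Real.exp_add]
    congr 1
    rw [hD]
    ring
  rw [← e0] at key
  have IA1 := bint mA1 hA1
  have IA2 := bint mA2 hA2
  have IB1 := bint mB1 hB1
  have IB2 := bint mB2 hB2
  have IR1 := bint mR1 (bR1.mono fun w h => h.1)
  have IR2 := bint mR2 (bR2.mono fun w h => h.1)
  have e1 : ∫ w, A1 w + A2 w ∂μ = 0 := by
    rw [integral_add IA1 IA2, iA1, iA2, add_zero]
  have e2 : ∫ w, D w ∂μ = ∫ w, (R1 w + R2 w) ∂μ - (S1 + S2) := by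
    have h1 : ∫ w, D w ∂μ = ∫ w, (B1 w + B2 w) + (R1 w + R2 w) - (S1 + S2) ∂μ := by rw [hD]
    have J1 : Integrable (fun w => B1 w + B2 w) μ := IB1.add IB2
    have J2 : Integrable (fun w => R1 w + R2 w) μ := IR1.add IR2
    have J3 : Integrable (fun w => (B1 w + B2 w) + (R1 w + R2 w)) μ := J1.add J2
    rw [h1, integral_sub J3 (integrable_const _), integral_add J1 J2, integral_add IB1 IB2, iB1,
      iB2, integral_const]
    simp
  have q : ∀ {f h : ℝ → ℝ}, Measurable f → Measurable h → (∀ᵐ w ∂μ, |f w| ≤ C * a) →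
      (∀ᵐ w ∂μ, |h w| ≤ C * a) → Integrable (fun w => f w * h w) μ := by
    intro f h mf mh bf bh
    refine bint (mf.mul mh) (c := C * a * (C * a)) ?_
    filter_upwards [bf, bh] with w h1 h2
    rw [abs_mul]
    exact mul_le_mul h1 h2 (abs_nonneg _) (mul_nonneg hC ha0)
  have e3 : ∫ w, (A1 w + A2 w) ^ 2 ∂μ = 2 * S1 + 2 * ∫ w, A1 w * A2 w ∂μ + 2 * S2 := by
    have h1 : ∀ w, (A1 w + A2 w) ^ 2 = (A1 w ^ 2 + 2 * (A1 w * A2 w)) + A2 w ^ 2 := fun w => by ring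
    have h2 : Integrable (fun w => A1 w ^ 2) μ := by
      have := q mA1 mA1 hA1 hA1
      simpa only [sq] using this
    have h3 : Integrable (fun w => A2 w ^ 2) μ := by
      have := q mA2 mA2 hA2 hA2
      simpa only [sq] using this
    have h4 : Integrable (fun w => 2 * (A1 w * A2 w)) μ := (q mA1 mA2 hA1 hA2).const_mul 2
    simp only [h1]
    have h5 : Integrable (fun w => A1 w ^ 2 + 2 * (A1 w * A2 w)) μ := h2.add h4
    rw [integral_add h5 h3, integral_add h2 h4, integral_const_mul, qA1, qA2]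
  have e4 : |∫ w, (R1 w + R2 w) ∂μ| ≤ 2 * C * a ^ 3 := by
    apply bint_le
    filter_upwards [bR1, bR2] with w h1 h2
    refine (abs_add_le _ _).trans ?_
    linarith [h1.1, h2.1]
  rw [e1, e2, e3] at key
  have k1 := abs_le.1 key
  have k2 := abs_le.1 e4
  rw [abs_le]
  constructor <;> linarith

end E1

open E1

lemma E1.exp_half (x : ℝ) : Real.exp (-(x / 2)) ^ 2 = Real.exp (-x) ∧
    Real.exp (-(x / 2)) ^ 3 = Real.exp (-(3 / 2 * x)) := by
  constructor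
  · rw [← Real.exp_nat_mul]
    congr 1
    push_cast
    ring
  · rw [← Real.exp_nat_mul]
    congr 1
    push_cast
    ring

/-- the data of one factor -/
structure E1.Dat (C : ℝ) (μ : Measure ℝ) (F A B : ℝ → ℝ) (S a : ℝ) : Prop where
  mF : Measurable F
  mA : Measurable A
  mB : Measurable B
  hA : ∀ᵐ w ∂μ, |A w| ≤ C * a
  hB : ∀ᵐ w ∂μ, |B w| ≤ C * a ^ 2
  hS : |S| ≤ C * a ^ 2
  hF : ∀ᵐ w ∂μ, ∃ r : ℝ, |r| ≤ C * a ^ 3 ∧ F w = Real.exp (A w + (B w - S + r))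
  iA : ∫ w, A w ∂μ = 0
  iB : ∫ w, B w ∂μ = 0
  qA : ∫ w, A w ^ 2 ∂μ = 2 * S

lemma E1.gen' (C : ℝ) (hC : 0 ≤ C) : ∃ C' : ℝ, ∀ (μ : Measure ℝ) [IsProbabilityMeasure μ]
    (F1 F2 A1 A2 B1 B2 : ℝ → ℝ) (S1 S2 a : ℝ), 0 ≤ a → a ≤ 1 →
    E1.Dat C μ F1 A1 B1 S1 a → E1.Dat C μ F2 A2 B2 S2 a →
    |∫ w, F1 w * F2 w ∂μ - 1 - ∫ w, A1 w * A2 w ∂μ| ≤ C' * a ^ 3 := by
  obtain ⟨C', h⟩ := gen so_exp C hC
  refine ⟨C', ?_⟩
  intro μ _ F1 F2 A1 A2 B1 B2 S1 S2 a ha0 ha1 d1 d2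
  exact h μ F1 F2 A1 A2 B1 B2 S1 S2 a d1.mF d2.mF d1.mA d2.mA d1.mB d2.mB ha0 ha1 d1.hA d2.hA
    d1.hB d2.hB d1.hS d2.hS d1.hF d2.hF d1.iA d2.iA d1.iB d2.iB d1.qA d2.qA

namespace E1

lemma zz_meas (t : ℝ) : Measurable (zz t) := by
  unfold zz
  fun_prop

/-- the first order term -/
noncomputable def AA (K : ℕ) (α : ℕ → ℝ) (n : ℕ) (t w : ℝ) : ℝ :=
  2 * ((K : ℝ) + 1) * ((zz t w).re - (m1 α n t).re)

/-- the second order term -/
noncomputable def BB (K : ℕ) (α : ℕ → ℝ) (n : ℕ) (t w : ℝ) : ℝ :=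
  ((K : ℝ) + 1) * ((zz t w ^ 2).re - (m2 α n t).re)

lemma AA_meas (K : ℕ) (α : ℕ → ℝ) (n : ℕ) (t : ℝ) : Measurable (AA K α n t) := by
  unfold AA
  exact ((Complex.measurable_re.comp (zz_meas t)).sub_const _).const_mul _

lemma BB_meas (K : ℕ) (α : ℕ → ℝ) (n : ℕ) (t : ℝ) : Measurable (BB K α n t) := by
  unfold BB
  exact ((Complex.measurable_re.comp ((zz_meas t).pow_const 2)).sub_const _).const_mul _

lemma re_bd {α : ℕ → ℝ} (H : Cl α) (n : ℕ) (t : ℝ) :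
    ∀ᵐ w ∂(lw α n), |(zz t w).re| ≤ Real.exp (-(α n / 2)) := by
  filter_upwards [BC.law_mem (α := α) (β := fun n => α (n + 1)) (ρ := fun _ => g) n] with w hw
  exact (Complex.abs_re_le_norm _).trans (zz_le H n t hw).2

lemma re2_bd {α : ℕ → ℝ} (H : Cl α) (n : ℕ) (t : ℝ) :
    ∀ᵐ w ∂(lw α n), |(zz t w ^ 2).re| ≤ Real.exp (-α n) := by
  filter_upwards [BC.law_mem (α := α) (β := fun n => α (n + 1)) (ρ := fun _ => g) n] with w hw
  refine (Complex.abs_re_le_norm _).trans ?_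
  rw [norm_pow, ← (exp_half (α n)).1]
  exact pow_le_pow_left₀ (norm_nonneg _) (zz_le H n t hw).2 2

lemma a_le {α : ℕ → ℝ} (H : Cl α) (n : ℕ) : 0 ≤ Real.exp (-(α n / 2)) ∧ Real.exp (-(α n / 2)) ≤ 1 := by
  refine ⟨(Real.exp_pos _).le, ?_⟩
  rw [Real.exp_le_one_iff]
  have := H.four_le n
  linarith

lemma cross (K : ℕ) {α : ℕ → ℝ} (H : Cl α) (n : ℕ) (t t' : ℝ) :
    ∫ w, AA K α n t w * AA K α n t' w ∂(lw α n) = 4 * ((K : ℝ) + 1) ^ 2 * CV α n t t' := by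
  have : IsProbabilityMeasure (lw α n) := BC.law_prob H n
  have mz : ∀ t, Measurable fun w => (zz t w).re := fun t => Complex.measurable_re.comp (zz_meas t)
  have I1 : ∀ t, Integrable (fun w => (zz t w).re) (lw α n) := fun t => bint (mz t) (re_bd H n t)
  have I2 : Integrable (fun w => (zz t w).re * (zz t' w).re) (lw α n) := by
    refine bint ((mz t).mul (mz t')) (c := Real.exp (-(α n / 2)) * Real.exp (-(α n / 2))) ?_
    filter_upwards [re_bd H n t, re_bd H n t'] with w h1 h2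
    rw [abs_mul]
    exact mul_le_mul h1 h2 (abs_nonneg _) (Real.exp_pos _).le
  have h1 : ∀ w, AA K α n t w * AA K α n t' w = 4 * ((K : ℝ) + 1) ^ 2 *
      (((zz t w).re * (zz t' w).re - (m1 α n t').re * (zz t w).re) -
        ((m1 α n t).re * (zz t' w).re - (m1 α n t).re * (m1 α n t').re)) := by
    intro w
    unfold AA
    ring
  simp only [h1]
  have J1 : Integrable (fun w => (m1 α n t').re * (zz t w).re) (lw α n) := (I1 t).const_mul _
  have J2 : Integrable (fun w => (m1 α n t).re * (zz t' w).re) (lw α n) := (I1 t').const_mul _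
  have J3 : Integrable (fun w => (zz t w).re * (zz t' w).re - (m1 α n t').re * (zz t w).re)
    (lw α n) := I2.sub J1
  have J4 : Integrable (fun w => (m1 α n t).re * (zz t' w).re - (m1 α n t).re * (m1 α n t').re)
    (lw α n) := J2.sub (integrable_const _)
  rw [integral_const_mul, integral_sub J3 J4, integral_sub I2 J1,
    integral_sub J2 (integrable_const _), integral_const_mul, integral_const_mul, mom1 H n t,
    mom1 H n t', momc H n t t', integral_const]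
  simp only [probReal_univ, smul_eq_mul, one_mul]
  ring

lemma dat_HH (K : ℕ) : ∃ C0 : ℝ, ∀ C : ℝ, C0 ≤ C → ∀ (α : ℕ → ℝ), Cl α → ∀ (n : ℕ) (t : ℝ),
    Dat C (lw α n) (HH K α n t) (AA K α n t) (BB K α n t) (SS K α n t)
      (Real.exp (-(α n / 2))) := by
  obtain ⟨Cf, hf⟩ := hh_form K
  refine ⟨max (4 * ((K : ℝ) + 1) ^ 2) Cf, ?_⟩
  intro C hC α H n t
  have : IsProbabilityMeasure (lw α n) := BC.law_prob H n
  have hC1 : 4 * ((K : ℝ) + 1) ^ 2 ≤ C := (le_max_left _ _).trans hC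
  have hC2 : Cf ≤ C := (le_max_right _ _).trans hC
  have hK : (0 : ℝ) ≤ K := Nat.cast_nonneg K
  have hk2 : (K : ℝ) + 1 ≤ ((K : ℝ) + 1) ^ 2 := by nlinarith
  have ha := a_le H n
  obtain ⟨a, hadef⟩ : ∃ a : ℝ, a = Real.exp (-(α n / 2)) := ⟨_, rfl⟩
  have he2 : Real.exp (-α n) = a ^ 2 := by rw [hadef, (exp_half (α n)).1]
  have he3 : Real.exp (-(3 / 2 * α n)) = a ^ 3 := by rw [hadef, (exp_half (α n)).2]
  have hm1 := m1_le H n t
  have hm2 := m2_le H n t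
  rw [← hadef] at ha hm1
  rw [he2] at hm2
  have r1 := re_bd H n t
  have r2 := re2_bd H n t
  rw [← hadef] at r1 ⊢
  rw [he2] at r2
  have ha2 : 0 ≤ a ^ 2 := sq_nonneg a
  have hz1 : ∫ w, (zz t w).re ∂(lw α n) = (m1 α n t).re := mom1 H n t
  have mz : Measurable fun w => (zz t w).re := Complex.measurable_re.comp (zz_meas t)
  have mz2 : Measurable fun w => (zz t w ^ 2).re :=
    Complex.measurable_re.comp ((zz_meas t).pow_const 2)
  refine ⟨?_, AA_meas K α n t, BB_meas K α n t, ?_, ?_, ?_, ?_, ?_, ?_, ?_⟩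
  · exact ((hh_cont K α n).comp (Continuous.prodMk_right t)).measurable
  · filter_upwards [r1] with w h1
    have h2 := (Complex.abs_re_le_norm (m1 α n t)).trans hm1
    have h3 : |(zz t w).re - (m1 α n t).re| ≤ 2 * a := by
      refine (abs_sub _ _).trans ?_
      linarith
    unfold AA
    rw [abs_mul, abs_of_nonneg (by linarith)]
    calc 2 * ((K : ℝ) + 1) * |(zz t w).re - (m1 α n t).re| ≤ 2 * ((K : ℝ) + 1) * (2 * a) :=
          mul_le_mul_of_nonneg_left h3 (by linarith)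
      _ = (4 * ((K : ℝ) + 1)) * a := by ring
      _ ≤ C * a := mul_le_mul_of_nonneg_right (by linarith) ha.1
  · filter_upwards [r2] with w h1
    have h2 := (Complex.abs_re_le_norm (m2 α n t)).trans hm2
    have h3 : |(zz t w ^ 2).re - (m2 α n t).re| ≤ 2 * a ^ 2 := by
      refine (abs_sub _ _).trans ?_
      linarith
    unfold BB
    rw [abs_mul, abs_of_nonneg (by linarith : (0 : ℝ) ≤ (K : ℝ) + 1)]
    calc ((K : ℝ) + 1) * |(zz t w ^ 2).re - (m2 α n t).re| ≤ ((K : ℝ) + 1) * (2 * a ^ 2) :=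
          mul_le_mul_of_nonneg_left h3 (by linarith)
      _ = (2 * ((K : ℝ) + 1)) * a ^ 2 := by ring
      _ ≤ C * a ^ 2 := mul_le_mul_of_nonneg_right (by linarith) ha2
  · have h1 := cv_le H n t t
    rw [he2] at h1
    unfold SS
    rw [abs_mul, abs_of_nonneg (by positivity)]
    calc 2 * ((K : ℝ) + 1) ^ 2 * |CV α n t t| ≤ 2 * ((K : ℝ) + 1) ^ 2 * a ^ 2 :=
          mul_le_mul_of_nonneg_left h1 (by positivity)
      _ ≤ C * a ^ 2 := mul_le_mul_of_nonneg_right (by nlinarith) ha2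
  · filter_upwards [BC.law_mem (α := α) (β := fun n => α (n + 1)) (ρ := fun _ => g) n] with w hw
    obtain ⟨r, hr, hw⟩ := hf α H n t w hw
    refine ⟨r, hr.trans ?_, hw⟩
    rw [he3]
    exact mul_le_mul_of_nonneg_right hC2 (pow_nonneg ha.1 3)
  · unfold AA
    have h1 : Integrable (fun w => (zz t w).re) (lw α n) := bint mz r1
    rw [integral_const_mul, integral_sub h1 (integrable_const _), hz1, integral_const]
    simp
  · unfold BB
    have h1 : Integrable (fun w => (zz t w ^ 2).re) (lw α n) := bint mz2 r2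
    rw [integral_const_mul, integral_sub h1 (integrable_const _), mom2 H n t, integral_const]
    simp
  · have h1 := cross K H n t t
    simp only [← sq] at h1
    rw [h1]
    unfold SS
    ring

lemma dat_PS (K : ℕ) : ∃ C0 : ℝ, ∀ C : ℝ, C0 ≤ C → ∀ (α : ℕ → ℝ), Cl α → ∀ (n : ℕ),
    Dat C (lw α n) (PS K α n) (fun _ => 0)
      (fun w => ((K : ℝ) + 1) ^ 2 * (Real.exp (-w) - e2 α n)) 0 (Real.exp (-(α n / 2))) := by
  obtain ⟨Cf, hf⟩ := ps_form K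
  refine ⟨max (((K : ℝ) + 1) ^ 2) Cf, ?_⟩
  intro C hC α H n
  have : IsProbabilityMeasure (lw α n) := BC.law_prob H n
  have hC1 : ((K : ℝ) + 1) ^ 2 ≤ C := (le_max_left _ _).trans hC
  have hC2 : Cf ≤ C := (le_max_right _ _).trans hC
  have hC0 : 0 ≤ C := (sq_nonneg _).trans hC1
  have ha := a_le H n
  obtain ⟨a, hadef⟩ : ∃ a : ℝ, a = Real.exp (-(α n / 2)) := ⟨_, rfl⟩
  have he2 : Real.exp (-α n) = a ^ 2 := by rw [hadef, (exp_half (α n)).1]
  have he4 : Real.exp (-(2 * α n)) = a ^ 2 * a ^ 2 := by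
    rw [← he2, ← Real.exp_add]
    congr 1
    ring
  rw [← hadef] at ha ⊢
  have ha2 : 0 ≤ a ^ 2 := sq_nonneg a
  have hee := e2_le H n
  rw [he2] at hee
  have hbd : ∀ᵐ w ∂(lw α n), |Real.exp (-w)| ≤ a ^ 2 := by
    filter_upwards [BC.law_mem (α := α) (β := fun n => α (n + 1)) (ρ := fun _ => g) n] with w hw
    rw [abs_of_pos (Real.exp_pos _), ← he2]
    exact Real.exp_le_exp.2 (by linarith [hw.1])
  have mE : Measurable fun w : ℝ => Real.exp (-w) := by fun_prop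
  refine ⟨ps_meas K α n, measurable_const, ?_, ?_, ?_, ?_, ?_, by simp, ?_, by simp⟩
  · exact (mE.sub_const _).const_mul _
  · exact Eventually.of_forall fun w => by
      simp only [abs_zero]
      exact mul_nonneg hC0 ha.1
  · filter_upwards [hbd] with w h1
    have h4 := Real.exp_pos (-w)
    rw [abs_of_pos h4] at h1
    have h3 : |Real.exp (-w) - e2 α n| ≤ a ^ 2 := by
      rw [abs_le]
      constructor <;> linarith [hee.1, hee.2]
    rw [abs_mul, abs_of_nonneg (by positivity)]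
    calc ((K : ℝ) + 1) ^ 2 * |Real.exp (-w) - e2 α n| ≤ ((K : ℝ) + 1) ^ 2 * a ^ 2 :=
          mul_le_mul_of_nonneg_left h3 (by positivity)
      _ ≤ C * a ^ 2 := mul_le_mul_of_nonneg_right hC1 ha2
  · simp only [abs_zero]
    exact mul_nonneg hC0 ha2
  · filter_upwards [BC.law_mem (α := α) (β := fun n => α (n + 1)) (ρ := fun _ => g) n] with w hw
    obtain ⟨r, hr, hw⟩ := hf α H n w hw
    refine ⟨r, hr.trans ?_, ?_⟩
    · rw [he4]
      have h5 : a ^ 2 * a ^ 2 ≤ a ^ 3 := by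
        calc a ^ 2 * a ^ 2 = a ^ 3 * a := by ring
          _ ≤ a ^ 3 * 1 := mul_le_mul_of_nonneg_left ha.2 (pow_nonneg ha.1 3)
          _ = a ^ 3 := mul_one _
      calc Cf * (a ^ 2 * a ^ 2) ≤ C * (a ^ 2 * a ^ 2) :=
            mul_le_mul_of_nonneg_right hC2 (mul_nonneg ha2 ha2)
        _ ≤ C * a ^ 3 := mul_le_mul_of_nonneg_left h5 hC0
    · rw [hw]
      congr 1
      ring
  · have h1 : Integrable (fun w => Real.exp (-w)) (lw α n) := bint mE hbd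
    rw [integral_const_mul, integral_sub h1 (integrable_const _), mome H n, integral_const]
    simp

end E1

theorem e1_pair (K : ℕ) : ∃ C : ℝ, ∀ (α : ℕ → ℝ), Cl α → ∀ (n : ℕ) (t t' : ℝ),
    |∫ w, HH K α n t w * HH K α n t' w ∂(lw α n) - 1 - 4 * ((K : ℝ) + 1) ^ 2 * CV α n t t'| ≤ C * Real.exp (-(3 / 2 * α n)) := by
  obtain ⟨C0, h0⟩ := E1.dat_HH K
  obtain ⟨C', h1⟩ := E1.gen' (max C0 0) (le_max_right _ _)
  refine ⟨C', fun α H n t t' => ?_⟩
  have : IsProbabilityMeasure (lw α n) := BC.law_prob H n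
  have h2 := h1 (lw α n) _ _ _ _ _ _ _ _ _ (E1.a_le H n).1 (E1.a_le H n).2
    (h0 _ (le_max_left _ _) α H n t) (h0 _ (le_max_left _ _) α H n t')
  rw [E1.cross K H n t t', (E1.exp_half (α n)).2] at h2
  exact h2

theorem e1_mix (K : ℕ) : ∃ C : ℝ, ∀ (α : ℕ → ℝ), Cl α → ∀ (n : ℕ) (t : ℝ),
    |∫ w, HH K α n t w * PS K α n w ∂(lw α n) - 1| ≤ C * Real.exp (-(3 / 2 * α n)) := by
  obtain ⟨C0, h0⟩ := E1.dat_HH K
  obtain ⟨C1, h1⟩ := E1.dat_PS K
  obtain ⟨C', h2⟩ := E1.gen' (max (max C0 C1) 0) (le_max_right _ _)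
  refine ⟨C', fun α H n t => ?_⟩
  have : IsProbabilityMeasure (lw α n) := BC.law_prob H n
  have h3 := h2 (lw α n) _ _ _ _ _ _ _ _ _ (E1.a_le H n).1 (E1.a_le H n).2
    (h0 _ ((le_max_left _ _).trans (le_max_left _ _)) α H n t)
    (h1 _ ((le_max_right _ _).trans (le_max_left _ _)) α H n)
  rw [(E1.exp_half (α n)).2] at h3
  simpa using h3

theorem e1_diag (K : ℕ) : ∃ C : ℝ, ∀ (α : ℕ → ℝ), Cl α → ∀ n : ℕ,
    |∫ w, PS K α n w * PS K α n w ∂(lw α n) - 1| ≤ C * Real.exp (-(3 / 2 * α n)) := by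
  obtain ⟨C1, h1⟩ := E1.dat_PS K
  obtain ⟨C', h2⟩ := E1.gen' (max C1 0) (le_max_right _ _)
  refine ⟨C', fun α H n => ?_⟩
  have : IsProbabilityMeasure (lw α n) := BC.law_prob H n
  have h3 := h2 (lw α n) _ _ _ _ _ _ _ _ _ (E1.a_le H n).1 (E1.a_le H n).2
    (h1 _ (le_max_left _ _) α H n) (h1 _ (le_max_left _ _) α H n)
  rw [(E1.exp_half (α n)).2] at h3
  simpa using h3

end Pool.Agent.H41.KS
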