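import Pool.Agent.H41.KS.Etwoc

/-! # Project KS, stub KS-E2P: small cells, the average over the pairs (helper12) -/

set_option autoImplicit false

open MeasureTheory Filter Topology Set

namespace Pool.Agent.H41.KS.Etwo

open Pool.Agent.H41.BC (g tr Cells law2 PP2 NN g_cont g_pos g_le one_le_g g_eq g_mono tr_cont int_law)

/-! ### a logarithmic integral -/

lemma hl {p q : ℝ} (h : p ≤ q) : ∫ t in p..q, 1 / (1 + |t - p|) = Real.log (1 + (q - p)) := by
  have h1 : ∫ t in p..q, 1 / (1 + |t - p|) = ∫ t in p..q, 1 / (1 + (t - p)) := by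
    refine intervalIntegral.integral_congr fun t ht => ?_
    rw [uIcc_of_le h] at ht
    rw [abs_of_nonneg (by linarith [ht.1])]
  have h2 : ∫ t in p..q, 1 / (1 + (t - p)) = Real.log (1 + (q - p)) - Real.log (1 + (p - p)) := by
    refine intervalIntegral.integral_eq_sub_of_hasDerivAt (f := fun t => Real.log (1 + (t - p)))
      (fun t ht => ?_) ?_
    · rw [uIcc_of_le h] at ht
      have h3 : HasDerivAt (fun t : ℝ => 1 + (t - p)) 1 t :=
        ((hasDerivAt_id t).sub_const p).const_add 1
      exact h3.log (by linarith [ht.1])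
    · refine ContinuousOn.intervalIntegrable ?_
      rw [uIcc_of_le h]
      refine ContinuousOn.div continuousOn_const (by fun_prop) fun t ht => ?_
      have := ht.1
      intro h0
      linarith
  rw [h1, h2, sub_self, add_zero, Real.log_one, sub_zero]

lemma hl' {p q : ℝ} (h : p ≤ q) : ∫ t in p..q, 1 / (1 + |t - q|) = Real.log (1 + (q - p)) := by
  rw [← hl h]
  have h1 := intervalIntegral.integral_comp_sub_left (a := p) (b := q)
    (fun t : ℝ => 1 / (1 + |t - p|)) (p + q)
  have h2 : p + q - q = p := by ring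
  have h3 : p + q - p = q := by ring
  rw [h2, h3] at h1
  rw [← h1]
  refine intervalIntegral.integral_congr fun t _ => ?_
  rw [abs_sub_comm]
  congr 3
  ring

lemma inv_cont (s : ℝ) : Continuous fun t : ℝ => 1 / (1 + |t - s|) :=
  continuous_const.div (by fun_prop) fun t => by positivity

lemma li {c q : ℝ} (hq : 1 ≤ |q|) {A A' T : ℝ} (hT : 2 ≤ T) (hA : A ≤ A') (hA' : A' - A ≤ T) :
    ∫ t in A..A', 1 / (1 + |c + q * t|) ≤ 4 * Real.log T := by
  have hq0 : q ≠ 0 := by
    intro h
    rw [h, abs_zero] at hq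
    linarith
  obtain ⟨s, hs1, hs2, hs3⟩ : ∃ s : ℝ, A ≤ s ∧ s ≤ A' ∧ ∀ t ∈ Icc A A', |t - s| ≤ |c + q * t| := by
    have h0 : ∀ t : ℝ, |t - (-c / q)| ≤ |c + q * t| := by
      intro t
      have h1 : c + q * t = q * (t - (-c / q)) := by field_simp; ring
      rw [h1, abs_mul]
      nlinarith [abs_nonneg (t - (-c / q))]
    rcases le_total (-c / q) A with h | h
    · refine ⟨A, le_rfl, hA, fun t ht => le_trans ?_ (h0 t)⟩
      rw [abs_of_nonneg (by linarith [ht.1]), abs_of_nonneg (by linarith [ht.1])]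
      linarith
    · rcases le_total (-c / q) A' with h' | h'
      · exact ⟨-c / q, h, h', fun t _ => h0 t⟩
      · refine ⟨A', hA, le_rfl, fun t ht => le_trans ?_ (h0 t)⟩
        rw [abs_of_nonpos (by linarith [ht.2]), abs_of_nonpos (by linarith [ht.2])]
        linarith
  have hT1 : Real.log (1 + T) ≤ 2 * Real.log T := by
    rw [← Real.log_rpow (by linarith)]
    refine Real.log_le_log (by linarith) ?_
    rw [Real.rpow_two]
    nlinarith
  calc ∫ t in A..A', 1 / (1 + |c + q * t|) ≤ ∫ t in A..A', 1 / (1 + |t - s|) := by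
        refine intervalIntegral.integral_mono_on hA ?_ ((inv_cont s).intervalIntegrable _ _)
          fun t ht => ?_
        · refine Continuous.intervalIntegrable ?_ _ _
          exact continuous_const.div (by fun_prop) fun t => by positivity
        · exact one_div_le_one_div_of_le (by positivity) (by linarith [hs3 t ht])
    _ = (∫ t in A..s, 1 / (1 + |t - s|)) + ∫ t in s..A', 1 / (1 + |t - s|) :=
        (intervalIntegral.integral_add_adjacent_intervals ((inv_cont s).intervalIntegrable _ _)
          ((inv_cont s).intervalIntegrable _ _)).symm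
    _ = Real.log (1 + (s - A)) + Real.log (1 + (A' - s)) := by rw [hl' hs1, hl hs2]
    _ ≤ Real.log (1 + T) + Real.log (1 + T) :=
        add_le_add (Real.log_le_log (by linarith) (by linarith))
          (Real.log_le_log (by linarith) (by linarith))
    _ ≤ 4 * Real.log T := by linarith

/-! ### series of integrals -/

lemma hs_int {ι : Type} [Countable ι] (F : ι → ℝ → ℝ) (hF : ∀ i, Continuous (F i)) (B : ι → ℝ)
    (hB : Summable B) (hFB : ∀ i x, |F i x| ≤ B i) (A A' : ℝ) :
    HasSum (fun i => ∫ x in A..A', F i x) (∫ x in A..A', ∑' i, F i x) := by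
  refine intervalIntegral.hasSum_integral_of_dominated_convergence (fun i _ => B i) ?_ ?_ ?_ ?_ ?_
  · exact fun i => (hF i).aestronglyMeasurable
  · exact fun i => Eventually.of_forall fun x _ => by rw [Real.norm_eq_abs]; exact hFB i x
  · exact Eventually.of_forall fun x _ => hB
  · exact intervalIntegrable_const
  · exact Eventually.of_forall fun x _ =>
      (Summable.of_norm_bounded hB fun i => by rw [Real.norm_eq_abs]; exact hFB i x).hasSum

/-- the terms -/
noncomputable def Gt (K : ℕ) (i : (ℕ × ℕ) × (ℕ × ℕ)) (t t' : ℝ) : ℝ :=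
  Ep i * (W K i.1 * W K i.2) / (1 + |dl i.1 * t + dl i.2 * t'|)

lemma Gt_cont (K : ℕ) (i : (ℕ × ℕ) × (ℕ × ℕ)) :
    Continuous (Function.uncurry (Gt K i)) := by
  unfold Gt Function.uncurry
  exact continuous_const.div (by fun_prop) fun q => by positivity

lemma Gt_nonneg (K : ℕ) (i : (ℕ × ℕ) × (ℕ × ℕ)) (t t' : ℝ) : 0 ≤ Gt K i t t' :=
  term_nonneg K Ep_nonneg t t' i

lemma Gt_le (K : ℕ) (i : (ℕ × ℕ) × (ℕ × ℕ)) (t t' : ℝ) : Gt K i t t' ≤ W K i.1 * W K i.2 :=
  term_le K Ep_nonneg Ep_le t t' i

lemma WW_nonneg (K : ℕ) (i : (ℕ × ℕ) × (ℕ × ℕ)) : 0 ≤ W K i.1 * W K i.2 :=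
  mul_nonneg (W_nonneg _ _) (W_nonneg _ _)

lemma log_half {T : ℝ} (hT : 2 ≤ T) : 1 / 2 ≤ Real.log T := by
  have h1 : Real.log 2 ≤ Real.log T := Real.log_le_log (by norm_num) hT
  have h2 := Real.log_two_gt_d9
  linarith

lemma Gt_int (K : ℕ) (i : (ℕ × ℕ) × (ℕ × ℕ)) {T A A' : ℝ} (hT : 2 ≤ T) (hTA : T ≤ A) (hA : A ≤ A')
    (hA' : A' ≤ 2 * T) :
    ∫ t in A..A', ∫ t' in A..A', Gt K i t t' ≤ (W K i.1 * W K i.2) * (4 * (T * Real.log T)) := by
  have hw := WW_nonneg K i
  have hl2 := log_half hT
  have hAA : A' - A ≤ T := by linarith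
  -- bound of the inner integral
  have inner : ∀ t ∈ Icc A A', ∫ t' in A..A', Gt K i t t' ≤ (W K i.1 * W K i.2) * (4 * Real.log T) := by
    intro t ht
    by_cases h2 : i.2.1 = i.2.2
    · have h3 : dl i.2 = 0 := by unfold dl; rw [h2, sub_self]
      by_cases h1 : i.1.1 = i.1.2
      · have : Ep i = 0 := by unfold Ep dg; rw [if_pos h1, if_pos h2]; ring
        unfold Gt
        simp only [this, zero_mul, zero_div, intervalIntegral.integral_zero]
        exact mul_nonneg hw (by linarith)
      · have h4 := one_le_dl h1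
        have h5 : T ≤ 1 + |dl i.1 * t| := by
          have htT : T ≤ t := hTA.trans ht.1
          rw [abs_mul, abs_of_pos (by linarith : 0 < t)]
          nlinarith
        have h6 : ∫ t' in A..A', Gt K i t t' ≤ ∫ _t' in A..A', (W K i.1 * W K i.2) / T := by
          refine intervalIntegral.integral_mono_on hA ?_ (by simp) fun t' _ => ?_
          · exact ((Gt_cont K i).comp (by fun_prop : Continuous fun t' : ℝ => (t, t'))).intervalIntegrable _ _
          · unfold Gt
            rw [h3, zero_mul, add_zero]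
            exact div_le_div₀ hw (mul_le_of_le_one_left hw (Ep_le i)) (by linarith) h5
        refine h6.trans ?_
        rw [intervalIntegral.integral_const, smul_eq_mul]
        calc (A' - A) * (W K i.1 * W K i.2 / T) ≤ T * (W K i.1 * W K i.2 / T) :=
              mul_le_mul_of_nonneg_right hAA (div_nonneg hw (by linarith))
          _ = W K i.1 * W K i.2 := by field_simp
          _ ≤ (W K i.1 * W K i.2) * (4 * Real.log T) := by
              nlinarith
    · have h4 := one_le_dl h2
      have h6 : ∫ t' in A..A', Gt K i t t' ≤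
          ∫ t' in A..A', (W K i.1 * W K i.2) * (1 / (1 + |dl i.1 * t + dl i.2 * t'|)) := by
        refine intervalIntegral.integral_mono_on hA ?_ ?_ fun t' _ => ?_
        · exact ((Gt_cont K i).comp (by fun_prop : Continuous fun t' : ℝ => (t, t'))).intervalIntegrable _ _
        · refine Continuous.intervalIntegrable ?_ _ _
          exact continuous_const.mul (continuous_const.div (by fun_prop) fun t' => by positivity)
        · unfold Gt
          rw [mul_one_div]
          exact div_le_div_of_nonneg_right (mul_le_of_le_one_left hw (Ep_le i)) (by positivity)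
      refine h6.trans ?_
      rw [intervalIntegral.integral_const_mul]
      exact mul_le_mul_of_nonneg_left (li h4 hT hA hAA) hw
  have hc : Continuous fun t : ℝ => ∫ t' in A..A', Gt K i t t' :=
    intervalIntegral.continuous_parametric_intervalIntegral_of_continuous' (Gt_cont K i) _ _
  calc ∫ t in A..A', ∫ t' in A..A', Gt K i t t'
      ≤ ∫ _t in A..A', (W K i.1 * W K i.2) * (4 * Real.log T) :=
        intervalIntegral.integral_mono_on hA (hc.intervalIntegrable _ _) (by simp) inner
    _ = (A' - A) * ((W K i.1 * W K i.2) * (4 * Real.log T)) := by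
        rw [intervalIntegral.integral_const, smul_eq_mul]
    _ ≤ T * ((W K i.1 * W K i.2) * (4 * Real.log T)) :=
        mul_le_mul_of_nonneg_right hAA (mul_nonneg hw (by linarith))
    _ = _ := by ring

lemma psi_cont (K : ℕ) : Continuous (Function.uncurry (Psi K Ep)) := by
  unfold Psi Function.uncurry
  refine continuous_tsum (fun i => Gt_cont K i) (WW_summable K) fun i q => ?_
  rw [Real.norm_eq_abs]
  show |Gt K i q.1 q.2| ≤ _
  rw [abs_of_nonneg (Gt_nonneg K i _ _)]
  exact Gt_le K i _ _

lemma psi_int (K : ℕ) {T A A' : ℝ} (hT : 2 ≤ T) (hTA : T ≤ A) (hA : A ≤ A') (hA' : A' ≤ 2 * T) :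
    ∫ t in A..A', ∫ t' in A..A', Psi K Ep t t' ≤ SW K * (4 * (T * Real.log T)) := by
  have inner : ∀ t : ℝ, HasSum (fun i => ∫ t' in A..A', Gt K i t t')
      (∫ t' in A..A', Psi K Ep t t') := by
    intro t
    exact hs_int (fun i t' => Gt K i t t')
      (fun i => (Gt_cont K i).comp (by fun_prop : Continuous fun t' : ℝ => (t, t')))
      (fun i => W K i.1 * W K i.2) (WW_summable K)
      (fun i t' => by rw [abs_of_nonneg (Gt_nonneg K i _ _)]; exact Gt_le K i _ _) A A'
  have outer : HasSum (fun i => ∫ t in A..A', ∫ t' in A..A', Gt K i t t')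
      (∫ t in A..A', ∑' i, ∫ t' in A..A', Gt K i t t') := by
    refine hs_int (fun i t => ∫ t' in A..A', Gt K i t t')
      (fun i => intervalIntegral.continuous_parametric_intervalIntegral_of_continuous'
        (Gt_cont K i) _ _)
      (fun i => (W K i.1 * W K i.2) * |A' - A|) ((WW_summable K).mul_right _)
      (fun i t => ?_) A A'
    rw [← Real.norm_eq_abs]
    refine intervalIntegral.norm_integral_le_of_norm_le_const fun t' _ => ?_
    rw [Real.norm_eq_abs, abs_of_nonneg (Gt_nonneg K i _ _)]
    exact Gt_le K i _ _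
  have h1 : ∫ t in A..A', ∫ t' in A..A', Psi K Ep t t' =
      ∫ t in A..A', ∑' i, ∫ t' in A..A', Gt K i t t' :=
    intervalIntegral.integral_congr fun t _ => (inner t).tsum_eq.symm
  rw [h1]
  have h2 : HasSum (fun i : (ℕ × ℕ) × (ℕ × ℕ) => (W K i.1 * W K i.2) * (4 * (T * Real.log T)))
      (SW K * (4 * (T * Real.log T))) := (WW_summable K).hasSum.mul_right _
  exact hasSum_le (fun i => Gt_int K i hT hTA hA hA') outer h2

end Pool.Agent.H41.KS.Etwo

namespace Pool.Agent.H41.KS

open Etwo

theorem e2_pair (K : ℕ) : ∃ C : ℝ, ∀ (α : ℕ → ℝ), Cl α → ∀ (n : ℕ) (T A A' : ℝ), 2 ≤ T → T ≤ A → A ≤ A' → A' ≤ 2 * T →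
    ∫ t in A..A', ∫ t' in A..A', |∫ w, HH K α n t w * HH K α n t' w ∂(lw α n) - ∫ w, PS K α n w * PS K α n w ∂(lw α n)| ≤
      C * (T * Real.log T * Real.exp (α n)) := by
  set k1 := 10 * ((K : ℝ) + 1) + 10 * ((K : ℝ) + 1) ^ 2 with hk1
  refine ⟨MM K * 8 * (SW K * 4) + MM K * k1 * Bd K * 4, fun α H n T A A' hT hTA hA hA' => ?_⟩
  have hM := MM_pos K
  have hB : 0 ≤ Bd K := (abs_nonneg _).trans (ph_bd K H n)
  have h4 : 4 ≤ α n := H.four_le n
  have hk : 0 ≤ k1 := by rw [hk1]; positivity
  have hT0 : 0 < T := by linarith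
  set R := MM K * (k1 * (Real.exp (α n) / T) + k1 * (Real.exp (α n) / T)) * Bd K with hR
  have hE := Real.exp_pos (α n)
  have hR0 : 0 ≤ R := by rw [hR]; positivity
  have hpt : ∀ t ∈ Icc A A', ∀ t' ∈ Icc A A',
      |∫ w, HH K α n t w * HH K α n t' w ∂(lw α n) - ∫ w, PS K α n w * PS K α n w ∂(lw α n)| ≤
      MM K * (8 * Real.exp (α n)) * Psi K Ep t t' + R := by
    intro t ht t' ht'
    rw [int_hh_hh K H n t t', int_ps_ps K H n]
    refine (fin_bd (pair_bd K H n t t') (ph_bd K H n) (exp_pair K H n t t') (exp_ps K H n)).trans ?_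
    have f : ∀ s ∈ Icc A A', |uu K α n s - ((K : ℝ) + 1) ^ 2 * e2 α n| ≤ k1 * (Real.exp (α n) / T) := by
      intro s hs
      have hs1 : T ≤ s := hTA.trans hs.1
      refine (fac K H n (by linarith : 1 ≤ s)).trans (mul_le_mul_of_nonneg_left ?_ hk)
      exact div_le_div₀ hE.le (Real.exp_le_exp.2 (by linarith)) hT0 hs1
    have h3 : |uu K α n t + uu K α n t' -
        (((K : ℝ) + 1) ^ 2 * e2 α n + ((K : ℝ) + 1) ^ 2 * e2 α n)| ≤
        k1 * (Real.exp (α n) / T) + k1 * (Real.exp (α n) / T) := by
      have h5 : uu K α n t + uu K α n t' -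
        (((K : ℝ) + 1) ^ 2 * e2 α n + ((K : ℝ) + 1) ^ 2 * e2 α n) =
        (uu K α n t - ((K : ℝ) + 1) ^ 2 * e2 α n) + (uu K α n t' - ((K : ℝ) + 1) ^ 2 * e2 α n) := by
        ring
      rw [h5]
      exact (abs_add_le _ _).trans (add_le_add (f t ht) (f t' ht'))
    refine add_le_add (le_of_eq (by ring)) ?_
    exact mul_le_mul_of_nonneg_right (mul_le_mul_of_nonneg_left h3 hM.le) hB
  have cP : ∀ t : ℝ, Continuous fun t' : ℝ => MM K * (8 * Real.exp (α n)) * Psi K Ep t t' + R :=
    fun t => (continuous_const.mul ((psi_cont K).comp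
      (by fun_prop : Continuous fun t' : ℝ => (t, t')))).add continuous_const
  have cQ : Continuous (Function.uncurry fun t t' : ℝ =>
      MM K * (8 * Real.exp (α n)) * Psi K Ep t t' + R) :=
    (continuous_const.mul (psi_cont K)).add continuous_const
  have mono : ∀ f h : ℝ → ℝ, (∀ t ∈ Icc A A', 0 ≤ f t) → (∀ t ∈ Icc A A', f t ≤ h t) → Continuous h →
      ∫ t in A..A', f t ≤ ∫ t in A..A', h t := by
    intro f h h0 h1 hc
    rw [intervalIntegral.integral_of_le hA, intervalIntegral.integral_of_le hA]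
    refine integral_mono_of_nonneg ?_ ?_ ?_
    · exact (ae_restrict_iff' measurableSet_Ioc).2 (Eventually.of_forall fun t ht =>
        h0 t ⟨ht.1.le, ht.2⟩)
    · exact (hc.integrableOn_Icc).mono_set Ioc_subset_Icc_self
    · exact (ae_restrict_iff' measurableSet_Ioc).2 (Eventually.of_forall fun t ht =>
        h1 t ⟨ht.1.le, ht.2⟩)
  have step : ∫ t in A..A', ∫ t' in A..A',
      |∫ w, HH K α n t w * HH K α n t' w ∂(lw α n) - ∫ w, PS K α n w * PS K α n w ∂(lw α n)| ≤
      ∫ t in A..A', ∫ t' in A..A', (MM K * (8 * Real.exp (α n)) * Psi K Ep t t' + R) := by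
    refine mono _ _ (fun t _ => ?_) (fun t ht => ?_)
      (intervalIntegral.continuous_parametric_intervalIntegral_of_continuous' cQ _ _)
    · exact intervalIntegral.integral_nonneg hA fun t' _ => abs_nonneg _
    · exact mono _ _ (fun t' _ => abs_nonneg _) (fun t' ht' => hpt t ht t' ht') (cP t)
  refine step.trans ?_
  have e1 : ∀ t : ℝ, ∫ t' in A..A', (MM K * (8 * Real.exp (α n)) * Psi K Ep t t' + R) =
      MM K * (8 * Real.exp (α n)) * (∫ t' in A..A', Psi K Ep t t') + (A' - A) * R := by
    intro t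
    have j1 : Continuous fun t' : ℝ => Psi K Ep t t' :=
      (psi_cont K).comp (by fun_prop : Continuous fun t' : ℝ => (t, t'))
    rw [Cvone.int_add' (fun t' => MM K * (8 * Real.exp (α n)) * Psi K Ep t t') (fun _ => R)
      (continuous_const.mul j1) continuous_const, intervalIntegral.integral_const_mul,
      intervalIntegral.integral_const, smul_eq_mul]
  simp_rw [e1]
  have j2 : Continuous fun t : ℝ => ∫ t' in A..A', Psi K Ep t t' :=
    intervalIntegral.continuous_parametric_intervalIntegral_of_continuous' (psi_cont K) _ _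
  rw [Cvone.int_add' (fun t => MM K * (8 * Real.exp (α n)) * ∫ t' in A..A', Psi K Ep t t')
    (fun _ => (A' - A) * R) (continuous_const.mul j2) continuous_const,
    intervalIntegral.integral_const_mul, intervalIntegral.integral_const, smul_eq_mul]
  have hl2 := log_half hT
  have hAA : A' - A ≤ T := by linarith
  have hAA0 : 0 ≤ A' - A := by linarith
  rw [add_mul]
  refine add_le_add ?_ ?_
  · calc MM K * (8 * Real.exp (α n)) * ∫ t in A..A', ∫ t' in A..A', Psi K Ep t t'
        ≤ MM K * (8 * Real.exp (α n)) * (SW K * (4 * (T * Real.log T))) :=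
          mul_le_mul_of_nonneg_left (psi_int K hT hTA hA hA') (by positivity)
      _ = _ := by ring
  · calc (A' - A) * ((A' - A) * R) ≤ T * (T * R) :=
          mul_le_mul hAA (mul_le_mul_of_nonneg_right hAA hR0) (mul_nonneg hAA0 hR0) hT0.le
      _ = MM K * k1 * Bd K * 2 * (T * Real.exp (α n)) := by
          rw [hR]; field_simp; ring
      _ ≤ MM K * k1 * Bd K * 4 * (T * Real.log T * Real.exp (α n)) := by
          have h6 : T * Real.exp (α n) ≤ 2 * (T * Real.log T * Real.exp (α n)) := by
            have : 0 < T * Real.exp (α n) := by positivity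
            nlinarith
          have h7 : 0 ≤ MM K * k1 * Bd K := by positivity
          nlinarith

end Pool.Agent.H41.KS
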