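import Pool.Agent.H41.KS.Etwoc

/-! # Project KS, stub KS-E2M: `e2_mix` is proved in `Etwoc.lean` (helper12) -/
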