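import Pool.Agent.H41.KS.Defs

/-! KS-GAM: the constant of Euler. -/

set_option autoImplicit false

open MeasureTheory Filter Topology Set

namespace Pool.Agent.H41.KS

open Pool.Agent.H41.BC (g)

theorem gam_int : IntegrableOn (fun t : ℝ => Real.log t * Real.exp (-t)) (Ioi 0) := by
  rw [← Ioc_union_Ioi_eq_Ioi (zero_le_one' ℝ)]
  refine IntegrableOn.union ?_ ?_
  · have h1 : IntervalIntegrable (fun t : ℝ => Real.log t * Real.exp (-t)) volume 0 1 :=
      intervalIntegral.intervalIntegrable_log'.mul_continuousOn (by fun_prop)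
    rwa [intervalIntegrable_iff_integrableOn_Ioc_of_le zero_le_one] at h1
  · have h1 := (Real.GammaIntegral_convergent (show (0 : ℝ) < 2 by norm_num)).mono_set
      (Ioi_subset_Ioi (zero_le_one' ℝ))
    refine Integrable.mono h1 ?_ ?_
    · exact (Real.measurable_log.mul (Real.measurable_exp.comp measurable_neg)).aestronglyMeasurable
    · rw [ae_restrict_iff' measurableSet_Ioi]
      refine ae_of_all _ fun t ht => ?_
      have ht1 : (1 : ℝ) < t := ht
      have h2 : Real.log t ≤ t := (Real.log_le_sub_one_of_pos (by linarith)).trans (by linarith)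
      have h3 : 0 ≤ Real.log t := Real.log_nonneg ht1.le
      have h4 : (t : ℝ) ^ ((2 : ℝ) - 1) = t := by norm_num
      rw [h4, Real.norm_eq_abs, Real.norm_eq_abs, abs_of_nonneg (by positivity),
        abs_of_nonneg (by positivity), mul_comm]
      exact mul_le_mul_of_nonneg_left h2 (Real.exp_pos _).le

theorem gam_val : ∫ t in Ioi (0 : ℝ), Real.log t * Real.exp (-t) =
    -Real.eulerMascheroniConstant := by
  have h1 := Complex.hasDerivAt_GammaIntegral (s := 1) (by norm_num)
  have h2 : Complex.GammaIntegral =ᶠ[𝓝 1] Complex.Gamma := by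
    have h3 : ∀ᶠ s : ℂ in 𝓝 1, 0 < s.re :=
      (Complex.continuous_re.continuousAt (x := (1 : ℂ))).eventually
        (lt_mem_nhds (by norm_num))
    filter_upwards [h3] with s hs
    exact (Complex.Gamma_eq_integral hs).symm
  have h4 := (h1.congr_of_eventuallyEq h2.symm).unique Complex.hasDerivAt_Gamma_one
  have h5 : ∫ t : ℝ in Ioi 0, (t : ℂ) ^ ((1 : ℂ) - 1) * ((Real.log t : ℂ) * (Real.exp (-t) : ℂ)) =
      ((∫ t in Ioi (0 : ℝ), Real.log t * Real.exp (-t) : ℝ) : ℂ) := by
    rw [← integral_complex_ofReal]
    refine integral_congr_ae (ae_of_all _ fun t => ?_)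
    simp
  have h6 : ((∫ t in Ioi (0 : ℝ), Real.log t * Real.exp (-t) : ℝ) : ℂ) =
      ((-Real.eulerMascheroniConstant : ℝ) : ℂ) := by
    rw [← h5]
    push_cast
    convert h4 using 1
    push_cast
    rfl
  exact_mod_cast h6

theorem gam : Tendsto (fun L : ℝ => (∫ v in (0 : ℝ)..L, g v * Real.exp (-v)) - Real.log L) atTop
    (𝓝 Real.eulerMascheroniConstant) := by
  have hgc : Continuous fun v => g v * Real.exp (-v) :=
    Pool.Agent.H41.BC.g_cont.mul (by fun_prop)
  have key : ∀ L : ℝ, 0 < L → (∫ v in (0 : ℝ)..L, g v * Real.exp (-v)) - Real.log L =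
      - (Real.exp (-L) * Real.log L) - ∫ t in (0 : ℝ)..L, Real.log t * Real.exp (-t) := by
    intro L hL
    have hli : IntervalIntegrable (fun t : ℝ => Real.log t * Real.exp (-t)) volume 0 L :=
      intervalIntegral.intervalIntegrable_log'.mul_continuousOn (by fun_prop)
    have hgi : IntervalIntegrable (fun v => g v * Real.exp (-v)) volume 0 L :=
      hgc.intervalIntegrable _ _
    have h1 := intervalIntegral.integral_eq_sub_of_hasDerivAt_of_le hL.le
      (f := fun v => (g v * Real.exp (-v)) * (v * Real.log v))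
      (f' := fun v => Real.log v * Real.exp (-v) + g v * Real.exp (-v))
      ((hgc.mul Real.continuous_mul_log).continuousOn) (fun v hv => by
        have hv0 : 0 < v := hv.1
        have h2 : HasDerivAt (fun v : ℝ => (1 - Real.exp (-v)) * Real.log v)
            (Real.exp (-v) * Real.log v + (1 - Real.exp (-v)) * v⁻¹) v := by
          have h3 : HasDerivAt (fun v : ℝ => 1 - Real.exp (-v)) (Real.exp (-v)) v :=
            ((hasDerivAt_neg v).exp.const_sub 1).congr_deriv (by ring)
          exact h3.mul (Real.hasDerivAt_log hv0.ne')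
        have h4 : (fun v => (g v * Real.exp (-v)) * (v * Real.log v)) =ᶠ[𝓝 v]
            fun v : ℝ => (1 - Real.exp (-v)) * Real.log v := by
          filter_upwards [lt_mem_nhds hv0] with w hw
          rw [Pool.Agent.H41.BC.g_eq hw.ne', Real.exp_neg]
          have h5 := (Real.exp_pos w).ne'
          have h6 := hw.ne'
          field_simp
        refine (h2.congr_of_eventuallyEq h4).congr_deriv ?_
        rw [Pool.Agent.H41.BC.g_eq hv0.ne', Real.exp_neg]
        have h5 := (Real.exp_pos v).ne'
        have h6 := hv0.ne'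
        field_simp)
      (hli.add hgi)
    rw [intervalIntegral.integral_add hli hgi] at h1
    have h7 : (g L * Real.exp (-L)) * (L * Real.log L) = (1 - Real.exp (-L)) * Real.log L := by
      rw [Pool.Agent.H41.BC.g_eq hL.ne', Real.exp_neg]
      have h5 := (Real.exp_pos L).ne'
      field_simp
    simp only [h7] at h1
    simp only [zero_mul, mul_zero, sub_zero] at h1
    linarith
  have hlim1 : Tendsto (fun L : ℝ => Real.exp (-L) * Real.log L) atTop (𝓝 0) := by
    have h1 := Real.tendsto_pow_mul_exp_neg_atTop_nhds_zero 1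
    refine squeeze_zero_norm' ?_ h1
    filter_upwards [eventually_ge_atTop (1 : ℝ)] with L hL
    have h2 : Real.log L ≤ L := (Real.log_le_sub_one_of_pos (by linarith)).trans (by linarith)
    have h3 : 0 ≤ Real.log L := Real.log_nonneg hL
    rw [Real.norm_eq_abs, abs_of_nonneg (by positivity), pow_one, mul_comm]
    exact mul_le_mul_of_nonneg_right h2 (Real.exp_pos _).le
  have hlim2 := intervalIntegral_tendsto_integral_Ioi 0 gam_int tendsto_id
  rw [gam_val] at hlim2
  have h3 := hlim1.neg.sub hlim2
  rw [neg_zero, zero_sub, neg_neg] at h3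
  refine h3.congr' ?_
  filter_upwards [eventually_gt_atTop (0 : ℝ)] with L hL
  exact (key L hL).symm

end Pool.Agent.H41.KS
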