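import Pool.Agent.H41.KS.Defs

/-! # Project KS: the prime number theorem for the system (helper63) -/

set_option autoImplicit false

open MeasureTheory Filter Topology Set

namespace Pool.Agent.H41.KS

open Pool.Agent.H41.BC (g tr Cells law2 PP2 NN)

namespace PiAux

/-- the number of the members up to `v` -/
theorem count {α : ℕ → ℝ} (H : Cl α) {W : ℕ → ℝ} (hW : ∀ n, W n ∈ Ioc (α n) (α (n + 1))) {v : ℝ}
    (hv : α 0 ≤ v) : |({n : ℕ | W n ≤ v}.ncard : ℝ) - ∫ w in α 0..v, g w| ≤ 1 := by
  classical
  have hlt : ∀ n, α n < α (n + 1) := H.lt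
  have hmono : StrictMono α := strictMono_nat_of_lt_succ hlt
  have h4 : 4 ≤ α 0 := H.start
  have hα : ∀ n, α 0 ≤ α n := fun n => hmono.monotone (Nat.zero_le n)
  have hW1 : ∀ n, α n < W n := fun n => (hW n).1
  have hW2 : ∀ n, W n ≤ α (n + 1) := fun n => (hW n).2
  have hWm : StrictMono W := strictMono_nat_of_lt_succ fun n => (hW2 n).trans_lt (hW1 (n + 1))
  have hαT : Tendsto α atTop atTop := H.tendsto
  have hWT : Tendsto W atTop atTop := tendsto_atTop_mono (fun n => (hW1 n).le) hαT
  have hmass : ∀ n, ∫ w in α 0..α n, g w = n := by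
    intro n
    induction n with
    | zero => simp
    | succ n ih =>
      rw [← intervalIntegral.integral_add_adjacent_intervals (BC.g_int (α 0) (α n)) (BC.g_int _ _), ih,
        H.prob n]
      push_cast; ring
  have hex : ∃ n, v < W n := (hWT.eventually_gt_atTop v).exists
  have hset : {n : ℕ | W n ≤ v} = {n | n < Nat.find hex} := by
    ext n
    constructor
    · intro hn
      by_contra h
      have h1 := Nat.find_spec hex
      have h2 : W (Nat.find hex) ≤ W n := hWm.monotone (not_lt.1 h)
      have hn' : W n ≤ v := hn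
      linarith
    · intro hn
      exact not_lt.1 (Nat.find_min hex hn)
  have hcard : {n : ℕ | W n ≤ v}.ncard = Nat.find hex := by
    rw [hset]
    have : {n | n < Nat.find hex} = ((Finset.range (Nat.find hex) : Finset ℕ) : Set ℕ) := by
      ext n; simp
    rw [this, Set.ncard_coe_finset, Finset.card_range]
  rw [hcard]
  set N := Nat.find hex with hNdef
  have hub : v < W N := Nat.find_spec hex
  have hDnn : ∀ a b, α 0 ≤ a → a ≤ b → 0 ≤ ∫ w in a..b, g w := fun a b ha hab =>
    intervalIntegral.integral_nonneg hab fun w hw => by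
      have := BC.one_le_g (v := w) (by linarith [hw.1])
      linarith
  have hsplit : ∀ a b, α 0 ≤ a → a ≤ b → ∫ w in α 0..a, g w ≤ ∫ w in α 0..b, g w := by
    intro a b ha hab
    rw [← intervalIntegral.integral_add_adjacent_intervals (BC.g_int (α 0) a) (BC.g_int a b)]
    linarith [hDnn a b ha hab]
  have h1 : ∫ w in α 0..v, g w ≤ N + 1 := by
    have := hsplit v (α (N + 1)) hv (hub.le.trans (hW2 N))
    have h4 := hmass (N + 1)
    push_cast at h4
    linarith
  have h2 : (N : ℝ) - 1 ≤ ∫ w in α 0..v, g w := by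
    rcases Nat.eq_zero_or_pos N with h | h
    · rw [h]
      have := hDnn (α 0) v le_rfl hv
      push_cast
      linarith
    · obtain ⟨M, hM⟩ : ∃ M, N = M + 1 := ⟨N - 1, by omega⟩
      have h3 : W M ≤ v := not_lt.1 (Nat.find_min hex (by omega))
      have := hsplit (α M) v (hα M) ((hW1 M).le.trans h3)
      have h4 := hmass M
      rw [hM]; push_cast; linarith
  rw [abs_le]
  constructor <;> linarith

/-- change of variables -/
theorem subst {a b : ℝ} (ha : 0 < a) (hab : a ≤ b) :
    ∫ w in a..b, g w = (∫ t in Real.exp a..Real.exp b, 1 / Real.log t) - (Real.log b - Real.log a) := by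
  have hpos : ∀ w ∈ uIcc a b, 0 < w := fun w hw => by
    rw [uIcc_of_le hab] at hw
    linarith [hw.1]
  have h1 : ∫ w in a..b, g w = ∫ w in a..b, (Real.exp w / w - 1 / w) := by
    refine intervalIntegral.integral_congr fun w hw => ?_
    show g w = Real.exp w / w - 1 / w
    rw [BC.g_eq (hpos w hw).ne', sub_div]
  have hc1 : IntervalIntegrable (fun w : ℝ => Real.exp w / w) volume a b := by
    apply ContinuousOn.intervalIntegrable
    exact Real.continuous_exp.continuousOn.div continuousOn_id fun w hw => (hpos w hw).ne'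
  have hc2 : IntervalIntegrable (fun w : ℝ => 1 / w) volume a b := by
    apply ContinuousOn.intervalIntegrable
    exact continuousOn_const.div continuousOn_id fun w hw => (hpos w hw).ne'
  have h2 : ∫ w in a..b, 1 / w = Real.log b - Real.log a := by
    rw [integral_one_div_of_pos ha (ha.trans_le hab), Real.log_div (ha.trans_le hab).ne' ha.ne']
  have h3 : ∫ w in a..b, ((fun t : ℝ => 1 / Real.log t) ∘ Real.exp) w * Real.exp w =
      ∫ t in Real.exp a..Real.exp b, 1 / Real.log t := by
    refine intervalIntegral.integral_comp_mul_deriv' (fun w _ => Real.hasDerivAt_exp w)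
      Real.continuous_exp.continuousOn ?_
    rintro _ ⟨w, hw, rfl⟩
    apply ContinuousAt.continuousWithinAt
    apply ContinuousAt.div continuousAt_const (Real.continuousAt_log (Real.exp_pos w).ne')
    rw [Real.log_exp]
    exact (hpos w hw).ne'
  have h4 : ∫ w in a..b, ((fun t : ℝ => 1 / Real.log t) ∘ Real.exp) w * Real.exp w =
      ∫ w in a..b, Real.exp w / w := by
    refine intervalIntegral.integral_congr fun w _ => ?_
    simp only [Function.comp_apply, Real.log_exp]
    ring
  rw [h1, intervalIntegral.integral_sub hc1 hc2, h2, ← h4, h3]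

theorem log_ii {a b : ℝ} (ha : 1 < a) (hab : a ≤ b) :
    IntervalIntegrable (fun t : ℝ => 1 / Real.log t) volume a b := by
  apply ContinuousOn.intervalIntegrable
  rw [uIcc_of_le hab]
  intro t ht
  apply ContinuousAt.continuousWithinAt
  apply ContinuousAt.div continuousAt_const
  · exact Real.continuousAt_log (by linarith [ht.1])
  · exact (Real.log_pos (by linarith [ht.1])).ne'

end PiAux

open PiAux

theorem pi_law {α : ℕ → ℝ} (H : Cl α) {W : ℕ → ℝ} (hW : ∀ n, W n ∈ Ioc (α n) (α (n + 1))) :
    ∃ A : ℝ, ∀ x : ℝ, 3 ≤ x → |({n : ℕ | Real.exp (W n) ≤ x}.ncard : ℝ) - ∫ t in (2 : ℝ)..x, 1 / Real.log t| ≤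
      A * (1 + |Real.log (Real.log x)|) := by
  have h4 : 4 ≤ α 0 := H.start
  have hmono : StrictMono α := strictMono_nat_of_lt_succ H.lt
  have he2 : (2 : ℝ) ≤ Real.exp (α 0) := by linarith [Real.add_one_le_exp (α 0)]
  have hlogpos : ∀ t : ℝ, 2 ≤ t → 0 ≤ 1 / Real.log t := fun t ht =>
    one_div_nonneg.2 (Real.log_nonneg (by linarith))
  set I : ℝ := ∫ t in (2 : ℝ)..Real.exp (α 0), 1 / Real.log t with hI
  have hI0 : 0 ≤ I := intervalIntegral.integral_nonneg he2 fun t ht => hlogpos t ht.1
  refine ⟨1 + I + |Real.log (α 0)|, fun x hx => ?_⟩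
  have hx0 : 0 < x := by linarith
  have hset : {n : ℕ | Real.exp (W n) ≤ x} = {n : ℕ | W n ≤ Real.log x} := by
    ext n
    exact (Real.le_log_iff_exp_le hx0).symm
  rw [hset]
  have hl0 : 0 ≤ |Real.log (Real.log x)| := abs_nonneg _
  have ha0 : 0 ≤ |Real.log (α 0)| := abs_nonneg _
  have hA : 1 + I + |Real.log (α 0)| + |Real.log (Real.log x)| ≤
      (1 + I + |Real.log (α 0)|) * (1 + |Real.log (Real.log x)|) := by
    have : 0 ≤ (I + |Real.log (α 0)|) * |Real.log (Real.log x)| := by positivity
    linarith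
  refine le_trans ?_ hA
  rcases le_total (α 0) (Real.log x) with hv | hv
  · have h1 := count H hW hv
    rw [subst (by linarith) hv, Real.exp_log hx0] at h1
    have hex : Real.exp (α 0) ≤ x := (Real.le_log_iff_exp_le hx0).1 hv
    have h5 : ∫ t in (2 : ℝ)..x, 1 / Real.log t = I + ∫ t in Real.exp (α 0)..x, 1 / Real.log t :=
      (intervalIntegral.integral_add_adjacent_intervals (log_ii (by norm_num) he2)
        (log_ii (by linarith) hex)).symm
    rw [h5]
    have h6 := abs_le.1 (le_refl |Real.log (Real.log x)|)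
    have h7 := abs_le.1 (le_refl |Real.log (α 0)|)
    rw [abs_le] at h1 ⊢
    constructor <;> linarith [h1.1, h1.2, h6.1, h6.2, h7.1, h7.2]
  · have hempty : {n : ℕ | W n ≤ Real.log x} = ∅ := by
      ext n
      simp only [mem_ofPred_eq, mem_empty_iff_false, iff_false, not_le]
      have h5 : α 0 ≤ α n := hmono.monotone (Nat.zero_le n)
      have h6 := (hW n).1
      linarith
    rw [hempty, ncard_empty]
    have hex : x ≤ Real.exp (α 0) := (Real.log_le_iff_le_exp hx0).1 hv
    have h3 : 0 ≤ ∫ t in (2 : ℝ)..x, 1 / Real.log t :=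
      intervalIntegral.integral_nonneg (by linarith) fun t ht => hlogpos t ht.1
    have h5 : ∫ t in (2 : ℝ)..x, 1 / Real.log t ≤ I := by
      have h5 : I = (∫ t in (2 : ℝ)..x, 1 / Real.log t) + ∫ t in x..Real.exp (α 0), 1 / Real.log t :=
        (intervalIntegral.integral_add_adjacent_intervals (log_ii (by norm_num) (by linarith))
          (log_ii (by linarith) hex)).symm
      have h6 : 0 ≤ ∫ t in x..Real.exp (α 0), 1 / Real.log t :=
        intervalIntegral.integral_nonneg hex fun t ht => hlogpos t (by linarith [ht.1])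
      linarith
    rw [abs_le]
    push_cast
    constructor <;> linarith

end Pool.Agent.H41.KS
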