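import Pool.Agent.H41.KS.Defs

/-! # Project KS: second order expansion of a Laplace transform (helper63) -/

set_option autoImplicit false

open MeasureTheory Filter Topology Set

namespace Pool.Agent.H41.KS

open Pool.Agent.H41.BC (g tr Cells law2 PP2 NN)

namespace SoAux

theorem exp2 (y : ℝ) : |Real.exp y - 1 - y - y ^ 2 / 2| ≤ |y| ^ 3 * Real.exp |y| := by
  have h := Complex.norm_exp_sub_sum_le_norm_mul_exp (y : ℂ) 3
  have e : Complex.exp (y : ℂ) - ∑ m ∈ Finset.range 3, (y : ℂ) ^ m / (m.factorial : ℂ) =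
      ((Real.exp y - 1 - y - y ^ 2 / 2 : ℝ) : ℂ) := by
    simp only [Finset.sum_range_succ, Finset.sum_range_zero, Nat.factorial]
    push_cast
    ring
  rw [e, Complex.norm_real, Complex.norm_real, Real.norm_eq_abs, Real.norm_eq_abs] at h
  exact h

end SoAux

open SoAux

theorem so_exp (C : ℝ) : ∃ C' : ℝ, ∀ (μ : Measure ℝ) [IsProbabilityMeasure μ] (A D : ℝ → ℝ) (a : ℝ), Measurable A → Measurable D →
    0 ≤ a → a ≤ C → (∀ᵐ w ∂μ, |A w| ≤ C * a) → (∀ᵐ w ∂μ, |D w| ≤ C * a ^ 2) →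
    |∫ w, Real.exp (A w + D w) ∂μ - 1 - ∫ w, A w ∂μ - ∫ w, D w ∂μ - (∫ w, A w ^ 2 ∂μ) / 2| ≤ C' * a ^ 3 := by
  refine ⟨(C + C ^ 2) ^ 3 * Real.exp ((C + C ^ 2) * C) + C ^ 2 + C ^ 3, ?_⟩
  intro μ _ A D a hA hD ha0 haC hAb hDb
  have hC : 0 ≤ C := ha0.trans haC
  set M : ℝ := C + C ^ 2 with hM
  have hM0 : 0 ≤ M := by positivity
  -- integrability
  have hAi : Integrable A μ := Integrable.of_bound hA.aestronglyMeasurable (C * a)
    (hAb.mono fun w hw => by rwa [Real.norm_eq_abs])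
  have hDi : Integrable D μ := Integrable.of_bound hD.aestronglyMeasurable (C * a ^ 2)
    (hDb.mono fun w hw => by rwa [Real.norm_eq_abs])
  have hA2i : Integrable (fun w => A w ^ 2) μ :=
    Integrable.of_bound (hA.pow_const 2).aestronglyMeasurable ((C * a) ^ 2)
      (hAb.mono fun w hw => by
        rw [Real.norm_eq_abs, abs_pow]
        exact pow_le_pow_left₀ (abs_nonneg _) hw 2)
  have hEi : Integrable (fun w => Real.exp (A w + D w)) μ :=
    Integrable.of_bound ((hA.add hD).exp).aestronglyMeasurable (Real.exp (C * a + C * a ^ 2))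
      ((hAb.and hDb).mono fun w hw => by
        rw [Real.norm_eq_abs, abs_of_pos (Real.exp_pos _)]
        refine Real.exp_le_exp.2 ?_
        have h1 := le_abs_self (A w)
        have h2 := le_abs_self (D w)
        linarith [hw.1, hw.2])
  have hint : ∫ w, (Real.exp (A w + D w) - 1 - A w - D w - A w ^ 2 / 2) ∂μ =
      ∫ w, Real.exp (A w + D w) ∂μ - 1 - ∫ w, A w ∂μ - ∫ w, D w ∂μ - (∫ w, A w ^ 2 ∂μ) / 2 := by
    have h1 : Integrable (fun w => Real.exp (A w + D w) - 1) μ := hEi.sub (integrable_const 1)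
    have h2 : Integrable (fun w => Real.exp (A w + D w) - 1 - A w) μ := h1.sub hAi
    have h3 : Integrable (fun w => Real.exp (A w + D w) - 1 - A w - D w) μ := h2.sub hDi
    rw [integral_sub h3 (hA2i.div_const 2), integral_sub h2 hDi, integral_sub h1 hAi,
      integral_sub hEi (integrable_const 1), integral_div]
    simp
  rw [← hint]
  have hb : ∀ᵐ w ∂μ, ‖Real.exp (A w + D w) - 1 - A w - D w - A w ^ 2 / 2‖ ≤
      (M ^ 3 * Real.exp (M * C) + C ^ 2 + C ^ 3) * a ^ 3 := by
    filter_upwards [hAb, hDb] with w h1 h2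
    rw [Real.norm_eq_abs]
    have ha2 : a ^ 2 ≤ C * a := by nlinarith
    have hy : |A w + D w| ≤ M * a := by
      refine (abs_add_le _ _).trans ?_
      rw [hM]
      nlinarith
    have h3 := exp2 (A w + D w)
    have h4 : |A w + D w| ^ 3 * Real.exp |A w + D w| ≤ M ^ 3 * Real.exp (M * C) * a ^ 3 := by
      calc |A w + D w| ^ 3 * Real.exp |A w + D w| ≤ (M * a) ^ 3 * Real.exp (M * C) := by
            refine mul_le_mul (pow_le_pow_left₀ (abs_nonneg _) hy 3) (Real.exp_le_exp.2 ?_)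
              (Real.exp_pos _).le (by positivity)
            exact hy.trans (mul_le_mul_of_nonneg_left haC hM0)
        _ = _ := by ring
    have h5 : |A w * D w| ≤ C ^ 2 * a ^ 3 := by
      rw [abs_mul]
      calc |A w| * |D w| ≤ (C * a) * (C * a ^ 2) := mul_le_mul h1 h2 (abs_nonneg _) (by positivity)
        _ = _ := by ring
    have h6 : |D w ^ 2 / 2| ≤ C ^ 3 * a ^ 3 := by
      rw [abs_div, abs_pow, abs_of_pos (by norm_num : (0 : ℝ) < 2)]
      have h7 : |D w| ^ 2 ≤ (C * a ^ 2) ^ 2 := pow_le_pow_left₀ (abs_nonneg _) h2 2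
      have h8 : (C * a ^ 2) ^ 2 ≤ C ^ 3 * a ^ 3 := by
        calc (C * a ^ 2) ^ 2 = C ^ 2 * a ^ 3 * a := by ring
          _ ≤ C ^ 2 * a ^ 3 * C := mul_le_mul_of_nonneg_left haC (by positivity)
          _ = _ := by ring
      have h9 : 0 ≤ |D w| ^ 2 := by positivity
      linarith
    have e : Real.exp (A w + D w) - 1 - A w - D w - A w ^ 2 / 2 =
        (Real.exp (A w + D w) - 1 - (A w + D w) - (A w + D w) ^ 2 / 2) + A w * D w + D w ^ 2 / 2 := by
      ring
    rw [e]
    refine (abs_add_le _ _).trans ?_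
    refine (add_le_add_left (abs_add_le _ _) _).trans ?_
    calc _ ≤ M ^ 3 * Real.exp (M * C) * a ^ 3 + C ^ 2 * a ^ 3 + C ^ 3 * a ^ 3 := by
          linarith
      _ = _ := by ring
  have h := norm_integral_le_of_norm_le_const hb
  rw [Real.norm_eq_abs] at h
  simpa using h

end Pool.Agent.H41.KS
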