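import Pool.Agent.H41.KS.Len
import Pool.Agent.H41.KS.Ee
import Pool.Agent.H41.KS.Cvone

/-! # Project KS, stub KS-S1: the sum of the variances (helper69) -/

set_option autoImplicit false

open MeasureTheory Filter Topology Set

namespace Pool.Agent.H41.KS

open Pool.Agent.H41.BC (g tr Cells law2 PP2 NN)

private lemma g_exp {v : ℝ} (hv : 0 < v) : g v * Real.exp (-v) = 1 / v - Real.exp (-v) / v := by
  rw [Pool.Agent.H41.BC.g_eq hv.ne', Real.exp_neg]
  have h0 : Real.exp v ≠ 0 := (Real.exp_pos v).ne'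
  field_simp

theorem kap {α : ℕ → ℝ} (H : Cl α) : ∃ κ : ℝ, IsKap α κ := by
  have h4 : (4 : ℝ) ≤ α 0 := H.start
  have hi : IntegrableOn (fun v : ℝ => Real.exp (-v) / v) (Ioi (α 0)) := by
    have h1 : IntegrableOn (fun v : ℝ => Real.exp (-v)) (Ioi (α 0)) := by
      simpa using integrableOn_exp_neg_Ioi (α 0)
    refine Integrable.mono' h1 ?_ ?_
    · exact (Real.continuous_exp.comp continuous_neg).measurable.div measurable_id
        |>.aestronglyMeasurable
    · refine (ae_restrict_iff' measurableSet_Ioi).2 (ae_of_all _ fun v hv => ?_)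
      have hv1 : (1 : ℝ) ≤ v := by
        have : α 0 < v := hv
        linarith
      rw [Real.norm_of_nonneg (by positivity)]
      exact div_le_self (Real.exp_pos _).le hv1
  refine ⟨-Real.log (α 0) - ∫ v in Ioi (α 0), Real.exp (-v) / v, ?_⟩
  have h2 : Tendsto (fun L : ℝ => -Real.log (α 0) - ∫ v in (α 0)..L, Real.exp (-v) / v) atTop
      (𝓝 (-Real.log (α 0) - ∫ v in Ioi (α 0), Real.exp (-v) / v)) :=
    tendsto_const_nhds.sub (intervalIntegral_tendsto_integral_Ioi _ hi tendsto_id)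
  refine h2.congr' ?_
  filter_upwards [eventually_ge_atTop (α 0)] with L hL
  have h3 : ∫ v in (α 0)..L, g v * Real.exp (-v) =
      ∫ v in (α 0)..L, (1 / v - Real.exp (-v) / v) := by
    refine intervalIntegral.integral_congr fun v hv => ?_
    rw [uIcc_of_le hL] at hv
    exact g_exp (by linarith [hv.1])
  have h5 : ∀ v ∈ uIcc (α 0) L, v ≠ 0 := by
    intro v hv
    rw [uIcc_of_le hL] at hv
    have := hv.1
    intro h0
    rw [h0] at this
    linarith
  have hI1 : IntervalIntegrable (fun v : ℝ => 1 / v) volume (α 0) L :=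
    (ContinuousOn.intervalIntegrable (continuousOn_const.div continuousOn_id h5))
  have hI2 : IntervalIntegrable (fun v : ℝ => Real.exp (-v) / v) volume (α 0) L :=
    (ContinuousOn.intervalIntegrable
      ((Real.continuous_exp.comp continuous_neg).continuousOn.div continuousOn_id h5))
  rw [h3, intervalIntegral.integral_sub hI1 hI2, integral_one_div_of_pos (by linarith) (by linarith),
    Real.log_div (by linarith) (by linarith)]
  ring

/-- the variance in a cell -/
private lemma cv_eq {α : ℕ → ℝ} (n : ℕ) (t : ℝ) :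
    CV α n t t = (e2 α n + (m2 α n t).re) / 2 - (m1 α n t).re ^ 2 := by
  have h1 : (tr (α n) (α (n + 1)) (1 + ((t : ℂ) - (t : ℂ)) * Complex.I)).re = e2 α n := by
    have : tr (α n) (α (n + 1)) (1 + ((t : ℂ) - (t : ℂ)) * Complex.I) = ((e2 α n : ℝ) : ℂ) := by
      unfold tr e2
      rw [← intervalIntegral.integral_ofReal]
      refine intervalIntegral.integral_congr fun v _ => ?_
      simp
    rw [this, Complex.ofReal_re]
  have h2 : (m2 α n t).re = (tr (α n) (α (n + 1)) (1 + ((t : ℂ) + (t : ℂ)) * Complex.I)).re := by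
    unfold m2
    congr 2
    ring
  unfold CV
  rw [h1, h2]
  ring

private lemma sum_e2 {α : ℕ → ℝ} (a : ℕ) :
    ∑ n ∈ Finset.range a, e2 α n = ∫ v in (α 0)..(α a), g v * Real.exp (-v) := by
  unfold e2
  rw [intervalIntegral.sum_integral_adjacent_intervals]
  intro k _
  exact (Pool.Agent.H41.BC.g_cont.mul (Real.continuous_exp.comp continuous_neg)).intervalIntegrable _ _

private lemma sum_m2 {α : ℕ → ℝ} (a : ℕ) (t : ℝ) :
    ∑ n ∈ Finset.range a, m2 α n t = tr (α 0) (α a) (1 + 2 * t * Complex.I) := by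
  unfold m2 tr
  rw [intervalIntegral.sum_integral_adjacent_intervals]
  intro k _
  exact (Pool.Agent.H41.BC.tr_cont _).intervalIntegrable _ _

/-- the cells before `X` -/
private lemma sum_m1 {α : ℕ → ℝ} (H : Cl α) {t X : ℝ} (ht : 1 ≤ t) {a : ℕ} (ha : α a ≤ X + 1)
    (hlt : ∀ m, m < a → α m < X) :
    ∑ n ∈ Finset.range a, (m1 α n t).re ^ 2 ≤ 16 * Real.exp (2 * X + 1) / t ^ 2 := by
  have ht0 : 0 < t := by linarith
  have h1 : ∀ n ∈ Finset.range a, (m1 α n t).re ^ 2 ≤ 16 * Real.exp X / t ^ 2 := by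
    intro n hn
    have h2 : ‖m1 α n t‖ ≤ 4 * Real.exp (α n / 2) / t := by
      have h3 := tr_osc (a := α n) (b := α (n + 1)) (H.four_le n) (H.lt n).le (H.short n)
        (s := 1 / 2 + t * Complex.I) (by norm_num) (by simpa using ht0.ne')
      have h4 : (1 - ((1 : ℂ) / 2 + t * Complex.I).re) * α n = α n / 2 := by
        simp
        ring
      rw [h4] at h3
      have h5 : |((1 : ℂ) / 2 + t * Complex.I).im| = t := by
        simp [abs_of_pos ht0]
      rw [h5] at h3
      exact h3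
    have h6 : (m1 α n t).re ^ 2 ≤ (4 * Real.exp (α n / 2) / t) ^ 2 := by
      rw [← sq_abs]
      exact pow_le_pow_left₀ (abs_nonneg _) ((Complex.abs_re_le_norm _).trans h2) 2
    refine h6.trans ?_
    have h7 : (4 * Real.exp (α n / 2) / t) ^ 2 = 16 * Real.exp (α n) / t ^ 2 := by
      rw [div_pow, mul_pow, ← Real.exp_nat_mul]
      congr 2
      · norm_num
      · congr 1
        push_cast
        ring
    rw [h7]
    have h8 : Real.exp (α n) ≤ Real.exp X := Real.exp_le_exp.2 (hlt n (Finset.mem_range.1 hn)).le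
    gcongr
  refine (Finset.sum_le_sum h1).trans ?_
  rw [Finset.sum_const, Finset.card_range, nsmul_eq_mul]
  have h9 : (a : ℝ) ≤ Real.exp (X + 1) := (idx H a).trans (Real.exp_le_exp.2 ha)
  have h10 : Real.exp (2 * X + 1) = Real.exp (X + 1) * Real.exp X := by
    rw [← Real.exp_add]
    congr 1
    ring
  rw [h10]
  calc (a : ℝ) * (16 * Real.exp X / t ^ 2) ≤ Real.exp (X + 1) * (16 * Real.exp X / t ^ 2) := by
        gcongr
    _ = _ := by ring

private lemma part1 {α : ℕ → ℝ} (H : Cl α) {t X : ℝ} (ht : 1 ≤ t) {a : ℕ} (ha : α a ≤ X + 1)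
    (hlt : ∀ m, m < a → α m < X) (κ : ℝ) :
    |2 * ∑ n ∈ Finset.range a, CV α n t t - (Real.log (α a) + κ)| ≤
      |(∫ v in (α 0)..(α a), g v * Real.exp (-v)) - Real.log (α a) - κ| + 1 / t +
        32 * Real.exp (2 * X + 1) / t ^ 2 := by
  have ht0 : 0 < t := by linarith
  have h0 : 2 * ∑ n ∈ Finset.range a, CV α n t t =
      (∫ v in (α 0)..(α a), g v * Real.exp (-v)) + (tr (α 0) (α a) (1 + 2 * t * Complex.I)).re -
        2 * ∑ n ∈ Finset.range a, (m1 α n t).re ^ 2 := by
    rw [← sum_e2, ← sum_m2, Complex.re_sum, Finset.mul_sum, Finset.mul_sum,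
      ← Finset.sum_add_distrib, ← Finset.sum_sub_distrib]
    refine Finset.sum_congr rfl fun n _ => ?_
    rw [cv_eq]
    ring
  have h1 : |(tr (α 0) (α a) (1 + 2 * t * Complex.I)).re| ≤ 1 / t := by
    refine (Complex.abs_re_le_norm _).trans ?_
    have h2 := tr_osc1 (a := α 0) (b := α a) H.start (H.alpha_mono.monotone (Nat.zero_le a))
      (s := 1 + 2 * t * Complex.I) (by simp) (by simpa using ht0.ne')
    refine h2.trans ?_
    have h3 : |((1 : ℂ) + 2 * t * Complex.I).im| = 2 * t := by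
      simp [abs_of_pos ht0]
    rw [h3]
    exact one_div_le_one_div_of_le ht0 (by linarith)
  have h4 := sum_m1 H ht ha hlt
  have h5 : 0 ≤ ∑ n ∈ Finset.range a, (m1 α n t).re ^ 2 :=
    Finset.sum_nonneg fun n _ => sq_nonneg _
  rw [h0]
  have h6 : 32 * Real.exp (2 * X + 1) / t ^ 2 = 2 * (16 * Real.exp (2 * X + 1) / t ^ 2) := by ring
  rw [h6]
  have h7 := abs_le.1 h1
  have h8 := abs_le.1 (le_refl |(∫ v in (α 0)..(α a), g v * Real.exp (-v)) - Real.log (α a) - κ|)
  rw [abs_le]
  constructor <;> linarith [h7.1, h7.2, h8.1, h8.2]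

private lemma part2 {α : ℕ → ℝ} (H : Cl α) (t : ℝ) {a b : ℕ} (hab : a ≤ b) :
    |∑ n ∈ Finset.Ico a b, CV α n t t| ≤ 3 * (Real.log (α b) - Real.log (α a)) := by
  refine (Finset.abs_sum_le_sum_abs _ _).trans ?_
  exact (Finset.sum_le_sum fun n _ => cv_le H n t t).trans (sum1 H hab)

private lemma part3 {α : ℕ → ℝ} (H : Cl α) {C t : ℝ} (hC : 0 ≤ C) (ht : 1 ≤ t)
    (h : ∀ n : ℕ, |CV α n t t| ≤ C * ((1 + |t|) * (1 + |t|) * (α n ^ 2 * Real.exp (-(3 * α n)))))
    {a b : ℕ} (hab : a ≤ b) :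
    |∑ n ∈ Finset.Ico a b, CV α n t t| ≤ C * (4 * t ^ 2 * (25 * (α a * Real.exp (-(2 * α a))))) := by
  refine (Finset.abs_sum_le_sum_abs _ _).trans ?_
  refine (Finset.sum_le_sum fun n _ => h n).trans ?_
  rw [← Finset.mul_sum, ← Finset.mul_sum]
  have h1 : (1 + |t|) * (1 + |t|) ≤ 4 * t ^ 2 := by
    rw [abs_of_nonneg (by linarith)]
    nlinarith
  have h2 := sum3 H hab
  have h3 : 0 ≤ ∑ n ∈ Finset.Ico a b, α n ^ 2 * Real.exp (-(3 * α n)) :=
    Finset.sum_nonneg fun n _ => by positivity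
  refine mul_le_mul_of_nonneg_left ?_ hC
  exact mul_le_mul h1 h2 h3 (by positivity)

theorem ss_sum {α : ℕ → ℝ} (H : Cl α) {κ : ℝ} (hκ : IsKap α κ) (K : ℕ) {δ : ℝ} (hδ : 0 < δ) :
    ∃ T0 : ℝ, ∀ T : ℝ, T0 ≤ T → ∀ t : ℝ, T ≤ t → t ≤ 2 * T → ∀ N : ℕ, 3 * Real.log T ≤ α N →
      |∑ n ∈ Finset.range N, SS K α n t - ((K : ℝ) + 1) ^ 2 * (Real.log (Real.log T) + κ)| ≤ δ := by
  obtain ⟨C₀, hC₀⟩ := cv_small
  set C : ℝ := max C₀ 0 with hCdef
  have hC : 0 ≤ C := le_max_right _ _
  have hcv : ∀ (n : ℕ) (t : ℝ), |CV α n t t| ≤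
      C * ((1 + |t|) * (1 + |t|) * (α n ^ 2 * Real.exp (-(3 * α n)))) := by
    intro n t
    refine (hC₀ α H n t t).trans ?_
    exact mul_le_mul_of_nonneg_right (le_max_left _ _) (by positivity)
  set q : ℝ := ((K : ℝ) + 1) ^ 2 with hq
  have hq0 : 0 < q := by positivity
  set D : ℝ := 110 + 2400 * C with hD
  have hD0 : 0 < D := by positivity
  have hδq : 0 < δ / (2 * q) := by positivity
  -- the constant κ
  have hκ' : ∀ᶠ x in atTop, |(∫ v in (α 0)..x, g v * Real.exp (-v)) - Real.log x - κ| ≤ δ / (2 * q) := by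
    have h1 := (Metric.tendsto_nhds.1 hκ) (δ / (2 * q)) hδq
    filter_upwards [h1] with x hx
    rw [Real.dist_eq] at hx
    exact hx.le
  obtain ⟨X0, hX0⟩ := eventually_atTop.1 hκ'
  -- large `L`
  have hlog : ∀ η : ℝ, 0 < η → ∀ᶠ L : ℝ in atTop, Real.log L ≤ η * L := by
    intro η hη
    have h1 := Real.isLittleO_log_id_atTop.bound hη
    filter_upwards [h1, eventually_ge_atTop (1 : ℝ)] with L hL hL1
    have h2 : ‖Real.log L‖ ≤ η * ‖L‖ := hL
    rw [Real.norm_of_nonneg (Real.log_nonneg hL1), Real.norm_of_nonneg (by linarith)] at h2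
    exact h2
  have hη : 0 < δ / (2 * q) / (2 * D) := by positivity
  have hev : ∀ᶠ L : ℝ in atTop, 4 * Real.log L ≤ L ∧ (Real.log L + 1) * D ≤ δ / (2 * q) * L ∧
      2 * X0 ≤ L ∧ 2 * α 0 ≤ L ∧ 1 ≤ L := by
    filter_upwards [hlog (1 / 4) (by norm_num), hlog _ hη,
      eventually_ge_atTop (2 * X0), eventually_ge_atTop (2 * α 0), eventually_ge_atTop (1 : ℝ),
      eventually_ge_atTop (1 / (δ / (2 * q) / (2 * D)))] with L h1 h2 h3 h4 h5 h6
    refine ⟨by linarith, ?_, h3, h4, h5⟩
    have h7 : 1 ≤ δ / (2 * q) / (2 * D) * L := by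
      rw [div_le_iff₀ hη] at h6
      linarith
    have h8 : Real.log L + 1 ≤ δ / (2 * q) / D * L := by
      have h9 : δ / (2 * q) / D * L = δ / (2 * q) / (2 * D) * L + δ / (2 * q) / (2 * D) * L := by
        field_simp
        ring
      rw [h9]
      linarith
    calc (Real.log L + 1) * D ≤ (δ / (2 * q) / D * L) * D :=
          mul_le_mul_of_nonneg_right h8 hD0.le
      _ = δ / (2 * q) * L := by field_simp
  obtain ⟨L0, hL0⟩ := eventually_atTop.1 hev
  refine ⟨Real.exp L0, fun T hT t hTt htT N hN => ?_⟩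
  have hT0 : 0 < T := (Real.exp_pos _).trans_le hT
  set L : ℝ := Real.log T with hL
  have hLT : Real.exp L = T := Real.exp_log hT0
  have hLL : L0 ≤ L := by
    rw [hL, Real.le_log_iff_exp_le hT0]
    exact hT
  obtain ⟨c1, c2, c3, c4, c5⟩ := hL0 L hLL
  have hLpos : 0 < L := by linarith
  set l : ℝ := Real.log L with hl
  have hl0 : 0 ≤ l := Real.log_nonneg c5
  have hlL : Real.exp l = L := Real.exp_log hLpos
  -- the indices
  set X : ℝ := L - 2 * l with hX
  set Y : ℝ := L + 2 * l with hY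
  have hXL : L / 2 ≤ X := by linarith
  obtain ⟨a, ha1, ha2, ha3⟩ := first H (L := X) (by linarith)
  obtain ⟨b, hb1, hb2, hb3⟩ := first H (L := Y) (by linarith)
  have hab : a ≤ b := by
    by_contra hcon
    push Not at hcon
    have := ha3 b hcon
    linarith
  have hbN : b ≤ N := by
    by_contra hcon
    push Not at hcon
    have := hb3 N hcon
    linarith
  have ht1 : 1 ≤ t := by
    have : L + 1 ≤ Real.exp L := Real.add_one_le_exp L
    rw [hLT] at this
    linarith
  have ht0 : 0 < t := by linarith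
  have hLleT : L ≤ T := by
    have : L + 1 ≤ Real.exp L := Real.add_one_le_exp L
    rw [hLT] at this
    linarith
  have haa : 0 < α a := by linarith
  -- the three parts
  have p1 := part1 H ht1 ha2 ha3 κ
  have p2 := part2 H t hab
  have p3 := part3 H hC ht1 (fun n => hcv n t) hbN
  -- the errors
  have e0 : |(∫ v in (α 0)..(α a), g v * Real.exp (-v)) - Real.log (α a) - κ| ≤ δ / (2 * q) :=
    hX0 _ (by linarith)
  have e1 : 1 / t ≤ 1 / L := one_div_le_one_div_of_le hLpos (by linarith)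
  have hL3 : 1 ≤ L ^ 3 := one_le_pow₀ c5
  have e2' : 32 * Real.exp (2 * X + 1) / t ^ 2 ≤ 96 / L := by
    have h1 : Real.exp (2 * X + 1) = Real.exp 1 * T ^ 2 / L ^ 4 := by
      rw [← hLT, ← hlL, ← Real.exp_nat_mul, ← Real.exp_nat_mul, ← Real.exp_add, ← Real.exp_sub]
      congr 1
      rw [hlL]
      push_cast
      ring
    have h2 : Real.exp 1 ≤ 3 := by linarith [Real.exp_one_lt_d9]
    rw [h1, div_le_div_iff₀ (by positivity) hLpos]
    have h3 : T ^ 2 ≤ t ^ 2 := pow_le_pow_left₀ hT0.le hTt 2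
    have h4 : 32 * (Real.exp 1 * T ^ 2 / L ^ 4) * L = 32 * Real.exp 1 * T ^ 2 / L ^ 3 := by
      field_simp
    rw [h4, div_le_iff₀ (by positivity)]
    have h5 : 32 * Real.exp 1 * T ^ 2 ≤ 96 * t ^ 2 := by nlinarith [sq_nonneg T]
    have h6 : 96 * t ^ 2 ≤ 96 * t ^ 2 * L ^ 3 := le_mul_of_one_le_right (by positivity) hL3
    linarith
  have e3 : |Real.log (α a) - Real.log L| ≤ (4 * l + 1) / L := by
    rw [abs_le]
    constructor
    · have h1 : Real.log L - Real.log (α a) ≤ (4 * l) / L := by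
        rw [← Real.log_div hLpos.ne' haa.ne']
        refine (Real.log_le_sub_one_of_pos (by positivity)).trans ?_
        have h2 : L / α a - 1 = (L - α a) / α a := by field_simp
        rw [h2, div_le_div_iff₀ haa hLpos]
        have h3 : L - α a ≤ 2 * l := by linarith
        have h4 : (L - α a) * L ≤ 2 * l * L := mul_le_mul_of_nonneg_right h3 hLpos.le
        have h5 : 2 * l * L ≤ 4 * l * α a := by nlinarith
        linarith
      have h6 : (4 * l) / L ≤ (4 * l + 1) / L := by gcongr; linarith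
      linarith
    · have h1 : Real.log (α a) - Real.log L ≤ 1 / L := by
        rw [← Real.log_div haa.ne' hLpos.ne']
        refine (Real.log_le_sub_one_of_pos (by positivity)).trans ?_
        have h2 : α a / L - 1 = (α a - L) / L := by field_simp
        rw [h2]
        gcongr
        linarith
      have h6 : 1 / L ≤ (4 * l + 1) / L := by gcongr; linarith
      linarith
  have e4 : Real.log (α b) - Real.log (α a) ≤ (8 * l + 2) / L := by
    have hbb : 0 < α b := by linarith
    rw [← Real.log_div hbb.ne' haa.ne']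
    refine (Real.log_le_sub_one_of_pos (by positivity)).trans ?_
    have h2 : α b / α a - 1 = (α b - α a) / α a := by field_simp
    rw [h2, div_le_div_iff₀ haa hLpos]
    have h3 : α b - α a ≤ 4 * l + 1 := by linarith
    have h4 : (α b - α a) * L ≤ (4 * l + 1) * L := mul_le_mul_of_nonneg_right h3 hLpos.le
    have h5 : (4 * l + 1) * L ≤ (8 * l + 2) * α a := by nlinarith
    linarith
  have e5 : C * (4 * t ^ 2 * (25 * (α b * Real.exp (-(2 * α b))))) ≤ 1200 * C / L := by
    have h1 : Real.exp (-(2 * α b)) ≤ 1 / (T ^ 2 * L ^ 4) := by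
      have h2 : 1 / (T ^ 2 * L ^ 4) = Real.exp (-(2 * Y)) := by
        rw [Real.exp_neg, one_div]
        congr 1
        rw [← hLT, ← hlL, ← Real.exp_nat_mul, ← Real.exp_nat_mul, ← Real.exp_add]
        congr 1
        rw [hlL]
        push_cast
        ring
      rw [h2]
      exact Real.exp_le_exp.2 (by linarith)
    have h3 : α b ≤ 3 * L := by linarith
    have h4 : t ^ 2 ≤ 4 * T ^ 2 := by nlinarith
    have h5 : 4 * t ^ 2 * (25 * (α b * Real.exp (-(2 * α b)))) ≤
        4 * (4 * T ^ 2) * (25 * (3 * L * (1 / (T ^ 2 * L ^ 4)))) := by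
      have : 0 ≤ α b := by linarith
      gcongr
    have h6 : 4 * (4 * T ^ 2) * (25 * (3 * L * (1 / (T ^ 2 * L ^ 4)))) = 1200 / L ^ 3 := by
      field_simp
      ring
    have h7 : (1200 : ℝ) / L ^ 3 ≤ 1200 / L := by
      apply div_le_div_of_nonneg_left (by norm_num) hLpos
      exact le_self_pow₀ c5 (by norm_num)
    calc C * (4 * t ^ 2 * (25 * (α b * Real.exp (-(2 * α b)))))
        ≤ C * (1200 / L) := mul_le_mul_of_nonneg_left ((h5.trans h6.le).trans h7) hC
      _ = _ := by ring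
  -- assembly
  have hsplit : ∑ n ∈ Finset.range N, CV α n t t =
      ∑ n ∈ Finset.range a, CV α n t t + ∑ n ∈ Finset.Ico a b, CV α n t t +
        ∑ n ∈ Finset.Ico b N, CV α n t t := by
    rw [Finset.range_eq_Ico, Finset.range_eq_Ico, Finset.sum_Ico_consecutive _ (Nat.zero_le a) hab,
      Finset.sum_Ico_consecutive _ (Nat.zero_le b) hbN]
  have hSS : ∑ n ∈ Finset.range N, SS K α n t = q * (2 * ∑ n ∈ Finset.range N, CV α n t t) := by
    unfold SS
    rw [Finset.mul_sum, Finset.mul_sum]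
    refine Finset.sum_congr rfl fun n _ => ?_
    rw [hq]
    ring
  rw [hSS, ← mul_sub, abs_mul, abs_of_pos hq0]
  have hmain : |2 * ∑ n ∈ Finset.range N, CV α n t t - (l + κ)| ≤ δ / q := by
    have f1 : δ / q = δ / (2 * q) + δ / (2 * q) := by
      field_simp
      ring
    have f2 : (l + 1) * D / L ≤ δ / (2 * q) := by
      rw [div_le_iff₀ hLpos]
      exact c2
    have f3 : 1 / L + 96 / L + (4 * l + 1) / L + 2 * (3 * ((8 * l + 2) / L)) + 2 * (1200 * C / L) ≤
        (l + 1) * D / L := by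
      have : 1 / L + 96 / L + (4 * l + 1) / L + 2 * (3 * ((8 * l + 2) / L)) + 2 * (1200 * C / L) =
          (1 + 96 + (4 * l + 1) + 2 * (3 * (8 * l + 2)) + 2 * (1200 * C)) / L := by ring
      rw [this]
      gcongr
      rw [hD]
      nlinarith [mul_nonneg hl0 hC]
    rw [hsplit]
    have a1 := abs_le.1 p1
    have a2 := abs_le.1 p2
    have a3 := abs_le.1 p3
    have a4 := abs_le.1 e3
    rw [abs_le]
    constructor <;> linarith [a1.1, a1.2, a2.1, a2.2, a3.1, a3.2, a4.1, a4.2]
  calc q * |2 * ∑ n ∈ Finset.range N, CV α n t t - (l + κ)| ≤ q * (δ / q) :=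
        mul_le_mul_of_nonneg_left hmain hq0.le
    _ = δ := by field_simp

end Pool.Agent.H41.KS
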