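import Pool.Agent.H41.KS.Ae
import Pool.Agent.H41.KS.Blk
import Pool.Agent.H41.KS.Cont
import Pool.Agent.H41.KS.Cty
import Pool.Agent.H41.KS.Cvone
import Pool.Agent.H41.KS.Cvtwo
import Pool.Agent.H41.KS.Ee
import Pool.Agent.H41.KS.Eone
import Pool.Agent.H41.KS.Etwo
import Pool.Agent.H41.KS.Etwom
import Pool.Agent.H41.KS.Form
import Pool.Agent.H41.KS.Gam
import Pool.Agent.H41.KS.Len
import Pool.Agent.H41.KS.Mom
import Pool.Agent.H41.KS.Pi
import Pool.Agent.H41.KS.Prob
import Pool.Agent.H41.KS.Psi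
import Pool.Agent.H41.KS.So
import Pool.Agent.H41.KS.Sone

/-! # Project KS: the proved parts -/
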