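import Pool.Agent.H41.KS.VarD
import Pool.Agent.H41.KS.Ae2

/-! # Project KS: almost sure convergence of the block averages -/

set_option autoImplicit false

open MeasureTheory Filter Topology Set

namespace Pool.Agent.H41.KS

open Pool.Agent.H41.BC (g tr Cells law2 PP2 NN)

attribute [local irreducible] HH PS pa pb pd CV

/-- almost sure convergence from summable second moments -/
lemma ae_tendsto {Ω : Type} [MeasurableSpace Ω] {μ : Measure Ω} {X : ℕ → Ω → ℝ} (hX : ∀ j, Measurable (X j))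
    (hI : ∀ j, Integrable (fun W => X j W ^ 2) μ) {u : ℕ → ℝ} (hu : Summable u)
    (h : ∀ᶠ j in atTop, ∫ W, X j W ^ 2 ∂μ ≤ u j) : ∀ᵐ W ∂μ, Tendsto (fun j => X j W) atTop (𝓝 0) := by
  obtain ⟨j0, hj0⟩ := eventually_atTop.1 h
  have hmeas : ∀ j, Measurable fun W => ENNReal.ofReal (X (j + j0) W ^ 2) := fun j =>
    ((hX (j + j0)).pow_const 2).ennreal_ofReal
  have hu' : Summable fun j => u (j + j0) := (summable_nat_add_iff j0).2 hu
  have hu0 : ∀ j, 0 ≤ u (j + j0) := fun j => (integral_nonneg fun W => sq_nonneg _).trans (hj0 (j + j0) (by omega))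
  have h1 : ∫⁻ W, ∑' j, ENNReal.ofReal (X (j + j0) W ^ 2) ∂μ ≠ ⊤ := by
    rw [lintegral_tsum fun j => (hmeas j).aemeasurable]
    have h2 : ∀ j, ∫⁻ W, ENNReal.ofReal (X (j + j0) W ^ 2) ∂μ ≤ ENNReal.ofReal (u (j + j0)) := by
      intro j
      rw [← ofReal_integral_eq_lintegral_ofReal (hI (j + j0)) (ae_of_all _ fun W => sq_nonneg _)]
      exact ENNReal.ofReal_le_ofReal (hj0 (j + j0) (by omega))
    refine ne_top_of_le_ne_top ?_ (ENNReal.tsum_le_tsum h2)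
    rw [← ENNReal.ofReal_tsum_of_nonneg hu0 hu']
    exact ENNReal.ofReal_ne_top
  have h3 := ae_lt_top (Measurable.ennreal_tsum hmeas) h1
  filter_upwards [h3] with W hW
  have h4 := ENNReal.tendsto_atTop_zero_of_tsum_ne_top hW.ne
  have h5 : Tendsto (fun j => X (j + j0) W ^ 2) atTop (𝓝 0) := by
    have h6 := (ENNReal.tendsto_toReal ENNReal.zero_ne_top).comp h4
    simp only [ENNReal.toReal_zero] at h6
    refine h6.congr fun j => ?_
    simp only [Function.comp]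
    exact ENNReal.toReal_ofReal (sq_nonneg _)
  have h7 : Tendsto (fun j => X (j + j0) W) atTop (𝓝 0) := by
    have h8 := h5.sqrt
    rw [Real.sqrt_zero] at h8
    refine squeeze_zero_norm (fun j => ?_) h8
    rw [Real.norm_eq_abs, Real.sqrt_sq_eq_abs]
  exact (tendsto_add_atTop_iff_nat j0).1 h7

lemma TT_pos (j : ℕ) : 0 < TT j := Real.exp_pos _

lemma TT_le (j : ℕ) : TT j ≤ TT (j + 1) :=
  Real.exp_le_exp.2 (Real.sqrt_le_sqrt (by push_cast; linarith))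

lemma TT_log (j : ℕ) : Real.log (TT j) = √(j : ℝ) := Real.log_exp _

lemma sqrt_gap {j : ℕ} (hj : 1 ≤ j) : √((j : ℝ) + 1) - √(j : ℝ) ≤ 1 / 2 ∧
    1 / (2 * √((j : ℝ) + 1)) ≤ √((j : ℝ) + 1) - √(j : ℝ) := by
  have h1 : (1:ℝ) ≤ j := by exact_mod_cast hj
  have h2 : 1 ≤ √(j : ℝ) := Real.one_le_sqrt.2 h1
  have h3 : √(j : ℝ) ≤ √((j : ℝ) + 1) := Real.sqrt_le_sqrt (by linarith)
  have h4 : √(j : ℝ) ^ 2 = j := Real.sq_sqrt (by linarith)
  have h5 : √((j : ℝ) + 1) ^ 2 = j + 1 := Real.sq_sqrt (by linarith)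
  set a := √(j : ℝ)
  set b := √((j : ℝ) + 1)
  have h6 : (b - a) * (b + a) = 1 := by nlinarith
  constructor
  · nlinarith
  · rw [div_le_iff₀ (by linarith)]
    nlinarith

lemma TT_double {j : ℕ} (hj : 1 ≤ j) : TT (j + 1) ≤ 2 * TT j := by
  have h := (sqrt_gap hj).1
  have h2 : Real.exp (1 / 2) ≤ 2 := by
    have h3 : Real.exp (1 / 2) ^ 2 = Real.exp 1 := by rw [← Real.exp_nat_mul]; norm_num
    have := Real.exp_one_lt_d9
    nlinarith [Real.exp_pos (1 / 2)]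
  calc TT (j + 1) = Real.exp (√((j : ℝ) + 1)) := by unfold TT; push_cast; rfl
    _ ≤ Real.exp (1 / 2 + √(j : ℝ)) := Real.exp_le_exp.2 (by linarith)
    _ = Real.exp (1 / 2) * TT j := by rw [Real.exp_add]; rfl
    _ ≤ _ := mul_le_mul_of_nonneg_right h2 (TT_pos j).le

lemma TT_gap {j : ℕ} (hj : 1 ≤ j) : 0 < TT (j + 1) - TT j ∧
    TT j ^ 2 / (TT (j + 1) - TT j) ^ 2 ≤ 4 * ((j : ℝ) + 1) := by
  have h := (sqrt_gap hj).2
  have h1 : 0 < √((j : ℝ) + 1) := Real.sqrt_pos.2 (by positivity)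
  have h2 : TT j * (1 / (2 * √((j : ℝ) + 1))) ≤ TT (j + 1) - TT j := by
    have h3 : TT (j + 1) = TT j * Real.exp (√((j : ℝ) + 1) - √(j : ℝ)) := by
      unfold TT; rw [← Real.exp_add]; push_cast; congr 1; ring
    have h4 := Real.add_one_le_exp (√((j : ℝ) + 1) - √(j : ℝ))
    have h5 : TT j * (√((j : ℝ) + 1) - √(j : ℝ)) ≤ TT (j + 1) - TT j := by
      rw [h3]
      nlinarith [TT_pos j]
    exact (mul_le_mul_of_nonneg_left h (TT_pos j).le).trans h5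
  have h6 : 0 < TT j * (1 / (2 * √((j : ℝ) + 1))) := by have := TT_pos j; positivity
  have h7 : 0 < TT (j + 1) - TT j := h6.trans_le h2
  refine ⟨h7, ?_⟩
  rw [div_le_iff₀ (by positivity)]
  calc TT j ^ 2 = 4 * ((j : ℝ) + 1) * (TT j * (1 / (2 * √((j : ℝ) + 1)))) ^ 2 := by
        have h8 : √((j : ℝ) + 1) ^ 2 = j + 1 := Real.sq_sqrt (by positivity)
        have h9 : (j : ℝ) + 1 ≠ 0 := by positivity
        rw [mul_pow, div_pow, mul_pow, h8]
        field_simp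
        norm_num
    _ ≤ _ := mul_le_mul_of_nonneg_left (pow_le_pow_left₀ h6.le h2 2) (by positivity)

lemma TT_tendsto : Tendsto TT atTop atTop :=
  Real.tendsto_exp_atTop.comp (Real.tendsto_sqrt_atTop.comp tendsto_natCast_atTop_atTop)

/-- a summable bound -/
lemma sum_u (C : ℝ) (m : ℕ) : Summable fun j : ℕ =>
    C * √(j : ℝ) ^ m * Real.exp (-(√(j : ℝ) / 16)) * (4 * ((j : ℝ) + 1)) := by
  have h0 : Summable fun j : ℕ => |C| * (8 * ((m + 6).factorial * 16 ^ (m + 6))) * (1 / (j : ℝ) ^ 2) :=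
    (Real.summable_one_div_nat_pow.2 (by norm_num : 1 < 2)).mul_left _
  refine Summable.of_norm_bounded_eventually_nat h0 ?_
  filter_upwards [eventually_ge_atTop 1] with j hj
  have h1 : (1:ℝ) ≤ j := by exact_mod_cast hj
  have h2 : 1 ≤ √(j : ℝ) := Real.one_le_sqrt.2 h1
  have h4 : √(j : ℝ) ^ 2 = j := Real.sq_sqrt (by linarith)
  set s := √(j : ℝ) with hs
  have hexp : Real.exp (-(s / 16)) ≤ (m + 6).factorial * 16 ^ (m + 6) / s ^ (m + 6) := by
    have := Real.pow_div_factorial_le_exp (s / 16) (by positivity) (m + 6)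
    rw [Real.exp_neg, inv_le_comm₀ (Real.exp_pos _) (by positivity)]
    refine le_trans (le_of_eq ?_) this
    rw [div_pow, inv_div]
    field_simp
  rw [Real.norm_eq_abs, abs_mul, abs_mul, abs_mul, abs_of_nonneg (by positivity : 0 ≤ s ^ m),
    abs_of_nonneg (Real.exp_pos _).le, abs_of_nonneg (by positivity : (0:ℝ) ≤ 4 * ((j : ℝ) + 1))]
  calc |C| * s ^ m * Real.exp (-(s / 16)) * (4 * ((j : ℝ) + 1)) ≤
        |C| * s ^ m * ((m + 6).factorial * 16 ^ (m + 6) / s ^ (m + 6)) * (8 * (j : ℝ)) := by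
        refine mul_le_mul (mul_le_mul_of_nonneg_left hexp (by positivity)) (by linarith) (by positivity) (by positivity)
    _ = |C| * (8 * ((m + 6).factorial * 16 ^ (m + 6))) * (1 / (j : ℝ) ^ 2) := by
        rw [← h4]
        field_simp
        rw [pow_add]
        ring

/-- the index which belongs to the block -/
theorem exists_N {α : ℕ → ℝ} (H : Cl α) : ∃ N : ℕ → ℕ, ∀ᶠ j : ℕ in atTop,
    3 * √(j : ℝ) ≤ α (N j) ∧ α (N j) ≤ 3 * √(j : ℝ) + 1 := by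
  have h : ∀ j : ℕ, ∃ n : ℕ, α 0 ≤ 3 * √(j : ℝ) → 3 * √(j : ℝ) ≤ α n ∧ α n ≤ 3 * √(j : ℝ) + 1 := by
    intro j
    by_cases hj : α 0 ≤ 3 * √(j : ℝ)
    · obtain ⟨n, h1, h2, _⟩ := first H hj
      exact ⟨n, fun _ => ⟨h1, h2⟩⟩
    · exact ⟨0, fun h => absurd h hj⟩
  choose N hN using h
  refine ⟨N, ?_⟩
  have h1 : Tendsto (fun j : ℕ => 3 * √(j : ℝ)) atTop atTop :=
    (Real.tendsto_sqrt_atTop.comp tendsto_natCast_atTop_atTop).const_mul_atTop (by norm_num)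
  filter_upwards [h1.eventually_ge_atTop (α 0)] with j hj using hN j hj

/-- the block averages of the random difference -/
noncomputable def XX (K : ℕ) (α : ℕ → ℝ) (N : ℕ → ℕ) (j : ℕ) (W : ℕ → ℝ) : ℝ :=
  (∫ t in TT j..TT (j + 1), DD K α (N j) (t, W)) / (TT (j + 1) - TT j)

lemma int_meas (K : ℕ) (α : ℕ → ℝ) (N : ℕ) {a b : ℝ} (hab : a ≤ b) :
    Measurable fun W : ℕ → ℝ => ∫ t in a..b, DD K α N (t, W) := by
  simp_rw [intervalIntegral.integral_of_le hab]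
  exact ((dd_meas K α N).stronglyMeasurable.integral_prod_left' (μ := volume.restrict (Ioc a b))).measurable

lemma int_bd (K : ℕ) {α : ℕ → ℝ} (H : Cl α) (N : ℕ) (a b : ℝ) : ∃ B : ℝ, 0 ≤ B ∧ ∀ W : ℕ → ℝ,
    |∫ t in a..b, DD K α N (t, W)| ≤ B := by
  obtain ⟨B, hB0, hB⟩ := prod_bds K H N
  refine ⟨(B + B) * |b - a|, by positivity, fun W => ?_⟩
  rw [← Real.norm_eq_abs]
  refine intervalIntegral.norm_integral_le_of_norm_le_const fun t _ => ?_
  rw [Real.norm_eq_abs]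
  exact (abs_sub _ _).trans (add_le_add (hB t W).1 (hB t W).2)

theorem xx_ae (K : ℕ) {α : ℕ → ℝ} (H : Cl α) {N : ℕ → ℕ} (hN : ∀ᶠ j : ℕ in atTop,
    3 * √(j : ℝ) ≤ α (N j) ∧ α (N j) ≤ 3 * √(j : ℝ) + 1) :
    ∀ᵐ W ∂(Pr α), Tendsto (fun j => XX K α N j W) atTop (𝓝 0) := by
  have := Pool.Agent.H41.BC.PP_prob H
  obtain ⟨C, m, T0, hC0, hT0, hC⟩ := block_var K H
  refine ae_tendsto (fun j => (int_meas K α (N j) (TT_le j)).div_const _) (fun j => ?_) (sum_u C m) ?_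
  · obtain ⟨B, hB0, hB⟩ := int_bd K H (N j) (TT j) (TT (j + 1))
    refine Integrable.of_bound (((int_meas K α (N j) (TT_le j)).div_const _).pow_const 2).aestronglyMeasurable
      ((B / |TT (j + 1) - TT j|) ^ 2) (ae_of_all _ fun W => ?_)
    unfold XX
    rw [Real.norm_eq_abs, abs_pow, abs_div]
    exact pow_le_pow_left₀ (by positivity) (div_le_div_of_nonneg_right (hB W) (abs_nonneg _)) 2
  · filter_upwards [hN, TT_tendsto.eventually_ge_atTop T0, eventually_ge_atTop 1] with j h1 h2 h3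
    have h4 := hC (TT j) (TT j) (TT (j + 1)) h2 le_rfl (TT_le j) (TT_double h3) (N j)
      (by rw [TT_log]; exact h1.1) (by rw [TT_log]; exact h1.2)
    rw [TT_log] at h4
    obtain ⟨g1, g2⟩ := TT_gap h3
    have e : ∀ W, XX K α N j W ^ 2 = (∫ t in TT j..TT (j + 1), DD K α (N j) (t, W)) ^ 2 * ((TT (j + 1) - TT j) ^ 2)⁻¹ := by
      intro W; unfold XX; rw [div_pow, div_eq_mul_inv]
    simp_rw [e]
    rw [integral_mul_const]
    calc _ ≤ C * √(j : ℝ) ^ m * (TT j ^ 2 * Real.exp (-(√(j : ℝ) / 16))) * ((TT (j + 1) - TT j) ^ 2)⁻¹ :=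
          mul_le_mul_of_nonneg_right h4 (by positivity)
      _ = C * √(j : ℝ) ^ m * Real.exp (-(√(j : ℝ) / 16)) * (TT j ^ 2 / (TT (j + 1) - TT j) ^ 2) := by
          rw [div_eq_mul_inv]; ring
      _ ≤ _ := mul_le_mul_of_nonneg_left g2 (by positivity)

/-- a good system -/
theorem exists_sys {α : ℕ → ℝ} (H : Cl α) : ∃ (W : ℕ → ℝ) (N : ℕ → ℕ), (∀ n, W n ∈ Ioc (α n) (α (n + 1))) ∧
    (∃ c : ℝ, 0 < c ∧ Tendsto (fun K => Pool.Agent.H41.BC.q1 α W K) atTop (𝓝 c) ∧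
      ∀ ε : ℝ, 0 < ε → ∃ A : ℝ, ∀ x : ℝ, 1 ≤ x → |(NN W x : ℝ) - c * x| ≤ A * x ^ (1 / 2 + ε)) ∧
    (∀ᶠ j : ℕ in atTop, 3 * √(j : ℝ) ≤ α (N j) ∧ α (N j) ≤ 3 * √(j : ℝ) + 1) ∧
    ∀ K : ℕ, Tendsto (fun j => XX K α N j W) atTop (𝓝 0) := by
  have := Pool.Agent.H41.BC.PP_prob H
  obtain ⟨N, hN⟩ := exists_N H
  have h1 : ∀ᵐ W ∂(Pr α), ∀ K : ℕ, Tendsto (fun j => XX K α N j W) atTop (𝓝 0) :=
    ae_all_iff.2 fun K => xx_ae K H hN
  obtain ⟨W, h2, h3⟩ := ((as_ae2 H).and h1).exists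
  exact ⟨W, N, h2.1, h2.2, hN, h3⟩

end Pool.Agent.H41.KS
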