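import Pool.Agent.H41.BC.AS2

/-! # Project KS: moments of the zeta function of a random system of generalised primes on the critical line. Definitions.

The engine is that of project BC: cells `(α n, α (n + 1)]` of mass one for the density `g v = (e^v - 1) / v` on the logarithmic
scale, one random member `W n` in every cell, with density `g`, independent. `BC.tr a b s = ∫ v in a..b, g v * exp (-(s * v))`. -/

set_option autoImplicit false

open MeasureTheory Filter Topology Set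

namespace Pool.Agent.H41.KS

open Pool.Agent.H41.BC (g tr Cells law2 PP2 NN)

/-- cells of mass one without gaps, with the density `g` -/
abbrev Cl (α : ℕ → ℝ) : Prop := Cells α (fun n => α (n + 1)) (fun _ => g)

/-- the law of the member of the `n`-th cell -/
noncomputable abbrev lw (α : ℕ → ℝ) (n : ℕ) : Measure ℝ := law2 α (fun n => α (n + 1)) (fun _ => g) n

/-- the law of the random system -/
noncomputable abbrev Pr (α : ℕ → ℝ) : Measure (ℕ → ℝ) := PP2 α (fun n => α (n + 1)) (fun _ => g)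

/-- `p^(-1/2-it)` for `p = e^w` (`w` is replaced by `max w 4`, only to have a bounded function) -/
noncomputable def zz (t w : ℝ) : ℂ := Complex.exp (-((1 / 2 + t * Complex.I) * ((max w 4 : ℝ) : ℂ)))

/-- the mean of `zz t` in the `n`-th cell -/
noncomputable def m1 (α : ℕ → ℝ) (n : ℕ) (t : ℝ) : ℂ := tr (α n) (α (n + 1)) (1 / 2 + t * Complex.I)

/-- the mean of `zz t ^ 2` in the `n`-th cell -/
noncomputable def m2 (α : ℕ → ℝ) (n : ℕ) (t : ℝ) : ℂ := tr (α n) (α (n + 1)) (1 + 2 * t * Complex.I)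

/-- the mean of `‖zz t‖ ^ 2` in the `n`-th cell -/
noncomputable def e2 (α : ℕ → ℝ) (n : ℕ) : ℝ := ∫ v in α n..α (n + 1), g v * Real.exp (-v)

/-- the covariance of `re (zz t)` and `re (zz t')` in the `n`-th cell -/
noncomputable def CV (α : ℕ → ℝ) (n : ℕ) (t t' : ℝ) : ℝ :=
  ((tr (α n) (α (n + 1)) (1 + (t - t') * Complex.I)).re + (tr (α n) (α (n + 1)) (1 + (t + t') * Complex.I)).re) / 2 -
    (m1 α n t).re * (m1 α n t').re

/-- `2 k^2` times the variance, `k = K + 1` -/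
noncomputable def SS (K : ℕ) (α : ℕ → ℝ) (n : ℕ) (t : ℝ) : ℝ := 2 * ((K : ℝ) + 1) ^ 2 * CV α n t t

/-- the normalisation of the first and second order terms, `k = K + 1` -/
noncomputable def cc (K : ℕ) (α : ℕ → ℝ) (n : ℕ) (t : ℝ) : ℝ :=
  2 * ((K : ℝ) + 1) * (m1 α n t).re + ((K : ℝ) + 1) * (m2 α n t).re

/-- `∑ binom(m+k-1, m)^2 p^(-m)` for `p = e^w`, `k = K + 1` -/
noncomputable def ph (K : ℕ) (w : ℝ) : ℝ := ∑' m : ℕ, (((m + K).choose K : ℕ) : ℝ) ^ 2 * Real.exp (-(m * max w 4))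

/-- the normalised `n`-th factor of `|zeta|^(2k)` at `1/2 + it`, `k = K + 1` -/
noncomputable def HH (K : ℕ) (α : ℕ → ℝ) (n : ℕ) (t w : ℝ) : ℝ :=
  ‖(1 - zz t w)⁻¹‖ ^ (2 * (K + 1)) * Real.exp (-cc K α n t - SS K α n t)

/-- the normalised factor of the mean value -/
noncomputable def PS (K : ℕ) (α : ℕ → ℝ) (n : ℕ) (w : ℝ) : ℝ := ph K w * Real.exp (-(((K : ℝ) + 1) ^ 2 * e2 α n))

/-- `∫_a^∞ g v e^(-s v) dv`, continued to `im s > 0` -/
noncomputable def EE (a : ℝ) (s : ℂ) : ℂ := ∫ θ in (0 : ℝ)..1, Complex.exp (-((s - θ) * a)) / (s - θ)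

/-- the logarithm of the normalised `n`-th factor of the zeta function -/
noncomputable def LG (α : ℕ → ℝ) (W : ℕ → ℝ) (n : ℕ) (s : ℂ) : ℂ :=
  -Complex.log (1 - Complex.exp (-(s * W n))) - tr (α n) (α (n + 1)) s - tr (α n) (α (n + 1)) (2 * s) / 2

/-- the zeta function of the system `exp (W n)` in `re s > 1/3`, `im s > 0` -/
noncomputable def ff (α : ℕ → ℝ) (W : ℕ → ℝ) (s : ℂ) : ℂ :=
  Complex.exp (EE (α 0) s + EE (α 0) (2 * s) / 2 + ∑' n, LG α W n s)

/-- `∫_{α 0}^L g v e^(-v) dv = log L + κ + o(1)` -/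
def IsKap (α : ℕ → ℝ) (κ : ℝ) : Prop :=
  Tendsto (fun L : ℝ => (∫ v in α 0..L, g v * Real.exp (-v)) - Real.log L) atTop (𝓝 κ)

/-- the end points of the blocks -/
noncomputable def TT (j : ℕ) : ℝ := Real.exp (√(j : ℝ))

end Pool.Agent.H41.KS
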