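import Pool.Agent.H41.KS.Ee
import Pool.Agent.H41.KS.Mom
import Pool.Agent.H41.KS.Cty
import Pool.Agent.H41.KS.Cvone

/-! # Project KS, stubs KS-E2P, KS-E2M: the expansion (helper12) -/

set_option autoImplicit false

open MeasureTheory Filter Topology Set

namespace Pool.Agent.H41.KS.Etwo

open Pool.Agent.H41.BC (g tr Cells law2 PP2 NN g_cont g_pos g_le one_le_g g_eq g_mono tr_cont int_law)

/-- the coefficients of `(1 - z)^(-(K+1))` -/
noncomputable def cf (K a : ℕ) : ℝ := (((a + K).choose K : ℕ) : ℝ)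

lemma cf_nonneg (K a : ℕ) : 0 ≤ cf K a := Nat.cast_nonneg _

noncomputable def c (K : ℕ) (x : ℕ × ℕ) : ℝ := cf K x.1 * cf K x.2
noncomputable def rho (x : ℕ × ℕ) : ℝ := ((x.1 : ℝ) + x.2) / 2
noncomputable def dl (x : ℕ × ℕ) : ℝ := (x.1 : ℝ) - x.2
noncomputable def dg (x : ℕ × ℕ) : ℝ := if x.1 = x.2 then 1 else 0
noncomputable def W (K : ℕ) (x : ℕ × ℕ) : ℝ := c K x * Real.exp (-(4 * rho x))
noncomputable def sg (x : ℕ × ℕ) (t : ℝ) : ℂ := (rho x : ℂ) + ((dl x * t : ℝ) : ℂ) * Complex.I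
noncomputable def PP (K : ℕ) (t w : ℝ) : ℝ := ‖(1 - zz t w)⁻¹‖ ^ (2 * (K + 1))

lemma c_nonneg (K : ℕ) (x : ℕ × ℕ) : 0 ≤ c K x := mul_nonneg (cf_nonneg _ _) (cf_nonneg _ _)
lemma W_nonneg (K : ℕ) (x : ℕ × ℕ) : 0 ≤ W K x := mul_nonneg (c_nonneg _ _) (Real.exp_pos _).le
lemma rho_nonneg (x : ℕ × ℕ) : 0 ≤ rho x := by unfold rho; positivity
lemma dg_nonneg (x : ℕ × ℕ) : 0 ≤ dg x := by unfold dg; split_ifs <;> norm_num
lemma dg_le (x : ℕ × ℕ) : dg x ≤ 1 := by unfold dg; split_ifs <;> norm_num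
lemma sg_re (x : ℕ × ℕ) (t : ℝ) : (sg x t).re = rho x := by simp [sg]
lemma sg_im (x : ℕ × ℕ) (t : ℝ) : (sg x t).im = dl x * t := by simp [sg]

lemma sum_cf (K : ℕ) {z : ℂ} (hz : ‖z‖ < 1) :
    HasSum (fun a : ℕ => (cf K a : ℂ) * z ^ a) (1 / (1 - z) ^ (K + 1)) := by
  have h := hasSum_choose_mul_geometric_of_norm_lt_one K hz
  refine h.congr_fun fun a => ?_
  simp [cf]

lemma t1 (K : ℕ) {z : ℂ} (hz : ‖z‖ < 1) :
    Summable (fun a : ℕ => ‖(cf K a : ℂ) * z ^ a‖) := by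
  have h1 := sum_cf K hz
  exact summable_norm_iff.2 h1.summable

lemma t2 (K : ℕ) {z z' : ℂ} (h1 : Summable (fun a : ℕ => ‖(cf K a : ℂ) * z ^ a‖))
    (h2 : Summable (fun a : ℕ => ‖(cf K a : ℂ) * z' ^ a‖)) :
    Summable (fun x : ℕ × ℕ => ((cf K x.1 : ℂ) * z ^ x.1) * ((cf K x.2 : ℂ) * z' ^ x.2)) := by
  exact summable_mul_of_summable_norm (f := fun a : ℕ => (cf K a : ℂ) * z ^ a)
    (g := fun a : ℕ => (cf K a : ℂ) * z' ^ a) h1 h2

lemma t3 (K : ℕ) {z z' s s' : ℂ} (h1 : HasSum (fun a : ℕ => (cf K a : ℂ) * z ^ a) s)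
    (h2 : HasSum (fun a : ℕ => (cf K a : ℂ) * z' ^ a) s')
    (h3 : Summable (fun x : ℕ × ℕ => ((cf K x.1 : ℂ) * z ^ x.1) * ((cf K x.2 : ℂ) * z' ^ x.2))) :
    HasSum (fun x : ℕ × ℕ => ((cf K x.1 : ℂ) * z ^ x.1) * ((cf K x.2 : ℂ) * z' ^ x.2)) (s * s') := by
  exact HasSum.mul (f := fun a : ℕ => (cf K a : ℂ) * z ^ a)
    (g := fun a : ℕ => (cf K a : ℂ) * z' ^ a) h1 h2 h3

lemma W_eq (K : ℕ) (x : ℕ × ℕ) :
    W K x = (cf K x.1 * Real.exp (-2) ^ x.1) * (cf K x.2 * Real.exp (-2) ^ x.2) := by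
  unfold W c rho
  have h : Real.exp (-(4 * (((x.1 : ℝ) + x.2) / 2))) = Real.exp (-2) ^ x.1 * Real.exp (-2) ^ x.2 := by
    rw [← Real.exp_nat_mul, ← Real.exp_nat_mul, ← Real.exp_add]
    congr 1
    ring
  rw [h]; ring

lemma W_summable (K : ℕ) : Summable (W K) := by
  have h1 : Summable fun m : ℕ => cf K m * Real.exp (-2) ^ m :=
    summable_choose_mul_geometric_of_norm_lt_one K (by
      rw [Real.norm_eq_abs, abs_of_pos (Real.exp_pos _), Real.exp_neg]
      have := Real.add_one_le_exp 2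
      exact inv_lt_one_of_one_lt₀ (by linarith))
  have h0 : 0 ≤ fun m : ℕ => cf K m * Real.exp (-2) ^ m := fun m =>
    mul_nonneg (cf_nonneg _ _) (by positivity)
  have h2 := h1.mul_of_nonneg h1 h0 h0
  exact h2.congr fun x => (W_eq K x).symm

/-- the products of two weights -/
lemma WW_summable (K : ℕ) : Summable fun i : (ℕ × ℕ) × (ℕ × ℕ) => W K i.1 * W K i.2 :=
  (W_summable K).mul_of_nonneg (W_summable K) (fun x => W_nonneg K x) (fun x => W_nonneg K x)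

lemma term_eq (K : ℕ) (x : ℕ × ℕ) (t w : ℝ) :
    (c K x : ℂ) * Complex.exp (-(sg x t * ((max w 4 : ℝ) : ℂ))) =
      ((cf K x.1 : ℂ) * zz t w ^ x.1) * ((cf K x.2 : ℂ) * (starRingEnd ℂ (zz t w)) ^ x.2) := by
  unfold zz
  rw [← Complex.exp_conj, ← Complex.exp_nat_mul, ← Complex.exp_nat_mul]
  have h1 : (starRingEnd ℂ) (-((1 / 2 + (t : ℂ) * Complex.I) * ((max w 4 : ℝ) : ℂ))) =
      -((1 / 2 - (t : ℂ) * Complex.I) * ((max w 4 : ℝ) : ℂ)) := by
    simp only [map_neg, map_mul, map_add, map_div₀, map_one, Complex.conj_I, Complex.conj_ofReal,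
      map_ofNat]
    ring
  rw [h1]
  have h2 : Complex.exp (-(sg x t * ((max w 4 : ℝ) : ℂ))) =
      Complex.exp ((x.1 : ℂ) * -((1 / 2 + (t : ℂ) * Complex.I) * ((max w 4 : ℝ) : ℂ))) *
      Complex.exp ((x.2 : ℂ) * -((1 / 2 - (t : ℂ) * Complex.I) * ((max w 4 : ℝ) : ℂ))) := by
    rw [← Complex.exp_add]
    congr 1
    unfold sg rho dl
    push_cast
    ring
  rw [h2]
  unfold c
  push_cast
  ring

lemma pp_val (K : ℕ) (t w : ℝ) :
    (1 / (1 - zz t w) ^ (K + 1)) * (1 / (1 - starRingEnd ℂ (zz t w)) ^ (K + 1)) =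
      ((PP K t w : ℝ) : ℂ) := by
  unfold PP
  generalize zz t w = z
  rw [pow_mul, Complex.ofReal_pow, Complex.ofReal_pow, ← Complex.mul_conj', mul_pow, map_inv₀,
    map_sub, map_one, inv_pow, inv_pow, one_div, one_div]

lemma pp_hasSum (K : ℕ) (t w : ℝ) :
    HasSum (fun x : ℕ × ℕ => (c K x : ℂ) * Complex.exp (-(sg x t * ((max w 4 : ℝ) : ℂ))))
      ((PP K t w : ℝ) : ℂ) := by
  have hz : ‖zz t w‖ < 1 := lt_of_le_of_lt (zz_norm t w) (by norm_num)
  have hz' : ‖starRingEnd ℂ (zz t w)‖ < 1 := by rwa [RCLike.norm_conj]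
  have h3 := t3 K (sum_cf K hz) (sum_cf K hz') (t2 K (t1 K hz) (t1 K hz'))
  rw [pp_val] at h3
  have h5 : (fun x : ℕ × ℕ => (c K x : ℂ) * Complex.exp (-(sg x t * ((max w 4 : ℝ) : ℂ)))) =
      fun x : ℕ × ℕ => ((cf K x.1 : ℂ) * zz t w ^ x.1) *
        ((cf K x.2 : ℂ) * (starRingEnd ℂ (zz t w)) ^ x.2) := funext fun x => term_eq K x t w
  rw [h5]
  exact h3

lemma ph_hasSum (K : ℕ) (t w : ℝ) :
    HasSum (fun x : ℕ × ℕ => ((dg x * c K x : ℝ) : ℂ) *
      Complex.exp (-(sg x t * ((max w 4 : ℝ) : ℂ)))) ((ph K w : ℝ) : ℂ) := by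
  have hinj : Function.Injective (fun m : ℕ => (m, m)) := fun a b h => (Prod.ext_iff.1 h).1
  have h1 : HasSum (fun m : ℕ => (((m + K).choose K : ℕ) : ℝ) ^ 2 * Real.exp (-(m * max w 4)))
      (ph K w) := (cty_ph_summable K w).hasSum
  have h2 := Complex.hasSum_ofReal.2 h1
  refine (Function.Injective.hasSum_iff hinj ?_).1 (h2.congr_fun ?_)
  · intro x hx
    have : x.1 ≠ x.2 := fun h => hx ⟨x.1, Prod.ext rfl h⟩
    simp [dg, this]
  · intro m
    simp only [Function.comp]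
    have h3 : dg (m, m) = 1 := by simp [dg]
    have h4 : sg (m, m) t = (m : ℂ) := by
      unfold sg rho dl
      push_cast
      ring
    rw [h3, h4]
    unfold c cf
    push_cast
    ring_nf

/-! ### the integral over a cell -/

lemma tr_bd {α : ℕ → ℝ} (H : Cl α) (n : ℕ) {s : ℂ} (h0 : 0 ≤ s.re) :
    ‖tr (α n) (α (n + 1)) s‖ ≤ Real.exp (-(4 * s.re)) * (8 * Real.exp (α n) / (1 + |s.im|)) := by
  have h4 : 4 ≤ α n := H.four_le n
  have hlt : α n < α (n + 1) := H.lt n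
  have h1 : α (n + 1) ≤ α n + 1 := H.short n
  have he : Real.exp (-(s.re * α n)) ≤ Real.exp (-(4 * s.re)) := Real.exp_le_exp.2 (by nlinarith)
  have hE : 1 ≤ Real.exp (α n) := Real.one_le_exp (by linarith)
  have hp : 0 < 1 + |s.im| := by positivity
  rcases le_or_gt |s.im| 1 with h | h
  · refine (tr_le_exp H n h0).trans (he.trans ?_)
    have : 1 ≤ 8 * Real.exp (α n) / (1 + |s.im|) := by
      rw [le_div_iff₀ hp]; linarith
    nlinarith [Real.exp_pos (-(4 * s.re))]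
  · have hs : s.im ≠ 0 := by
      intro h'
      rw [h', abs_zero] at h
      linarith
    refine (tr_osc h4 hlt.le h1 h0 hs).trans ?_
    have h2 : Real.exp ((1 - s.re) * α n) = Real.exp (-(s.re * α n)) * Real.exp (α n) := by
      rw [← Real.exp_add]; congr 1; ring
    rw [h2]
    have h3 : 4 * (Real.exp (-(s.re * α n)) * Real.exp (α n)) / |s.im| =
        Real.exp (-(s.re * α n)) * (4 * Real.exp (α n) / |s.im|) := by ring
    rw [h3]
    have h5 : 4 * Real.exp (α n) / |s.im| ≤ 8 * Real.exp (α n) / (1 + |s.im|) := by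
      rw [div_le_div_iff₀ (by linarith) hp]
      nlinarith
    exact mul_le_mul he h5 (by positivity) (Real.exp_pos _).le

lemma int_bd {ι : Type} [Countable ι] (C : ι → ℝ) (σ : ι → ℂ) (hC : ∀ i, 0 ≤ C i)
    (hσ : ∀ i, 0 ≤ (σ i).re) (hs : Summable fun i => C i * Real.exp (-(4 * (σ i).re)))
    (F : ℝ → ℝ) (hF : ∀ w : ℝ, 4 ≤ w → HasSum (fun i => (C i : ℂ) * Complex.exp (-(σ i * w))) (F w : ℂ))
    {α : ℕ → ℝ} (H : Cl α) (n : ℕ) :
    |∫ w in α n..α (n + 1), g w * F w| ≤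
      ∑' i, (C i * Real.exp (-(4 * (σ i).re))) * (8 * Real.exp (α n) / (1 + |(σ i).im|)) := by
  have h4 : 4 ≤ α n := H.four_le n
  have hlt : α n < α (n + 1) := H.lt n
  have key : HasSum (fun i => ∫ w in α n..α (n + 1), (g w : ℂ) * ((C i : ℂ) * Complex.exp (-(σ i * w))))
      (∫ w in α n..α (n + 1), (g w : ℂ) * (F w : ℂ)) := by
    refine intervalIntegral.hasSum_integral_of_dominated_convergence
      (fun i _ => Real.exp (α (n + 1)) * (C i * Real.exp (-(4 * (σ i).re)))) ?_ ?_ ?_ ?_ ?_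
    · intro i
      refine Continuous.aestronglyMeasurable ?_
      exact (Complex.continuous_ofReal.comp g_cont).mul (by fun_prop)
    · intro i
      refine Eventually.of_forall fun w hw => ?_
      rw [uIoc_of_le hlt.le] at hw
      have hw4 : 4 ≤ w := h4.trans hw.1.le
      rw [norm_mul, norm_mul, Complex.norm_real, Complex.norm_real, Complex.norm_exp,
        Real.norm_eq_abs, Real.norm_eq_abs, abs_of_nonneg (hC i),
        abs_of_nonneg (g_pos (by linarith : (0 : ℝ) ≤ w)).le]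
      have h1 : (-(σ i * (w : ℂ))).re = -((σ i).re * w) := by simp
      rw [h1]
      have h2 : g w ≤ Real.exp (α (n + 1)) :=
        (g_le (by linarith)).trans (Real.exp_le_exp.2 hw.2)
      have h3 : Real.exp (-((σ i).re * w)) ≤ Real.exp (-(4 * (σ i).re)) :=
        Real.exp_le_exp.2 (by nlinarith [hσ i])
      exact mul_le_mul h2 (mul_le_mul_of_nonneg_left h3 (hC i))
        (mul_nonneg (hC i) (Real.exp_pos _).le) (Real.exp_pos _).le
    · exact Eventually.of_forall fun w _ => hs.mul_left _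
    · exact intervalIntegrable_const
    · refine Eventually.of_forall fun w hw => ?_
      rw [uIoc_of_le hlt.le] at hw
      exact (hF w (h4.trans hw.1.le)).mul_left _
  have hterm : ∀ i, ∫ w in α n..α (n + 1), (g w : ℂ) * ((C i : ℂ) * Complex.exp (-(σ i * w))) =
      (C i : ℂ) * tr (α n) (α (n + 1)) (σ i) := by
    intro i
    unfold tr
    rw [← intervalIntegral.integral_const_mul]
    refine intervalIntegral.integral_congr fun w _ => ?_
    ring
  simp_rw [hterm] at key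
  have h5 : ((∫ w in α n..α (n + 1), g w * F w : ℝ) : ℂ) =
      ∫ w in α n..α (n + 1), (g w : ℂ) * (F w : ℂ) := by
    rw [← intervalIntegral.integral_ofReal]
    refine intervalIntegral.integral_congr fun w _ => ?_
    push_cast
    rfl
  rw [← Real.norm_eq_abs, ← Complex.norm_real, h5, ← key.tsum_eq]
  have hb : ∀ i, ‖(C i : ℂ) * tr (α n) (α (n + 1)) (σ i)‖ ≤
      (C i * Real.exp (-(4 * (σ i).re))) * (8 * Real.exp (α n) / (1 + |(σ i).im|)) := by
    intro i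
    rw [norm_mul, Complex.norm_real, Real.norm_eq_abs, abs_of_nonneg (hC i), mul_assoc]
    exact mul_le_mul_of_nonneg_left (tr_bd H n (hσ i)) (hC i)
  refine tsum_of_norm_bounded (Summable.hasSum ?_) hb
  refine Summable.of_nonneg_of_le (fun i => ?_) (fun i => ?_) (hs.mul_right (8 * Real.exp (α n)))
  · exact mul_nonneg (mul_nonneg (hC i) (Real.exp_pos _).le) (by positivity)
  · refine mul_le_mul_of_nonneg_left ?_ (mul_nonneg (hC i) (Real.exp_pos _).le)
    exact div_le_self (by positivity) (by linarith [abs_nonneg (σ i).im])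

/-- the sum which bounds the non-diagonal terms -/
noncomputable def Psi (K : ℕ) (E : (ℕ × ℕ) × (ℕ × ℕ) → ℝ) (t t' : ℝ) : ℝ :=
  ∑' i : (ℕ × ℕ) × (ℕ × ℕ), E i * (W K i.1 * W K i.2) / (1 + |dl i.1 * t + dl i.2 * t'|)

lemma core (K : ℕ) {E : (ℕ × ℕ) × (ℕ × ℕ) → ℝ} (hE0 : ∀ i, 0 ≤ E i) (hE1 : ∀ i, E i ≤ 1) (t t' : ℝ)
    (F : ℝ → ℝ) (hF : ∀ w : ℝ, 4 ≤ w → HasSum (fun i : (ℕ × ℕ) × (ℕ × ℕ) =>
      ((E i * (c K i.1 * c K i.2) : ℝ) : ℂ) * Complex.exp (-((sg i.1 t + sg i.2 t') * w))) (F w : ℂ))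
    {α : ℕ → ℝ} (H : Cl α) (n : ℕ) :
    |∫ w in α n..α (n + 1), g w * F w| ≤ 8 * Real.exp (α n) * Psi K E t t' := by
  have hre : ∀ i : (ℕ × ℕ) × (ℕ × ℕ), (sg i.1 t + sg i.2 t').re = rho i.1 + rho i.2 := by
    intro i; rw [Complex.add_re, sg_re, sg_re]
  have him : ∀ i : (ℕ × ℕ) × (ℕ × ℕ), (sg i.1 t + sg i.2 t').im = dl i.1 * t + dl i.2 * t' := by
    intro i; rw [Complex.add_im, sg_im, sg_im]
  have hW : ∀ i : (ℕ × ℕ) × (ℕ × ℕ), (E i * (c K i.1 * c K i.2)) * Real.exp (-(4 * (rho i.1 + rho i.2))) =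
      E i * (W K i.1 * W K i.2) := by
    intro i
    unfold W
    have : Real.exp (-(4 * (rho i.1 + rho i.2))) =
        Real.exp (-(4 * rho i.1)) * Real.exp (-(4 * rho i.2)) := by
      rw [← Real.exp_add]; congr 1; ring
    rw [this]; ring
  have hWs : Summable fun i : (ℕ × ℕ) × (ℕ × ℕ) => E i * (W K i.1 * W K i.2) := by
    refine Summable.of_nonneg_of_le (fun i => ?_) (fun i => ?_) (WW_summable K)
    · exact mul_nonneg (hE0 i) (mul_nonneg (W_nonneg _ _) (W_nonneg _ _))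
    · exact mul_le_of_le_one_left (mul_nonneg (W_nonneg _ _) (W_nonneg _ _)) (hE1 i)
  have h := int_bd (fun i => E i * (c K i.1 * c K i.2)) (fun i => sg i.1 t + sg i.2 t')
    (fun i => mul_nonneg (hE0 i) (mul_nonneg (c_nonneg _ _) (c_nonneg _ _)))
    (fun i => by
      show 0 ≤ (sg i.1 t + sg i.2 t').re
      rw [hre]; exact add_nonneg (rho_nonneg _) (rho_nonneg _))
    (hWs.congr fun i => by
      show _ = (E i * (c K i.1 * c K i.2)) * Real.exp (-(4 * (sg i.1 t + sg i.2 t').re))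
      rw [hre, hW]) F hF H n
  refine h.trans (le_of_eq ?_)
  unfold Psi
  rw [← tsum_mul_left]
  refine tsum_congr fun i => ?_
  rw [hre, him, hW]
  ring

end Pool.Agent.H41.KS.Etwo
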