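import Pool.Agent.H41.KS.Etwob

/-! # Project KS, stubs KS-E2P, KS-E2M: the normalising factors and the series (helper12) -/

set_option autoImplicit false

open MeasureTheory Filter Topology Set

namespace Pool.Agent.H41.KS.Etwo

open Pool.Agent.H41.BC (g tr Cells law2 PP2 NN g_cont g_pos g_le one_le_g g_eq g_mono tr_cont int_law)

lemma mul_gen {f h : ℕ × ℕ → ℂ} {a b : ℂ} (hf : HasSum f a) (hh : HasSum h b) :
    HasSum (fun i : (ℕ × ℕ) × (ℕ × ℕ) => f i.1 * h i.2) (a * b) :=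
  HasSum.mul (f := f) (g := h) hf hh (summable_mul_of_summable_norm (f := f) (g := h)
    (summable_norm_iff.2 hf.summable) (summable_norm_iff.2 hh.summable))

/-- the weights of the pair -/
noncomputable def Ep (i : (ℕ × ℕ) × (ℕ × ℕ)) : ℝ := 1 - dg i.1 * dg i.2
/-- the weights of the mixed term -/
noncomputable def Em (i : (ℕ × ℕ) × (ℕ × ℕ)) : ℝ := (1 - dg i.1) * dg i.2

lemma Ep_nonneg (i : (ℕ × ℕ) × (ℕ × ℕ)) : 0 ≤ Ep i := by
  unfold Ep
  have := dg_nonneg i.1; have := dg_le i.1; have := dg_nonneg i.2; have := dg_le i.2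
  nlinarith
lemma Ep_le (i : (ℕ × ℕ) × (ℕ × ℕ)) : Ep i ≤ 1 := by
  unfold Ep
  have := dg_nonneg i.1; have := dg_nonneg i.2
  nlinarith [mul_nonneg (dg_nonneg i.1) (dg_nonneg i.2)]
lemma Em_nonneg (i : (ℕ × ℕ) × (ℕ × ℕ)) : 0 ≤ Em i := by
  unfold Em
  have := dg_le i.1; have := dg_nonneg i.2
  exact mul_nonneg (by linarith) this
lemma Em_le (i : (ℕ × ℕ) × (ℕ × ℕ)) : Em i ≤ 1 := by
  unfold Em
  have := dg_nonneg i.1; have := dg_le i.1; have := dg_nonneg i.2; have := dg_le i.2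
  nlinarith

lemma pair_hasSum (K : ℕ) (t t' w : ℝ) (hw : 4 ≤ w) :
    HasSum (fun i : (ℕ × ℕ) × (ℕ × ℕ) => ((Ep i * (c K i.1 * c K i.2) : ℝ) : ℂ) *
      Complex.exp (-((sg i.1 t + sg i.2 t') * w)))
      ((PP K t w * PP K t' w - ph K w * ph K w : ℝ) : ℂ) := by
  have a1 := pp_hasSum K t w
  have a2 := pp_hasSum K t' w
  have b1 := ph_hasSum K t w
  have b2 := ph_hasSum K t' w
  rw [max_eq_left hw] at a1 a2 b1 b2
  have h := (mul_gen a1 a2).sub (mul_gen b1 b2)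
  have e : ((PP K t w * PP K t' w - ph K w * ph K w : ℝ) : ℂ) =
      (PP K t w : ℂ) * (PP K t' w : ℂ) - (ph K w : ℂ) * (ph K w : ℂ) := by push_cast; ring
  rw [e]
  refine h.congr_fun fun i => ?_
  have h2 : Complex.exp (-((sg i.1 t + sg i.2 t') * (w : ℂ))) =
      Complex.exp (-(sg i.1 t * w)) * Complex.exp (-(sg i.2 t' * w)) := by
    rw [← Complex.exp_add]; congr 1; ring
  rw [h2]
  unfold Ep
  push_cast
  ring

lemma mix_hasSum (K : ℕ) (t w : ℝ) (hw : 4 ≤ w) :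
    HasSum (fun i : (ℕ × ℕ) × (ℕ × ℕ) => ((Em i * (c K i.1 * c K i.2) : ℝ) : ℂ) *
      Complex.exp (-((sg i.1 t + sg i.2 0) * w)))
      ((PP K t w * ph K w - ph K w * ph K w : ℝ) : ℂ) := by
  have a1 := pp_hasSum K t w
  have b1 := ph_hasSum K t w
  have b2 := ph_hasSum K 0 w
  rw [max_eq_left hw] at a1 b1 b2
  have h := (mul_gen a1 b2).sub (mul_gen b1 b2)
  have e : ((PP K t w * ph K w - ph K w * ph K w : ℝ) : ℂ) =
      (PP K t w : ℂ) * (ph K w : ℂ) - (ph K w : ℂ) * (ph K w : ℂ) := by push_cast; ring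
  rw [e]
  refine h.congr_fun fun i => ?_
  have h2 : Complex.exp (-((sg i.1 t + sg i.2 0) * (w : ℂ))) =
      Complex.exp (-(sg i.1 t * w)) * Complex.exp (-(sg i.2 0 * w)) := by
    rw [← Complex.exp_add]; congr 1; ring
  rw [h2]
  unfold Em
  push_cast
  ring

/-! ### integrals -/

lemma pp_cont (K : ℕ) (t : ℝ) : Continuous (PP K t) := by
  unfold PP
  have h1 : Continuous fun w : ℝ => (1 - zz t w)⁻¹ := by
    refine Continuous.inv₀ (continuous_const.sub ?_) fun w => cty_ne t w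
    exact cty_zz.comp (by fun_prop : Continuous fun w : ℝ => (t, w))
  exact h1.norm.pow _

variable {α : ℕ → ℝ}

lemma pair_bd (K : ℕ) (H : Cl α) (n : ℕ) (t t' : ℝ) :
    |(∫ w in α n..α (n + 1), g w * (PP K t w * PP K t' w)) -
      ∫ w in α n..α (n + 1), g w * (ph K w * ph K w)| ≤ 8 * Real.exp (α n) * Psi K Ep t t' := by
  have h := core K Ep_nonneg Ep_le t t' (fun w => PP K t w * PP K t' w - ph K w * ph K w)
    (fun w hw => pair_hasSum K t t' w hw) H n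
  have e : ∀ w, g w * (PP K t w * PP K t' w - ph K w * ph K w) =
      g w * (PP K t w * PP K t' w) - g w * (ph K w * ph K w) := fun w => by ring
  simp_rw [e] at h
  rwa [Cvone.int_sub' (fun w => g w * (PP K t w * PP K t' w)) (fun w => g w * (ph K w * ph K w))
    (g_cont.mul ((pp_cont K t).mul (pp_cont K t')))
    (g_cont.mul ((cty_ph_cont K).mul (cty_ph_cont K)))] at h

lemma mix_bd (K : ℕ) (H : Cl α) (n : ℕ) (t : ℝ) :
    |(∫ w in α n..α (n + 1), g w * (PP K t w * ph K w)) -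
      ∫ w in α n..α (n + 1), g w * (ph K w * ph K w)| ≤ 8 * Real.exp (α n) * Psi K Em t 0 := by
  have h := core K Em_nonneg Em_le t 0 (fun w => PP K t w * ph K w - ph K w * ph K w)
    (fun w hw => mix_hasSum K t w hw) H n
  have e : ∀ w, g w * (PP K t w * ph K w - ph K w * ph K w) =
      g w * (PP K t w * ph K w) - g w * (ph K w * ph K w) := fun w => by ring
  simp_rw [e] at h
  rwa [Cvone.int_sub' (fun w => g w * (PP K t w * ph K w)) (fun w => g w * (ph K w * ph K w))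
    (g_cont.mul ((pp_cont K t).mul (cty_ph_cont K)))
    (g_cont.mul ((cty_ph_cont K).mul (cty_ph_cont K)))] at h

/-- the exponent of the normalisation -/
noncomputable def uu (K : ℕ) (α : ℕ → ℝ) (n : ℕ) (t : ℝ) : ℝ := cc K α n t + SS K α n t

lemma hh_eq (K : ℕ) (n : ℕ) (t w : ℝ) : HH K α n t w = PP K t w * Real.exp (-uu K α n t) := by
  unfold HH PP uu
  congr 2
  ring

lemma int_hh_hh (K : ℕ) (H : Cl α) (n : ℕ) (t t' : ℝ) :
    ∫ w, HH K α n t w * HH K α n t' w ∂(lw α n) = Real.exp (-(uu K α n t + uu K α n t')) *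
      ∫ w in α n..α (n + 1), g w * (PP K t w * PP K t' w) := by
  rw [int_law H n, ← intervalIntegral.integral_const_mul]
  refine intervalIntegral.integral_congr fun w _ => ?_
  have h : Real.exp (-(uu K α n t + uu K α n t')) =
      Real.exp (-uu K α n t) * Real.exp (-uu K α n t') := by
    rw [← Real.exp_add]; congr 1; ring
  simp only [hh_eq, h]
  ring

lemma int_hh_ps (K : ℕ) (H : Cl α) (n : ℕ) (t : ℝ) :
    ∫ w, HH K α n t w * PS K α n w ∂(lw α n) =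
      Real.exp (-(uu K α n t + ((K : ℝ) + 1) ^ 2 * e2 α n)) *
      ∫ w in α n..α (n + 1), g w * (PP K t w * ph K w) := by
  rw [int_law H n, ← intervalIntegral.integral_const_mul]
  refine intervalIntegral.integral_congr fun w _ => ?_
  have h : Real.exp (-(uu K α n t + ((K : ℝ) + 1) ^ 2 * e2 α n)) =
      Real.exp (-uu K α n t) * Real.exp (-(((K : ℝ) + 1) ^ 2 * e2 α n)) := by
    rw [← Real.exp_add]; congr 1; ring
  simp only [hh_eq, h, PS]
  ring

lemma int_ps_ps (K : ℕ) (H : Cl α) (n : ℕ) :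
    ∫ w, PS K α n w * PS K α n w ∂(lw α n) =
      Real.exp (-(((K : ℝ) + 1) ^ 2 * e2 α n + ((K : ℝ) + 1) ^ 2 * e2 α n)) *
      ∫ w in α n..α (n + 1), g w * (ph K w * ph K w) := by
  rw [int_law H n, ← intervalIntegral.integral_const_mul]
  refine intervalIntegral.integral_congr fun w _ => ?_
  have h : Real.exp (-(((K : ℝ) + 1) ^ 2 * e2 α n + ((K : ℝ) + 1) ^ 2 * e2 α n)) =
      Real.exp (-(((K : ℝ) + 1) ^ 2 * e2 α n)) * Real.exp (-(((K : ℝ) + 1) ^ 2 * e2 α n)) := by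
    rw [← Real.exp_add]; congr 1; ring
  simp only [h, PS]
  ring

/-! ### the exponents -/

lemma cv_diag (n : ℕ) (t : ℝ) : CV α n t t = (e2 α n + (m2 α n t).re) / 2 - (m1 α n t).re ^ 2 := by
  unfold CV
  have h1 : (1 + ((t : ℂ) - t) * Complex.I : ℂ) = 1 := by ring
  have h2 : (1 + ((t : ℂ) + t) * Complex.I : ℂ) = 1 + 2 * t * Complex.I := by ring
  rw [h1, h2, Cvone.tr_re]
  have h3 : (∫ v in α n..α (n + 1), g v * (Real.exp (-((1 : ℂ).re * v)) * Real.cos ((1 : ℂ).im * v))) =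
      e2 α n := by
    unfold e2
    refine intervalIntegral.integral_congr fun v _ => ?_
    simp
  rw [h3]
  unfold m2
  ring

lemma m1_osc (H : Cl α) (n : ℕ) {t : ℝ} (ht : 1 ≤ t) :
    ‖m1 α n t‖ ≤ 4 * (Real.exp (α n / 2) / t) := by
  have h1 : ((1 / 2 + t * Complex.I : ℂ)).re = 1 / 2 := by simp
  have h2 : ((1 / 2 + t * Complex.I : ℂ)).im = t := by simp
  have h := tr_osc (H.four_le n) (H.lt n).le (H.short n) (s := 1 / 2 + t * Complex.I)
    (by rw [h1]; norm_num) (by rw [h2]; linarith)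
  rw [h1, h2, abs_of_pos (by linarith)] at h
  refine h.trans (le_of_eq ?_)
  have : (1 - 1 / 2) * α n = α n / 2 := by ring
  rw [this]; ring

lemma m2_osc (H : Cl α) (n : ℕ) {t : ℝ} (ht : 1 ≤ t) :
    ‖m2 α n t‖ ≤ 2 * (Real.exp (α n / 2) / t) := by
  have h1 : ((1 + 2 * t * Complex.I : ℂ)).re = 1 := by simp
  have h2 : ((1 + 2 * t * Complex.I : ℂ)).im = 2 * t := by simp
  have h := tr_osc (H.four_le n) (H.lt n).le (H.short n) (s := 1 + 2 * t * Complex.I)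
    (by rw [h1]; norm_num) (by rw [h2]; linarith)
  rw [h1, h2, abs_of_pos (by linarith), sub_self, zero_mul, Real.exp_zero] at h
  have h4 : 4 ≤ α n := H.four_le n
  have h5 : 1 ≤ Real.exp (α n / 2) := Real.one_le_exp (by linarith)
  refine h.trans ?_
  have h6 : 4 * 1 / (2 * t) = 2 * (1 / t) := by field_simp; norm_num
  rw [h6]
  have : 1 / t ≤ Real.exp (α n / 2) / t := div_le_div_of_nonneg_right h5 (by linarith)
  linarith

lemma norm_m1 (H : Cl α) (n : ℕ) (t : ℝ) : ‖m1 α n t‖ ≤ 1 := by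
  refine (m1_le H n t).trans ?_
  have h4 : 4 ≤ α n := H.four_le n
  rw [Real.exp_le_one_iff]; linarith

lemma norm_m2 (H : Cl α) (n : ℕ) (t : ℝ) : ‖m2 α n t‖ ≤ 1 := by
  refine (m2_le H n t).trans ?_
  have h4 : 4 ≤ α n := H.four_le n
  rw [Real.exp_le_one_iff]; linarith

lemma uu_bd (K : ℕ) (H : Cl α) (n : ℕ) (t : ℝ) :
    |uu K α n t| ≤ 3 * ((K : ℝ) + 1) + 2 * ((K : ℝ) + 1) ^ 2 := by
  have h4 : 4 ≤ α n := H.four_le n
  have a1 := (Complex.abs_re_le_norm (m1 α n t)).trans (norm_m1 H n t)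
  have a2 := (Complex.abs_re_le_norm (m2 α n t)).trans (norm_m2 H n t)
  have a3 := (cv_le H n t t).trans (by rw [Real.exp_le_one_iff]; linarith : Real.exp (-α n) ≤ 1)
  have hk : 0 ≤ (K : ℝ) + 1 := by positivity
  unfold uu cc SS
  set k := (K : ℝ) + 1
  rw [abs_le] at a1 a2 a3 ⊢
  have hk2 : 0 ≤ k ^ 2 := by positivity
  constructor <;> nlinarith [mul_le_mul_of_nonneg_left a1.1 hk, mul_le_mul_of_nonneg_left a1.2 hk,
    mul_le_mul_of_nonneg_left a2.1 hk, mul_le_mul_of_nonneg_left a2.2 hk,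
    mul_le_mul_of_nonneg_left a3.1 hk2, mul_le_mul_of_nonneg_left a3.2 hk2]

lemma fac (K : ℕ) (H : Cl α) (n : ℕ) {t : ℝ} (ht : 1 ≤ t) :
    |uu K α n t - ((K : ℝ) + 1) ^ 2 * e2 α n| ≤
      (10 * ((K : ℝ) + 1) + 10 * ((K : ℝ) + 1) ^ 2) * (Real.exp (α n / 2) / t) := by
  have a1 := (Complex.abs_re_le_norm (m1 α n t)).trans (m1_osc H n ht)
  have a1' := (Complex.abs_re_le_norm (m1 α n t)).trans (norm_m1 H n t)
  have a2 := (Complex.abs_re_le_norm (m2 α n t)).trans (m2_osc H n ht)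
  have hk : 0 ≤ (K : ℝ) + 1 := by positivity
  unfold uu cc SS
  rw [cv_diag]
  set k := (K : ℝ) + 1
  set r := Real.exp (α n / 2) / t
  have hk2 : 0 ≤ k ^ 2 := by positivity
  have a3 : (m1 α n t).re ^ 2 ≤ 4 * r := by
    have h1 : (m1 α n t).re ^ 2 = |(m1 α n t).re| * |(m1 α n t).re| := by
      rw [← sq, sq_abs]
    rw [h1]
    calc |(m1 α n t).re| * |(m1 α n t).re| ≤ (4 * r) * 1 :=
          mul_le_mul a1 a1' (abs_nonneg _) ((abs_nonneg _).trans a1)
      _ = 4 * r := mul_one _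
  have a4 : 0 ≤ (m1 α n t).re ^ 2 := sq_nonneg _
  have hr : 0 ≤ r := by have := (abs_nonneg _).trans a1; linarith
  rw [abs_le] at a1 a2 ⊢
  constructor <;> nlinarith [mul_le_mul_of_nonneg_left a1.1 hk, mul_le_mul_of_nonneg_left a1.2 hk,
    mul_le_mul_of_nonneg_left a2.1 hk, mul_le_mul_of_nonneg_left a2.2 hk,
    mul_le_mul_of_nonneg_left a2.1 hk2, mul_le_mul_of_nonneg_left a2.2 hk2,
    mul_le_mul_of_nonneg_left a3 hk2, mul_nonneg hk2 a4, mul_nonneg hk hr, mul_nonneg hk2 hr]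

lemma exp_diff {p q M : ℝ} (hp : Real.exp p ≤ M) (hq : Real.exp q ≤ M) :
    |Real.exp p - Real.exp q| ≤ M * |p - q| := by
  have key : ∀ x y : ℝ, x ≤ y → Real.exp y ≤ M → Real.exp y - Real.exp x ≤ M * (y - x) := by
    intro x y hxy hy
    have h1 := Real.add_one_le_exp (x - y)
    have h2 : Real.exp x = Real.exp y * Real.exp (x - y) := by rw [← Real.exp_add]; congr 1; ring
    have h3 := Real.exp_pos y
    rw [h2]
    nlinarith
  rcases le_total p q with h | h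
  · rw [abs_sub_comm, abs_of_nonneg (by linarith [Real.exp_le_exp.2 h]), abs_sub_comm p q,
      abs_of_nonneg (by linarith)]
    exact key p q h hq
  · rw [abs_of_nonneg (by linarith [Real.exp_le_exp.2 h]), abs_of_nonneg (by linarith)]
    exact key q p h hp

lemma fin_bd {A B D y y0 M Bd : ℝ} (h1 : |A - B| ≤ D) (h2 : |B| ≤ Bd) (hy : Real.exp (-y) ≤ M)
    (hy0 : Real.exp (-y0) ≤ M) :
    |Real.exp (-y) * A - Real.exp (-y0) * B| ≤ M * D + M * |y - y0| * Bd := by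
  have h3 : Real.exp (-y) * A - Real.exp (-y0) * B =
      Real.exp (-y) * (A - B) + (Real.exp (-y) - Real.exp (-y0)) * B := by ring
  rw [h3]
  refine (abs_add_le _ _).trans (add_le_add ?_ ?_)
  · rw [abs_mul, abs_of_pos (Real.exp_pos _)]
    exact mul_le_mul hy h1 (abs_nonneg _) ((Real.exp_pos _).le.trans hy)
  · rw [abs_mul]
    have h4 := exp_diff hy hy0
    have h5 : |-y - -y0| = |y - y0| := by rw [← abs_neg]; congr 1; ring
    rw [h5] at h4
    exact mul_le_mul h4 h2 (abs_nonneg _) ((abs_nonneg _).trans h4)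

/-- the bound for the mean of `ph ^ 2` -/
noncomputable def Bd (K : ℕ) : ℝ := (∑' m, cty_uu K m) * (∑' m, cty_uu K m)

lemma ph_bd (K : ℕ) (H : Cl α) (n : ℕ) : |∫ w in α n..α (n + 1), g w * (ph K w * ph K w)| ≤ Bd K := by
  refine Cvone.mean_le H n (fun v _ => ?_) ((cty_ph_cont K).mul (cty_ph_cont K))
  have h1 := cty_ph_ge K v
  have h2 := cty_ph_le K v
  rw [abs_mul, abs_of_pos (by linarith)]
  exact mul_le_mul h2 h2 (by linarith) (by linarith)

/-- the constant for the exponentials -/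
noncomputable def MM (K : ℕ) : ℝ := Real.exp (6 * ((K : ℝ) + 1) + 6 * ((K : ℝ) + 1) ^ 2)

lemma MM_pos (K : ℕ) : 0 < MM K := Real.exp_pos _

lemma e2_bd (H : Cl α) (n : ℕ) : 0 ≤ e2 α n ∧ e2 α n ≤ 1 := by
  have h := e2_le H n
  have h4 : 4 ≤ α n := H.four_le n
  exact ⟨h.1.le, h.2.trans (by rw [Real.exp_le_one_iff]; linarith)⟩

lemma exp_pair (K : ℕ) (H : Cl α) (n : ℕ) (t t' : ℝ) :
    Real.exp (-(uu K α n t + uu K α n t')) ≤ MM K := by
  have h1 := abs_le.1 (uu_bd K H n t)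
  have h2 := abs_le.1 (uu_bd K H n t')
  have hk : 0 ≤ (K : ℝ) + 1 := by positivity
  refine Real.exp_le_exp.2 ?_
  nlinarith

lemma exp_mix (K : ℕ) (H : Cl α) (n : ℕ) (t : ℝ) :
    Real.exp (-(uu K α n t + ((K : ℝ) + 1) ^ 2 * e2 α n)) ≤ MM K := by
  have h1 := abs_le.1 (uu_bd K H n t)
  have h2 := e2_bd H n
  have hk : 0 ≤ (K : ℝ) + 1 := by positivity
  refine Real.exp_le_exp.2 ?_
  nlinarith [mul_nonneg (sq_nonneg ((K : ℝ) + 1)) h2.1]

lemma exp_ps (K : ℕ) (H : Cl α) (n : ℕ) :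
    Real.exp (-(((K : ℝ) + 1) ^ 2 * e2 α n + ((K : ℝ) + 1) ^ 2 * e2 α n)) ≤ MM K := by
  have h2 := e2_bd H n
  have hk : 0 ≤ (K : ℝ) + 1 := by positivity
  refine Real.exp_le_exp.2 ?_
  nlinarith [mul_nonneg (sq_nonneg ((K : ℝ) + 1)) h2.1, sq_nonneg ((K : ℝ) + 1)]

/-- the sum of the products of two weights -/
noncomputable def SW (K : ℕ) : ℝ := ∑' i : (ℕ × ℕ) × (ℕ × ℕ), W K i.1 * W K i.2

lemma SW_nonneg (K : ℕ) : 0 ≤ SW K := tsum_nonneg fun i => mul_nonneg (W_nonneg _ _) (W_nonneg _ _)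

/-- a nonzero integer has absolute value at least one -/
lemma one_le_dl {x : ℕ × ℕ} (h : x.1 ≠ x.2) : 1 ≤ |dl x| := by
  unfold dl
  have h1 : ((x.1 : ℝ) - x.2) = (((x.1 : ℤ) - (x.2 : ℤ) : ℤ) : ℝ) := by push_cast; ring
  rw [h1, ← Int.cast_abs]
  have h2 : (1 : ℤ) ≤ |(x.1 : ℤ) - (x.2 : ℤ)| := by
    apply Int.one_le_abs
    omega
  exact_mod_cast h2

lemma term_nonneg (K : ℕ) {E : (ℕ × ℕ) × (ℕ × ℕ) → ℝ} (hE0 : ∀ i, 0 ≤ E i) (t t' : ℝ)
    (i : (ℕ × ℕ) × (ℕ × ℕ)) :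
    0 ≤ E i * (W K i.1 * W K i.2) / (1 + |dl i.1 * t + dl i.2 * t'|) :=
  div_nonneg (mul_nonneg (hE0 i) (mul_nonneg (W_nonneg _ _) (W_nonneg _ _))) (by positivity)

lemma term_le (K : ℕ) {E : (ℕ × ℕ) × (ℕ × ℕ) → ℝ} (hE0 : ∀ i, 0 ≤ E i) (hE1 : ∀ i, E i ≤ 1)
    (t t' : ℝ) (i : (ℕ × ℕ) × (ℕ × ℕ)) :
    E i * (W K i.1 * W K i.2) / (1 + |dl i.1 * t + dl i.2 * t'|) ≤ W K i.1 * W K i.2 := by
  have h0 : 0 ≤ W K i.1 * W K i.2 := mul_nonneg (W_nonneg _ _) (W_nonneg _ _)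
  refine (div_le_self (mul_nonneg (hE0 i) h0) (by linarith [abs_nonneg (dl i.1 * t + dl i.2 * t')])).trans ?_
  exact mul_le_of_le_one_left h0 (hE1 i)

lemma psi_em (K : ℕ) {t : ℝ} (ht : 1 ≤ t) : Psi K Em t 0 ≤ SW K / t := by
  unfold Psi SW
  rw [← tsum_div_const]
  have h0 : ∀ i : (ℕ × ℕ) × (ℕ × ℕ), 0 ≤ W K i.1 * W K i.2 := fun i =>
    mul_nonneg (W_nonneg _ _) (W_nonneg _ _)
  refine Summable.tsum_le_tsum (fun i => ?_) ?_ ((WW_summable K).div_const t)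
  · by_cases h1 : i.1.1 = i.1.2
    · have : Em i = 0 := by unfold Em dg; rw [if_pos h1]; ring
      rw [this, zero_mul, zero_div]
      exact div_nonneg (h0 i) (by linarith)
    · by_cases h2 : i.2.1 = i.2.2
      · have h3 : dl i.2 = 0 := by unfold dl; rw [h2, sub_self]
        rw [h3, zero_mul, add_zero]
        have h4 := one_le_dl h1
        have h5 : t ≤ 1 + |dl i.1 * t| := by
          rw [abs_mul, abs_of_pos (by linarith : 0 < t)]
          nlinarith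
        exact div_le_div₀ (h0 i) (mul_le_of_le_one_left (h0 i) (Em_le i)) (by linarith) h5
      · have : Em i = 0 := by unfold Em dg; rw [if_neg h2]; ring
        rw [this, zero_mul, zero_div]
        exact div_nonneg (h0 i) (by linarith)
  · exact Summable.of_nonneg_of_le (term_nonneg K Em_nonneg t 0) (term_le K Em_nonneg Em_le t 0)
      (WW_summable K)

end Pool.Agent.H41.KS.Etwo

namespace Pool.Agent.H41.KS

open Etwo

theorem e2_mix (K : ℕ) : ∃ C : ℝ, ∀ (α : ℕ → ℝ), Cl α → ∀ (n : ℕ) (t : ℝ), 1 ≤ t →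
    |∫ w, HH K α n t w * PS K α n w ∂(lw α n) - ∫ w, PS K α n w * PS K α n w ∂(lw α n)| ≤
      C * (Real.exp (α n) / t) := by
  refine ⟨MM K * (8 * SW K) + MM K * (10 * ((K : ℝ) + 1) + 10 * ((K : ℝ) + 1) ^ 2) * Bd K,
    fun α H n t ht => ?_⟩
  rw [int_hh_ps K H n t, int_ps_ps K H n]
  refine (fin_bd (mix_bd K H n t) (ph_bd K H n) (exp_mix K H n t) (exp_ps K H n)).trans ?_
  have h1 := psi_em K ht
  have h2 := fac K H n ht
  have h3 : uu K α n t + ((K : ℝ) + 1) ^ 2 * e2 α n -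
      (((K : ℝ) + 1) ^ 2 * e2 α n + ((K : ℝ) + 1) ^ 2 * e2 α n) =
      uu K α n t - ((K : ℝ) + 1) ^ 2 * e2 α n := by ring
  rw [h3]
  have hM := MM_pos K
  have hB : 0 ≤ Bd K := (abs_nonneg _).trans (ph_bd K H n)
  have h4 : 4 ≤ α n := H.four_le n
  have h5 : Real.exp (α n / 2) / t ≤ Real.exp (α n) / t :=
    div_le_div_of_nonneg_right (Real.exp_le_exp.2 (by linarith)) (by linarith)
  have hk : 0 ≤ 10 * ((K : ℝ) + 1) + 10 * ((K : ℝ) + 1) ^ 2 := by positivity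
  rw [add_mul]
  refine add_le_add ?_ ?_
  · calc MM K * (8 * Real.exp (α n) * Psi K Em t 0) ≤ MM K * (8 * Real.exp (α n) * (SW K / t)) :=
          mul_le_mul_of_nonneg_left (mul_le_mul_of_nonneg_left h1 (by positivity)) hM.le
      _ = _ := by ring
  · calc MM K * |uu K α n t - ((K : ℝ) + 1) ^ 2 * e2 α n| * Bd K
        ≤ MM K * ((10 * ((K : ℝ) + 1) + 10 * ((K : ℝ) + 1) ^ 2) * (Real.exp (α n) / t)) * Bd K :=
          mul_le_mul_of_nonneg_right (mul_le_mul_of_nonneg_left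
            (h2.trans (mul_le_mul_of_nonneg_left h5 hk)) hM.le) hB
      _ = _ := by ring

end Pool.Agent.H41.KS
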