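import Pool.Agent.H41.KS.Form
import Pool.Agent.H41.KS.Len

/-! # Project KS, stub KS-PSI: the product of the diagonal factors (helper85) -/

set_option autoImplicit false

open MeasureTheory Filter Topology Set

namespace Pool.Agent.H41.KS

open Pool.Agent.H41.BC (g tr Cells law2 PP2 NN)

namespace PsiL

variable {α : ℕ → ℝ}

lemma gc : Continuous fun v : ℝ => g v * Real.exp (-v) :=
  BC.g_cont.mul (by fun_prop)

/-- the mean of `e^(-v)` in a cell -/
lemma e2_bd (H : Cl α) (n : ℕ) : Real.exp (-α (n + 1)) ≤ e2 α n ∧ e2 α n ≤ Real.exp (-α n) := by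
  have hlt : α n < α (n + 1) := H.lt n
  have h4 := H.four_le n
  have hp : ∫ v in α n..α (n + 1), g v = 1 := H.prob n
  unfold e2
  constructor
  · calc Real.exp (-α (n + 1)) = ∫ v in α n..α (n + 1), g v * Real.exp (-α (n + 1)) := by
          rw [intervalIntegral.integral_mul_const, hp, one_mul]
      _ ≤ _ := by
          refine intervalIntegral.integral_mono_on hlt.le
            ((BC.g_cont.mul continuous_const).intervalIntegrable _ _)
            (gc.intervalIntegrable _ _) fun v hv => ?_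
          refine mul_le_mul_of_nonneg_left (Real.exp_le_exp.2 (by linarith [hv.2])) ?_
          exact (BC.g_pos (by linarith [hv.1])).le
  · calc ∫ v in α n..α (n + 1), g v * Real.exp (-v) ≤
        ∫ v in α n..α (n + 1), g v * Real.exp (-α n) := by
          refine intervalIntegral.integral_mono_on hlt.le (gc.intervalIntegrable _ _)
            ((BC.g_cont.mul continuous_const).intervalIntegrable _ _) fun v hv => ?_
          refine mul_le_mul_of_nonneg_left (Real.exp_le_exp.2 (by linarith [hv.1])) ?_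
          exact (BC.g_pos (by linarith [hv.1])).le
      _ = _ := by rw [intervalIntegral.integral_mul_const, hp, one_mul]

lemma sum_e2 (H : Cl α) (N : ℕ) :
    ∑ n ∈ Finset.range N, e2 α n = ∫ v in α 0..α N, g v * Real.exp (-v) := by
  unfold e2
  exact intervalIntegral.sum_integral_adjacent_intervals
    fun k _ => gc.intervalIntegrable _ _

/-- the differences are summable -/
lemma summ (H : Cl α) {W : ℕ → ℝ} (hW : ∀ n, W n ∈ Ioc (α n) (α (n + 1))) (K : ℕ) :
    Summable fun n => Real.log (PS K α n (W n)) := by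
  obtain ⟨C, hC⟩ := ps_form K
  have h1 : ∀ n, |Real.log (PS K α n (W n))| ≤ ((K : ℝ) + 1) ^ 2 *
      (Real.exp (-α n) - Real.exp (-α (n + 1))) + |C| * Real.exp (-(3 / 2 * α n)) := by
    intro n
    obtain ⟨r, hr, h⟩ := hC α H n (W n) (hW n)
    rw [h, Real.log_exp]
    have h2 := e2_bd H n
    have h3 := hW n
    have h4 : Real.exp (-W n) ≤ Real.exp (-α n) := Real.exp_le_exp.2 (by linarith [h3.1])
    have h5 : Real.exp (-α (n + 1)) ≤ Real.exp (-W n) := Real.exp_le_exp.2 (by linarith [h3.2])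
    have h6 : |Real.exp (-W n) - e2 α n| ≤ Real.exp (-α n) - Real.exp (-α (n + 1)) := by
      rw [abs_le]
      constructor <;> linarith [h2.1, h2.2]
    have h7 : |r| ≤ |C| * Real.exp (-(3 / 2 * α n)) := by
      refine hr.trans ?_
      have h8 : Real.exp (-(2 * α n)) ≤ Real.exp (-(3 / 2 * α n)) :=
        Real.exp_le_exp.2 (by linarith [H.four_le n])
      calc C * Real.exp (-(2 * α n)) ≤ |C| * Real.exp (-(2 * α n)) :=
            mul_le_mul_of_nonneg_right (le_abs_self C) (Real.exp_pos _).le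
        _ ≤ _ := mul_le_mul_of_nonneg_left h8 (abs_nonneg C)
    refine (abs_add_le _ _).trans (add_le_add ?_ h7)
    rw [abs_mul, abs_of_nonneg (by positivity)]
    exact mul_le_mul_of_nonneg_left h6 (by positivity)
  apply Summable.of_norm_bounded (g := fun n => ((K : ℝ) + 1) ^ 2 *
      (Real.exp (-α n) - Real.exp (-α (n + 1))) + |C| * Real.exp (-(3 / 2 * α n)))
  · apply Summable.add
    · apply Summable.mul_left
      apply summable_of_sum_range_le (c := Real.exp (-α 0))
      · intro n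
        have : Real.exp (-α (n + 1)) ≤ Real.exp (-α n) :=
          Real.exp_le_exp.2 (by linarith [(H.lt n : α n < α (n + 1))])
        linarith
      · intro N
        rw [Finset.sum_range_sub' (fun n => Real.exp (-α n))]
        linarith [Real.exp_pos (-α N)]
    · apply Summable.mul_left
      apply summable_of_sum_range_le (c := 10 * Real.exp (-(α 0 / 2)))
      · intro n
        exact (Real.exp_pos _).le
      · intro N
        have := sum32 H (Nat.zero_le N)
        rwa [Finset.range_eq_Ico]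
  · intro n
    rw [Real.norm_eq_abs]
    exact h1 n

end PsiL

theorem psi_lim {α : ℕ → ℝ} (H : Cl α) {W : ℕ → ℝ} (hW : ∀ n, W n ∈ Ioc (α n) (α (n + 1))) (K : ℕ) :
    ∃ R : ℝ, 0 < R ∧ Tendsto (fun N : ℕ => ∏ n ∈ Finset.range N, PS K α n (W n)) atTop (𝓝 R) := by
  have h1 := (PsiL.summ H hW K).hasSum.tendsto_sum_nat
  refine ⟨Real.exp (∑' n, Real.log (PS K α n (W n))), Real.exp_pos _, ?_⟩
  refine ((Real.continuous_exp.tendsto _).comp h1).congr fun N => ?_
  simp only [Function.comp]
  rw [Real.exp_sum]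
  refine Finset.prod_congr rfl fun n _ => Real.exp_log ?_
  obtain ⟨C, hC⟩ := ps_form K
  obtain ⟨r, -, h⟩ := hC α H n (W n) (hW n)
  rw [h]
  exact Real.exp_pos _

namespace PsiL

variable {α : ℕ → ℝ}

lemma alpha_tt (H : Cl α) : Tendsto α atTop atTop := by
  rw [tendsto_atTop_atTop]
  intro b
  refine ⟨⌈Real.exp b⌉₊, fun n hn => ?_⟩
  have h1 := idx H n
  have h2 : Real.exp b ≤ n := (Nat.le_ceil _).trans (by exact_mod_cast hn)
  exact Real.exp_le_exp.1 (h2.trans h1)

lemma W_mono (H : Cl α) {W : ℕ → ℝ} (hW : ∀ n, W n ∈ Ioc (α n) (α (n + 1))) : StrictMono W :=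
  strictMono_nat_of_lt_succ fun n => (hW n).2.trans_lt (hW (n + 1)).1

/-- the number of members up to `x` -/
lemma cnt (H : Cl α) {W : ℕ → ℝ} (hW : ∀ n, W n ∈ Ioc (α n) (α (n + 1))) {x : ℝ} (hx : α 1 ≤ x) :
    |α ({n : ℕ | W n ≤ x}.ncard) - x| ≤ 1 := by
  classical
  have hm := W_mono H hW
  have htt : ∃ n, x < W n := by
    obtain ⟨n, hn⟩ := (tendsto_atTop.1 (alpha_tt H) x).exists
    exact ⟨n, hn.trans_lt (hW n).1⟩
  have hset : {n : ℕ | W n ≤ x} = Set.Iio (Nat.find htt) := by
    ext n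
    simp only [mem_setOf_eq, mem_Iio, Nat.lt_find_iff, not_lt]
    exact ⟨fun h m hmn => (hm.monotone hmn).trans h, fun h => h n le_rfl⟩
  have hcard : {n : ℕ | W n ≤ x}.ncard = Nat.find htt := by
    rw [hset, ← Finset.coe_Iio, Set.ncard_coe_finset, Nat.card_Iio]
  rw [hcard]
  obtain ⟨N, hN⟩ : ∃ N, N = Nat.find htt := ⟨_, rfl⟩
  rw [← hN]
  have h1 : x < W N := by rw [hN]; exact Nat.find_spec htt
  have h2 : N ≠ 0 := by
    rintro h0
    rw [h0] at h1
    linarith [(hW 0).2]
  obtain ⟨M, rfl⟩ := Nat.exists_eq_succ_of_ne_zero h2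
  have h3 : W M ≤ x := by
    by_contra h
    push Not at h
    have h4 := Nat.find_min' htt h
    omega
  have h5 := (hW M).1
  have h6 := (hW (M + 1)).2
  have h7 : α (M + 1) ≤ α M + 1 := H.short M
  have h8 : α (M + 1 + 1) ≤ α (M + 1) + 1 := H.short (M + 1)
  rw [abs_le]
  simp only [Nat.succ_eq_add_one] at h1 ⊢
  constructor <;> linarith

end PsiL

theorem ph_prod {α : ℕ → ℝ} (H : Cl α) {W : ℕ → ℝ} (hW : ∀ n, W n ∈ Ioc (α n) (α (n + 1))) {κ : ℝ} (hκ : IsKap α κ) (K : ℕ)
    {R : ℝ} (hR : Tendsto (fun N : ℕ => ∏ n ∈ Finset.range N, PS K α n (W n)) atTop (𝓝 R)) :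
    Tendsto (fun T : ℝ => (∏ n ∈ Finset.range ({n : ℕ | W n ≤ Real.log T}.ncard), ph K (W n)) / Real.log T ^ ((K + 1) ^ 2)) atTop
      (𝓝 (R * Real.exp (((K : ℝ) + 1) ^ 2 * κ))) := by
  obtain ⟨k2, hk2⟩ : ∃ k2 : ℝ, k2 = ((K : ℝ) + 1) ^ 2 := ⟨_, rfl⟩
  -- the count tends to infinity
  have hlog : Tendsto (fun T : ℝ => Real.log T) atTop atTop := Real.tendsto_log_atTop
  obtain ⟨N, hN⟩ : ∃ N : ℝ → ℕ, N = fun T => {n : ℕ | W n ≤ Real.log T}.ncard := ⟨_, rfl⟩
  have hcnt : ∀ᶠ T : ℝ in atTop, |α (N T) - Real.log T| ≤ 1 := by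
    filter_upwards [hlog.eventually_ge_atTop (α 1)] with T hT
    rw [hN]
    exact PsiL.cnt H hW hT
  have hαN : Tendsto (fun T => α (N T)) atTop atTop := by
    refine tendsto_atTop_mono' _ ?_ (tendsto_atTop_add_const_right _ (-1) hlog)
    filter_upwards [hcnt] with T hT
    have := (abs_le.1 hT).1
    linarith
  have hNt : Tendsto N atTop atTop := by
    rw [tendsto_atTop]
    intro b
    filter_upwards [hαN.eventually_gt_atTop (α b)] with T hT
    exact (H.alpha_mono.lt_iff_lt.1 hT).le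
  -- the product
  have hprod : ∀ M : ℕ, ∏ n ∈ Finset.range M, ph K (W n) =
      (∏ n ∈ Finset.range M, PS K α n (W n)) *
        Real.exp (k2 * ∫ v in α 0..α M, g v * Real.exp (-v)) := by
    intro M
    rw [← PsiL.sum_e2 H, Finset.mul_sum, Real.exp_sum, ← Finset.prod_mul_distrib]
    refine Finset.prod_congr rfl fun n _ => ?_
    unfold PS
    rw [mul_assoc, ← Real.exp_add, hk2]
    simp
  have h1 : Tendsto (fun T => (∏ n ∈ Finset.range (N T), PS K α n (W n)) *
      Real.exp (k2 * ((∫ v in α 0..α (N T), g v * Real.exp (-v)) - Real.log (α (N T)))) *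
      (α (N T) / Real.log T) ^ ((K + 1) ^ 2)) atTop (𝓝 (R * Real.exp (k2 * κ) * 1)) := by
    refine ((hR.comp hNt).mul ?_).mul ?_
    · refine (Real.continuous_exp.tendsto _).comp ?_
      exact (Tendsto.comp hκ hαN).const_mul k2
    · have h2 : Tendsto (fun T => α (N T) / Real.log T) atTop (𝓝 1) := by
        have h3 : Tendsto (fun T : ℝ => 1 / Real.log T) atTop (𝓝 0) :=
          tendsto_const_nhds.div_atTop hlog
        have h4 : Tendsto (fun T : ℝ => (α (N T) - Real.log T) / Real.log T) atTop (𝓝 0) := by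
          apply squeeze_zero_norm' _ h3
          filter_upwards [hcnt, hlog.eventually_gt_atTop 0] with T hT hT0
          rw [Real.norm_eq_abs, abs_div, abs_of_pos hT0]
          exact div_le_div_of_nonneg_right hT hT0.le
        have h5 := h4.add_const 1
        rw [zero_add] at h5
        refine h5.congr' ?_
        filter_upwards [hlog.eventually_gt_atTop 0] with T hT0
        rw [sub_div, div_self hT0.ne']
        ring
      have h6 := h2.pow ((K + 1) ^ 2)
      rwa [one_pow] at h6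
  rw [mul_one, hk2] at h1
  refine h1.congr' ?_
  filter_upwards [hlog.eventually_gt_atTop 0, hαN.eventually_gt_atTop 0] with T hT0 hT1
  have h7 : ∏ n ∈ Finset.range ({n : ℕ | W n ≤ Real.log T}.ncard), ph K (W n) =
      ∏ n ∈ Finset.range (N T), ph K (W n) := by rw [hN]
  rw [h7, hprod, hk2, div_pow]
  have h8 : α (N T) ^ ((K + 1) ^ 2) = Real.exp (((K : ℝ) + 1) ^ 2 * Real.log (α (N T))) := by
    rw [mul_comm, ← Real.rpow_def_of_pos hT1, ← Real.rpow_natCast]
    congr 1
    push_cast
    ring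
  rw [h8, mul_sub, Real.exp_sub]
  have h9 := Real.exp_pos (((K : ℝ) + 1) ^ 2 * Real.log (α (N T)))
  field_simp

end Pool.Agent.H41.KS
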