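import Pool.Agent.H41.KS.All

/-! # Project KS: the second moment of the block averages, part one -/

set_option autoImplicit false

open MeasureTheory Filter Topology Set

namespace Pool.Agent.H41.KS

open Pool.Agent.H41.BC (g tr Cells law2 PP2 NN)

/-- differences of products -/
lemma prod_diff {s : Finset ℕ} {a b E : ℕ → ℝ} (ha : ∀ i ∈ s, |a i| ≤ E i) (hb : ∀ i ∈ s, |b i| ≤ E i)
    (hE : ∀ i ∈ s, 1 ≤ E i) :
    |∏ i ∈ s, a i - ∏ i ∈ s, b i| ≤ (∏ i ∈ s, E i) * ∑ i ∈ s, |a i - b i| := by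
  classical
  induction s using Finset.induction_on with
  | empty => simp
  | insert i s hi ih =>
    rw [Finset.prod_insert hi, Finset.prod_insert hi, Finset.prod_insert hi, Finset.sum_insert hi]
    have h1 := ih (fun j hj => ha j (Finset.mem_insert_of_mem hj)) (fun j hj => hb j (Finset.mem_insert_of_mem hj))
      (fun j hj => hE j (Finset.mem_insert_of_mem hj))
    have hAi := ha i (Finset.mem_insert_self i s)
    have hBi := hb i (Finset.mem_insert_self i s)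
    have hEi := hE i (Finset.mem_insert_self i s)
    have hP : |∏ j ∈ s, a j| ≤ ∏ j ∈ s, E j := by
      rw [Finset.abs_prod]
      exact Finset.prod_le_prod (fun j _ => abs_nonneg _) fun j hj => ha j (Finset.mem_insert_of_mem hj)
    have hP0 : 0 ≤ ∏ j ∈ s, E j := (abs_nonneg _).trans hP
    have h2 : a i * ∏ j ∈ s, a j - b i * ∏ j ∈ s, b j =
        (a i - b i) * ∏ j ∈ s, a j + b i * (∏ j ∈ s, a j - ∏ j ∈ s, b j) := by ring
    rw [h2]
    calc |(a i - b i) * ∏ j ∈ s, a j + b i * (∏ j ∈ s, a j - ∏ j ∈ s, b j)|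
        ≤ |a i - b i| * |∏ j ∈ s, a j| + |b i| * |∏ j ∈ s, a j - ∏ j ∈ s, b j| := by
          rw [← abs_mul, ← abs_mul]; exact abs_add_le _ _
      _ ≤ |a i - b i| * (E i * ∏ j ∈ s, E j) + E i * ((∏ j ∈ s, E j) * ∑ j ∈ s, |a j - b j|) := by
          refine add_le_add (mul_le_mul_of_nonneg_left ?_ (abs_nonneg _))
            (mul_le_mul hBi h1 (abs_nonneg _) (by linarith))
          exact hP.trans (le_mul_of_one_le_left hP0 hEi)
      _ = _ := by ring

/-- the mean of the product of two normalised factors -/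
noncomputable def pa (K : ℕ) (α : ℕ → ℝ) (n : ℕ) (t t' : ℝ) : ℝ := ∫ w, HH K α n t w * HH K α n t' w ∂(lw α n)
/-- the mean of the product of a normalised factor and the diagonal factor -/
noncomputable def pb (K : ℕ) (α : ℕ → ℝ) (n : ℕ) (t : ℝ) : ℝ := ∫ w, HH K α n t w * PS K α n w ∂(lw α n)
/-- the mean of the square of the diagonal factor -/
noncomputable def pd (K : ℕ) (α : ℕ → ℝ) (n : ℕ) : ℝ := ∫ w, PS K α n w * PS K α n w ∂(lw α n)

lemma exp_lin {y B : ℝ} (h : |y| ≤ B) : |Real.exp y - 1| ≤ |y| * Real.exp B := by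
  have h0 : 0 ≤ |y| := abs_nonneg y
  rcases le_or_gt 0 y with hy | hy
  · rw [abs_of_nonneg (by linarith [Real.one_le_exp hy]), abs_of_nonneg hy]
    rw [abs_of_nonneg hy] at h
    have h1 : 1 - y ≤ Real.exp (-y) := by linarith [Real.add_one_le_exp (-y)]
    have h2 : Real.exp y * Real.exp (-y) = 1 := by rw [← Real.exp_add]; simp
    have h3 : Real.exp y - 1 ≤ y * Real.exp y := by nlinarith [Real.exp_pos y]
    exact h3.trans (mul_le_mul_of_nonneg_left (Real.exp_le_exp.2 h) hy)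
  · have h1 : Real.exp y ≤ 1 := Real.exp_le_one_iff.2 hy.le
    rw [abs_of_nonpos (by linarith), abs_of_neg hy]
    rw [abs_of_neg hy] at h
    have h2 := Real.add_one_le_exp y
    have h3 : 1 ≤ Real.exp B := Real.one_le_exp (by linarith)
    nlinarith

lemma exp_quad {y B : ℝ} (h : |y| ≤ B) : |Real.exp y - 1 - y| ≤ y ^ 2 * Real.exp B := by
  have hB : 0 ≤ B := (abs_nonneg y).trans h
  have h3 : 1 ≤ Real.exp B := Real.one_le_exp hB
  have h1 := Pool.Agent.H41.BC.exp_le_quad y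
  have h2 : y ^ 2 * Real.exp |y| ≤ y ^ 2 * Real.exp B :=
    mul_le_mul_of_nonneg_left (Real.exp_le_exp.2 h) (sq_nonneg y)
  have h4 := Real.add_one_le_exp y
  rw [abs_of_nonneg (by linarith)]
  linarith

/-- the bounds for the pair moments -/
theorem bds (K : ℕ) : ∃ C : ℝ, 1 ≤ C ∧ ∀ (α : ℕ → ℝ), Cl α → ∀ (n : ℕ) (t t' : ℝ),
    |pa K α n t t' - Real.exp (4 * ((K : ℝ) + 1) ^ 2 * CV α n t t')| ≤ C * Real.exp (-(3 / 2 * α n)) ∧
    |pb K α n t - 1| ≤ C * Real.exp (-(3 / 2 * α n)) ∧ |pd K α n - 1| ≤ C * Real.exp (-(3 / 2 * α n)) ∧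
    |pa K α n t t'| ≤ Real.exp (C * Real.exp (-α n)) ∧ |pb K α n t| ≤ Real.exp (C * Real.exp (-α n)) ∧
    |pd K α n| ≤ Real.exp (C * Real.exp (-α n)) ∧
    |4 * ((K : ℝ) + 1) ^ 2 * CV α n t t'| ≤ C * Real.exp (-α n) := by
  obtain ⟨C1, h1⟩ := e1_pair K
  obtain ⟨C2, h2⟩ := e1_mix K
  obtain ⟨C3, h3⟩ := e1_diag K
  set k4 : ℝ := 4 * ((K : ℝ) + 1) ^ 2 with hk4
  have hk40 : 0 ≤ k4 := by positivity
  set C0 : ℝ := |C1| + |C2| + |C3| + k4 ^ 2 * Real.exp k4 with hC0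
  have hC00 : 0 ≤ C0 := by positivity
  refine ⟨1 + C0 + k4, by linarith, fun α H n t t' => ?_⟩
  have hα := H.four_le n
  have hx0 : 0 < Real.exp (-(3 / 2 * α n)) := Real.exp_pos _
  have hxx : Real.exp (-(3 / 2 * α n)) ≤ Real.exp (-α n) := Real.exp_le_exp.2 (by linarith)
  have hx1 : Real.exp (-α n) ≤ 1 := Real.exp_le_one_iff.2 (by linarith)
  have hx2 : Real.exp (-α n) ^ 2 ≤ Real.exp (-(3 / 2 * α n)) := by
    rw [← Real.exp_nat_mul]; exact Real.exp_le_exp.2 (by push_cast; linarith)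
  have hcv := cv_le H n t t'
  have hy : |k4 * CV α n t t'| ≤ k4 * Real.exp (-α n) := by
    rw [abs_mul, abs_of_nonneg hk40]; exact mul_le_mul_of_nonneg_left hcv hk40
  have hy1 : |k4 * CV α n t t'| ≤ k4 := hy.trans (by nlinarith)
  have ha1 : |pa K α n t t' - 1 - k4 * CV α n t t'| ≤ |C1| * Real.exp (-(3 / 2 * α n)) :=
    (h1 α H n t t').trans (mul_le_mul_of_nonneg_right (le_abs_self _) hx0.le)
  have hb1 : |pb K α n t - 1| ≤ |C2| * Real.exp (-(3 / 2 * α n)) :=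
    (h2 α H n t).trans (mul_le_mul_of_nonneg_right (le_abs_self _) hx0.le)
  have hd1 : |pd K α n - 1| ≤ |C3| * Real.exp (-(3 / 2 * α n)) :=
    (h3 α H n).trans (mul_le_mul_of_nonneg_right (le_abs_self _) hx0.le)
  have hq := exp_quad hy1
  have hq2 : (k4 * CV α n t t') ^ 2 * Real.exp k4 ≤ k4 ^ 2 * Real.exp k4 * Real.exp (-(3 / 2 * α n)) := by
    have a1 : (k4 * CV α n t t') ^ 2 ≤ (k4 * Real.exp (-α n)) ^ 2 := by
      rw [← sq_abs]; exact pow_le_pow_left₀ (abs_nonneg _) hy 2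
    have a2 : (k4 * Real.exp (-α n)) ^ 2 ≤ k4 ^ 2 * Real.exp (-(3 / 2 * α n)) := by
      rw [mul_pow]; exact mul_le_mul_of_nonneg_left hx2 (sq_nonneg _)
    calc (k4 * CV α n t t') ^ 2 * Real.exp k4 ≤ (k4 ^ 2 * Real.exp (-(3 / 2 * α n))) * Real.exp k4 :=
          mul_le_mul_of_nonneg_right (a1.trans a2) (Real.exp_pos _).le
      _ = _ := by ring
  have hlt : ∀ z : ℝ, |z - 1| ≤ C0 * Real.exp (-(3 / 2 * α n)) + k4 * Real.exp (-α n) →
      |z| ≤ Real.exp ((1 + C0 + k4) * Real.exp (-α n)) := by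
    intro z hz
    have b1 : |z| ≤ 1 + |z - 1| := by
      have := abs_add_le (1:ℝ) (z - 1)
      rw [abs_one] at this
      simpa using this
    have b2 : C0 * Real.exp (-(3 / 2 * α n)) ≤ C0 * Real.exp (-α n) := mul_le_mul_of_nonneg_left hxx hC00
    have b3 := Real.add_one_le_exp ((1 + C0 + k4) * Real.exp (-α n))
    nlinarith [Real.exp_pos (-α n)]
  have hn1 := abs_nonneg C1
  have hn2 := abs_nonneg C2
  have hn3 := abs_nonneg C3
  have hn4 : 0 ≤ k4 ^ 2 * Real.exp k4 := by positivity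
  have c1 : |C1| * Real.exp (-(3 / 2 * α n)) ≤ C0 * Real.exp (-(3 / 2 * α n)) :=
    mul_le_mul_of_nonneg_right (by linarith) hx0.le
  have c2 : |C2| * Real.exp (-(3 / 2 * α n)) ≤ C0 * Real.exp (-(3 / 2 * α n)) :=
    mul_le_mul_of_nonneg_right (by linarith) hx0.le
  have c3 : |C3| * Real.exp (-(3 / 2 * α n)) ≤ C0 * Real.exp (-(3 / 2 * α n)) :=
    mul_le_mul_of_nonneg_right (by linarith) hx0.le
  have c4 : (|C1| + k4 ^ 2 * Real.exp k4) * Real.exp (-(3 / 2 * α n)) ≤ C0 * Real.exp (-(3 / 2 * α n)) :=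
    mul_le_mul_of_nonneg_right (by linarith) hx0.le
  have c5 : C0 * Real.exp (-(3 / 2 * α n)) ≤ (1 + C0 + k4) * Real.exp (-(3 / 2 * α n)) :=
    mul_le_mul_of_nonneg_right (by linarith) hx0.le
  have c6 : 0 ≤ k4 * Real.exp (-α n) := by positivity
  refine ⟨?_, (hb1.trans c2).trans c5, (hd1.trans c3).trans c5, hlt _ ?_, hlt _ ?_, hlt _ ?_, ?_⟩
  · have e1 : pa K α n t t' - Real.exp (k4 * CV α n t t') = (pa K α n t t' - 1 - k4 * CV α n t t') -
        (Real.exp (k4 * CV α n t t') - 1 - k4 * CV α n t t') := by ring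
    rw [e1]
    refine (abs_sub _ _).trans ?_
    calc _ ≤ |C1| * Real.exp (-(3 / 2 * α n)) + k4 ^ 2 * Real.exp k4 * Real.exp (-(3 / 2 * α n)) :=
          add_le_add ha1 (hq.trans hq2)
      _ = (|C1| + k4 ^ 2 * Real.exp k4) * Real.exp (-(3 / 2 * α n)) := by ring
      _ ≤ _ := c4.trans c5
  · have e1 : pa K α n t t' - 1 = (pa K α n t t' - 1 - k4 * CV α n t t') + k4 * CV α n t t' := by ring
    rw [e1]
    exact (abs_add_le _ _).trans (add_le_add (ha1.trans c1) hy)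
  · linarith
  · linarith
  · refine hy.trans (mul_le_mul_of_nonneg_right (by linarith) (Real.exp_pos _).le)

end Pool.Agent.H41.KS
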