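import Pool.Agent.H41.KS.VarA

/-! # Project KS: the second moment of the block averages, part two: pointwise bounds -/

set_option autoImplicit false

open MeasureTheory Filter Topology Set

namespace Pool.Agent.H41.KS

open Pool.Agent.H41.BC (g tr Cells law2 PP2 NN)

lemma split_prod (F : ℕ → ℝ) {n1 N : ℕ} (h : n1 ≤ N) :
    ∏ n ∈ Finset.range N, F n = (∏ n ∈ Finset.range n1, F n) * ∏ n ∈ Finset.Ico n1 N, F n :=
  (Finset.prod_range_mul_prod_Ico F h).symm

lemma split_sum (F : ℕ → ℝ) {n1 N : ℕ} (h : n1 ≤ N) :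
    ∑ n ∈ Finset.range N, F n = (∑ n ∈ Finset.range n1, F n) + ∑ n ∈ Finset.Ico n1 N, F n :=
  (Finset.sum_range_add_sum_Ico F h).symm

lemma one_le_pr {s : Finset ℕ} {E : ℕ → ℝ} (h : ∀ n ∈ s, 1 ≤ E n) : 1 ≤ ∏ n ∈ s, E n := by
  calc (1:ℝ) = ∏ n ∈ s, (1:ℝ) := by simp
    _ ≤ _ := Finset.prod_le_prod (fun _ _ => zero_le_one) h

/-- the product of the bounds -/
lemma prod_E {α : ℕ → ℝ} (H : Cl α) {C : ℝ} (hC : 0 ≤ C) (N : ℕ) :
    ∏ n ∈ Finset.range N, Real.exp (C * Real.exp (-α n)) ≤ Real.exp (3 * C * Real.log (α N)) := by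
  rw [← Real.exp_sum, ← Finset.mul_sum]
  refine Real.exp_le_exp.2 ?_
  have h1 := sum1 H (Nat.zero_le N)
  rw [Nat.Ico_zero_eq_range] at h1
  have h2 : 0 ≤ Real.log (α 0) := Real.log_nonneg (by linarith [H.four_le 0])
  nlinarith

/-- pointwise bound for the difference of the products of the means -/
theorem pw_pair (K : ℕ) : ∃ C : ℝ, 1 ≤ C ∧ ∀ (α : ℕ → ℝ), Cl α → ∀ (n1 N : ℕ), n1 ≤ N → ∀ (t t' δ : ℝ), 0 < δ →
    |∏ n ∈ Finset.range N, pa K α n t t' - ∏ n ∈ Finset.range N, pd K α n| ≤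
      Real.exp (C * Real.log (α N)) * (∑ n ∈ Finset.range n1, |pa K α n t t' - pd K α n| +
        Real.exp (-(α n1 / 2)) + δ + (∑ n ∈ Finset.Ico n1 N, CV α n t t') ^ 2 / δ) := by
  obtain ⟨C, hC1, hC⟩ := bds K
  set k4 : ℝ := 4 * ((K : ℝ) + 1) ^ 2 with hk4
  have hk40 : 0 ≤ k4 := by positivity
  refine ⟨6 * C + 20 * C + k4, by linarith, fun α H n1 N hn t t' δ hδ => ?_⟩
  have hα := H.four_le N
  have hlα : 1 ≤ Real.log (α N) := by
    rw [Real.le_log_iff_exp_le (by linarith)]
    have := Real.exp_one_lt_d9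
    linarith
  -- the comparison sequences
  set c : ℕ → ℝ := fun n => if n < n1 then pd K α n else Real.exp (k4 * CV α n t t') with hc
  set c' : ℕ → ℝ := fun n => if n < n1 then pd K α n else 1 with hc'
  set E : ℕ → ℝ := fun n => Real.exp (C * Real.exp (-α n)) with hE
  have hE1 : ∀ n, 1 ≤ E n := fun n => Real.one_le_exp (by positivity)
  set P : ℝ := ∏ n ∈ Finset.range N, E n with hP
  have hP0 : 0 < P := Finset.prod_pos fun n _ => by linarith [hE1 n]
  have hP1 : 1 ≤ P := one_le_pr fun n _ => hE1 n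
  have hPle : P ≤ Real.exp (3 * C * Real.log (α N)) := prod_E H (by linarith) N
  have hca : ∀ n, |c n| ≤ E n := by
    intro n
    simp only [hc]
    split_ifs
    · exact (hC α H n t t').2.2.2.2.2.1
    · rw [abs_of_pos (Real.exp_pos _)]
      exact Real.exp_le_exp.2 ((le_abs_self _).trans (hC α H n t t').2.2.2.2.2.2)
  have hca' : ∀ n, |c' n| ≤ E n := by
    intro n
    simp only [hc']
    split_ifs
    · exact (hC α H n t t').2.2.2.2.2.1
    · rw [abs_one]; exact hE1 n
  -- step one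
  have s1 : |∏ n ∈ Finset.range N, pa K α n t t' - ∏ n ∈ Finset.range N, c n| ≤
      P * (∑ n ∈ Finset.range n1, |pa K α n t t' - pd K α n| + 10 * C * Real.exp (-(α n1 / 2))) := by
    refine (prod_diff (E := E) (fun n _ => (hC α H n t t').2.2.2.1) (fun n _ => hca n) fun n _ => hE1 n).trans ?_
    refine mul_le_mul_of_nonneg_left ?_ hP0.le
    rw [split_sum _ hn]
    refine add_le_add (Finset.sum_le_sum fun n h => ?_) ?_
    · simp only [hc, if_pos (Finset.mem_range.1 h)]; exact le_rfl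
    · calc ∑ n ∈ Finset.Ico n1 N, |pa K α n t t' - c n| ≤ ∑ n ∈ Finset.Ico n1 N, C * Real.exp (-(3 / 2 * α n)) := by
            refine Finset.sum_le_sum fun n h => ?_
            have : ¬ n < n1 := by have := (Finset.mem_Ico.1 h).1; omega
            simp only [hc, if_neg this]
            exact (hC α H n t t').1
        _ = C * ∑ n ∈ Finset.Ico n1 N, Real.exp (-(3 / 2 * α n)) := (Finset.mul_sum _ _ _).symm
        _ ≤ C * (10 * Real.exp (-(α n1 / 2))) := mul_le_mul_of_nonneg_left (sum32 H hn) (by linarith)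
        _ = _ := by ring
  -- step two
  have s2 : |∏ n ∈ Finset.range N, pd K α n - ∏ n ∈ Finset.range N, c' n| ≤ P * (10 * C * Real.exp (-(α n1 / 2))) := by
    refine (prod_diff (E := E) (fun n _ => (hC α H n t t').2.2.2.2.2.1) (fun n _ => hca' n) fun n _ => hE1 n).trans ?_
    refine mul_le_mul_of_nonneg_left ?_ hP0.le
    rw [split_sum _ hn]
    have z : ∑ n ∈ Finset.range n1, |pd K α n - c' n| = 0 := by
      refine Finset.sum_eq_zero fun n h => ?_
      simp only [hc', if_pos (Finset.mem_range.1 h)]; simp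
    rw [z, zero_add]
    calc ∑ n ∈ Finset.Ico n1 N, |pd K α n - c' n| ≤ ∑ n ∈ Finset.Ico n1 N, C * Real.exp (-(3 / 2 * α n)) := by
          refine Finset.sum_le_sum fun n h => ?_
          have : ¬ n < n1 := by have := (Finset.mem_Ico.1 h).1; omega
          simp only [hc', if_neg this]
          exact (hC α H n t t').2.2.1
      _ = C * ∑ n ∈ Finset.Ico n1 N, Real.exp (-(3 / 2 * α n)) := (Finset.mul_sum _ _ _).symm
      _ ≤ C * (10 * Real.exp (-(α n1 / 2))) := mul_le_mul_of_nonneg_left (sum32 H hn) (by linarith)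
      _ = _ := by ring
  -- step three
  set S : ℝ := ∑ n ∈ Finset.Ico n1 N, CV α n t t' with hS
  have hSle : |k4 * S| ≤ 3 * C * Real.log (α N) := by
    rw [hS, Finset.mul_sum]
    refine (Finset.abs_sum_le_sum_abs _ _).trans ?_
    calc ∑ n ∈ Finset.Ico n1 N, |k4 * CV α n t t'| ≤ ∑ n ∈ Finset.Ico n1 N, C * Real.exp (-α n) :=
          Finset.sum_le_sum fun n _ => (hC α H n t t').2.2.2.2.2.2
      _ = C * ∑ n ∈ Finset.Ico n1 N, Real.exp (-α n) := (Finset.mul_sum _ _ _).symm
      _ ≤ C * (3 * (Real.log (α N) - Real.log (α n1))) := mul_le_mul_of_nonneg_left (sum1 H hn) (by linarith)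
      _ ≤ 3 * C * Real.log (α N) := by
          have : 0 ≤ Real.log (α n1) := Real.log_nonneg (by linarith [H.four_le n1])
          nlinarith
  have s3 : |∏ n ∈ Finset.range N, c n - ∏ n ∈ Finset.range N, c' n| ≤
      P * (k4 * |S| * Real.exp (3 * C * Real.log (α N))) := by
    have e1 : ∏ n ∈ Finset.range N, c n = (∏ n ∈ Finset.range n1, pd K α n) * Real.exp (k4 * S) := by
      rw [split_prod _ hn, hS, Finset.mul_sum, Real.exp_sum]
      congr 1
      · exact Finset.prod_congr rfl fun n h => by simp only [hc, if_pos (Finset.mem_range.1 h)]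
      · refine Finset.prod_congr rfl fun n h => ?_
        have : ¬ n < n1 := by have := (Finset.mem_Ico.1 h).1; omega
        simp only [hc, if_neg this]
    have e2 : ∏ n ∈ Finset.range N, c' n = (∏ n ∈ Finset.range n1, pd K α n) * 1 := by
      rw [split_prod _ hn]
      congr 1
      · exact Finset.prod_congr rfl fun n h => by simp only [hc', if_pos (Finset.mem_range.1 h)]
      · refine Finset.prod_eq_one fun n h => ?_
        have : ¬ n < n1 := by have := (Finset.mem_Ico.1 h).1; omega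
        simp only [hc', if_neg this]
    rw [e1, e2, ← mul_sub, abs_mul]
    refine mul_le_mul ?_ ?_ (abs_nonneg _) hP0.le
    · rw [Finset.abs_prod]
      calc ∏ n ∈ Finset.range n1, |pd K α n| ≤ ∏ n ∈ Finset.range n1, E n :=
            Finset.prod_le_prod (fun n _ => abs_nonneg _) fun n _ => (hC α H n t t').2.2.2.2.2.1
        _ ≤ (∏ n ∈ Finset.range n1, E n) * ∏ n ∈ Finset.Ico n1 N, E n :=
            le_mul_of_one_le_right (Finset.prod_nonneg fun n _ => by linarith [hE1 n])
              (one_le_pr fun n _ => hE1 n)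
        _ = P := (split_prod E hn).symm
    · have := exp_lin hSle
      rw [abs_mul, abs_of_nonneg hk40] at this
      exact this
  -- conclusion
  have hSδ : |S| ≤ δ + S ^ 2 / δ := by
    rcases le_or_gt |S| δ with h | h
    · have : 0 ≤ S ^ 2 / δ := by positivity
      linarith
    · have : |S| ≤ S ^ 2 / δ := by
        rw [le_div_iff₀ hδ, ← sq_abs]; nlinarith [abs_nonneg S]
      linarith
  set L := Real.log (α N) with hL
  set V1 := ∑ n ∈ Finset.range n1, |pa K α n t t' - pd K α n| with hV1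
  have hV10 : 0 ≤ V1 := Finset.sum_nonneg fun n _ => abs_nonneg _
  set x := Real.exp (-(α n1 / 2)) with hx
  have hx0 : 0 < x := Real.exp_pos _
  set Q := Real.exp (3 * C * L) with hQ
  have hQ1 : 1 ≤ Q := Real.one_le_exp (by nlinarith)
  have hT : |∏ n ∈ Finset.range N, pa K α n t t' - ∏ n ∈ Finset.range N, pd K α n| ≤
      P * (V1 + 10 * C * x) + P * (k4 * |S| * Q) + P * (10 * C * x) := by
    have e : ∏ n ∈ Finset.range N, pa K α n t t' - ∏ n ∈ Finset.range N, pd K α n =
        (∏ n ∈ Finset.range N, pa K α n t t' - ∏ n ∈ Finset.range N, c n) +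
        (∏ n ∈ Finset.range N, c n - ∏ n ∈ Finset.range N, c' n) -
        (∏ n ∈ Finset.range N, pd K α n - ∏ n ∈ Finset.range N, c' n) := by ring
    rw [e]
    exact (abs_sub _ _).trans (add_le_add ((abs_add_le _ _).trans (add_le_add s1 s3)) s2)
  refine hT.trans ?_
  have hexp : Real.exp ((6 * C + 20 * C + k4) * L) = Q * Q * Real.exp (20 * C * L) * Real.exp (k4 * L) := by
    rw [hQ, ← Real.exp_add, ← Real.exp_add, ← Real.exp_add]; congr 1; ring
  have h20 : 20 * C ≤ Real.exp (20 * C * L) := by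
    have := Real.add_one_le_exp (20 * C * L)
    nlinarith
  have h21 : 1 ≤ Real.exp (20 * C * L) := Real.one_le_exp (by nlinarith)
  have hk5 : k4 ≤ Real.exp (k4 * L) := by
    have := Real.add_one_le_exp (k4 * L)
    nlinarith
  have hk51 : 1 ≤ Real.exp (k4 * L) := Real.one_le_exp (by nlinarith)
  set Y := Real.exp (20 * C * L) with hY
  set Z := Real.exp (k4 * L) with hZ
  have hS0 := abs_nonneg S
  have hδS : 0 ≤ δ + S ^ 2 / δ := by positivity
  have m1 : P * V1 ≤ Q * Q * Y * Z * V1 := by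
    refine mul_le_mul_of_nonneg_right ?_ hV10
    calc P ≤ Q := hPle
      _ ≤ Q * (Q * Y * Z) := le_mul_of_one_le_right (by linarith) (by
          calc (1:ℝ) = 1 * 1 * 1 := by ring
            _ ≤ Q * Y * Z := by gcongr)
      _ = _ := by ring
  have m2 : P * (20 * C * x) ≤ Q * Q * Y * Z * x := by
    calc P * (20 * C * x) = (P * (20 * C)) * x := by ring
      _ ≤ (Q * Y) * x := mul_le_mul_of_nonneg_right (mul_le_mul hPle h20 (by linarith) (by linarith)) hx0.le
      _ ≤ ((Q * Y) * (Q * Z)) * x := mul_le_mul_of_nonneg_right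
          (le_mul_of_one_le_right (by positivity) (by
            calc (1:ℝ) = 1 * 1 := by ring
              _ ≤ Q * Z := by gcongr)) hx0.le
      _ = _ := by ring
  have m3 : P * (k4 * |S| * Q) ≤ Q * Q * Y * Z * (δ + S ^ 2 / δ) := by
    calc P * (k4 * |S| * Q) = (P * Q * k4) * |S| := by ring
      _ ≤ (Q * Q * Z) * (δ + S ^ 2 / δ) := by gcongr
      _ ≤ (Q * Q * Z) * (δ + S ^ 2 / δ) * Y := le_mul_of_one_le_right (by positivity) h21
      _ = _ := by ring
  rw [hexp]
  calc P * (V1 + 10 * C * x) + P * (k4 * |S| * Q) + P * (10 * C * x)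
      = P * V1 + P * (20 * C * x) + P * (k4 * |S| * Q) := by ring
    _ ≤ Q * Q * Y * Z * V1 + Q * Q * Y * Z * x + Q * Q * Y * Z * (δ + S ^ 2 / δ) := by linarith
    _ = _ := by ring

/-- pointwise bound for the mixed products -/
theorem pw_mix (K : ℕ) : ∃ C : ℝ, 1 ≤ C ∧ ∀ (α : ℕ → ℝ), Cl α → ∀ (n1 N : ℕ), n1 ≤ N → ∀ t : ℝ,
    |∏ n ∈ Finset.range N, pb K α n t - ∏ n ∈ Finset.range N, pd K α n| ≤
      Real.exp (C * Real.log (α N)) * (∑ n ∈ Finset.range n1, |pb K α n t - pd K α n| + Real.exp (-(α n1 / 2))) := by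
  obtain ⟨C, hC1, hC⟩ := bds K
  refine ⟨3 * C + 20 * C, by linarith, fun α H n1 N hn t => ?_⟩
  have hα := H.four_le N
  have hlα : 1 ≤ Real.log (α N) := by
    rw [Real.le_log_iff_exp_le (by linarith)]
    have := Real.exp_one_lt_d9
    linarith
  set E : ℕ → ℝ := fun n => Real.exp (C * Real.exp (-α n)) with hE
  have hE1 : ∀ n, 1 ≤ E n := fun n => Real.one_le_exp (by positivity)
  set P : ℝ := ∏ n ∈ Finset.range N, E n with hP
  have hP0 : 0 < P := Finset.prod_pos fun n _ => by linarith [hE1 n]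
  have hPle : P ≤ Real.exp (3 * C * Real.log (α N)) := prod_E H (by linarith) N
  have s1 : |∏ n ∈ Finset.range N, pb K α n t - ∏ n ∈ Finset.range N, pd K α n| ≤
      P * (∑ n ∈ Finset.range n1, |pb K α n t - pd K α n| + 20 * C * Real.exp (-(α n1 / 2))) := by
    refine (prod_diff (E := E) (fun n _ => (hC α H n t t).2.2.2.2.1) (fun n _ => (hC α H n t t).2.2.2.2.2.1)
      fun n _ => hE1 n).trans ?_
    refine mul_le_mul_of_nonneg_left ?_ hP0.le
    rw [split_sum _ hn]
    refine add_le_add le_rfl ?_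
    calc ∑ n ∈ Finset.Ico n1 N, |pb K α n t - pd K α n| ≤ ∑ n ∈ Finset.Ico n1 N, 2 * C * Real.exp (-(3 / 2 * α n)) := by
          refine Finset.sum_le_sum fun n _ => ?_
          have h1 := (hC α H n t t).2.1
          have h2 := (hC α H n t t).2.2.1
          have e : pb K α n t - pd K α n = (pb K α n t - 1) - (pd K α n - 1) := by ring
          rw [e]
          refine (abs_sub _ _).trans ?_
          linarith
      _ = 2 * C * ∑ n ∈ Finset.Ico n1 N, Real.exp (-(3 / 2 * α n)) := (Finset.mul_sum _ _ _).symm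
      _ ≤ 2 * C * (10 * Real.exp (-(α n1 / 2))) := mul_le_mul_of_nonneg_left (sum32 H hn) (by linarith)
      _ = _ := by ring
  refine s1.trans ?_
  set L := Real.log (α N) with hL
  set V1 := ∑ n ∈ Finset.range n1, |pb K α n t - pd K α n| with hV1
  have hV10 : 0 ≤ V1 := Finset.sum_nonneg fun n _ => abs_nonneg _
  set x := Real.exp (-(α n1 / 2)) with hx
  have hx0 : 0 < x := Real.exp_pos _
  set Q := Real.exp (3 * C * L) with hQ
  have h20 : 20 * C ≤ Real.exp (20 * C * L) := by
    have := Real.add_one_le_exp (20 * C * L)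
    nlinarith
  have h21 : 1 ≤ Real.exp (20 * C * L) := Real.one_le_exp (by nlinarith)
  have hexp : Real.exp ((3 * C + 20 * C) * L) = Q * Real.exp (20 * C * L) := by
    rw [hQ, ← Real.exp_add]; congr 1; ring
  rw [hexp]
  set Y := Real.exp (20 * C * L) with hY
  have hQ0 : 0 < Q := Real.exp_pos _
  calc P * (V1 + 20 * C * x) ≤ Q * (Y * V1 + Y * x) := by
        refine mul_le_mul hPle ?_ (by positivity) hQ0.le
        exact add_le_add (le_mul_of_one_le_left hV10 h21) (mul_le_mul_of_nonneg_right h20 hx0.le)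
    _ = _ := by ring

end Pool.Agent.H41.KS
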