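import Pool.Agent.H41.KS.VarB

/-! # Project KS: the second moment of the block averages, part three: integration -/

set_option autoImplicit false

open MeasureTheory Filter Topology Set

namespace Pool.Agent.H41.KS

open Pool.Agent.H41.BC (g tr Cells law2 PP2 NN)

attribute [local irreducible] HH PS

/-- the block, as a measure -/
noncomputable abbrev bm (a b : ℝ) : Measure (ℝ × ℝ) :=
  (volume.restrict (Ioc a b)).prod (volume.restrict (Ioc a b))

lemma bm_intg {F : ℝ × ℝ → ℝ} (hF : Measurable F) {B : ℝ} (hB : ∀ q, |F q| ≤ B) (a b : ℝ) :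
    Integrable F (bm a b) := by
  have : IsFiniteMeasure (volume.restrict (Ioc a b)) := ⟨by simp⟩
  exact Integrable.of_bound hF.aestronglyMeasurable B (ae_of_all _ fun q => by rw [Real.norm_eq_abs]; exact hB q)

lemma it_eq {F : ℝ × ℝ → ℝ} (hF : Measurable F) {B : ℝ} (hB : ∀ q, |F q| ≤ B) {a b : ℝ} (hab : a ≤ b) :
    ∫ t in a..b, ∫ t' in a..b, F (t, t') = ∫ q, F q ∂(bm a b) := by
  rw [integral_prod _ (bm_intg hF hB a b), intervalIntegral.integral_of_le hab]
  refine integral_congr_ae (ae_of_all _ fun t => ?_)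
  simp only
  rw [intervalIntegral.integral_of_le hab]

lemma bm_mem (a b : ℝ) : ∀ᵐ q ∂(bm a b), q.1 ∈ Ioc a b ∧ q.2 ∈ Ioc a b := by
  have h1 : ∀ᵐ t ∂(volume.restrict (Ioc a b)), t ∈ Ioc a b :=
    (ae_restrict_iff' measurableSet_Ioc).2 (ae_of_all _ fun v hv => hv)
  have : SFinite (volume.restrict (Ioc a b)) := inferInstance
  have h2 : ∀ᵐ q ∂(bm a b), q.1 ∈ Ioc a b := Measure.quasiMeasurePreserving_fst.ae h1
  have h3 : ∀ᵐ q ∂(bm a b), q.2 ∈ Ioc a b := Measure.quasiMeasurePreserving_snd.ae h1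
  filter_upwards [h2, h3] with q h4 h5 using ⟨h4, h5⟩

lemma bm_const (a b c : ℝ) (hab : a ≤ b) : ∫ _q, c ∂(bm a b) = (b - a) ^ 2 * c := by
  have : IsFiniteMeasure (volume.restrict (Ioc a b)) := ⟨by simp⟩
  rw [integral_const, smul_eq_mul]
  congr 1
  rw [Measure.real, bm, Measure.prod_apply MeasurableSet.univ]
  simp only [preimage_univ, Measure.restrict_apply MeasurableSet.univ, univ_inter, Real.volume_Ioc, lintegral_const]
  rw [ENNReal.toReal_mul, ENNReal.toReal_ofReal (by linarith)]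
  ring

lemma pa_meas (K : ℕ) {α : ℕ → ℝ} (H : Cl α) (n : ℕ) : Measurable fun q : ℝ × ℝ => pa K α n q.1 q.2 := by
  have := Pool.Agent.H41.BC.law_prob H n
  have h : Measurable fun z : (ℝ × ℝ) × ℝ => HH K α n z.1.1 z.2 * HH K α n z.1.2 z.2 :=
    ((hh_cont K α n).measurable.comp ((measurable_fst.comp measurable_fst).prodMk measurable_snd)).mul
      ((hh_cont K α n).measurable.comp ((measurable_snd.comp measurable_fst).prodMk measurable_snd))
  exact (h.stronglyMeasurable.integral_prod_right' (ν := lw α n)).measurable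

lemma pb_meas (K : ℕ) {α : ℕ → ℝ} (H : Cl α) (n : ℕ) : Measurable fun t : ℝ => pb K α n t := by
  have := Pool.Agent.H41.BC.law_prob H n
  have h : Measurable fun z : ℝ × ℝ => HH K α n z.1 z.2 * PS K α n z.2 :=
    (hh_cont K α n).measurable.mul ((ps_meas K α n).comp measurable_snd)
  exact (h.stronglyMeasurable.integral_prod_right' (ν := lw α n)).measurable

/-- the random difference -/
noncomputable def DD (K : ℕ) (α : ℕ → ℝ) (N : ℕ) (q : ℝ × (ℕ → ℝ)) : ℝ :=
  ∏ n ∈ Finset.range N, HH K α n q.1 (q.2 n) - ∏ n ∈ Finset.range N, PS K α n (q.2 n)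

lemma dd_meas (K : ℕ) (α : ℕ → ℝ) (N : ℕ) : Measurable (DD K α N) := by
  have hn : ∀ n : ℕ, Measurable fun q : ℝ × (ℕ → ℝ) => q.2 n := fun n => (measurable_pi_apply n).comp measurable_snd
  have h1 : ∀ n : ℕ, Measurable fun q : ℝ × (ℕ → ℝ) => HH K α n q.1 (q.2 n) := fun n =>
    (hh_cont K α n).measurable.comp (measurable_fst.prodMk (hn n))
  have h2 : ∀ n : ℕ, Measurable fun q : ℝ × (ℕ → ℝ) => PS K α n (q.2 n) := fun n => (ps_meas K α n).comp (hn n)
  exact (Finset.measurable_fun_prod _ fun n _ => h1 n).sub (Finset.measurable_fun_prod _ fun n _ => h2 n)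

/-- bounds for the products -/
lemma prod_bds (K : ℕ) {α : ℕ → ℝ} (H : Cl α) (N : ℕ) : ∃ B : ℝ, 0 ≤ B ∧ ∀ (t : ℝ) (W : ℕ → ℝ),
    |∏ n ∈ Finset.range N, HH K α n t (W n)| ≤ B ∧ |∏ n ∈ Finset.range N, PS K α n (W n)| ≤ B := by
  choose B1 hB1 using fun n => hh_bd K H n
  choose B2 hB2 using fun n => ps_bd K H n
  have h1 : ∀ n, 0 ≤ B1 n := fun n => (hB1 n 0 0).1.le.trans (hB1 n 0 0).2
  have h2 : ∀ n, 0 ≤ B2 n := fun n => (hB2 n 0).1.le.trans (hB2 n 0).2
  refine ⟨∏ n ∈ Finset.range N, B1 n + ∏ n ∈ Finset.range N, B2 n,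
    add_nonneg (Finset.prod_nonneg fun n _ => h1 n) (Finset.prod_nonneg fun n _ => h2 n), fun t W => ⟨?_, ?_⟩⟩
  · rw [Finset.abs_prod]
    have : ∏ n ∈ Finset.range N, |HH K α n t (W n)| ≤ ∏ n ∈ Finset.range N, B1 n :=
      Finset.prod_le_prod (fun n _ => abs_nonneg _) fun n _ => by
        rw [abs_of_pos (hB1 n t (W n)).1]; exact (hB1 n t (W n)).2
    have h3 : 0 ≤ ∏ n ∈ Finset.range N, B2 n := Finset.prod_nonneg fun n _ => h2 n
    linarith
  · rw [Finset.abs_prod]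
    have : ∏ n ∈ Finset.range N, |PS K α n (W n)| ≤ ∏ n ∈ Finset.range N, B2 n :=
      Finset.prod_le_prod (fun n _ => abs_nonneg _) fun n _ => by
        rw [abs_of_pos (hB2 n (W n)).1]; exact (hB2 n (W n)).2
    have h3 : 0 ≤ ∏ n ∈ Finset.range N, B1 n := Finset.prod_nonneg fun n _ => h1 n
    linarith

lemma int_four {Ω : Type} [MeasurableSpace Ω] {μ : Measure Ω} {f1 f2 f3 f4 : Ω → ℝ} (i1 : Integrable f1 μ)
    (i2 : Integrable f2 μ) (i3 : Integrable f3 μ) (i4 : Integrable f4 μ) :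
    ∫ W, (f1 W - f2 W - f3 W + f4 W) ∂μ = ∫ W, f1 W ∂μ - ∫ W, f2 W ∂μ - ∫ W, f3 W ∂μ + ∫ W, f4 W ∂μ := by
  have h1 : Integrable (fun W => f1 W - f2 W) μ := i1.sub i2
  have h2 : Integrable (fun W => f1 W - f2 W - f3 W) μ := h1.sub i3
  rw [integral_add h2 i4, integral_sub h1 i3, integral_sub i1 i2]

/-- the second moment -/
theorem sq_id (K : ℕ) {α : ℕ → ℝ} (H : Cl α) (N : ℕ) {a b : ℝ} (hab : a ≤ b) :
    ∫ W, (∫ t in a..b, DD K α N (t, W)) ^ 2 ∂(Pr α) = ∫ t in a..b, ∫ t' in a..b,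
      (∏ n ∈ Finset.range N, pa K α n t t' - ∏ n ∈ Finset.range N, pb K α n t - ∏ n ∈ Finset.range N, pb K α n t' +
        ∏ n ∈ Finset.range N, pd K α n) := by
  have := Pool.Agent.H41.BC.PP_prob H
  obtain ⟨B, hB0, hB⟩ := prod_bds K H N
  rw [square H (DD K α N) (dd_meas K α N) (B + B) (fun q => (abs_sub _ _).trans
    (add_le_add (hB q.1 q.2).1 (hB q.1 q.2).2)) hab]
  refine intervalIntegral.integral_congr fun t _ => intervalIntegral.integral_congr fun t' _ => ?_
  choose B1 hB1 using fun n => hh_bd K H n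
  choose B2 hB2 using fun n => ps_bd K H n
  have hm1 : ∀ (t : ℝ) (n : ℕ), Measurable fun w => HH K α n t w := fun t n =>
    (hh_cont K α n).measurable.comp (measurable_const.prodMk measurable_id)
  have hb1 : ∀ (t : ℝ) (n : ℕ) (w : ℝ), |HH K α n t w| ≤ B1 n := fun t n w => by
    rw [abs_of_pos (hB1 n t w).1]; exact (hB1 n t w).2
  have hb2 : ∀ (n : ℕ) (w : ℝ), |PS K α n w| ≤ B2 n := fun n w => by
    rw [abs_of_pos (hB2 n w).1]; exact (hB2 n w).2
  have hB10 : ∀ n, 0 ≤ B1 n := fun n => (abs_nonneg _).trans (hb1 0 n 0)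
  have hB20 : ∀ n, 0 ≤ B2 n := fun n => (abs_nonneg _).trans (hb2 n 0)
  have e1 := prod_int H (fun n w => HH K α n t w * HH K α n t' w) (fun n => (hm1 t n).mul (hm1 t' n))
    (fun n => B1 n * B1 n) (fun n w => by
      rw [abs_mul]; exact mul_le_mul (hb1 t n w) (hb1 t' n w) (abs_nonneg _) (hB10 n)) N
  have e2 : ∀ s : ℝ, _ := fun s => prod_int H (fun n w => HH K α n s w * PS K α n w)
    (fun n => (hm1 s n).mul (ps_meas K α n))
    (fun n => B1 n * B2 n) (fun n w => by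
      rw [abs_mul]; exact mul_le_mul (hb1 s n w) (hb2 n w) (abs_nonneg _) (hB10 n)) N
  have e3 := prod_int H (fun n w => PS K α n w * PS K α n w) (fun n => (ps_meas K α n).mul (ps_meas K α n))
    (fun n => B2 n * B2 n) (fun n w => by
      rw [abs_mul]; exact mul_le_mul (hb2 n w) (hb2 n w) (abs_nonneg _) (hB20 n)) N
  simp only [Finset.prod_mul_distrib] at e1 e2 e3
  -- integrability
  have mH : ∀ s : ℝ, Measurable fun W : ℕ → ℝ => ∏ n ∈ Finset.range N, HH K α n s (W n) := fun s =>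
    Finset.measurable_fun_prod _ fun n _ => (hm1 s n).comp (measurable_pi_apply n)
  have mP : Measurable fun W : ℕ → ℝ => ∏ n ∈ Finset.range N, PS K α n (W n) :=
    Finset.measurable_fun_prod _ fun n _ => (ps_meas K α n).comp (measurable_pi_apply n)
  have ig : ∀ F G : (ℕ → ℝ) → ℝ, Measurable F → Measurable G → (∀ W, |F W| ≤ B) → (∀ W, |G W| ≤ B) →
      Integrable (fun W => F W * G W) (Pr α) := by
    intro F G hF hG hFB hGB
    refine Integrable.of_bound (hF.mul hG).aestronglyMeasurable (B * B) (ae_of_all _ fun W => ?_)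
    rw [Real.norm_eq_abs, abs_mul]
    exact mul_le_mul (hFB W) (hGB W) (abs_nonneg _) hB0
  have i1 := ig _ _ (mH t) (mH t') (fun W => (hB t W).1) (fun W => (hB t' W).1)
  have i2 := ig _ _ (mH t) mP (fun W => (hB t W).1) (fun W => (hB t W).2)
  have i3 := ig _ _ (mH t') mP (fun W => (hB t' W).1) (fun W => (hB t W).2)
  have i4 := ig _ _ mP mP (fun W => (hB t W).2) (fun W => (hB t W).2)
  have e : (fun W => DD K α N (t, W) * DD K α N (t', W)) = fun W =>
      (((∏ n ∈ Finset.range N, HH K α n t (W n)) * ∏ n ∈ Finset.range N, HH K α n t' (W n)) -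
      ((∏ n ∈ Finset.range N, HH K α n t (W n)) * ∏ n ∈ Finset.range N, PS K α n (W n)) -
      ((∏ n ∈ Finset.range N, HH K α n t' (W n)) * ∏ n ∈ Finset.range N, PS K α n (W n))) +
      ((∏ n ∈ Finset.range N, PS K α n (W n)) * ∏ n ∈ Finset.range N, PS K α n (W n)) := by
    funext W
    unfold DD
    ring
  rw [e, int_four i1 i2 i3 i4, e1, e2, e2, e3]
  rfl

end Pool.Agent.H41.KS
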