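import Pool.Agent.H41.KS.VarC

/-! # Project KS: the second moment of the block averages, part four: the bound -/

set_option autoImplicit false

open MeasureTheory Filter Topology Set

namespace Pool.Agent.H41.KS

open Pool.Agent.H41.BC (g tr Cells law2 PP2 NN)

attribute [local irreducible] HH PS pa pb pd CV

lemma pd_pos_bd {K : ℕ} {α : ℕ → ℝ} (N : ℕ) : ∃ B : ℝ, |∏ n ∈ Finset.range N, pd K α n| ≤ B := ⟨_, le_rfl⟩

/-- the bound for the second moment of a block average -/
theorem block_var (K : ℕ) {α : ℕ → ℝ} (H : Cl α) : ∃ (C : ℝ) (m : ℕ) (T0 : ℝ), 0 ≤ C ∧ 2 ≤ T0 ∧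
    ∀ T A A' : ℝ, T0 ≤ T → T ≤ A → A ≤ A' → A' ≤ 2 * T → ∀ N : ℕ, 3 * Real.log T ≤ α N → α N ≤ 3 * Real.log T + 1 →
      ∫ W, (∫ t in A..A', DD K α N (t, W)) ^ 2 ∂(Pr α) ≤ C * Real.log T ^ m * (T ^ 2 * Real.exp (-(Real.log T / 16))) := by
  obtain ⟨C1, hC1, h1⟩ := pw_pair K
  obtain ⟨C2, hC2, h2⟩ := pw_mix K
  obtain ⟨C3, h3⟩ := e2_pair K
  obtain ⟨C4, h4⟩ := e2_mix K
  obtain ⟨C5, h5⟩ := cv_sum
  set m : ℕ := ⌈max C1 C2⌉₊ with hm
  refine ⟨4 ^ (m + 4) * (3 * |C3| + 2 + 2 * |C5| + 2 * (3 * |C4| + 1)), m + 4, Real.exp (8 * α 0), by positivity, ?_,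
    fun T A A' hT hTA hAA hA2 N hN1 hN2 => ?_⟩
  · have h0 := H.four_le 0
    have := Real.add_one_le_exp (8 * α 0)
    linarith
  have hα0 := H.four_le 0
  have hT0 : 0 < T := lt_of_lt_of_le (Real.exp_pos _) hT
  set L := Real.log T with hL
  have hL8 : 8 * α 0 ≤ L := by rw [hL, Real.le_log_iff_exp_le hT0]; exact hT
  have hL32 : 32 ≤ L := by linarith
  have hTe : T = Real.exp L := (Real.exp_log hT0).symm
  have hT2 : 2 ≤ T := by
    have := Real.add_one_le_exp L
    rw [← hTe] at this; linarith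
  set X := Real.exp (L / 16) with hX
  have hX1 : 1 ≤ X := Real.one_le_exp (by linarith)
  have hX0 : 0 < X := Real.exp_pos _
  have hTX : T = X ^ 16 := by rw [hTe, hX, ← Real.exp_nat_mul]; congr 1; push_cast; ring
  obtain ⟨n1, hn1, hn2, hn3⟩ := first H (L := L / 8) (by linarith)
  have hnN : n1 ≤ N := by
    rw [← H.alpha_mono.le_iff_le]
    linarith
  -- the index
  have hn1X : (n1 : ℝ) ≤ 3 * X ^ 2 := by
    calc (n1 : ℝ) ≤ Real.exp (α n1) := idx H n1
      _ ≤ Real.exp (L / 8 + 1) := Real.exp_le_exp.2 hn2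
      _ = Real.exp 1 * X ^ 2 := by rw [hX, ← Real.exp_nat_mul, ← Real.exp_add]; congr 1; push_cast; ring
      _ ≤ 3 * X ^ 2 := mul_le_mul_of_nonneg_right (by have := Real.exp_one_lt_d9; linarith) (by positivity)
  have hαX : ∀ n, n < n1 → Real.exp (α n) ≤ X ^ 2 := by
    intro n hn
    rw [hX, ← Real.exp_nat_mul]
    exact Real.exp_le_exp.2 (by push_cast; linarith [hn3 n hn])
  have hx : Real.exp (-(α n1 / 2)) ≤ X⁻¹ := by
    rw [hX, ← Real.exp_neg]; exact Real.exp_le_exp.2 (by linarith)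
  have hx2 : Real.exp (-α n1) ≤ (X ^ 2)⁻¹ := by
    rw [hX, ← Real.exp_nat_mul, ← Real.exp_neg]; exact Real.exp_le_exp.2 (by push_cast; linarith)
  -- the powers of the logarithm
  have hlogα : ∀ c : ℝ, c ≤ max C1 C2 → 0 ≤ c → Real.exp (c * Real.log (α N)) ≤ (4 * L) ^ m := by
    intro c hc hc0
    have a1 : α N ≤ 4 * L := by linarith
    have a2 : 0 < α N := by linarith
    have a3 : Real.log (α N) ≤ Real.log (4 * L) := Real.log_le_log a2 a1
    have a4 : 0 ≤ Real.log (4 * L) := Real.log_nonneg (by linarith)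
    have a5 : c ≤ m := hc.trans (Nat.le_ceil _)
    calc Real.exp (c * Real.log (α N)) ≤ Real.exp (m * Real.log (4 * L)) := by
          refine Real.exp_le_exp.2 ?_
          exact (mul_le_mul_of_nonneg_left a3 hc0).trans (mul_le_mul_of_nonneg_right a5 a4)
      _ = (4 * L) ^ m := by rw [Real.exp_nat_mul, Real.exp_log (by linarith)]
  have hE1 := hlogα C1 (le_max_left _ _) (by linarith)
  have hE2 := hlogα C2 (le_max_right _ _) (by linarith)
  set E1 := Real.exp (C1 * Real.log (α N)) with hE1d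
  set E2 := Real.exp (C2 * Real.log (α N)) with hE2d
  have hE10 : 0 < E1 := Real.exp_pos _
  have hE20 : 0 < E2 := Real.exp_pos _
  -- bounded measurable functions
  obtain ⟨Cb, hCb1, hCb⟩ := bds K
  have mpa : ∀ n, Measurable fun q : ℝ × ℝ => pa K α n q.1 q.2 := fun n => pa_meas K H n
  have mcv : ∀ n, Measurable fun q : ℝ × ℝ => CV α n q.1 q.2 := fun n => (cv_cont α n).measurable
  have mpb1 : ∀ n, Measurable fun q : ℝ × ℝ => pb K α n q.1 := fun n => (pb_meas K H n).comp measurable_fst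
  have mpb2 : ∀ n, Measurable fun q : ℝ × ℝ => pb K α n q.2 := fun n => (pb_meas K H n).comp measurable_snd
  set G : ℕ → ℝ := fun n => Real.exp (Cb * Real.exp (-α n)) with hG
  have bpa : ∀ n (q : ℝ × ℝ), |pa K α n q.1 q.2| ≤ G n := fun n q => (hCb α H n q.1 q.2).2.2.2.1
  have bpb : ∀ n (t : ℝ), |pb K α n t| ≤ G n := fun n t => (hCb α H n t t).2.2.2.2.1
  have bpd : ∀ n, |pd K α n| ≤ G n := fun n => (hCb α H n 0 0).2.2.2.2.2.1
  set PG := ∏ n ∈ Finset.range N, G n with hPG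
  have bprod : ∀ a : ℕ → ℝ, (∀ n, |a n| ≤ G n) → |∏ n ∈ Finset.range N, a n| ≤ PG := by
    intro a ha
    rw [Finset.abs_prod]
    exact Finset.prod_le_prod (fun n _ => abs_nonneg _) fun n _ => ha n
  set A1 : ℝ × ℝ → ℝ := fun q => |∏ n ∈ Finset.range N, pa K α n q.1 q.2 - ∏ n ∈ Finset.range N, pd K α n| with hA1
  set S2 : ℝ × ℝ → ℝ := fun q => (∑ n ∈ Finset.Ico n1 N, CV α n q.1 q.2) ^ 2 with hS2
  set V : ℕ → ℝ × ℝ → ℝ := fun n q => |pa K α n q.1 q.2 - pd K α n| with hV
  have mV : ∀ n, Measurable (V n) := fun n => ((mpa n).sub_const _).abs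
  have bV : ∀ n q, |V n q| ≤ G n + G n := fun n q => by
    simp only [hV]
    rw [abs_abs]; exact (abs_sub _ _).trans (add_le_add (bpa n q) (bpd n))
  have mS2 : Measurable S2 := (Finset.measurable_fun_sum _ fun n _ => mcv n).pow_const 2
  have bS2 : ∀ q, |S2 q| ≤ (∑ n ∈ Finset.Ico n1 N, (1:ℝ)) ^ 2 := by
    intro q
    simp only [hS2]
    rw [abs_pow]
    refine pow_le_pow_left₀ (abs_nonneg _) ?_ 2
    refine (Finset.abs_sum_le_sum_abs _ _).trans (Finset.sum_le_sum fun n _ => ?_)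
    exact (cv_le H n q.1 q.2).trans (Real.exp_le_one_iff.2 (by linarith [H.four_le n]))
  -- the integrals
  have jV : ∀ n, n < n1 → ∫ q, V n q ∂(bm A A') ≤ |C3| * (L * X ^ 18) := by
    intro n hn
    rw [← it_eq (mV n) (bV n) hAA]
    have h3' := h3 α H n T A A' hT2 hTA hAA hA2
    have e3 : ∫ t in A..A', ∫ t' in A..A', V n (t, t') ≤ C3 * (T * Real.log T * Real.exp (α n)) := by
      simp only [hV]
      unfold pa pd
      exact h3'
    refine e3.trans ?_
    calc C3 * (T * L * Real.exp (α n)) ≤ |C3| * (T * L * Real.exp (α n)) :=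
          mul_le_mul_of_nonneg_right (le_abs_self _) (by positivity)
      _ ≤ |C3| * (T * L * X ^ 2) := by
          refine mul_le_mul_of_nonneg_left (mul_le_mul_of_nonneg_left (hαX n hn) ?_) (abs_nonneg _)
          exact mul_nonneg hT0.le (by linarith)
      _ = _ := by rw [hTX]; ring
  have jS : ∫ q, S2 q ∂(bm A A') ≤ |C5| * ((4 * L) ^ 4 * (2 * X ^ 30)) := by
    rw [← it_eq mS2 bS2 hAA]
    refine (h5 α H n1 N hnN T A A' hT2 hTA hAA hA2).trans ?_
    have e1 : T ^ 2 * Real.exp (-α n1) ≤ X ^ 30 := by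
      calc T ^ 2 * Real.exp (-α n1) ≤ T ^ 2 * (X ^ 2)⁻¹ := mul_le_mul_of_nonneg_left hx2 (by positivity)
        _ = X ^ 30 := by rw [hTX]; field_simp
    have e2 : T ≤ X ^ 30 := by rw [hTX]; exact pow_le_pow_right₀ hX1 (by norm_num)
    have e3 : (1 + α N) ^ 4 ≤ (4 * L) ^ 4 := pow_le_pow_left₀ (by linarith [H.four_le N]) (by linarith) 4
    calc C5 * ((1 + α N) ^ 4 * (T ^ 2 * Real.exp (-α n1) + T)) ≤
          |C5| * ((1 + α N) ^ 4 * (T ^ 2 * Real.exp (-α n1) + T)) := by
            refine mul_le_mul_of_nonneg_right (le_abs_self _) (mul_nonneg ?_ (by positivity))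
            exact pow_nonneg (by linarith [H.four_le N]) 4
      _ ≤ _ := by
          refine mul_le_mul_of_nonneg_left (mul_le_mul e3 (by linarith) (by positivity) (by positivity)) (abs_nonneg _)
  -- the pair part
  have hX2 : (A' - A) ^ 2 ≤ X ^ 32 := by
    have : A' - A ≤ T := by linarith
    calc (A' - A) ^ 2 ≤ T ^ 2 := pow_le_pow_left₀ (by linarith) this 2
      _ = X ^ 32 := by rw [hTX]; ring
  have iV : ∀ n, Integrable (V n) (bm A A') := fun n => bm_intg (mV n) (bV n) A A'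
  have iS : Integrable S2 (bm A A') := bm_intg mS2 bS2 A A'
  have ic : ∀ c : ℝ, Integrable (fun _ : ℝ × ℝ => c) (bm A A') := fun c =>
    bm_intg measurable_const (B := |c|) (fun _ => le_rfl) A A'
  have hXi : 0 < X⁻¹ := inv_pos.2 hX0
  have pwA : ∀ q, A1 q ≤ E1 * (((∑ n ∈ Finset.range n1, V n q) + (Real.exp (-(α n1 / 2)) + X⁻¹)) + S2 q * X) := by
    intro q
    have := h1 α H n1 N hnN q.1 q.2 X⁻¹ hXi
    refine this.trans (le_of_eq ?_)
    simp only [hV, hS2]
    rw [div_inv_eq_mul]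
    ring
  have iA : Integrable (fun q => E1 * (((∑ n ∈ Finset.range n1, V n q) + (Real.exp (-(α n1 / 2)) + X⁻¹)) + S2 q * X))
      (bm A A') :=
    (((integrable_finsetSum _ fun n _ => iV n).add (ic _)).add (iS.mul_const X)).const_mul E1
  have mA1 : Measurable A1 := ((Finset.measurable_fun_prod _ fun n _ => mpa n).sub_const _).abs
  have bA1 : ∀ q, |A1 q| ≤ PG + PG := fun q => by
    simp only [hA1]
    rw [abs_abs]
    exact (abs_sub _ _).trans (add_le_add (bprod _ fun n => bpa n q) (bprod _ bpd))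
  have iA1 : Integrable A1 (bm A A') := bm_intg mA1 bA1 A A'
  have JA : ∫ q, A1 q ∂(bm A A') ≤ (4 * L) ^ (m + 4) * (3 * |C3| + 2 + 2 * |C5|) * X ^ 31 := by
    calc ∫ q, A1 q ∂(bm A A') ≤ ∫ q, E1 * (((∑ n ∈ Finset.range n1, V n q) + (Real.exp (-(α n1 / 2)) + X⁻¹)) + S2 q * X)
            ∂(bm A A') := integral_mono iA1 iA pwA
      _ = E1 * ((∑ n ∈ Finset.range n1, ∫ q, V n q ∂(bm A A')) + (A' - A) ^ 2 * (Real.exp (-(α n1 / 2)) + X⁻¹) +
            (∫ q, S2 q ∂(bm A A')) * X) := by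
          have i1 : Integrable (fun q => ∑ n ∈ Finset.range n1, V n q) (bm A A') := integrable_finsetSum _ fun n _ => iV n
          have i2 : Integrable (fun q => (∑ n ∈ Finset.range n1, V n q) + (Real.exp (-(α n1 / 2)) + X⁻¹)) (bm A A') :=
            i1.add (ic _)
          rw [integral_const_mul, integral_add i2 (iS.mul_const X), integral_add i1 (ic _), integral_mul_const,
            bm_const _ _ _ hAA, integral_finsetSum _ fun n _ => iV n]
      _ ≤ (4 * L) ^ m * (3 * X ^ 2 * (|C3| * (L * X ^ 18)) + X ^ 32 * (X⁻¹ + X⁻¹) +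
            |C5| * ((4 * L) ^ 4 * (2 * X ^ 30)) * X) := by
          have hs : ∑ n ∈ Finset.range n1, ∫ q, V n q ∂(bm A A') ≤ 3 * X ^ 2 * (|C3| * (L * X ^ 18)) := by
            calc _ ≤ ∑ n ∈ Finset.range n1, |C3| * (L * X ^ 18) :=
                  Finset.sum_le_sum fun n hn => jV n (Finset.mem_range.1 hn)
              _ = n1 * (|C3| * (L * X ^ 18)) := by rw [Finset.sum_const, Finset.card_range, nsmul_eq_mul]
              _ ≤ _ := mul_le_mul_of_nonneg_right hn1X (by
                  have : 0 ≤ L := by linarith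
                  positivity)
          have hc : (A' - A) ^ 2 * (Real.exp (-(α n1 / 2)) + X⁻¹) ≤ X ^ 32 * (X⁻¹ + X⁻¹) :=
            mul_le_mul hX2 (by linarith) (by positivity) (by positivity)
          have h0 : 0 ≤ (∑ n ∈ Finset.range n1, ∫ q, V n q ∂(bm A A')) + (A' - A) ^ 2 * (Real.exp (-(α n1 / 2)) + X⁻¹) +
            (∫ q, S2 q ∂(bm A A')) * X := by
            have z1 : 0 ≤ ∑ n ∈ Finset.range n1, ∫ q, V n q ∂(bm A A') := Finset.sum_nonneg fun n _ =>
              integral_nonneg fun q => abs_nonneg _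
            have z2 : 0 ≤ ∫ q, S2 q ∂(bm A A') := integral_nonneg fun q => sq_nonneg _
            positivity
          refine mul_le_mul hE1 ?_ h0 (by
            have : 0 ≤ L := by linarith
            positivity)
          exact add_le_add (add_le_add hs hc) (mul_le_mul_of_nonneg_right jS hX0.le)
      _ ≤ (4 * L) ^ (m + 4) * (3 * |C3| + 2 + 2 * |C5|) * X ^ 31 := by
          have l0 : 1 ≤ 4 * L := by linarith
          have l1 : L ≤ (4 * L) ^ 4 := by
            calc L ≤ 4 * L := by linarith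
              _ = (4 * L) ^ 1 := (pow_one _).symm
              _ ≤ (4 * L) ^ 4 := pow_le_pow_right₀ l0 (by norm_num)
          have l2 : 1 ≤ (4 * L) ^ 4 := one_le_pow₀ l0
          have x1 : X ^ 20 ≤ X ^ 31 := pow_le_pow_right₀ hX1 (by norm_num)
          have x2 : X ^ 32 * (X⁻¹ + X⁻¹) = 2 * X ^ 31 := by field_simp; ring
          rw [pow_add, mul_assoc ((4 * L) ^ m * (4 * L) ^ 4), mul_assoc ((4 * L) ^ m)]
          refine mul_le_mul_of_nonneg_left ?_ (by positivity)
          rw [x2]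
          have c3 := abs_nonneg C3
          have y1 : 3 * X ^ 2 * (|C3| * (L * X ^ 18)) ≤ (4 * L) ^ 4 * (3 * |C3| * X ^ 31) := by
            calc 3 * X ^ 2 * (|C3| * (L * X ^ 18)) = 3 * |C3| * (L * X ^ 20) := by ring
              _ ≤ 3 * |C3| * ((4 * L) ^ 4 * X ^ 31) :=
                mul_le_mul_of_nonneg_left (mul_le_mul l1 x1 (by positivity) (by positivity)) (by positivity)
              _ = _ := by ring
          have y2 : 2 * X ^ 31 ≤ (4 * L) ^ 4 * (2 * X ^ 31) := le_mul_of_one_le_left (by positivity) l2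
          calc _ ≤ (4 * L) ^ 4 * (3 * |C3| * X ^ 31) + (4 * L) ^ 4 * (2 * X ^ 31) +
                |C5| * ((4 * L) ^ 4 * (2 * X ^ 30)) * X := by linarith
            _ = _ := by ring
  -- the mixed part
  have pwB : ∀ t, A < t → |∏ n ∈ Finset.range N, pb K α n t - ∏ n ∈ Finset.range N, pd K α n| ≤
      (4 * L) ^ m * ((3 * |C4| + 1) * X⁻¹) := by
    intro t ht
    have ht0 : 0 < t := by linarith
    refine (h2 α H n1 N hnN t).trans ?_
    have s1 : ∑ n ∈ Finset.range n1, |pb K α n t - pd K α n| ≤ 3 * |C4| * X⁻¹ := by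
      calc ∑ n ∈ Finset.range n1, |pb K α n t - pd K α n| ≤ ∑ n ∈ Finset.range n1, |C4| * (X ^ 2 / X ^ 16) := by
            refine Finset.sum_le_sum fun n hn => ?_
            have := h4 α H n t (by linarith)
            have e : |pb K α n t - pd K α n| ≤ C4 * (Real.exp (α n) / t) := by
              unfold pb pd; exact this
            refine e.trans ?_
            calc C4 * (Real.exp (α n) / t) ≤ |C4| * (Real.exp (α n) / t) :=
                  mul_le_mul_of_nonneg_right (le_abs_self _) (by positivity)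
              _ ≤ _ := by
                  refine mul_le_mul_of_nonneg_left ?_ (abs_nonneg _)
                  rw [← hTX]
                  exact div_le_div₀ (by positivity) (hαX n (Finset.mem_range.1 hn)) hT0 (by linarith)
        _ = n1 * (|C4| * (X ^ 2 / X ^ 16)) := by rw [Finset.sum_const, Finset.card_range, nsmul_eq_mul]
        _ ≤ 3 * X ^ 2 * (|C4| * (X ^ 2 / X ^ 16)) := mul_le_mul_of_nonneg_right hn1X (by positivity)
        _ = 3 * |C4| * (X ^ 4 / X ^ 16) := by ring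
        _ ≤ 3 * |C4| * X⁻¹ := by
            refine mul_le_mul_of_nonneg_left ?_ (by positivity)
            rw [div_le_iff₀ (by positivity)]
            have : X⁻¹ * X ^ 16 = X ^ 15 := by field_simp
            rw [this]
            exact pow_le_pow_right₀ hX1 (by norm_num)
    have h0 : 0 ≤ ∑ n ∈ Finset.range n1, |pb K α n t - pd K α n| := Finset.sum_nonneg fun n _ => abs_nonneg _
    refine mul_le_mul hE2 ?_ (by positivity) (by
      have : 0 ≤ L := by linarith
      positivity)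
    linarith
  -- conclusion
  rw [sq_id K H N hAA]
  have mF : Measurable fun q : ℝ × ℝ => ∏ n ∈ Finset.range N, pa K α n q.1 q.2 - ∏ n ∈ Finset.range N, pb K α n q.1 -
      ∏ n ∈ Finset.range N, pb K α n q.2 + ∏ n ∈ Finset.range N, pd K α n :=
    (((Finset.measurable_fun_prod _ fun n _ => mpa n).sub (Finset.measurable_fun_prod _ fun n _ => mpb1 n)).sub
      (Finset.measurable_fun_prod _ fun n _ => mpb2 n)).add_const _
  have bF : ∀ q : ℝ × ℝ, |∏ n ∈ Finset.range N, pa K α n q.1 q.2 - ∏ n ∈ Finset.range N, pb K α n q.1 -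
      ∏ n ∈ Finset.range N, pb K α n q.2 + ∏ n ∈ Finset.range N, pd K α n| ≤ PG + PG + PG + PG := by
    intro q
    have b1 := bprod _ fun n => bpa n q
    have b2 := bprod _ fun n => bpb n q.1
    have b3 := bprod _ fun n => bpb n q.2
    have b4 := bprod _ bpd
    rw [abs_le] at b1 b2 b3 b4 ⊢
    constructor <;> linarith [b1.1, b1.2, b2.1, b2.2, b3.1, b3.2, b4.1, b4.2]
  rw [it_eq mF bF hAA]
  set Z : ℝ := (4 * L) ^ m * ((3 * |C4| + 1) * X⁻¹) with hZ
  have hfin : ∫ q, (∏ n ∈ Finset.range N, pa K α n q.1 q.2 - ∏ n ∈ Finset.range N, pb K α n q.1 -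
      ∏ n ∈ Finset.range N, pb K α n q.2 + ∏ n ∈ Finset.range N, pd K α n) ∂(bm A A') ≤
      ∫ q, (A1 q + 2 * Z) ∂(bm A A') := by
    refine integral_mono_ae (bm_intg mF bF A A') (iA1.add (ic _)) ?_
    filter_upwards [bm_mem A A'] with q hq
    have p1 := pwB q.1 hq.1.1
    have p2 := pwB q.2 hq.2.1
    rw [abs_le] at p1 p2
    have p3 : ∏ n ∈ Finset.range N, pa K α n q.1 q.2 - ∏ n ∈ Finset.range N, pd K α n ≤ A1 q := le_abs_self _
    linarith [p1.1, p2.1]
  refine hfin.trans ?_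
  rw [integral_add iA1 (ic _), bm_const _ _ _ hAA]
  have hZ0 : 0 ≤ Z := by
    have : 0 ≤ L := by linarith
    positivity
  have l0 : 1 ≤ 4 * L := by linarith
  have hZ2 : (A' - A) ^ 2 * (2 * Z) ≤ (4 * L) ^ (m + 4) * (2 * (3 * |C4| + 1)) * X ^ 31 := by
    calc (A' - A) ^ 2 * (2 * Z) ≤ X ^ 32 * (2 * Z) := mul_le_mul_of_nonneg_right hX2 (by linarith)
      _ = (4 * L) ^ m * (2 * (3 * |C4| + 1)) * X ^ 31 := by rw [hZ]; field_simp
      _ ≤ (4 * L) ^ (m + 4) * (2 * (3 * |C4| + 1)) * X ^ 31 := by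
          have : (4 * L) ^ m ≤ (4 * L) ^ (m + 4) := pow_le_pow_right₀ l0 (by omega)
          gcongr
  have hX31 : T ^ 2 * Real.exp (-(L / 16)) = X ^ 31 := by
    rw [Real.exp_neg, ← hX, hTX]; field_simp
  rw [hX31]
  calc (∫ q, A1 q ∂(bm A A')) + (A' - A) ^ 2 * (2 * Z) ≤
        (4 * L) ^ (m + 4) * (3 * |C3| + 2 + 2 * |C5|) * X ^ 31 + (4 * L) ^ (m + 4) * (2 * (3 * |C4| + 1)) * X ^ 31 :=
        add_le_add JA hZ2
    _ = _ := by rw [mul_pow]; ring

end Pool.Agent.H41.KS
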